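import Pool.Agent.Helper4.RC.Lay

set_option autoImplicit false

/-!
Restrictions of cascade programs are cascade programs.

Proof sketch. `prog_restr`: `c' i b = c i (ez D i + ez T i * b)`; induction on `t` (`endSt` reads the
letter `i < t ≤ n`, where `ez D i = D i`). `lay_prog`: induction on `r` for all `c`: for `r + 1` take
`c₁ = restriction of c by (str (ρ 0).1, str (ρ 0).2)`, and the program for `c₁` and the other levels.
Better construct `c'` explicitly, so that it is the same for all `t ≤ n`.
`mean_prod`: `Fintype.sum_prod_type`, `Fintype.card_prod`.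
-/

namespace Helper4.RC

open Finset

/-- The transition maps of a cascade program. -/
def run {m w : ℕ} (c : ℕ → ZMod 2 → Instr m w) : ℕ → ZMod 2 → (Fin m → Fin w) → Fin m → Fin w :=
  fun i b => (c i b).act

/-- The first `t` bits of the strings. -/
def cut {Θ : Type} {n t : ℕ} (ht : t ≤ n) (str : Θ → Fin n → ZMod 2) : Θ → Fin t → ZMod 2 :=
  fun θ i => str θ (Fin.castLE ht i)

theorem prog_restr {m w n : ℕ} (c : ℕ → ZMod 2 → Instr m w) (D T : Fin n → ZMod 2) :
    ∃ c' : ℕ → ZMod 2 → Instr m w, ∀ (q : Fin m → Fin w) (t : ℕ) (ht : t ≤ n)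
      (x : Fin t → ZMod 2),
      endSt (run c) q t (fun i => D (Fin.castLE ht i) + T (Fin.castLE ht i) * x i) =
        endSt (run c') q t x := by
  refine ⟨fun i b => c i (ez D i + ez T i * b), ?_⟩
  intro q t
  induction t with
  | zero => intro _ _; rfl
  | succ t ih =>
    intro ht x
    have htn : t < n := ht
    have h1 := ih (Nat.le_of_succ_le ht) fun i => x i.castSucc
    have hD : ez D t = D (Fin.castLE ht (Fin.last t)) := by
      unfold ez
      rw [dif_pos htn]
      rfl
    have hT : ez T t = T (Fin.castLE ht (Fin.last t)) := by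
      unfold ez
      rw [dif_pos htn]
      rfl
    rw [endSt, endSt]
    have h2 : (endSt (run c) q t fun i : Fin t =>
        D (Fin.castLE ht i.castSucc) + T (Fin.castLE ht i.castSucc) * x i.castSucc) =
        endSt (run fun i b => c i (ez D i + ez T i * b)) q t fun i => x i.castSucc := h1
    rw [h2]
    show (c t (D (Fin.castLE ht (Fin.last t)) +
      T (Fin.castLE ht (Fin.last t)) * x (Fin.last t))).act _ =
      (c t (ez D t + ez T t * x (Fin.last t))).act _
    rw [hD, hT]

theorem lay_prog {Θ : Type} {m w n : ℕ} (str : Θ → Fin n → ZMod 2) (r : ℕ) (ρ : Fin r → Θ × Θ)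
    (c : ℕ → ZMod 2 → Instr m w) :
    ∃ c' : ℕ → ZMod 2 → Instr m w, ∀ (q : Fin m → Fin w) (t : ℕ) (ht : t ≤ n)
      (x : Fin t → ZMod 2),
      endSt (run c) q t (lay (cut ht str) r ρ x) = endSt (run c') q t x := by
  induction r generalizing c with
  | zero => exact ⟨c, fun q t ht x => rfl⟩
  | succ r ih =>
    obtain ⟨c₁, h₁⟩ := prog_restr c (str (ρ 0).1) (str (ρ 0).2)
    obtain ⟨c', h'⟩ := ih (fun j => ρ j.succ) c₁
    refine ⟨c', fun q t ht x => ?_⟩
    rw [← h' q t ht x, ← h₁ q t ht]
    rfl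

theorem mean_prod {A B : Type} [Fintype A] [Fintype B] (f : A × B → ℝ) :
    mean f = mean fun a => mean fun b => f (a, b) := by
  unfold mean
  rw [Fintype.sum_prod_type, Fintype.card_prod, ← Finset.sum_div, div_div, Nat.cast_mul, mul_comm]

theorem mean_le_mean {A : Type} [Fintype A] {f g : A → ℝ} (h : ∀ a, f a ≤ g a) :
    mean f ≤ mean g := by
  unfold mean
  exact div_le_div_of_nonneg_right (Finset.sum_le_sum fun a _ => h a) (Nat.cast_nonneg _)

theorem mean_sqrt_le {A : Type} [Fintype A] {f : A → ℝ} (h : ∀ a, 0 ≤ f a) :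
    (mean fun a => √(f a)) ≤ √(mean f) := by
  apply Real.le_sqrt_of_sq_le
  unfold mean
  have hcs : (∑ a, √(f a)) ^ 2 ≤ (Fintype.card A : ℝ) * ∑ a, f a := by
    have h1 := sq_sum_le_card_mul_sum_sq (s := (Finset.univ : Finset A)) (f := fun a => √(f a))
    rw [Finset.card_univ] at h1
    refine h1.trans (le_of_eq ?_)
    congr 1
    exact Finset.sum_congr rfl fun a _ => Real.sq_sqrt (h a)
  rcases Nat.eq_zero_or_pos (Fintype.card A) with h0 | h0
  · rw [h0]
    simp
  · have hN : (0 : ℝ) < Fintype.card A := Nat.cast_pos.2 h0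
    rw [div_pow, div_le_div_iff₀ (pow_pos hN 2) hN]
    calc (∑ a, √(f a)) ^ 2 * (Fintype.card A : ℝ)
        ≤ ((Fintype.card A : ℝ) * ∑ a, f a) * (Fintype.card A : ℝ) :=
          mul_le_mul_of_nonneg_right hcs hN.le
      _ = (∑ a, f a) * (Fintype.card A : ℝ) ^ 2 := by ring

end Helper4.RC
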