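import Mathlib

set_option autoImplicit false

/-!
Alternating combinations of powers: the probability that `l` throws hit `k` given cells of
probability `q` each.

Proof sketch. `hk 0 l q = 1`, `hk (k+1) 0 q = 0` (`Int.alternating_sum_range_choose`), and
`hk (k+1) (l+1) q = (1 - (k+1) q) * hk (k+1) l q + (k+1) q * hk k l q`: write
`1 - a q = (1 - (k+1) q) + (k+1-a) q` and use `(k+1-a) * (k+1).choose a = (k+1) * k.choose a`
(for `a ≤ k`; `Nat.succ_mul_choose_eq`-type identities), the term `a = k+1` vanishes.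
`hk_zero`: induction on `l` with this recursion. For `(k+1) q ≤ 1` (all lower `k` too):
`hk_nonneg`: induction on `l`. `hk_le`: induction on `l`,
`hk (k+1) (l+1) ≤ hk (k+1) l + (k+1) q hk k l ≤ (k+1)! q^(k+1) (l.choose (k+1) + l.choose k)`.
Antitone in `k`: `hk (k+1) l q ≤ hk k l q` for `(k+1) q ≤ 1`, by induction on `l`:
`hk (k+1) (l+1) - hk (k+2) (l+1) = (1 - (k+1)q - (k+2)q) hk (k+1) l + (k+1) q hk k l - (1 - (k+2) q) hk (k+2) l
≥ (1 - (k+2) q) (hk (k+1) l - hk (k+2) l) ≥ 0` and `hk 1 l ≤ 1 = hk 0 l` similarly.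
`hk_ge`: so `hk k (l+1) ≥ hk k l`, and `hk k k q = k! q^k` (recursion and `hk_zero`).
-/

namespace Helper4.RC

open Finset

/-- The alternating sum. -/
noncomputable def hk (k l : ℕ) (q : ℝ) : ℝ :=
  ∑ a ∈ range (k + 1), (-1) ^ a * (k.choose a : ℝ) * (1 - a * q) ^ l

private theorem hk_zero_left (l : ℕ) (q : ℝ) : hk 0 l q = 1 := by
  simp [hk]

private theorem hk_succ_zero (k : ℕ) (q : ℝ) : hk (k + 1) 0 q = 0 := by
  have h := Int.alternating_sum_range_choose (n := k + 1)
  have h' : (∑ a ∈ range (k + 1 + 1), (-1 : ℝ) ^ a * ((k + 1).choose a : ℝ)) = 0 := by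
    have := congrArg (fun z : ℤ => (z : ℝ)) h
    simpa using this
  simpa [hk] using h'

private theorem hk_rec (k l : ℕ) (q : ℝ) :
    hk (k + 1) (l + 1) q = (1 - (k + 1) * q) * hk (k + 1) l q + (k + 1) * q * hk k l q := by
  have h1 : hk (k + 1) (l + 1) q = (1 - (k + 1) * q) * hk (k + 1) l q +
      q * ∑ a ∈ range (k + 1 + 1), (-1) ^ a * (((k : ℝ) + 1 - a) * ((k + 1).choose a : ℝ)) *
        (1 - a * q) ^ l := by
    unfold hk
    rw [mul_sum, mul_sum, ← sum_add_distrib]
    refine sum_congr rfl fun a _ => ?_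
    ring
  have h2 : ∑ a ∈ range (k + 1 + 1), (-1 : ℝ) ^ a * (((k : ℝ) + 1 - a) * ((k + 1).choose a : ℝ)) *
        (1 - a * q) ^ l = (k + 1) * hk k l q := by
    rw [sum_range_succ]
    have hlast : (-1 : ℝ) ^ (k + 1) * (((k : ℝ) + 1 - ((k + 1 : ℕ) : ℝ)) *
        ((k + 1).choose (k + 1) : ℝ)) * (1 - ((k + 1 : ℕ) : ℝ) * q) ^ l = 0 := by
      push_cast
      ring
    rw [hlast, add_zero]
    unfold hk
    rw [mul_sum]
    refine sum_congr rfl fun a ha => ?_
    have hak : a ≤ k := Nat.lt_succ_iff.mp (mem_range.mp ha)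
    have h3 : ((k : ℝ) + 1 - a) * ((k + 1).choose a : ℝ) = (k + 1) * (k.choose a : ℝ) := by
      have h4 := Nat.choose_mul_succ_eq k a
      have h5 : ((k.choose a : ℕ) : ℝ) * ((k + 1 : ℕ) : ℝ) =
          (((k + 1).choose a : ℕ) : ℝ) * ((k + 1 - a : ℕ) : ℝ) := by exact_mod_cast h4
      rw [Nat.cast_sub (by omega)] at h5
      push_cast at h5
      linarith
    rw [h3]
    ring
  rw [h1, h2]
  ring

theorem hk_zero (k l : ℕ) (h : l < k) (q : ℝ) : hk k l q = 0 := by
  induction l generalizing k with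
  | zero =>
    obtain ⟨k, rfl⟩ : ∃ j, k = j + 1 := ⟨k - 1, by omega⟩
    exact hk_succ_zero k q
  | succ l ih =>
    obtain ⟨k, rfl⟩ : ∃ j, k = j + 1 := ⟨k - 1, by omega⟩
    rw [hk_rec, ih (k + 1) (by omega), ih k (by omega)]
    ring

theorem hk_nonneg (k l : ℕ) (q : ℝ) (h0 : 0 ≤ q) (h1 : k * q ≤ 1) : 0 ≤ hk k l q := by
  induction l generalizing k with
  | zero =>
    rcases k with _ | k
    · rw [hk_zero_left]; norm_num
    · rw [hk_succ_zero]
  | succ l ih =>
    rcases k with _ | k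
    · rw [hk_zero_left]; norm_num
    · rw [hk_rec]
      have h1' : ((k : ℝ) + 1) * q ≤ 1 := by exact_mod_cast h1
      have h2 : (k : ℝ) * q ≤ 1 := by nlinarith
      have h3 := ih (k + 1) h1
      have h4 := ih k h2
      have h5 : 0 ≤ 1 - ((k : ℝ) + 1) * q := by linarith
      positivity

private theorem hk_anti (k l : ℕ) (q : ℝ) (h0 : 0 ≤ q) (h1 : ((k : ℝ) + 1) * q ≤ 1) :
    hk (k + 1) l q ≤ hk k l q := by
  induction l generalizing k with
  | zero =>
    rw [hk_succ_zero]
    exact hk_nonneg k 0 q h0 (by nlinarith)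
  | succ l ih =>
    rcases k with _ | k
    · rw [hk_zero_left, hk_rec, hk_zero_left]
      have h2 := ih 0 h1
      rw [hk_zero_left] at h2
      simp only [Nat.cast_zero, zero_add, one_mul] at h1 ⊢
      simp only [zero_add] at h2
      nlinarith
    · rw [hk_rec (k + 1) l q, hk_rec k l q]
      have h1' : ((k : ℝ) + 1 + 1) * q ≤ 1 := by exact_mod_cast h1
      have h2 := ih (k + 1) h1
      have h3 := ih k (by nlinarith)
      push_cast
      have h4 : 0 ≤ (1 - ((k : ℝ) + 1 + 1) * q) * (hk (k + 1) l q - hk (k + 1 + 1) l q) :=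
        mul_nonneg (by linarith) (by linarith)
      have h5 : 0 ≤ ((k : ℝ) + 1) * q * (hk k l q - hk (k + 1) l q) :=
        mul_nonneg (by positivity) (by linarith)
      nlinarith

theorem hk_ge (k l : ℕ) (h : k ≤ l) (q : ℝ) (h0 : 0 ≤ q) (h1 : k * q ≤ 1) :
    k.factorial * q ^ k ≤ hk k l q := by
  have hd : ∀ k : ℕ, hk k k q = k.factorial * q ^ k := by
    intro k
    induction k with
    | zero => rw [hk_zero_left]; simp
    | succ k ih =>
      rw [hk_rec, hk_zero (k + 1) k (by omega), ih, Nat.factorial_succ]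
      push_cast
      ring
  induction l, h using Nat.le_induction with
  | base => exact (hd k).ge
  | succ l hl ih =>
    refine ih.trans ?_
    rcases k with _ | k
    · rw [hk_zero_left, hk_zero_left]
    · rw [hk_rec]
      have h1' : ((k : ℝ) + 1) * q ≤ 1 := by exact_mod_cast h1
      have h2 := hk_anti k l q h0 h1'
      have h3 : 0 ≤ ((k : ℝ) + 1) * q * (hk k l q - hk (k + 1) l q) :=
        mul_nonneg (by positivity) (by linarith)
      nlinarith

theorem hk_le (k l : ℕ) (q : ℝ) (h0 : 0 ≤ q) (h1 : k * q ≤ 1) :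
    hk k l q ≤ k.factorial * q ^ k * l.choose k := by
  induction l generalizing k with
  | zero =>
    rcases k with _ | k
    · rw [hk_zero_left]; simp
    · rw [hk_succ_zero]; simp
  | succ l ih =>
    rcases k with _ | k
    · rw [hk_zero_left]; simp
    · rw [hk_rec]
      have h1' : ((k : ℝ) + 1) * q ≤ 1 := by exact_mod_cast h1
      have h2 : (k : ℝ) * q ≤ 1 := by nlinarith
      have h3 := ih (k + 1) h1
      have h4 := ih k h2
      have h5 := hk_nonneg (k + 1) l q h0 h1
      have h6 : (1 - ((k : ℝ) + 1) * q) * hk (k + 1) l q ≤ hk (k + 1) l q := by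
        have : 0 ≤ ((k : ℝ) + 1) * q * hk (k + 1) l q := by positivity
        nlinarith
      have h7 : ((k : ℝ) + 1) * q * hk k l q ≤
          ((k : ℝ) + 1) * q * (k.factorial * q ^ k * l.choose k) :=
        mul_le_mul_of_nonneg_left h4 (by positivity)
      calc (1 - ((k : ℝ) + 1) * q) * hk (k + 1) l q + ((k : ℝ) + 1) * q * hk k l q
          ≤ ((k + 1).factorial : ℝ) * q ^ (k + 1) * (l.choose (k + 1) : ℝ) +
            ((k : ℝ) + 1) * q * (k.factorial * q ^ k * l.choose k) := by linarith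
        _ = ((k + 1).factorial : ℝ) * q ^ (k + 1) * ((l + 1).choose (k + 1) : ℝ) := by
            rw [Nat.choose_succ_succ, Nat.factorial_succ]
            push_cast
            ring

end Helper4.RC
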