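import Pool.Agent.Helper4.RC.Lay
import Pool.Agent.Helper4.RC.Interp

set_option autoImplicit false

/-!
The weight of level `k` after the restrictions, from noise stabilities.

Proof. Let `q = 1 / (2 k)`, `l = cnt nz χ`. For `u : (Fin n → ZMod 2) → ℝ` and `0 ≤ q'`, `k q' ≤ 1`:
`∑ χ, hk k l q' * (fc u χ)^2 = ∑ a ∈ range (k+1), (-1)^a * k.choose a * stab (1 - a q') u`.
For `g_ρ = fun x => g (lay str r ρ x)` (`hk_zero`, `hk_nonneg`, `hk_ge`):
`k! q^k * lv k g_ρ ≤ ∑ χ, hk k l q * (fc g_ρ χ)^2`. Take the mean over `ρ`; by the hypothesis for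
`z = 1 - a q ∈ [1/2, 1]` (`a ≤ k`), as `1 - (1 - z)/2^r = 1 - a (q / 2^r)`, and
`∑ a, k.choose a = 2^k`, the mean is at most
`∑ χ, hk k l (q / 2^r) * (fc g χ)^2 + 2^k E ≤ k! (q/2^r)^k ∑ χ, l.choose k * (fc g χ)^2 + 2^k E` (`hk_le`).
Divide by `k! q^k`; `2^k / (k! q^k) = (4 k)^k / k! ≤ 16^k` as `k^k / k! ≤ exp k ≤ 4^k`
(`Real.pow_div_factorial_le_exp`, `Real.exp_one_lt_d9`).
-/

namespace Helper4.RC

open Finset

/-- The weight of level `k`. -/
noncomputable def lv {n : ℕ} (k : ℕ) (g : (Fin n → ZMod 2) → ℝ) : ℝ :=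
  ∑ χ : Fin n → ZMod 2, if cnt nz χ = k then (fc g χ) ^ 2 else 0

private lemma mean_mono' {Ω : Type} [Fintype Ω] {f f' : Ω → ℝ} (h : ∀ x, f x ≤ f' x) :
    mean f ≤ mean f' := by
  unfold mean
  exact div_le_div_of_nonneg_right (Finset.sum_le_sum fun x _ => h x) (Nat.cast_nonneg _)

private lemma mean_sum' {Ω : Type} [Fintype Ω] (s : Finset ℕ) (c : ℕ → ℝ) (f : ℕ → Ω → ℝ) :
    (mean fun x => ∑ a ∈ s, c a * f a x) = ∑ a ∈ s, c a * mean (f a) := by
  unfold mean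
  rw [Finset.sum_comm, Finset.sum_div]
  refine Finset.sum_congr rfl fun a _ => ?_
  rw [← Finset.mul_sum, mul_div_assoc]

private lemma mean_mul' {Ω : Type} [Fintype Ω] (c : ℝ) (f : Ω → ℝ) :
    (mean fun x => c * f x) = c * mean f := by
  unfold mean
  rw [← Finset.mul_sum, mul_div_assoc]

private lemma sum_hk {n : ℕ} (k : ℕ) (q : ℝ) (u : (Fin n → ZMod 2) → ℝ) :
    ∑ χ : Fin n → ZMod 2, hk k (cnt nz χ) q * (fc u χ) ^ 2 =
      ∑ a ∈ range (k + 1), ((-1) ^ a * (k.choose a : ℝ)) * stab (1 - a * q) u := by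
  unfold hk stab
  simp only [Finset.sum_mul, Finset.mul_sum]
  rw [Finset.sum_comm]
  refine Finset.sum_congr rfl fun a _ => Finset.sum_congr rfl fun χ _ => ?_
  ring

private lemma lv_le {n : ℕ} (k : ℕ) (q : ℝ) (h0 : 0 ≤ q) (h1 : k * q ≤ 1)
    (u : (Fin n → ZMod 2) → ℝ) :
    (k.factorial * q ^ k) * lv k u ≤
      ∑ χ : Fin n → ZMod 2, hk k (cnt nz χ) q * (fc u χ) ^ 2 := by
  unfold lv
  rw [Finset.mul_sum]
  refine Finset.sum_le_sum fun χ _ => ?_
  split_ifs with h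
  · exact mul_le_mul_of_nonneg_right (hk_ge k _ h.ge q h0 h1) (sq_nonneg _)
  · rw [mul_zero]
    exact mul_nonneg (hk_nonneg k _ q h0 h1) (sq_nonneg _)

private lemma const_le (k : ℕ) (hk : 1 ≤ k) :
    (2 : ℝ) ^ k ≤ 16 ^ k * (k.factorial * (1 / (2 * (k : ℝ))) ^ k) := by
  have hk0 : (0 : ℝ) < k := by exact_mod_cast hk
  have h1 : (k : ℝ) ^ k / k.factorial ≤ Real.exp k := Real.pow_div_factorial_le_exp _ hk0.le k
  have h2 : Real.exp (k : ℝ) ≤ 4 ^ k := by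
    have h3 : Real.exp (k : ℝ) = Real.exp 1 ^ k := by
      rw [← Real.exp_nat_mul, mul_one]
    rw [h3]
    exact pow_le_pow_left₀ (Real.exp_pos 1).le (by linarith [Real.exp_one_lt_d9]) k
  have hf : (0 : ℝ) < k.factorial := by exact_mod_cast k.factorial_pos
  have h4 : (k : ℝ) ^ k ≤ 4 ^ k * k.factorial := by
    rw [div_le_iff₀ hf] at h1
    exact h1.trans (mul_le_mul_of_nonneg_right h2 hf.le)
  have h5 : (16 : ℝ) ^ k * (k.factorial * (1 / (2 * (k : ℝ))) ^ k) =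
      (2 : ℝ) ^ k * (4 ^ k * k.factorial) / (k : ℝ) ^ k := by
    have h16 : (16 : ℝ) ^ k = 2 ^ k * 4 ^ k * 2 ^ k := by
      rw [← mul_pow, ← mul_pow]
      norm_num
    rw [h16, one_div, mul_inv, mul_pow, inv_pow, inv_pow]
    have h2k : (2 : ℝ) ^ k ≠ 0 := by positivity
    have hkk : (k : ℝ) ^ k ≠ 0 := by positivity
    field_simp
  rw [h5, le_div_iff₀ (by positivity)]
  exact mul_le_mul_of_nonneg_left h4 (by positivity)

theorem tail {n : ℕ} {Θ : Type} [Fintype Θ] (str : Θ → Fin n → ZMod 2) (r : ℕ)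
    (g : (Fin n → ZMod 2) → ℝ) (E : ℝ) (k : ℕ) (hk : 1 ≤ k)
    (h : ∀ z : ℝ, 1 / 2 ≤ z → z ≤ 1 →
      |(mean fun ρ : Fin r → Θ × Θ => stab z fun x => g (lay str r ρ x)) -
        stab (1 - (1 - z) / 2 ^ r) g| ≤ E) :
    (mean fun ρ : Fin r → Θ × Θ => lv k fun x => g (lay str r ρ x)) ≤
      (1 / 2 ^ r) ^ k * (∑ χ : Fin n → ZMod 2, ((cnt nz χ).choose k : ℝ) * (fc g χ) ^ 2) +
        16 ^ k * E := by
  have hk0 : (0 : ℝ) < k := by exact_mod_cast hk
  have hE : 0 ≤ E := (abs_nonneg _).trans (h 1 (by norm_num) le_rfl)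
  set q : ℝ := 1 / (2 * (k : ℝ)) with hq
  have hq0 : 0 < q := by positivity
  have hkq : (k : ℝ) * q = 1 / 2 := by
    rw [hq]
    field_simp
  have hr : (0 : ℝ) < 2 ^ r := by positivity
  have hr1 : (1 : ℝ) ≤ 2 ^ r := one_le_pow₀ (by norm_num)
  have hq'0 : 0 ≤ q / 2 ^ r := by positivity
  have hq'1 : (k : ℝ) * (q / 2 ^ r) ≤ 1 := by
    rw [← mul_div_assoc, hkq, div_le_one hr]
    linarith
  have hc : 0 < (k.factorial : ℝ) * q ^ k := by
    have : (0 : ℝ) < k.factorial := by exact_mod_cast k.factorial_pos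
    positivity
  have h1 : ((k.factorial : ℝ) * q ^ k) *
      (mean fun ρ : Fin r → Θ × Θ => lv k fun x => g (lay str r ρ x)) ≤
      ∑ a ∈ range (k + 1), ((-1) ^ a * (k.choose a : ℝ)) *
        (mean fun ρ : Fin r → Θ × Θ => stab (1 - a * q) fun x => g (lay str r ρ x)) := by
    rw [← mean_mul', ← mean_sum']
    refine mean_mono' fun ρ => ?_
    rw [← sum_hk]
    exact lv_le k q hq0.le (by rw [hkq]; norm_num) _
  have h2 : ∑ a ∈ range (k + 1), ((-1) ^ a * (k.choose a : ℝ)) *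
        (mean fun ρ : Fin r → Θ × Θ => stab (1 - a * q) fun x => g (lay str r ρ x)) ≤
      ∑ a ∈ range (k + 1), (((-1) ^ a * (k.choose a : ℝ)) * stab (1 - a * (q / 2 ^ r)) g +
        (k.choose a : ℝ) * E) := by
    refine Finset.sum_le_sum fun a ha => ?_
    have hak : (a : ℝ) ≤ k := by
      exact_mod_cast Nat.lt_succ_iff.mp (Finset.mem_range.mp ha)
    have haq : (a : ℝ) * q ≤ 1 / 2 := by
      rw [← hkq]
      exact mul_le_mul_of_nonneg_right hak hq0.le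
    have haq0 : 0 ≤ (a : ℝ) * q := by positivity
    have h3 := h (1 - a * q) (by linarith) (by linarith)
    have h4 : 1 - (1 - (1 - (a : ℝ) * q)) / 2 ^ r = 1 - a * (q / 2 ^ r) := by ring
    rw [h4] at h3
    have h5 : |((-1 : ℝ) ^ a * (k.choose a : ℝ)) *
        ((mean fun ρ : Fin r → Θ × Θ => stab (1 - a * q) fun x => g (lay str r ρ x)) -
          stab (1 - a * (q / 2 ^ r)) g)| ≤ (k.choose a : ℝ) * E := by
      rw [abs_mul, abs_mul, abs_pow, abs_neg, abs_one, one_pow, one_mul, Nat.abs_cast]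
      exact mul_le_mul_of_nonneg_left h3 (Nat.cast_nonneg _)
    have h6 := (abs_le.mp h5).2
    linarith
  have h3 : ∑ a ∈ range (k + 1), (((-1) ^ a * (k.choose a : ℝ)) * stab (1 - a * (q / 2 ^ r)) g +
        (k.choose a : ℝ) * E) ≤
      ((k.factorial : ℝ) * (q / 2 ^ r) ^ k) *
        (∑ χ : Fin n → ZMod 2, ((cnt nz χ).choose k : ℝ) * (fc g χ) ^ 2) + 2 ^ k * E := by
    rw [Finset.sum_add_distrib, ← sum_hk, ← Finset.sum_mul]
    have h4 : (∑ a ∈ range (k + 1), (k.choose a : ℝ)) = 2 ^ k := by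
      exact_mod_cast Nat.sum_range_choose k
    rw [h4, Finset.mul_sum]
    have h5 : ∑ χ : Fin n → ZMod 2, Helper4.RC.hk k (cnt nz χ) (q / 2 ^ r) * (fc g χ) ^ 2 ≤
        ∑ χ : Fin n → ZMod 2, ((k.factorial : ℝ) * (q / 2 ^ r) ^ k) *
          (((cnt nz χ).choose k : ℝ) * (fc g χ) ^ 2) := by
      refine Finset.sum_le_sum fun χ _ => ?_
      rw [← mul_assoc]
      exact mul_le_mul_of_nonneg_right (hk_le k _ _ hq'0 hq'1) (sq_nonneg _)
    linarith
  have h4 : ((k.factorial : ℝ) * (q / 2 ^ r) ^ k) =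
      ((k.factorial : ℝ) * q ^ k) * (1 / 2 ^ r) ^ k := by
    rw [div_eq_mul_one_div q, mul_pow, mul_assoc]
  have h5 : (2 : ℝ) ^ k * E ≤ ((k.factorial : ℝ) * q ^ k) * (16 ^ k * E) := by
    have := mul_le_mul_of_nonneg_right (const_le k hk) hE
    rw [← hq] at this
    linarith
  rw [h4] at h3
  have h6 : ((k.factorial : ℝ) * q ^ k) *
      (mean fun ρ : Fin r → Θ × Θ => lv k fun x => g (lay str r ρ x)) ≤
      ((k.factorial : ℝ) * q ^ k) *
        ((1 / 2 ^ r) ^ k * (∑ χ : Fin n → ZMod 2, ((cnt nz χ).choose k : ℝ) * (fc g χ) ^ 2) +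
          16 ^ k * E) := by
    rw [mul_add, ← mul_assoc]
    linarith
  exact le_of_mul_le_mul_left h6 hc

end Helper4.RC
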