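import Pool.Agent.Helper4.RC.PairStep
import Pool.Agent.Helper4.RC.Tail
import Pool.Agent.Helper4.RC.Prog

set_option autoImplicit false

/-!
The hybrid argument for cascade programs: means, and the weight of level `k` of the indicators of
the states at all times.

Proof sketch. For `t ≤ n` let `𝒢` be the set of the functions
`fun x : Fin t → ZMod 2 => acc (endSt (run c) q t x)` with `acc` with `|acc| ≤ 1`, all `c`, `q`. It is
closed under restrictions (`prog_restr` with `n := t`, `Fin.castLE` the identity). `hybrid` with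
`str := cut ht str` (small bias: `biased_castLE`), `ε = eps1 (w^m) n Λ k' δ`: `hstep` is `pair_step` for
`n := t`, `k := k'` (`eps1_mono`; `hs`, `hN` restricted to `t ≤ n`; `Fintype.card (Fin m → Fin w) = w^m`).
`means`: `t = n`, `z = 1`, `acc` the indicator of `A`, `stab_one`, `ind^2 = ind`.
`tails`: `tail` with `E = r * ε` for `acc = ind (· = v)`, and
`∑ χ, (cnt nz χ).choose k * (fc g χ)^2 ≤ W L q mo (· = none) k t v ≤ 2 (2 Λ)^k` (`sk_le`, `W_mo_le`).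
Here `hN` for `k'` implies `hN` for `k ≤ k'` (the left side is monotone in `k` as the base is `≥ 1`
when `Λ ≥ 1`).
-/

namespace Helper4.RC

open Finset

section

variable {Θ : Type} [Fintype Θ] [Nonempty Θ]

private lemma card_regs (m w : ℕ) : Fintype.card (Fin m → Fin w) = w ^ m := by
  rw [Fintype.card_fun, Fintype.card_fin, Fintype.card_fin]

private lemma hN_mono {a b t n k k' N : ℕ} (hb : 1 ≤ 6 * b) (ht : t ≤ n) (hk : k ≤ k')
    (hN : k' * (6 * (b + n * a)) ^ k' * (2 * n) ≤ 2 ^ N) :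
    k * (6 * (b + t * a)) ^ k * (2 * t) ≤ 2 ^ N := by
  refine le_trans ?_ hN
  have h1 : 6 * (b + t * a) ≤ 6 * (b + n * a) :=
    Nat.mul_le_mul_left _ (Nat.add_le_add_left (Nat.mul_le_mul_right _ ht) _)
  have h2 : 0 < 6 * (b + n * a) := by
    have : 6 * b ≤ 6 * (b + n * a) := Nat.mul_le_mul_left _ (Nat.le_add_right _ _)
    omega
  refine Nat.mul_le_mul (Nat.mul_le_mul hk ?_) (Nat.mul_le_mul_left _ ht)
  exact (Nat.pow_le_pow_left h1 k).trans (Nat.pow_le_pow_right h2 hk)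

private lemma core (m w n Λ N k' r : ℕ) (hΛ : 1 ≤ Λ) (hk : 1 ≤ k')
    (hs : ∀ t ≤ n, ∀ (c : ℕ → ZMod 2 → Instr m w) (q : Fin m → Fin w),
      (bad (run c) q t Λ).card * 2 ^ N ≤ 2 ^ t)
    (hN : k' * (6 * (2 * Λ + n * (w ^ m) ^ 2)) ^ k' * (2 * n) ≤ 2 ^ N)
    (t : ℕ) (ht : t ≤ n) (str : Θ → Fin t → ZMod 2) (δ : ℝ) (hδ : 0 ≤ δ) (hstr : Biased str δ)
    (c : ℕ → ZMod 2 → Instr m w) (q : Fin m → Fin w) (acc : (Fin m → Fin w) → ℝ)
    (hacc : ∀ v, |acc v| ≤ 1) (z : ℝ) (h0 : 1 / 2 ≤ z) (h1 : z ≤ 1) :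
    |(mean fun ρ : Fin r → Θ × Θ => stab z fun x : Fin t → ZMod 2 =>
        acc (endSt (run c) q t (lay str r ρ x))) -
      stab (1 - (1 - z) / 2 ^ r) fun x : Fin t → ZMod 2 => acc (endSt (run c) q t x)| ≤
      r * eps1 ((w : ℝ) ^ m) n Λ k' δ := by
  refine hybrid str {g : (Fin t → ZMod 2) → ℝ | ∃ acc : (Fin m → Fin w) → ℝ,
      (∀ v, |acc v| ≤ 1) ∧ ∃ (c : ℕ → ZMod 2 → Instr m w) (q : Fin m → Fin w),
        g = fun x => acc (endSt (run c) q t x)} ?_ (eps1 ((w : ℝ) ^ m) n Λ k' δ) ?_ r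
    (fun x => acc (endSt (run c) q t x)) ⟨acc, hacc, c, q, rfl⟩ z h0 h1
  · rintro g ⟨acc, hacc, c, q, rfl⟩ D T
    obtain ⟨c', hc'⟩ := prog_restr (n := t) c D T
    refine ⟨acc, hacc, c', q, ?_⟩
    funext x
    exact congrArg acc (hc' q t le_rfl x)
  · rintro g ⟨acc, hacc, c, q, rfl⟩ z h0 h1
    have hc := card_regs m w
    have h2 := pair_step (run c) q acc hacc t Λ N k' hΛ hk
      (fun s hs' => hs s (hs'.trans ht) c q)
      (by rw [hc]; exact hN_mono (by omega) ht le_rfl hN) str δ hδ hstr z h0 h1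
    rw [hc] at h2
    push_cast at h2
    exact h2.trans (eps1_mono (by exact_mod_cast ht) k' δ)

theorem means (m w n Λ N k' r : ℕ) (hΛ : 1 ≤ Λ) (hk : 1 ≤ k')
    (hs : ∀ t ≤ n, ∀ (c : ℕ → ZMod 2 → Instr m w) (q : Fin m → Fin w),
      (bad (run c) q t Λ).card * 2 ^ N ≤ 2 ^ t)
    (hN : k' * (6 * (2 * Λ + n * (w ^ m) ^ 2)) ^ k' * (2 * n) ≤ 2 ^ N)
    (str : Θ → Fin n → ZMod 2) (δ : ℝ) (hδ : 0 ≤ δ) (hstr : Biased str δ)
    (c : ℕ → ZMod 2 → Instr m w) (q : Fin m → Fin w) (A : Set (Fin m → Fin w)) :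
    |(mean fun ρ : Fin r → Θ × Θ => mean fun x : Fin n → ZMod 2 =>
        ind (endSt (run c) q n (lay str r ρ x) ∈ A)) -
      mean fun x : Fin n → ZMod 2 => ind (endSt (run c) q n x ∈ A)| ≤
      r * eps1 ((w : ℝ) ^ m) n Λ k' δ := by
  have h := core m w n Λ N k' r hΛ hk hs hN n le_rfl str δ hδ hstr c q (fun v => ind (v ∈ A))
    (fun v => by rw [abs_of_nonneg (ind_nonneg _)]; exact ind_le_one _) 1 (by norm_num) le_rfl
  have h1 : (1 : ℝ) - (1 - 1) / 2 ^ r = 1 := by simp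
  have h2 : ∀ P : Prop, ind P ^ 2 = ind P := by
    intro P
    by_cases hP : P
    · rw [ind_true hP, one_pow]
    · rw [ind_false hP]
      norm_num
  rw [h1] at h
  simp only [stab_one, h2] at h
  exact h

theorem tails (m w n Λ N k k' r : ℕ) (hΛ : 1 ≤ Λ) (hk : 1 ≤ k) (hkk : k ≤ k')
    (hs : ∀ t ≤ n, ∀ (c : ℕ → ZMod 2 → Instr m w) (q : Fin m → Fin w),
      (bad (run c) q t Λ).card * 2 ^ N ≤ 2 ^ t)
    (hN : k' * (6 * (2 * Λ + n * (w ^ m) ^ 2)) ^ k' * (2 * n) ≤ 2 ^ N)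
    (str : Θ → Fin n → ZMod 2) (δ : ℝ) (hδ : 0 ≤ δ) (hstr : Biased str δ)
    (c : ℕ → ZMod 2 → Instr m w) (q : Fin m → Fin w) (t : ℕ) (ht : t ≤ n)
    (v : Fin m → Fin w) :
    (mean fun ρ : Fin r → Θ × Θ => lv k fun x : Fin t → ZMod 2 =>
        ind (endSt (run c) q t (lay (cut ht str) r ρ x) = v)) ≤
      (1 / 2 ^ r) ^ k * (2 * (2 * (Λ : ℝ)) ^ k) +
        16 ^ k * (r * eps1 ((w : ℝ) ^ m) n Λ k' δ) := by
  have hc := card_regs m w
  have hg : ∀ x : Fin t → ZMod 2, |ind (endSt (run c) q t x = v)| ≤ 1 := fun x => by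
    rw [abs_of_nonneg (ind_nonneg _)]
    exact ind_le_one _
  have h1 := tail (cut ht str) r (fun x => ind (endSt (run c) q t x = v))
    (r * eps1 ((w : ℝ) ^ m) n Λ k' δ) k hk (fun z h0 h1 =>
      core m w n Λ N k' r hΛ (hk.trans hkk) hs hN t ht (cut ht str) δ hδ (biased_castLE ht hstr) c q
        (fun u => ind (u = v)) (fun u => by
          rw [abs_of_nonneg (ind_nonneg _)]
          exact ind_le_one _) z h0 h1)
  refine h1.trans ?_
  have h2 := sk_le (fun x => ind (endSt (run c) q t x = v)) hg k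
  have h3 := W_mo_le (run c) q n Λ N k hΛ (fun s hs' => hs s hs' c q)
    (by rw [hc]; exact hN_mono (by omega) le_rfl hkk hN) k le_rfl t ht v
  have h4 : (0 : ℝ) ≤ (1 / 2 ^ r) ^ k := by positivity
  have h5 := mul_le_mul_of_nonneg_left (h2.trans h3) h4
  linarith

end

end Helper4.RC
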