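import Pool.Agent.Helper4.RC.Chars

set_option autoImplicit false

/-!
Fourier coefficients of functions of bits, and the derivative letters.

Proof sketch of `sk_le`. For `χ : Fin n → Option (ZMod 2)` let `D g χ = ∑ y, mw mo χ y * g y` and
`wt χ = ∏ i, (if χ i = none then 1 else 2)`. Identity, by induction on `n` for all `g`, `k`:
`∑ χ, (cnt nz χ).choose k * (fc g χ)^2 = ∑ χ, if cnt (· = none) χ = k then wt χ * (D g χ)^2 else 0`.
Step (`sum_cn`, `cnt_cn`, `mw_cn`): with `g_a = fun x => g (cn a x)`, the coefficients of `g` at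
`cn 0 χ` and `cn 1 χ` are `(fc g_0 χ + fc g_1 χ)/2` and `(fc g_0 χ - fc g_1 χ)/2`; with the binomial
recursion `(l+1).choose k = l.choose k + l.choose (k-1)` the left side is
`∑ χ, l.choose k * (fc g_0 χ^2 + fc g_1 χ^2)/2 + ∑ χ, l.choose (k-1) * (fc ((g_0 - g_1)/2) χ)^2`
(second term only for `k ≥ 1`), to be compared with the letters `some a` (`D g (cn (some a) χ) =
D g_a χ / 2`, weight `2`) and `none` (`D g (cn none χ) = D ((g_0 - g_1)/2) χ`, weight `1`).
Finally `wt χ * |D g χ| ≤ 1` for `|g| ≤ 1`, as `∑ y, |mw mo χ y| = ∏ i, ∑ a, |mo (χ i) a| = 1 / wt χ`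
(or by induction), so `wt χ * (D g χ)^2 ≤ |D g χ|`.
-/

namespace Helper4.RC

open Finset

/-- The letters `some b`: the bit is `b`; the letter `none`: half the difference of the values for
the bits `0` and `1`. -/
noncomputable def mo (κ : Option (ZMod 2)) (y : ZMod 2) : ℝ :=
  match κ with
  | some b => if y = b then 1 / 2 else 0
  | none => sg y / 2

/-- The Fourier coefficient of `g` at `χ`. -/
noncomputable def fc {n : ℕ} (g : (Fin n → ZMod 2) → ℝ) (χ : Fin n → ZMod 2) : ℝ :=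
  ∑ y : Fin n → ZMod 2, mw (fun κ y => e2 κ y / 2) χ y * g y

namespace SkAux

lemma zc (s : ZMod 2) : s = 0 ∨ s = 1 := by
  revert s; decide

lemma sg0 : sg 0 = 1 := by simp [sg]

lemma sg1 : sg 1 = -1 := by
  have h10 : (1 : ZMod 2) ≠ 0 := by decide
  simp [sg]

lemma abs_sg (y : ZMod 2) : |sg y| = 1 := by
  rcases zc y with rfl | rfl
  · rw [sg0, abs_one]
  · rw [sg1, abs_neg, abs_one]

lemma s2 (f : ZMod 2 → ℝ) : ∑ s, f s = f 0 + f 1 := Fin.sum_univ_two f

lemma s3 (f : Option (ZMod 2) → ℝ) : ∑ s, f s = f none + (f (some 0) + f (some 1)) := by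
  rw [Fintype.sum_option, s2]

end SkAux

open SkAux

theorem mo_letters : IsLetters (fun _ : ZMod 2 => (1 / 2 : ℝ)) mo (fun κ => κ = none) := by
  have h01 : (0 : ZMod 2) ≠ 1 := by decide
  have h10 : (1 : ZMod 2) ≠ 0 := by decide
  refine ⟨fun _ => by norm_num, by rw [s2]; norm_num, ?_, ?_, ?_, ?_⟩
  · intro κ hκ y
    cases κ with
    | none => exact absurd rfl hκ
    | some b =>
      show 0 ≤ (if y = b then (1 / 2 : ℝ) else 0)
      split_ifs <;> norm_num
  · intro y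
    rw [s3, ind_false (not_not.2 rfl), ind_true (by simp), ind_true (by simp)]
    show 0 * mo none y + (1 * (if y = 0 then (1 / 2 : ℝ) else 0) +
      1 * (if y = 1 then (1 / 2 : ℝ) else 0)) = 1 / 2
    rcases zc y with rfl | rfl
    · rw [if_pos rfl, if_neg h01]
      ring
    · rw [if_pos rfl, if_neg h10]
      ring
  · rintro κ rfl y
    show |sg y / 2| ≤ 1 / 2
    rw [abs_div, abs_sg]
    norm_num
  · rintro κ rfl
    show ∑ y, sg y / 2 = 0
    rw [s2, sg0, sg1]
    norm_num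

theorem sum_ind_none : ∑ κ : Option (ZMod 2), ind (κ = none) = 1 := by
  rw [s3, ind_true rfl, ind_false (by simp), ind_false (by simp)]
  norm_num

namespace SkAux

/-- The derivative coefficient. -/
noncomputable def dg {n : ℕ} (g : (Fin n → ZMod 2) → ℝ) (χ : Fin n → Option (ZMod 2)) : ℝ :=
  ∑ y, mw mo χ y * g y

/-- The weight of a word of derivative letters. -/
noncomputable def wt {n : ℕ} (χ : Fin n → Option (ZMod 2)) : ℝ :=
  ∏ i, (if χ i = none then (1 : ℝ) else 2)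

lemma wt_pos {n : ℕ} (χ : Fin n → Option (ZMod 2)) : 0 < wt χ := by
  unfold wt
  refine Finset.prod_pos fun i _ => ?_
  split_ifs <;> norm_num

lemma wt_cn {n : ℕ} (κ : Option (ZMod 2)) (χ : Fin n → Option (ZMod 2)) :
    wt (cn κ χ) = (if κ = none then (1 : ℝ) else 2) * wt χ := by
  unfold wt
  rw [Fin.prod_univ_succ]
  rfl

lemma fc_cn {n : ℕ} (g : (Fin (n + 1) → ZMod 2) → ℝ) (a : ZMod 2) (χ : Fin n → ZMod 2) :
    fc g (cn a χ) = e2 a 0 / 2 * fc (fun x => g (cn 0 x)) χ +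
      e2 a 1 / 2 * fc (fun x => g (cn 1 x)) χ := by
  unfold fc
  rw [sum_cn, s2]
  simp only [mw_cn]
  rw [Finset.mul_sum, Finset.mul_sum]
  congr 1
  · exact Finset.sum_congr rfl fun y _ => by ring
  · exact Finset.sum_congr rfl fun y _ => by ring

lemma dg_cn {n : ℕ} (g : (Fin (n + 1) → ZMod 2) → ℝ) (κ : Option (ZMod 2))
    (χ : Fin n → Option (ZMod 2)) :
    dg g (cn κ χ) = mo κ 0 * dg (fun x => g (cn 0 x)) χ +
      mo κ 1 * dg (fun x => g (cn 1 x)) χ := by
  unfold dg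
  rw [sum_cn, s2]
  simp only [mw_cn]
  rw [Finset.mul_sum, Finset.mul_sum]
  congr 1
  · exact Finset.sum_congr rfl fun y _ => by ring
  · exact Finset.sum_congr rfl fun y _ => by ring

lemma fc_sub {n : ℕ} (g h : (Fin n → ZMod 2) → ℝ) (χ : Fin n → ZMod 2) :
    fc (fun x => (g x - h x) / 2) χ = (fc g χ - fc h χ) / 2 := by
  unfold fc
  rw [← Finset.sum_sub_distrib, Finset.sum_div]
  exact Finset.sum_congr rfl fun y _ => by ring

lemma dg_sub {n : ℕ} (g h : (Fin n → ZMod 2) → ℝ) (χ : Fin n → Option (ZMod 2)) :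
    dg (fun x => (g x - h x) / 2) χ = (dg g χ - dg h χ) / 2 := by
  unfold dg
  rw [← Finset.sum_sub_distrib, Finset.sum_div]
  exact Finset.sum_congr rfl fun y _ => by ring

lemma mo_some (b a : ZMod 2) : mo (some b) a = if a = b then 1 / 2 else 0 := rfl

/-- The left side of the identity. -/
noncomputable def lh {n : ℕ} (g : (Fin n → ZMod 2) → ℝ) (k : ℕ) : ℝ :=
  ∑ χ : Fin n → ZMod 2, ((cnt nz χ).choose k : ℝ) * (fc g χ) ^ 2

/-- The right side of the identity. -/
noncomputable def rh {n : ℕ} (g : (Fin n → ZMod 2) → ℝ) (k : ℕ) : ℝ :=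
  ∑ χ : Fin n → Option (ZMod 2),
    if cnt (fun κ => κ = none) χ = k then wt χ * (dg g χ) ^ 2 else 0

lemma nz0 : ¬ nz (0 : ZMod 2) := by
  unfold nz
  simp

lemma nz1 : nz (1 : ZMod 2) := by
  unfold nz
  decide

lemma lh_succ {n : ℕ} (g : (Fin (n + 1) → ZMod 2) → ℝ) (k : ℕ) :
    lh g k = ∑ χ : Fin n → ZMod 2,
      (((cnt nz χ).choose k : ℝ) *
        ((fc (fun x => g (cn 0 x)) χ + fc (fun x => g (cn 1 x)) χ) / 2) ^ 2 +
      ((cnt nz χ + 1).choose k : ℝ) *
        ((fc (fun x => g (cn 0 x)) χ - fc (fun x => g (cn 1 x)) χ) / 2) ^ 2) := by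
  unfold lh
  rw [sum_cn, s2, ← Finset.sum_add_distrib]
  refine Finset.sum_congr rfl fun χ _ => ?_
  rw [cnt_cn, cnt_cn, nind_false nz0, nind_true nz1, fc_cn, fc_cn, zero_add, add_comm 1]
  have e00 : e2 0 0 = 1 := by unfold e2; rw [mul_zero, sg0]
  have e01 : e2 0 1 = 1 := by unfold e2; rw [zero_mul, sg0]
  have e10 : e2 1 0 = 1 := by unfold e2; rw [mul_zero, sg0]
  have e11 : e2 1 1 = -1 := by unfold e2; rw [mul_one, sg1]
  rw [e00, e01, e10, e11]
  ring

lemma rh_succ_zero {n : ℕ} (g : (Fin (n + 1) → ZMod 2) → ℝ) :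
    rh g 0 = (rh (fun x => g (cn 0 x)) 0 + rh (fun x => g (cn 1 x)) 0) / 2 := by
  have h01 : (0 : ZMod 2) ≠ 1 := by decide
  have h10 : (1 : ZMod 2) ≠ 0 := by decide
  unfold rh
  rw [sum_cn, s3, ← Finset.sum_add_distrib, ← Finset.sum_add_distrib, ← Finset.sum_add_distrib,
    Finset.sum_div]
  refine Finset.sum_congr rfl fun χ _ => ?_
  rw [cnt_cn, cnt_cn, cnt_cn, nind_true rfl, nind_false (by simp), nind_false (by simp),
    dg_cn, dg_cn, dg_cn, wt_cn, wt_cn, wt_cn, zero_add, if_neg (by omega)]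
  have m00 : mo (some 0) 0 = 1 / 2 := by rw [mo_some, if_pos rfl]
  have m01 : mo (some 0) 1 = 0 := by rw [mo_some, if_neg h10]
  have m10 : mo (some 1) 0 = 0 := by rw [mo_some, if_neg h01]
  have m11 : mo (some 1) 1 = 1 / 2 := by rw [mo_some, if_pos rfl]
  rw [m00, m01, m10, m11]
  by_cases hc : cnt (fun κ => κ = none) χ = 0
  · rw [if_pos hc, if_pos hc, if_pos hc, if_pos hc, if_neg (by simp), if_neg (by simp)]
    ring
  · rw [if_neg hc, if_neg hc, if_neg hc, if_neg hc]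
    ring

lemma rh_succ_succ {n : ℕ} (g : (Fin (n + 1) → ZMod 2) → ℝ) (k : ℕ) :
    rh g (k + 1) = (rh (fun x => g (cn 0 x)) (k + 1) + rh (fun x => g (cn 1 x)) (k + 1)) / 2 +
      rh (fun x => (g (cn 0 x) - g (cn 1 x)) / 2) k := by
  have h01 : (0 : ZMod 2) ≠ 1 := by decide
  have h10 : (1 : ZMod 2) ≠ 0 := by decide
  unfold rh
  rw [sum_cn, s3, ← Finset.sum_add_distrib, ← Finset.sum_add_distrib, ← Finset.sum_add_distrib,
    Finset.sum_div, ← Finset.sum_add_distrib]
  refine Finset.sum_congr rfl fun χ _ => ?_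
  rw [cnt_cn, cnt_cn, cnt_cn, nind_true rfl, nind_false (by simp), nind_false (by simp),
    dg_cn, dg_cn, dg_cn, wt_cn, wt_cn, wt_cn, zero_add,
    dg_sub (fun x => g (cn 0 x)) (fun x => g (cn 1 x)) χ]
  have m00 : mo (some 0) 0 = 1 / 2 := by rw [mo_some, if_pos rfl]
  have m01 : mo (some 0) 1 = 0 := by rw [mo_some, if_neg h10]
  have m10 : mo (some 1) 0 = 0 := by rw [mo_some, if_neg h01]
  have m11 : mo (some 1) 1 = 1 / 2 := by rw [mo_some, if_pos rfl]
  have n0 : mo none 0 = 1 / 2 := by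
    show sg 0 / 2 = 1 / 2
    rw [sg0]
  have n1 : mo none 1 = -(1 / 2) := by
    show sg 1 / 2 = -(1 / 2)
    rw [sg1]
    ring
  rw [m00, m01, m10, m11, n0, n1, if_neg (show ¬ ((some 0 : Option (ZMod 2)) = none) by simp),
    if_neg (show ¬ ((some 1 : Option (ZMod 2)) = none) by simp),
    if_pos (show (none : Option (ZMod 2)) = none from rfl)]
  by_cases hc : cnt (fun κ => κ = none) χ = k + 1
  · rw [if_neg (show ¬ (1 + cnt (fun κ => κ = none) χ = k + 1) by omega),
      if_pos hc, if_pos hc, if_pos hc, if_pos hc,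
      if_neg (show ¬ (cnt (fun κ => κ = none) χ = k) by omega)]
    ring
  · by_cases hk : cnt (fun κ => κ = none) χ = k
    · rw [if_pos (show 1 + cnt (fun κ => κ = none) χ = k + 1 by omega),
        if_neg hc, if_neg hc, if_neg hc, if_neg hc, if_pos hk]
      ring
    · rw [if_neg (show ¬ (1 + cnt (fun κ => κ = none) χ = k + 1) by omega),
        if_neg hc, if_neg hc, if_neg hc, if_neg hc, if_neg hk]
      ring

lemma lh_eq_rh {n : ℕ} : ∀ (g : (Fin n → ZMod 2) → ℝ) (k : ℕ), lh g k = rh g k := by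
  induction n with
  | zero =>
    intro g k
    have h1 : ∀ χ : Fin 0 → ZMod 2, fc g χ = g fun i => i.elim0 := by
      intro χ
      unfold fc
      rw [Fintype.sum_subsingleton _ (fun i : Fin 0 => (i.elim0 : ZMod 2))]
      simp [mw]
    have h2 : ∀ χ : Fin 0 → Option (ZMod 2), dg g χ = g fun i => i.elim0 := by
      intro χ
      unfold dg
      rw [Fintype.sum_subsingleton _ (fun i : Fin 0 => (i.elim0 : ZMod 2))]
      simp [mw]
    unfold lh rh
    rw [Fintype.sum_subsingleton _ (fun i : Fin 0 => (i.elim0 : ZMod 2)),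
      Fintype.sum_subsingleton _ (fun i : Fin 0 => (i.elim0 : Option (ZMod 2))), cnt_zero,
      cnt_zero, h1, h2]
    cases k with
    | zero => simp [wt]
    | succ k => simp
  | succ n ih =>
    intro g k
    rw [lh_succ]
    cases k with
    | zero =>
      rw [rh_succ_zero, ← ih, ← ih]
      unfold lh
      rw [← Finset.sum_add_distrib, Finset.sum_div]
      refine Finset.sum_congr rfl fun χ _ => ?_
      rw [Nat.choose_zero_right, Nat.choose_zero_right]
      push_cast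
      ring
    | succ k =>
      rw [rh_succ_succ, ← ih, ← ih, ← ih]
      unfold lh
      rw [← Finset.sum_add_distrib, Finset.sum_div, ← Finset.sum_add_distrib]
      refine Finset.sum_congr rfl fun χ _ => ?_
      rw [Nat.choose_succ_succ, fc_sub (fun x => g (cn 0 x)) (fun x => g (cn 1 x)) χ]
      push_cast
      ring

lemma sum_abs_mw {n : ℕ} (χ : Fin n → Option (ZMod 2)) :
    wt χ * ∑ y, |mw mo χ y| = 1 := by
  have h01 : (0 : ZMod 2) ≠ 1 := by decide
  have h10 : (1 : ZMod 2) ≠ 0 := by decide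
  have h1 := Finset.prod_univ_sum (fun _ : Fin n => (Finset.univ : Finset (ZMod 2)))
    (fun (i : Fin n) (s : ZMod 2) => |mo (χ i) s|)
  rw [Fintype.piFinset_univ] at h1
  have h2 : ∑ y, |mw mo χ y| = ∏ i, ∑ s, |mo (χ i) s| := by
    rw [h1]
    refine Finset.sum_congr rfl fun y _ => ?_
    unfold mw
    exact Finset.abs_prod _ _
  rw [h2]
  unfold wt
  rw [← Finset.prod_mul_distrib]
  refine Finset.prod_eq_one fun i _ => ?_
  rw [s2]
  cases χ i with
  | none =>
    have n0 : mo none 0 = 1 / 2 := by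
      show sg 0 / 2 = 1 / 2
      rw [sg0]
    have n1 : mo none 1 = -(1 / 2) := by
      show sg 1 / 2 = -(1 / 2)
      rw [sg1]
      ring
    rw [n0, n1, if_pos rfl, abs_neg, abs_of_pos (by norm_num : (0 : ℝ) < 1 / 2)]
    norm_num
  | some b =>
    rw [if_neg (by simp)]
    have m0 : mo (some b) 0 = if (0 : ZMod 2) = b then 1 / 2 else 0 := rfl
    have m1 : mo (some b) 1 = if (1 : ZMod 2) = b then 1 / 2 else 0 := rfl
    rw [m0, m1]
    rcases zc b with rfl | rfl
    · rw [if_pos rfl, if_neg h10, abs_zero, abs_of_pos (by norm_num : (0 : ℝ) < 1 / 2)]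
      norm_num
    · rw [if_pos rfl, if_neg h01, abs_zero, abs_of_pos (by norm_num : (0 : ℝ) < 1 / 2)]
      norm_num

lemma wt_dg_le {n : ℕ} (g : (Fin n → ZMod 2) → ℝ) (hg : ∀ x, |g x| ≤ 1)
    (χ : Fin n → Option (ZMod 2)) : wt χ * |dg g χ| ≤ 1 := by
  have h1 : |dg g χ| ≤ ∑ y, |mw mo χ y| := by
    unfold dg
    refine (Finset.abs_sum_le_sum_abs _ _).trans (Finset.sum_le_sum fun y _ => ?_)
    rw [abs_mul]
    exact mul_le_of_le_one_right (abs_nonneg _) (hg y)
  calc wt χ * |dg g χ| ≤ wt χ * ∑ y, |mw mo χ y| :=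
        mul_le_mul_of_nonneg_left h1 (wt_pos χ).le
    _ = 1 := sum_abs_mw χ

end SkAux

theorem sk_le {n : ℕ} (g : (Fin n → ZMod 2) → ℝ) (hg : ∀ x, |g x| ≤ 1) (k : ℕ) :
    ∑ χ : Fin n → ZMod 2, ((cnt nz χ).choose k : ℝ) * (fc g χ) ^ 2 ≤
      ∑ χ : Fin n → Option (ZMod 2),
        if cnt (fun κ => κ = none) χ = k then |∑ y, mw mo χ y * g y| else 0 := by
  have h := lh_eq_rh g k
  unfold lh rh at h
  rw [h]
  refine Finset.sum_le_sum fun χ _ => ?_
  by_cases hc : cnt (fun κ => κ = none) χ = k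
  · rw [if_pos hc, if_pos hc]
    have h1 := wt_dg_le g hg χ
    have h2 : (dg g χ) ^ 2 = |dg g χ| * |dg g χ| := by
      rw [← abs_mul, ← sq, abs_of_nonneg (sq_nonneg _)]
    show wt χ * (dg g χ) ^ 2 ≤ |dg g χ|
    rw [h2, ← mul_assoc]
    exact mul_le_of_le_one_left (abs_nonneg _) h1
  · rw [if_neg hc, if_neg hc]

end Helper4.RC
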