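import Pool.Agent.Helper4.RC.Chars

set_option autoImplicit false

/-!
The kernel for pairs of correlated runs.

Symbols `σ = (D, T)`, letters `y = (x, x')`: for `T = 0` both are `D`, for `T = 1` the pair has the
distribution `wz z`: `x` is uniform and `Pr[x' ≠ x] = (1 - z) / 2`.

Hints. All statements are about functions on the four elements of `ZMod 2 × ZMod 2`. Expand the sums
(`Fintype.sum_prod_type`, sums over `ZMod 2` as two terms: `Fin.sum_univ_two` via
`show ∑ t : Fin 2, _ = _`), evaluate `e4`, `cz`, `wz` at the 16 pairs. `kl_cz_zero`: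
`kl e4 (cz z) 0 (x, x') = (1/4) ([x = x'] + 2 wz z (x, x'))`. `site_pair`: with `q = (1 - z)/4 ≤ 1/8`,
`a_0, a_1, b_0, b_1` defined by `h (x, x + t) = a_t + b_t (-1)^x`, the squares are
`((1-q) a_0 + q a_1)^2` for `κ = 0`, `(b_0/2)^2` for `κ = (1,0)` and `(1,1)`, `(q (a_0 - a_1))^2` for
`κ = (0,1)`, and the right side is `(1-q)(a_0^2 + b_0^2) + q (a_1^2 + b_1^2)`; the difference of the
right and the left side is `(q (1-q) - (7/4) q^2)(a_0 - a_1)^2 + (1 - q - 7/8) b_0^2 + q b_1^2 ≥ 0`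
(in terms of the four values `h (x, x')`: `nlinarith`/`ring_nf` after substituting).
-/

namespace Helper4.RC

open Finset

/-- The distribution of a pair of `z`-correlated uniform bits. -/
noncomputable def wz (z : ℝ) (y : ZMod 2 × ZMod 2) : ℝ :=
  if y.1 = y.2 then (1 + z) / 4 else (1 - z) / 4

/-- The kernel for pairs. -/
noncomputable def cz (z : ℝ) (σ y : ZMod 2 × ZMod 2) : ℝ :=
  if σ.2 = 0 then (if y.1 = σ.1 ∧ y.2 = σ.1 then 1 else 0) else wz z y

/-- The kernel of the identity for bits. -/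
noncomputable def c2 (σ y : ZMod 2) : ℝ := if y = σ then 1 else 0

private lemma sum2 (f : ZMod 2 → ℝ) : ∑ t, f t = f 0 + f 1 := Fin.sum_univ_two f

private lemma sum4 (f : ZMod 2 × ZMod 2 → ℝ) :
    ∑ y, f y = f (0, 0) + f (0, 1) + f (1, 0) + f (1, 1) := by
  rw [Fintype.sum_prod_type, sum2, sum2, sum2]
  ring

private lemma sg0 : sg 0 = 1 := if_pos rfl

private lemma sg1 : sg 1 = -1 := if_neg (by decide)

private lemma two_cases (t : ZMod 2) : t = 0 ∨ t = 1 := by
  revert t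
  decide

private lemma one_ne : ¬ ((1 : ZMod 2) = 0) := by decide

private lemma zero_ne : ¬ ((0 : ZMod 2) = 1) := by decide

private lemma card4 : (Fintype.card (ZMod 2 × ZMod 2) : ℝ) = 4 := by
  have h : Fintype.card (ZMod 2 × ZMod 2) = 4 := by decide
  rw [h]
  norm_num

private lemma card2 : (Fintype.card (ZMod 2) : ℝ) = 2 := by
  have h : Fintype.card (ZMod 2) = 2 := by decide
  rw [h]
  norm_num

private lemma add11 : (1 : ZMod 2) + 1 = 0 := by decide

theorem isKer_cz (z : ℝ) (h0 : -1 ≤ z) (h1 : z ≤ 1) : IsKer (cz z) := by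
  refine ⟨fun σ y => ?_, fun σ => ?_⟩
  · unfold cz wz
    split_ifs <;> linarith
  · obtain ⟨a, b⟩ := σ
    rw [sum4]
    rcases two_cases a with rfl | rfl <;> rcases two_cases b with rfl | rfl <;>
      simp [cz, wz, one_ne, zero_ne] <;> ring

theorem isKer_c2 : IsKer c2 := by
  refine ⟨fun σ y => ?_, fun σ => ?_⟩
  · unfold c2
    split_ifs <;> norm_num
  · rw [sum2]
    rcases two_cases σ with rfl | rfl <;> simp [c2, one_ne, zero_ne]

private lemma klv (z : ℝ) (κ y : ZMod 2 × ZMod 2) :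
    kl e4 (cz z) κ y = (cz z (0, 0) y * e4 κ (0, 0) + cz z (0, 1) y * e4 κ (0, 1) +
      cz z (1, 0) y * e4 κ (1, 0) + cz z (1, 1) y * e4 κ (1, 1)) / 4 := by
  unfold kl
  rw [sum4, card4]

private lemma e4_00 (a b : ZMod 2) : e4 (0, 0) (a, b) = 1 := by
  simp [e4, sg]

private lemma e4_01 (a b : ZMod 2) : e4 (0, 1) (a, b) = sg b := by
  simp [e4]

private lemma e4_10 (a b : ZMod 2) : e4 (1, 0) (a, b) = sg a := by
  simp [e4]

private lemma e4_11 (a b : ZMod 2) : e4 (1, 1) (a, b) = sg (a + b) := by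
  simp [e4]

private lemma cz_0 (z : ℝ) (a x x' : ZMod 2) :
    cz z (a, 0) (x, x') = if x = a ∧ x' = a then 1 else 0 := by
  simp [cz]

private lemma cz_1 (z : ℝ) (a x x' : ZMod 2) :
    cz z (a, 1) (x, x') = if x = x' then (1 + z) / 4 else (1 - z) / 4 := by
  simp [cz, wz]

theorem kl_cz_zero (z : ℝ) (y : ZMod 2 × ZMod 2) : kl e4 (cz z) 0 y = wz ((1 + z) / 2) y := by
  obtain ⟨x, x'⟩ := y
  rw [klv]
  have h0 : (0 : ZMod 2 × ZMod 2) = (0, 0) := rfl
  rw [h0, e4_00, e4_00, e4_00, e4_00, cz_0, cz_0, cz_1, cz_1]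
  rcases two_cases x with rfl | rfl <;> rcases two_cases x' with rfl | rfl <;>
    simp [wz, one_ne, zero_ne] <;> ring

theorem kl_c2 (κ y : ZMod 2) : kl e2 c2 κ y = e2 κ y / 2 := by
  unfold kl
  rw [sum2, card2]
  rcases two_cases y with rfl | rfl <;> simp [c2, one_ne, zero_ne]

theorem site_pair (z : ℝ) (h0 : 1 / 2 ≤ z) (h1 : z ≤ 1) (h : ZMod 2 × ZMod 2 → ℝ) :
    ∑ κ, (1 + ind (nz κ) * (7 / 4 - 1)) * (∑ y, kl e4 (cz z) κ y * h y) ^ 2 ≤
      ∑ y, kl e4 (cz z) 0 y * h y ^ 2 := by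
  have i00 : ind (nz ((0, 0) : ZMod 2 × ZMod 2)) = 0 := ind_false (fun hh => hh rfl)
  have i01 : ind (nz ((0, 1) : ZMod 2 × ZMod 2)) = 1 := ind_true (by unfold nz; decide)
  have i10 : ind (nz ((1, 0) : ZMod 2 × ZMod 2)) = 1 := ind_true (by unfold nz; decide)
  have i11 : ind (nz ((1, 1) : ZMod 2 × ZMod 2)) = 1 := ind_true (by unfold nz; decide)
  simp only [kl_cz_zero]
  rw [sum4, i00, i01, i10, i11]
  simp only [sum4, klv, e4_00, e4_01, e4_10, e4_11, cz_0, cz_1, wz]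
  simp only [one_ne, zero_ne, if_true, if_false, and_true, and_false, true_and, false_and, and_self,
    add_zero, zero_add, add11, sg0, sg1]
  generalize h (0, 0) = p
  generalize h (0, 1) = q
  generalize h (1, 0) = r
  generalize h (1, 1) = s
  have hq0 : 0 ≤ (1 - z) / 4 := by linarith
  have hq1 : (1 - z) / 4 ≤ 1 / 8 := by linarith
  have t1 : 0 ≤ ((1 - z) / 4 * (1 - 11 / 4 * ((1 - z) / 4))) * ((p + s) / 2 - (q + r) / 2) ^ 2 :=
    mul_nonneg (mul_nonneg hq0 (by linarith)) (sq_nonneg _)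
  have t2 : 0 ≤ (1 / 8 - (1 - z) / 4) * ((p - s) / 2) ^ 2 :=
    mul_nonneg (by linarith) (sq_nonneg _)
  have t3 : 0 ≤ (1 - z) / 4 * ((q - r) / 2) ^ 2 := mul_nonneg hq0 (sq_nonneg _)
  nlinarith [t1, t2, t3]

end Helper4.RC
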