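import Pool.Agent.Helper4.RC.SensDefs
import Pool.Agent.Helper4.RC.Pair

set_option autoImplicit false

/-!
Relative influence from the number of sensitive positions.

Proof sketch. `endSt L q n x = st L q (ext0 x) n` (induction on `n`: `st` at `n` depends only on the
letters before `n`, `st_congr`), and for `i : Fin n`
`endSt L q n (update x i (x i + 1)) = st L q (flp (ext0 x) {i}) n`. So with
`s x = #{i : Fin n | endSt (update x i (x i + 1)) ≠ endSt x}`: `s x = (sens L q (ext0 x) n).card`
(the map `Fin n → ℕ` is injective with image `range n`), `s x ≤ Λ` for `x ∉ bad L q n Λ`, `s x ≤ n`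
always.
`ri_bits`: `pw (fun _ => 1/2) y = (1/2)^n`; for `a = y i` the resampled word is `y` and the indicator
is `0`; for `a = y i + 1` it is the flip. So `ri = ∑ y, (1/2)^n * (1/2) * #{i : endSt y = v, flip ≠ v}
≤ ∑ y, (1/2)^n * ind (endSt y = v) * s y ≤ ∑ y ∉ bad, (1/2)^n ind (..) Λ + (1/2)^n * n * card bad`
`≤ Λ * dist + n / 2^N`.
`ri_pair`: `endSt (prog2 L) (q, q) n y = (endSt L q n (y.1), endSt L q n (y.2))` where `y.1`, `y.2`
are the two components. If replacing `y i` by `a` changes the pair of final states, then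
`a.1 = (y i).1 + 1` and `i` is sensitive for `y.1`, or `a.2 = (y i).2 + 1` and `i` is sensitive for
`y.2`. So (`∑ a, wz z a = 1`, `wz ≥ 0`) `ri ≤ ∑ y, pw (wz z) y * ind (endSt y = v) * (s y.1 + s y.2)`
`≤ ∑ y, pw (wz z) y * (ind (endSt y = v) * 2 * Λ + n * ind (y.1 ∈ bad) + n * ind (y.2 ∈ bad))`, and the
marginals of `pw (wz z)` are uniform (`∑ b, wz z (a, b) = 1/2 = ∑ b, wz z (b, a)`), so
`∑ y, pw (wz z) y * ind (y.1 ∈ bad) = card bad / 2^n ≤ 1 / 2^N`.
-/

namespace Helper4.RC

open Finset

section

variable {V : Type}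

/-- Two runs side by side. -/
def prog2 (L : ℕ → ZMod 2 → V → V) : ℕ → ZMod 2 × ZMod 2 → V × V → V × V :=
  fun i y s => (L i y.1 s.1, L i y.2 s.2)

theorem endSt_eq_st (L : ℕ → ZMod 2 → V → V) (q : V) {n : ℕ} (x : Fin n → ZMod 2) :
    endSt L q n x = st L q (ext0 x) n := by
  induction n with
  | zero => rfl
  | succ n ih =>
    rw [endSt, st, ih]
    have h1 : ext0 x n = x (Fin.last n) := by
      unfold ext0
      rw [dif_pos (Nat.lt_succ_self n)]
      rfl
    rw [h1]
    congr 1
    refine st_congr L q q (Nat.zero_le n) rfl fun i _ hi => ?_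
    unfold ext0
    rw [dif_pos hi, dif_pos (Nat.lt_succ_of_lt hi)]
    rfl

theorem endSt_prog2 (L : ℕ → ZMod 2 → V → V) (q : V) {n : ℕ} (y : Fin n → ZMod 2 × ZMod 2) :
    endSt (prog2 L) (q, q) n y =
      (endSt L q n fun i => (y i).1, endSt L q n fun i => (y i).2) := by
  induction n with
  | zero => rfl
  | succ n ih =>
    rw [endSt, ih]
    rfl

private lemma cases_add (a b : ZMod 2) : a = b ∨ a = b + 1 := by
  revert a b
  decide

/-- The position `i` is sensitive. -/
private noncomputable def sI (L : ℕ → ZMod 2 → V → V) (q : V) {n : ℕ} (x : Fin n → ZMod 2)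
    (i : Fin n) : ℝ :=
  ind (endSt L q n (Function.update x i (x i + 1)) ≠ endSt L q n x)

private lemma sI_nonneg (L : ℕ → ZMod 2 → V → V) (q : V) {n : ℕ} (x : Fin n → ZMod 2)
    (i : Fin n) : 0 ≤ sI L q x i := ind_nonneg _

private lemma endSt_update (L : ℕ → ZMod 2 → V → V) (q : V) {n : ℕ} (x : Fin n → ZMod 2)
    (i : Fin n) :
    endSt L q n (Function.update x i (x i + 1)) = st L q (flp (ext0 x) {(i : ℕ)}) n := by
  rw [endSt_eq_st]
  refine st_congr L q q (Nat.zero_le n) rfl fun j _ hj => ?_
  by_cases h : j = (i : ℕ)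
  · subst h
    rw [flp_apply_of_mem (mem_singleton_self _)]
    unfold ext0
    rw [dif_pos i.2, dif_pos i.2]
    simp
  · rw [flp_apply_of_notMem (by rwa [mem_singleton])]
    unfold ext0
    rw [dif_pos hj, dif_pos hj, Function.update_of_ne]
    intro h'
    exact h (congrArg Fin.val h')

private lemma sI_le (L : ℕ → ZMod 2 → V → V) (q : V) {n : ℕ} (x : Fin n → ZMod 2)
    (i : Fin n) : sI L q x i ≤ ind ((i : ℕ) ∈ sens L q (ext0 x) n) := by
  unfold sI
  classical
  refine ind_mono fun h => ?_
  unfold sens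
  refine Finset.mem_filter.2 ⟨mem_range.2 i.2, ?_⟩
  unfold sen
  rw [← endSt_update, ← endSt_eq_st]
  exact h

private lemma sum_sI_le_card (L : ℕ → ZMod 2 → V → V) (q : V) {n : ℕ} (x : Fin n → ZMod 2) :
    ∑ i, sI L q x i ≤ ((sens L q (ext0 x) n).card : ℝ) := by
  classical
  calc ∑ i, sI L q x i ≤ ∑ i : Fin n, ind ((i : ℕ) ∈ sens L q (ext0 x) n) :=
        Finset.sum_le_sum fun i _ => sI_le L q x i
    _ = ∑ i ∈ range n, ind (i ∈ sens L q (ext0 x) n) :=
        Fin.sum_univ_eq_sum_range (fun i => ind (i ∈ sens L q (ext0 x) n)) n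
    _ = (((range n).filter fun i => i ∈ sens L q (ext0 x) n).card : ℝ) := by
        rw [Finset.card_filter]
        push_cast
        refine Finset.sum_congr rfl fun i _ => ?_
        by_cases h : i ∈ sens L q (ext0 x) n
        · rw [ind_true h, if_pos h]
        · rw [ind_false h, if_neg h]
    _ ≤ ((sens L q (ext0 x) n).card : ℝ) := by
        exact_mod_cast Finset.card_le_card fun i hi => (mem_filter.1 hi).2

private lemma sum_sI_le_n (L : ℕ → ZMod 2 → V → V) (q : V) {n : ℕ} (x : Fin n → ZMod 2) :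
    ∑ i, sI L q x i ≤ (n : ℝ) := by
  calc ∑ i, sI L q x i ≤ ∑ _i : Fin n, (1 : ℝ) := Finset.sum_le_sum fun i _ => ind_le_one _
    _ = n := by simp

private lemma sum_sI_le (L : ℕ → ZMod 2 → V → V) (q : V) {n : ℕ} (Λ : ℕ) (x : Fin n → ZMod 2) :
    ∑ i, sI L q x i ≤ (Λ : ℝ) + n * ind (x ∈ bad L q n Λ) := by
  by_cases hx : x ∈ bad L q n Λ
  · rw [ind_true hx, mul_one]
    have := sum_sI_le_n L q x
    have h0 : (0 : ℝ) ≤ Λ := Nat.cast_nonneg _
    linarith
  · rw [ind_false hx, mul_zero, add_zero]
    refine (sum_sI_le_card L q x).trans ?_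
    have h : ¬ Λ < (sens L q (ext0 x) n).card := fun h => by
      apply hx
      unfold bad
      rw [mem_filter]
      exact ⟨mem_univ _, n, le_rfl, h⟩
    exact_mod_cast not_lt.1 h

private lemma sum_bad (L : ℕ → ZMod 2 → V → V) (q : V) (n Λ N : ℕ)
    (h : (bad L q n Λ).card * 2 ^ N ≤ 2 ^ n) :
    ∑ x : Fin n → ZMod 2, (1 / 2 : ℝ) ^ n * ind (x ∈ bad L q n Λ) ≤ 1 / 2 ^ N := by
  classical
  have h1 : ∑ x : Fin n → ZMod 2, ind (x ∈ bad L q n Λ) = ((bad L q n Λ).card : ℝ) := by
    have h2 : ∀ x : Fin n → ZMod 2, ind (x ∈ bad L q n Λ) =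
        if x ∈ bad L q n Λ then (1 : ℝ) else 0 := fun x => by
      by_cases hx : x ∈ bad L q n Λ
      · rw [ind_true hx, if_pos hx]
      · rw [ind_false hx, if_neg hx]
    rw [Finset.sum_congr rfl fun x _ => h2 x, Finset.sum_ite_mem, Finset.univ_inter]
    simp
  rw [← Finset.mul_sum, h1]
  have h3 : ((bad L q n Λ).card : ℝ) * 2 ^ N ≤ 2 ^ n := by exact_mod_cast h
  have hN : (0 : ℝ) < 2 ^ N := by positivity
  have hn : (0 : ℝ) < 2 ^ n := by positivity
  rw [le_div_iff₀ hN, one_div, inv_pow, mul_assoc, inv_mul_le_iff₀ hn, mul_one]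
  exact h3

theorem ri_bits (L : ℕ → ZMod 2 → V → V) (q : V) (n Λ N : ℕ)
    (h : (bad L q n Λ).card * 2 ^ N ≤ 2 ^ n) (v : V) :
    ri L q (fun _ => 1 / 2) n v ≤ Λ * dist L q (fun _ => 1 / 2) n v + n / 2 ^ N := by
  have hpw : ∀ y : Fin n → ZMod 2, pw (fun _ => (1 / 2 : ℝ)) y = (1 / 2) ^ n := fun y => by
    unfold pw
    rw [Finset.prod_const, Finset.card_univ, Fintype.card_fin]
  have key : ∀ (y : Fin n → ZMod 2) (i : Fin n),
      ∑ a : ZMod 2, (1 / 2 : ℝ) *
        ind (endSt L q n y = v ∧ endSt L q n (Function.update y i a) ≠ v) ≤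
      ind (endSt L q n y = v) * sI L q y i := fun y i => by
    have h1 : ∀ a : ZMod 2, ind (endSt L q n y = v ∧ endSt L q n (Function.update y i a) ≠ v) ≤
        ind (endSt L q n y = v) * sI L q y i := fun a => by
      by_cases hP : endSt L q n y = v ∧ endSt L q n (Function.update y i a) ≠ v
      · rw [ind_true hP, ind_true hP.1, one_mul]
        have ha : a = y i + 1 := by
          rcases cases_add a (y i) with ha | ha
          · exfalso
            apply hP.2
            rw [ha, Function.update_eq_self]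
            exact hP.1
          · exact ha
        have h2 : endSt L q n (Function.update y i (y i + 1)) ≠ endSt L q n y := by
          rw [← ha, hP.1]
          exact hP.2
        unfold sI
        rw [ind_true h2]
      · rw [ind_false hP]
        exact mul_nonneg (ind_nonneg _) (sI_nonneg _ _ _ _)
    calc ∑ a : ZMod 2, (1 / 2 : ℝ) *
          ind (endSt L q n y = v ∧ endSt L q n (Function.update y i a) ≠ v)
        ≤ ∑ _a : ZMod 2, (1 / 2 : ℝ) * (ind (endSt L q n y = v) * sI L q y i) :=
          Finset.sum_le_sum fun a _ => mul_le_mul_of_nonneg_left (h1 a) (by norm_num)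
      _ = ind (endSt L q n y = v) * sI L q y i := by
          rw [Finset.sum_const, Finset.card_univ, ZMod.card, nsmul_eq_mul]
          push_cast
          ring
  have hb := sum_bad L q n Λ N h
  have hn : (0 : ℝ) ≤ n := Nat.cast_nonneg _
  calc ri L q (fun _ => 1 / 2) n v
      ≤ ∑ i : Fin n, ∑ y : Fin n → ZMod 2,
          pw (fun _ => (1 / 2 : ℝ)) y * (ind (endSt L q n y = v) * sI L q y i) := by
        unfold ri
        refine Finset.sum_le_sum fun i _ => Finset.sum_le_sum fun y _ => ?_
        refine mul_le_mul_of_nonneg_left (key y i) ?_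
        rw [hpw]
        positivity
    _ = ∑ y : Fin n → ZMod 2,
          pw (fun _ => (1 / 2 : ℝ)) y * (ind (endSt L q n y = v) * ∑ i, sI L q y i) := by
        rw [Finset.sum_comm]
        refine Finset.sum_congr rfl fun y _ => ?_
        rw [← Finset.mul_sum, ← Finset.mul_sum]
    _ ≤ ∑ y : Fin n → ZMod 2, (Λ * (pw (fun _ => (1 / 2 : ℝ)) y * ind (endSt L q n y = v)) +
          n * ((1 / 2) ^ n * ind (y ∈ bad L q n Λ))) := by
        refine Finset.sum_le_sum fun y _ => ?_
        rw [hpw]
        have e0 : (0 : ℝ) ≤ (1 / 2) ^ n := by positivity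
        have e1 := sum_sI_le L q Λ y
        have e2 := ind_nonneg (endSt L q n y = v)
        have e3 := ind_le_one (endSt L q n y = v)
        have e4 := ind_nonneg (y ∈ bad L q n Λ)
        have e5 : ind (endSt L q n y = v) * ∑ i, sI L q y i ≤
            Λ * ind (endSt L q n y = v) + n * ind (y ∈ bad L q n Λ) := by
          calc ind (endSt L q n y = v) * ∑ i, sI L q y i
              ≤ ind (endSt L q n y = v) * (Λ + n * ind (y ∈ bad L q n Λ)) :=
                mul_le_mul_of_nonneg_left e1 e2
            _ = Λ * ind (endSt L q n y = v) +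
                ind (endSt L q n y = v) * (n * ind (y ∈ bad L q n Λ)) := by ring
            _ ≤ Λ * ind (endSt L q n y = v) + 1 * (n * ind (y ∈ bad L q n Λ)) := by
                have := mul_le_mul_of_nonneg_right e3 (mul_nonneg hn e4)
                linarith
            _ = _ := by ring
        have e6 := mul_le_mul_of_nonneg_left e5 e0
        linarith
    _ = Λ * dist L q (fun _ => 1 / 2) n v +
          n * ∑ y : Fin n → ZMod 2, (1 / 2 : ℝ) ^ n * ind (y ∈ bad L q n Λ) := by
        rw [Finset.sum_add_distrib, ← Finset.mul_sum, ← Finset.mul_sum]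
        rfl
    _ ≤ Λ * dist L q (fun _ => 1 / 2) n v + n * (1 / 2 ^ N) := by
        have := mul_le_mul_of_nonneg_left hb hn
        linarith
    _ = _ := by ring

private lemma sum2 (f : ZMod 2 → ℝ) : ∑ t, f t = f 0 + f 1 := Fin.sum_univ_two f

private lemma marg {Y : Type} [Fintype Y] (p : Y → ℝ) (π : Y → ZMod 2)
    (hπ : ∀ f : ZMod 2 → ℝ, ∑ a, p a * f (π a) = ∑ b, 1 / 2 * f b) (n : ℕ)
    (g : (Fin n → ZMod 2) → ℝ) :
    ∑ y : Fin n → Y, pw p y * g (fun i => π (y i)) = ∑ x : Fin n → ZMod 2, (1 / 2) ^ n * g x := by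
  induction n with
  | zero =>
    rw [Fintype.sum_unique, Fintype.sum_unique]
    have h1 : pw p (default : Fin 0 → Y) = 1 := by simp [pw]
    rw [h1, pow_zero]
    congr 2
    exact Subsingleton.elim _ _
  | succ n ih =>
    have hsn : ∀ (y : Fin n → Y) (a : Y), (fun i => π (sn y a i)) = sn (fun i => π (y i)) (π a) :=
      fun y a => by
        funext i
        refine Fin.lastCases ?_ (fun j => ?_) i
        · rw [sn_last, sn_last]
        · rw [sn_castSucc, sn_castSucc]
    rw [sum_sn, sum_sn]
    simp only [pw_sn, hsn]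
    calc ∑ y : Fin n → Y, ∑ a, pw p y * p a * g (sn (fun i => π (y i)) (π a))
        = ∑ a, p a * ∑ y : Fin n → Y, pw p y * g (sn (fun i => π (y i)) (π a)) := by
          rw [Finset.sum_comm]
          refine Finset.sum_congr rfl fun a _ => ?_
          rw [Finset.mul_sum]
          exact Finset.sum_congr rfl fun y _ => by ring
      _ = ∑ a, p a * ∑ x : Fin n → ZMod 2, (1 / 2) ^ n * g (sn x (π a)) := by
          refine Finset.sum_congr rfl fun a _ => ?_
          rw [ih fun x => g (sn x (π a))]
      _ = ∑ b, 1 / 2 * ∑ x : Fin n → ZMod 2, (1 / 2) ^ n * g (sn x b) :=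
          hπ fun b => ∑ x : Fin n → ZMod 2, (1 / 2) ^ n * g (sn x b)
      _ = _ := by
          rw [Finset.sum_comm]
          refine Finset.sum_congr rfl fun b _ => ?_
          rw [Finset.mul_sum]
          exact Finset.sum_congr rfl fun y _ => by ring

private lemma marg_fst (z : ℝ) (f : ZMod 2 → ℝ) :
    ∑ a, wz z a * f a.1 = ∑ b, 1 / 2 * f b := by
  rw [Fintype.sum_prod_type, sum2, sum2, sum2, sum2]
  simp [wz]
  ring

private lemma marg_snd (z : ℝ) (f : ZMod 2 → ℝ) :
    ∑ a, wz z a * f a.2 = ∑ b, 1 / 2 * f b := by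
  rw [Fintype.sum_prod_type, sum2, sum2, sum2, sum2]
  simp [wz]
  ring

private lemma sum_wz (z : ℝ) : ∑ a, wz z a = 1 := by
  have h := marg_fst z fun _ => 1
  simp only [mul_one] at h
  rw [h, sum2]
  norm_num

theorem ri_pair (L : ℕ → ZMod 2 → V → V) (q : V) (n Λ N : ℕ)
    (h : (bad L q n Λ).card * 2 ^ N ≤ 2 ^ n) (z : ℝ) (hz : -1 ≤ z) (hz1 : z ≤ 1) (v : V × V) :
    ri (prog2 L) (q, q) (wz z) n v ≤
      2 * Λ * dist (prog2 L) (q, q) (wz z) n v + 2 * n / 2 ^ N := by
  have hw : ∀ y, 0 ≤ wz z y := fun y => by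
    unfold wz
    split_ifs <;> linarith
  have key1 : ∀ (x : Fin n → ZMod 2) (i : Fin n) (a : ZMod 2),
      endSt L q n (Function.update x i a) ≠ endSt L q n x → sI L q x i = 1 := fun x i a ha => by
    have h1 : a = x i + 1 := by
      rcases cases_add a (x i) with h1 | h1
      · exfalso
        apply ha
        rw [h1, Function.update_eq_self]
      · exact h1
    rw [h1] at ha
    unfold sI
    rw [ind_true ha]
  have hup : ∀ (y : Fin n → ZMod 2 × ZMod 2) (i : Fin n) (a : ZMod 2 × ZMod 2),
      (fun j => (Function.update y i a j).1) = Function.update (fun j => (y j).1) i a.1 ∧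
      (fun j => (Function.update y i a j).2) = Function.update (fun j => (y j).2) i a.2 :=
    fun y i a => by
      constructor <;> funext j <;> by_cases hj : j = i
      · subst hj; simp
      · rw [Function.update_of_ne hj, Function.update_of_ne hj]
      · subst hj; simp
      · rw [Function.update_of_ne hj, Function.update_of_ne hj]
  have key : ∀ (y : Fin n → ZMod 2 × ZMod 2) (i : Fin n),
      ∑ a, wz z a * ind (endSt (prog2 L) (q, q) n y = v ∧
        endSt (prog2 L) (q, q) n (Function.update y i a) ≠ v) ≤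
      ind (endSt (prog2 L) (q, q) n y = v) *
        (sI L q (fun j => (y j).1) i + sI L q (fun j => (y j).2) i) := fun y i => by
    have h1 : ∀ a, ind (endSt (prog2 L) (q, q) n y = v ∧
        endSt (prog2 L) (q, q) n (Function.update y i a) ≠ v) ≤
        ind (endSt (prog2 L) (q, q) n y = v) *
        (sI L q (fun j => (y j).1) i + sI L q (fun j => (y j).2) i) := fun a => by
      have n1 := sI_nonneg L q (fun j => (y j).1) i
      have n2 := sI_nonneg L q (fun j => (y j).2) i
      by_cases hP : endSt (prog2 L) (q, q) n y = v ∧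
          endSt (prog2 L) (q, q) n (Function.update y i a) ≠ v
      · rw [ind_true hP, ind_true hP.1, one_mul]
        have h2 : endSt (prog2 L) (q, q) n (Function.update y i a) ≠
            endSt (prog2 L) (q, q) n y := by
          rw [hP.1]
          exact hP.2
        rw [endSt_prog2, endSt_prog2, (hup y i a).1, (hup y i a).2, Ne, Prod.mk.injEq,
          not_and_or] at h2
        rcases h2 with h2 | h2
        · rw [key1 _ i a.1 h2]
          linarith
        · rw [key1 _ i a.2 h2]
          linarith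
      · rw [ind_false hP]
        exact mul_nonneg (ind_nonneg _) (add_nonneg n1 n2)
    calc ∑ a, wz z a * ind (endSt (prog2 L) (q, q) n y = v ∧
          endSt (prog2 L) (q, q) n (Function.update y i a) ≠ v)
        ≤ ∑ a, wz z a * (ind (endSt (prog2 L) (q, q) n y = v) *
            (sI L q (fun j => (y j).1) i + sI L q (fun j => (y j).2) i)) :=
          Finset.sum_le_sum fun a _ => mul_le_mul_of_nonneg_left (h1 a) (hw a)
      _ = _ := by rw [← Finset.sum_mul, sum_wz, one_mul]
  have hb := sum_bad L q n Λ N h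
  have hn : (0 : ℝ) ≤ n := Nat.cast_nonneg _
  have hb1 : ∑ y : Fin n → ZMod 2 × ZMod 2,
      pw (wz z) y * ind ((fun j => (y j).1) ∈ bad L q n Λ) ≤ 1 / 2 ^ N := by
    have := marg (wz z) Prod.fst (marg_fst z) n fun x => ind (x ∈ bad L q n Λ)
    rw [this]
    exact hb
  have hb2 : ∑ y : Fin n → ZMod 2 × ZMod 2,
      pw (wz z) y * ind ((fun j => (y j).2) ∈ bad L q n Λ) ≤ 1 / 2 ^ N := by
    have := marg (wz z) Prod.snd (marg_snd z) n fun x => ind (x ∈ bad L q n Λ)
    rw [this]
    exact hb
  calc ri (prog2 L) (q, q) (wz z) n v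
      ≤ ∑ i : Fin n, ∑ y : Fin n → ZMod 2 × ZMod 2,
          pw (wz z) y * (ind (endSt (prog2 L) (q, q) n y = v) *
            (sI L q (fun j => (y j).1) i + sI L q (fun j => (y j).2) i)) := by
        unfold ri
        exact Finset.sum_le_sum fun i _ => Finset.sum_le_sum fun y _ =>
          mul_le_mul_of_nonneg_left (key y i) (pw_nonneg hw y)
    _ = ∑ y : Fin n → ZMod 2 × ZMod 2,
          pw (wz z) y * (ind (endSt (prog2 L) (q, q) n y = v) *
            (∑ i, sI L q (fun j => (y j).1) i + ∑ i, sI L q (fun j => (y j).2) i)) := by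
        rw [Finset.sum_comm]
        refine Finset.sum_congr rfl fun y _ => ?_
        rw [← Finset.mul_sum, ← Finset.mul_sum, Finset.sum_add_distrib]
    _ ≤ ∑ y : Fin n → ZMod 2 × ZMod 2,
          (2 * Λ * (pw (wz z) y * ind (endSt (prog2 L) (q, q) n y = v)) +
          (n * (pw (wz z) y * ind ((fun j => (y j).1) ∈ bad L q n Λ)) +
            n * (pw (wz z) y * ind ((fun j => (y j).2) ∈ bad L q n Λ)))) := by
        refine Finset.sum_le_sum fun y _ => ?_
        have e0 := pw_nonneg hw y
        have e1 := sum_sI_le L q Λ fun j => (y j).1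
        have e1' := sum_sI_le L q Λ fun j => (y j).2
        have e2 := ind_nonneg (endSt (prog2 L) (q, q) n y = v)
        have e3 := ind_le_one (endSt (prog2 L) (q, q) n y = v)
        have e4 := ind_nonneg ((fun j => (y j).1) ∈ bad L q n Λ)
        have e4' := ind_nonneg ((fun j => (y j).2) ∈ bad L q n Λ)
        generalize ind (endSt (prog2 L) (q, q) n y = v) = c at *
        generalize ind ((fun j => (y j).1) ∈ bad L q n Λ) = b1 at *
        generalize ind ((fun j => (y j).2) ∈ bad L q n Λ) = b2 at *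
        generalize ∑ i, sI L q (fun j => (y j).1) i = S1 at *
        generalize ∑ i, sI L q (fun j => (y j).2) i = S2 at *
        generalize pw (wz z) y = w at *
        have e5 : c * (S1 + S2) ≤ 2 * Λ * c + (n * b1 + n * b2) := by
          calc c * (S1 + S2) ≤ c * ((Λ + n * b1) + (Λ + n * b2)) :=
                mul_le_mul_of_nonneg_left (add_le_add e1 e1') e2
            _ = 2 * Λ * c + c * (n * b1 + n * b2) := by ring
            _ ≤ 2 * Λ * c + 1 * (n * b1 + n * b2) := by
                have := mul_le_mul_of_nonneg_right e3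
                  (add_nonneg (mul_nonneg hn e4) (mul_nonneg hn e4'))
                linarith
            _ = _ := by ring
        have e6 := mul_le_mul_of_nonneg_left e5 e0
        linarith
    _ = 2 * Λ * dist (prog2 L) (q, q) (wz z) n v +
          (n * ∑ y : Fin n → ZMod 2 × ZMod 2,
            pw (wz z) y * ind ((fun j => (y j).1) ∈ bad L q n Λ) +
          n * ∑ y : Fin n → ZMod 2 × ZMod 2,
            pw (wz z) y * ind ((fun j => (y j).2) ∈ bad L q n Λ)) := by
        rw [Finset.sum_add_distrib, Finset.sum_add_distrib, ← Finset.mul_sum, ← Finset.mul_sum,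
          ← Finset.mul_sum]
        rfl
    _ ≤ 2 * Λ * dist (prog2 L) (q, q) (wz z) n v + (n * (1 / 2 ^ N) + n * (1 / 2 ^ N)) := by
        have h1 := mul_le_mul_of_nonneg_left hb1 hn
        have h2 := mul_le_mul_of_nonneg_left hb2 hn
        linarith
    _ = _ := by ring

end

end Helper4.RC
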