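import Pool.Agent.Helper4.RC.Basic

set_option autoImplicit false

/-!
Sensitive positions of a run on a sequence of bits.
-/

namespace Helper4.RC

open Finset

section

variable {V R : Type}

/-- The state after `t` letters of the sequence `x`. -/
def st {Y : Type} (L : ℕ → Y → V → V) (q : V) (x : ℕ → Y) : ℕ → V
  | 0 => q
  | t + 1 => L t (x t) (st L q x t)

/-- The sequence `x` with the bits in `F` flipped. -/
def flp (x : ℕ → ZMod 2) (F : Finset ℕ) : ℕ → ZMod 2 := fun i => x i + if i ∈ F then 1 else 0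

/-- Flipping the bit `i` changes the state at the time `t`. -/
def sen (L : ℕ → ZMod 2 → V → V) (q : V) (x : ℕ → ZMod 2) (t i : ℕ) : Prop :=
  st L q (flp x {i}) t ≠ st L q x t

/-- The set of the sensitive positions at the time `t`. -/
noncomputable def sens (L : ℕ → ZMod 2 → V → V) (q : V) (x : ℕ → ZMod 2) (t : ℕ) : Finset ℕ :=
  open Classical in (range t).filter fun i => sen L q x t i

/-- The program with one more register, reset by the rule `γ`. -/
def ext (L : ℕ → ZMod 2 → V → V) (γ : ℕ → ZMod 2 → V → Option R) :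
    ℕ → ZMod 2 → V × R → V × R :=
  fun i a s => (L i a s.1, (γ i a s.1).getD s.2)

/-- There is a reset at the step `j`. -/
def rst (L : ℕ → ZMod 2 → V → V) (q : V) (γ : ℕ → ZMod 2 → V → Option R) (x : ℕ → ZMod 2)
    (j : ℕ) : Prop :=
  γ j (x j) (st L q x j) ≠ none

/-- `s` is `i`, or `i` is sensitive at the time `s`. -/
def alv (L : ℕ → ZMod 2 → V → V) (q : V) (x : ℕ → ZMod 2) (i s : ℕ) : Prop :=
  s = i ∨ sen L q x s i

/-- Positions with disjoint lifetimes that create resets after the last reset of `x`. -/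
structure Sys (L : ℕ → ZMod 2 → V → V) (q : V) (γ : ℕ → ZMod 2 → V → Option R)
    (x : ℕ → ZMod 2) (t : ℕ) (K : Finset ℕ) : Prop where
  lt : ∀ i ∈ K, i < t
  disj : ∀ i ∈ K, ∀ j ∈ K, i ≠ j → ∀ s < t, ¬ (alv L q x i s ∧ alv L q x j s)
  create : ∀ i ∈ K, ∃ s < t, alv L q x i s ∧ rst L q γ (flp x {i}) s
  none : ∀ i ∈ K, ∀ s, i ≤ s → s < t → ¬ rst L q γ x s

/-- The candidates for the last flipped position. -/
noncomputable def cand (L : ℕ → ZMod 2 → V → V) (q : V) (γ : ℕ → ZMod 2 → V → Option R)
    (t : ℕ) (y : ℕ → ZMod 2) : Finset ℕ :=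
  open Classical in (range t).filter fun i => ∃ j < t, rst L q γ y j ∧
    (∀ s, j < s → s < t → ¬ rst L q γ y s) ∧ alv L q y i j

/-- Extension of a word by zeros. -/
def ext0 {n : ℕ} (x : Fin n → ZMod 2) : ℕ → ZMod 2 := fun i => if h : i < n then x ⟨i, h⟩ else 0

/-- The word `x` with the bits in `F` flipped. -/
def flpn {n : ℕ} (x : Fin n → ZMod 2) (F : Finset ℕ) : Fin n → ZMod 2 :=
  fun i => x i + if (i : ℕ) ∈ F then 1 else 0

/-- The words with more than `Λ` sensitive positions at some time. -/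
noncomputable def bad (L : ℕ → ZMod 2 → V → V) (q : V) (n Λ : ℕ) : Finset (Fin n → ZMod 2) :=
  open Classical in univ.filter fun x => ∃ t ≤ n, Λ < (sens L q (ext0 x) t).card

/-- Equal letters from `s` to `t` and equal states at `s` give equal states at `t`. -/
lemma st_congr {Y : Type} (L : ℕ → Y → V → V) (q q' : V) {x y : ℕ → Y} {s t : ℕ} (hst : s ≤ t)
    (h : st L q x s = st L q' y s) (hxy : ∀ i, s ≤ i → i < t → x i = y i) :
    st L q x t = st L q' y t := by
  induction t, hst using Nat.le_induction with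
  | base => exact h
  | succ t hst ih =>
    rw [st, st, ih fun i h1 h2 => hxy i h1 (by omega), hxy t hst (by omega)]

lemma flp_apply_of_notMem {x : ℕ → ZMod 2} {F : Finset ℕ} {i : ℕ} (h : i ∉ F) :
    flp x F i = x i := by
  simp [flp, h]

lemma flp_apply_of_mem {x : ℕ → ZMod 2} {F : Finset ℕ} {i : ℕ} (h : i ∈ F) :
    flp x F i = x i + 1 := by
  simp [flp, h]

/-- A position that is sensitive at the time `t` is before `t`. -/
lemma lt_of_sen {L : ℕ → ZMod 2 → V → V} {q : V} {x : ℕ → ZMod 2} {t i : ℕ}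
    (h : sen L q x t i) : i < t := by
  by_contra hi
  apply h
  refine st_congr L q q (x := flp x {i}) (y := x) (Nat.zero_le t) rfl ?_
  intro j _ hj
  apply flp_apply_of_notMem
  rw [mem_singleton]
  omega

/-- A position before `s` that is not sensitive at the time `s` is not sensitive later. -/
lemma not_sen_of_le {L : ℕ → ZMod 2 → V → V} {q : V} {x : ℕ → ZMod 2} {s t i : ℕ} (hi : i < s)
    (hst : s ≤ t) (h : ¬ sen L q x s i) : ¬ sen L q x t i := by
  unfold sen at *
  rw [not_not] at *
  refine st_congr L q q (x := flp x {i}) (y := x) hst h ?_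
  intro j hj _
  apply flp_apply_of_notMem
  rw [mem_singleton]
  omega

end

end Helper4.RC
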