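import Pool.Agent.Helper4.RC.Basic

set_option autoImplicit false

/-!
Definitions for the growth theorem.
-/

namespace Helper4.RC

open Finset

section

variable {Y V K : Type} [Fintype Y] [Fintype V] [Fintype K]

/-- One step of the vector `a` at the time `t` with the letter `κ`. -/
noncomputable def stp (L : ℕ → Y → V → V) (m : K → Y → ℝ) (t : ℕ) (κ : K) (a : V → ℝ) : V → ℝ :=
  fun v => ∑ u, a u * ∑ y, m κ y * ind (L t y u = v)

/-- The row of the state `u` at the time `t` with the letter `κ`. -/
noncomputable def row (L : ℕ → Y → V → V) (m : K → Y → ℝ) (t : ℕ) (κ : K) (u : V) : V → ℝ :=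
  fun v => ∑ y, m κ y * ind (L t y u = v)

/-- The sum, over all words of `d` trivial letters read from the time `t`, of the absolute values
of the entry `v` of the vector that starts as `a`. -/
noncomputable def H (L : ℕ → Y → V → V) (m : K → Y → ℝ) (nt : K → Prop) (v : V) :
    (d t : ℕ) → (V → ℝ) → ℝ
  | 0, _, a => |a v|
  | d + 1, t, a => ∑ κ, ind (¬ nt κ) * H L m nt v d (t + 1) (stp L m t κ a)

/-- The probability that the runs from `u` and `u'` at the time `t`, with the same `d` letters, end
in `v` and not in `v`. -/
noncomputable def Gp (L : ℕ → Y → V → V) (p : Y → ℝ) (v : V) : (d t : ℕ) → V → V → ℝ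
  | 0, _, u, u' => ind (u = v ∧ u' ≠ v)
  | d + 1, t, u, u' => ∑ y, p y * Gp L p v d (t + 1) (L t y u) (L t y u')

end

end Helper4.RC
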