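import Pool.Agent.Helper4.RC.GrowDefs

set_option autoImplicit false

/-!
Decomposition of the words with `j + 1` nontrivial letters by the last nontrivial letter.

Proof sketch. `H v d t` is a seminorm: `H_add : H v d t (a + b) ≤ H v d t a + H v d t b`,
`H_smul : H v d t (c • a) = |c| * H v d t a` (induction on `d`, `stp` is linear; `ind` is `≥ 0`),
so `H v d t (∑ u, b u • f u) ≤ ∑ u, |b u| * H v d t (f u)`, in particular
`H v d (t+1) (stp t κ a) ≤ ∑ u, |a u| * H v d (t+1) (row t κ u)` (`stp t κ a = ∑ u, a u • row t κ u`).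
Claim, by induction on `t`: for all `t + d = T`,
`∑ χ : Fin t → K, ind (cnt nt χ = j + 1) * H v d t (vec L q m χ) ≤
   ∑ i ∈ range t, ∑ u, W j i u * ∑ κ, ind (nt κ) * H v (T - 1 - i) (i + 1) (row i κ u)`.
`t = 0`: `cnt = 0`, both sides are `0`. Step `t → t + 1` (`T = t + 1 + d`): `sum_sn`, `cnt_sn`, and
`vec L q m (sn χ κ) = stp L m t κ (vec L q m χ)` (`vec_sn`); the terms with `¬ nt κ` sum up to
`∑ χ, ind (cnt nt χ = j + 1) * H v (d + 1) t (vec χ)` (definition of `H`), to which the induction
hypothesis applies; the terms with `nt κ` have `cnt nt χ = j` and are at most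
`∑ χ, ind (cnt nt χ = j) * ∑ u, |vec χ u| * ∑ κ, ind (nt κ) * H v d (t + 1) (row t κ u)`, the term
`i = t` of the right side (`W j t u = ∑ χ, if cnt nt χ = j then |vec χ u| else 0`).
For `t = T`, `d = 0`, the left side is `W (j + 1) T v`.
-/

namespace Helper4.RC

open Finset

section

variable {Y V K : Type} [Fintype Y] [Fintype V] [Fintype K]

omit [Fintype K] in
private lemma stp_add (L : ℕ → Y → V → V) (m : K → Y → ℝ) (t : ℕ) (κ : K) (a b : V → ℝ) :
    stp L m t κ (a + b) = stp L m t κ a + stp L m t κ b := by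
  funext v
  simp only [stp, Pi.add_apply, add_mul, Finset.sum_add_distrib]

omit [Fintype K] in
private lemma stp_smul (L : ℕ → Y → V → V) (m : K → Y → ℝ) (t : ℕ) (κ : K) (c : ℝ) (a : V → ℝ) :
    stp L m t κ (c • a) = c • stp L m t κ a := by
  funext v
  simp only [stp, Pi.smul_apply, smul_eq_mul, mul_assoc, Finset.mul_sum]

private lemma H_add (L : ℕ → Y → V → V) (m : K → Y → ℝ) (nt : K → Prop) (v : V) (d : ℕ) :
    ∀ (t : ℕ) (a b : V → ℝ), H L m nt v d t (a + b) ≤ H L m nt v d t a + H L m nt v d t b := by
  induction d with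
  | zero =>
    intro t a b
    simpa only [H, Pi.add_apply] using abs_add_le (a v) (b v)
  | succ d ih =>
    intro t a b
    simp only [H]
    rw [← Finset.sum_add_distrib]
    refine Finset.sum_le_sum fun κ _ => ?_
    rw [← mul_add, stp_add]
    exact mul_le_mul_of_nonneg_left (ih _ _ _) (ind_nonneg _)

private lemma H_smul (L : ℕ → Y → V → V) (m : K → Y → ℝ) (nt : K → Prop) (v : V) (d : ℕ) :
    ∀ (t : ℕ) (c : ℝ) (a : V → ℝ), H L m nt v d t (c • a) = |c| * H L m nt v d t a := by
  induction d with
  | zero =>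
    intro t c a
    simp only [H, Pi.smul_apply, smul_eq_mul, abs_mul]
  | succ d ih =>
    intro t c a
    simp only [H]
    rw [Finset.mul_sum]
    refine Finset.sum_congr rfl fun κ _ => ?_
    rw [stp_smul, ih]
    ring

private lemma H_sum_le {ι : Type} (L : ℕ → Y → V → V) (m : K → Y → ℝ) (nt : K → Prop) (v : V)
    (d t : ℕ) (s : Finset ι) (b : ι → ℝ) (f : ι → V → ℝ) :
    H L m nt v d t (∑ u ∈ s, b u • f u) ≤ ∑ u ∈ s, |b u| * H L m nt v d t (f u) := by
  classical
  induction s using Finset.induction_on with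
  | empty =>
    rw [Finset.sum_empty, Finset.sum_empty]
    have h := H_smul L m nt v d t 0 (0 : V → ℝ)
    rw [zero_smul, abs_zero, zero_mul] at h
    exact h.le
  | insert u s hu ih =>
    rw [Finset.sum_insert hu, Finset.sum_insert hu]
    refine (H_add L m nt v d t _ _).trans ?_
    rw [H_smul]
    linarith

omit [Fintype K] in
private lemma stp_eq (L : ℕ → Y → V → V) (m : K → Y → ℝ) (t : ℕ) (κ : K) (a : V → ℝ) :
    stp L m t κ a = ∑ u, a u • row L m t κ u := by
  funext v
  simp only [stp, row, Finset.sum_apply, Pi.smul_apply, smul_eq_mul]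

private lemma H_stp_le (L : ℕ → Y → V → V) (m : K → Y → ℝ) (nt : K → Prop) (v : V) (d t t' : ℕ)
    (κ : K) (a : V → ℝ) :
    H L m nt v d t (stp L m t' κ a) ≤ ∑ u, |a u| * H L m nt v d t (row L m t' κ u) := by
  rw [stp_eq]
  exact H_sum_le L m nt v d t _ _ _

private lemma growA_aux (L : ℕ → Y → V → V) (q : V) (m : K → Y → ℝ) (nt : K → Prop) (j : ℕ)
    (v : V) (t : ℕ) : ∀ d : ℕ,
    (∑ χ : Fin t → K, if cnt nt χ = j + 1 then H L m nt v d t (vec L q m χ) else 0) ≤
      ∑ i ∈ range t, ∑ u, W L q m nt j i u *
        ∑ κ, ind (nt κ) * H L m nt v (t + d - 1 - i) (i + 1) (row L m i κ u) := by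
  induction t with
  | zero =>
    intro d
    rw [Finset.range_zero, Finset.sum_empty]
    refine le_of_eq (Finset.sum_eq_zero fun χ _ => ?_)
    rw [cnt_zero, if_neg (by omega)]
  | succ t ih =>
    intro d
    rw [sum_sn]
    have h1 : ∀ (χ : Fin t → K) (κ : K),
        (if cnt nt (sn χ κ) = j + 1 then H L m nt v d (t + 1) (vec L q m (sn χ κ)) else 0) =
        (if cnt nt χ = j + 1 then
          ind (¬ nt κ) * H L m nt v d (t + 1) (stp L m t κ (vec L q m χ)) else 0) +
        (if cnt nt χ = j then
          ind (nt κ) * H L m nt v d (t + 1) (stp L m t κ (vec L q m χ)) else 0) := by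
      intro χ κ
      have hv : vec L q m (sn χ κ) = stp L m t κ (vec L q m χ) := by
        funext w
        exact vec_sn L q m χ κ w
      rw [cnt_sn, hv]
      by_cases hk : nt κ
      · rw [nind_true hk, ind_true hk, ind_false (not_not.mpr hk)]
        by_cases hc : cnt nt χ = j
        · rw [if_pos (by omega), if_neg (by omega), if_pos hc]
          ring
        · rw [if_neg (by omega), if_neg hc]
          simp
      · rw [nind_false hk, ind_false hk, ind_true hk]
        by_cases hc : cnt nt χ = j + 1
        · rw [if_pos (by omega), if_pos hc, if_neg (by omega)]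
          ring
        · rw [if_neg (by omega), if_neg hc]
          simp
    have h2 : (∑ χ : Fin t → K, ∑ κ : K,
        if cnt nt (sn χ κ) = j + 1 then H L m nt v d (t + 1) (vec L q m (sn χ κ)) else 0) =
        (∑ χ : Fin t → K, if cnt nt χ = j + 1 then H L m nt v (d + 1) t (vec L q m χ) else 0) +
        ∑ χ : Fin t → K, if cnt nt χ = j then ∑ κ,
          ind (nt κ) * H L m nt v d (t + 1) (stp L m t κ (vec L q m χ)) else 0 := by
      rw [← Finset.sum_add_distrib]
      refine Finset.sum_congr rfl fun χ _ => ?_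
      rw [Finset.sum_congr rfl fun κ _ => h1 χ κ, Finset.sum_add_distrib]
      congr 1
      · by_cases hc : cnt nt χ = j + 1
        · simp only [if_pos hc, H]
        · simp only [if_neg hc, Finset.sum_const_zero]
      · by_cases hc : cnt nt χ = j
        · simp only [if_pos hc]
        · simp only [if_neg hc, Finset.sum_const_zero]
    rw [h2, Finset.sum_range_succ]
    refine add_le_add ?_ ?_
    · refine (ih (d + 1)).trans (le_of_eq ?_)
      refine Finset.sum_congr rfl fun i _ => ?_
      have hd : t + (d + 1) - 1 - i = t + 1 + d - 1 - i := by omega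
      rw [hd]
    · have hd : t + 1 + d - 1 - t = d := by omega
      rw [hd]
      have h3 : ∀ χ : Fin t → K, (if cnt nt χ = j then ∑ κ,
          ind (nt κ) * H L m nt v d (t + 1) (stp L m t κ (vec L q m χ)) else 0) ≤
          ∑ u, (if cnt nt χ = j then |vec L q m χ u| else 0) *
            ∑ κ, ind (nt κ) * H L m nt v d (t + 1) (row L m t κ u) := by
        intro χ
        by_cases hc : cnt nt χ = j
        · simp only [if_pos hc]
          calc ∑ κ, ind (nt κ) * H L m nt v d (t + 1) (stp L m t κ (vec L q m χ))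
              ≤ ∑ κ, ind (nt κ) *
                ∑ u, |vec L q m χ u| * H L m nt v d (t + 1) (row L m t κ u) :=
                Finset.sum_le_sum fun κ _ =>
                  mul_le_mul_of_nonneg_left (H_stp_le L m nt v d (t + 1) t κ _) (ind_nonneg _)
            _ = ∑ u, |vec L q m χ u| *
                  ∑ κ, ind (nt κ) * H L m nt v d (t + 1) (row L m t κ u) := by
                simp only [Finset.mul_sum]
                rw [Finset.sum_comm]
                refine Finset.sum_congr rfl fun u _ => Finset.sum_congr rfl fun κ _ => ?_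
                ring
        · simp only [if_neg hc, zero_mul, Finset.sum_const_zero, le_refl]
      refine (Finset.sum_le_sum fun χ _ => h3 χ).trans (le_of_eq ?_)
      rw [Finset.sum_comm]
      refine Finset.sum_congr rfl fun u _ => ?_
      rw [← Finset.sum_mul]
      rfl

theorem W_succ_le (L : ℕ → Y → V → V) (q : V) (m : K → Y → ℝ) (nt : K → Prop) (j T : ℕ) (v : V) :
    W L q m nt (j + 1) T v ≤ ∑ i ∈ range T, ∑ u, W L q m nt j i u *
      ∑ κ, ind (nt κ) * H L m nt v (T - 1 - i) (i + 1) (row L m i κ u) := by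
  have h := growA_aux L q m nt j v T 0
  simp only [H, Nat.add_zero] at h
  exact h

end

end Helper4.RC
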