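import Pool.Agent.Helper4.RC.Lay

set_option autoImplicit false

/-!
The strings `Tr (b * a ^ i)` have small bias.

Proof sketch (compare `Pool/Agent/Helper12/GR/Spec.lean`, theorem `be_le`, and
`Pool/Agent/Helper20/Comm/Bias.lean`). `∏ i, e2 (χ i) (str i) = sg (∑ i, χ i * str i)` (`sg_add`), and
`∑ i, χ i * Tr (b * a^i) = Tr (b * P a)` for the polynomial `P` with coefficients `χ i` (mapped to
`F`; `χ i` is `0` or `1`, `Algebra.trace` is linear over `ZMod 2`), nonzero of degree `< n`. For
`P a ≠ 0` the sum over `b` of `sg (Tr (b * P a))` is `0` (the trace is surjective, translate by `b₀`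
with `Tr (b₀ * P a) = 1`), and `P` has at most `n` roots. The extension is separable since `ZMod 2` is
perfect (finite) and `F` is finite over it.
-/

namespace Helper4.RC

open Finset

namespace Explicit

lemma sg_add' (a b : ZMod 2) : sg (a + b) = sg a * sg b := by
  have h : ∀ t : ZMod 2, t = 0 ∨ t = 1 := by decide
  have e : (1 : ZMod 2) + 1 = 0 := by decide
  rcases h a with rfl | rfl <;> rcases h b with rfl | rfl <;> simp [sg, e]

lemma sg_zero' : sg 0 = 1 := by simp [sg]

lemma sg_sum {ι : Type} (s : Finset ι) (f : ι → ZMod 2) : sg (∑ i ∈ s, f i) = ∏ i ∈ s, sg (f i) := by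
  classical
  induction s using Finset.induction_on with
  | empty => simp [sg_zero']
  | insert a s ha ih => rw [Finset.sum_insert ha, Finset.prod_insert ha, sg_add', ih]

variable {F : Type} [Field F] [Fintype F] [Algebra (ZMod 2) F]

lemma sum_sg_trace (c : F) (hc : c ≠ 0) :
    ∑ b : F, sg (Algebra.trace (ZMod 2) F (b * c)) = 0 := by
  have : FiniteDimensional (ZMod 2) F := Module.Finite.of_finite
  have hsep : Algebra.IsSeparable (ZMod 2) F := inferInstance
  obtain ⟨b₁, hb₁⟩ := Algebra.trace_surjective (ZMod 2) F 1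
  have hb₀ : Algebra.trace (ZMod 2) F (b₁ * c⁻¹ * c) = 1 := by
    rw [mul_assoc, inv_mul_cancel₀ hc, mul_one, hb₁]
  set b₀ : F := b₁ * c⁻¹ with hb₀def
  have h : ∑ b : F, sg (Algebra.trace (ZMod 2) F (b * c))
      = ∑ b : F, sg (Algebra.trace (ZMod 2) F ((b + b₀) * c)) :=
    (Equiv.sum_comp (Equiv.addRight b₀) (fun b => sg (Algebra.trace (ZMod 2) F (b * c)))).symm
  have h2 : ∑ b : F, sg (Algebra.trace (ZMod 2) F ((b + b₀) * c))
      = - ∑ b : F, sg (Algebra.trace (ZMod 2) F (b * c)) := by
    rw [← Finset.sum_neg_distrib]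
    apply Finset.sum_congr rfl
    intro b _
    rw [add_mul, map_add, sg_add', hb₀]
    have h1 : sg 1 = -1 := by simp [sg]
    rw [h1]
    ring
  rw [h2] at h
  linarith

open Polynomial in
lemma main (n : ℕ) (χ : Fin n → ZMod 2) (hχ : χ ≠ 0) :
    |mean fun θ : F × F => ∏ i, e2 (χ i) (powStr F n θ i)| ≤ (n : ℝ) / Fintype.card F := by
  classical
  have hq : (0 : ℝ) < Fintype.card F := by exact_mod_cast Fintype.card_pos
  obtain ⟨j0, hj0⟩ : ∃ j, χ j ≠ 0 := by
    by_contra hno
    push Not at hno
    exact hχ (funext hno)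
  set c : Fin n → F := fun i => algebraMap (ZMod 2) F (χ i) with hc
  have hcj : c j0 ≠ 0 := by
    rw [hc]
    simpa using hj0
  set P : F[X] := ∑ i : Fin n, C (c i) * X ^ (i : ℕ) with hP
  have hcoef : P.coeff (j0 : ℕ) = c j0 := by
    rw [hP, finsetSum_coeff, Finset.sum_eq_single j0]
    · simp
    · intro i _ hi
      rw [coeff_C_mul, coeff_X_pow, if_neg, mul_zero]
      intro h
      exact hi (Fin.ext h).symm
    · intro h
      exact absurd (Finset.mem_univ _) h
  have hP0 : P ≠ 0 := by
    intro h
    rw [h, coeff_zero] at hcoef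
    exact hcj hcoef.symm
  have hdeg : P.natDegree ≤ n := by
    rw [hP]
    apply natDegree_sum_le_of_forall_le
    intro i _
    exact (natDegree_C_mul_X_pow_le _ _).trans i.2.le
  have hev : ∀ a : F, P.eval a = ∑ i : Fin n, c i * a ^ (i : ℕ) := by
    intro a
    rw [hP, eval_finsetSum]
    simp
  have hroots : (Finset.univ.filter fun a : F => P.eval a = 0).card ≤ n := by
    have hsub : (Finset.univ.filter fun a : F => P.eval a = 0) ⊆ P.roots.toFinset := by
      intro a ha
      rw [Finset.mem_filter] at ha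
      rw [Multiset.mem_toFinset, mem_roots hP0, IsRoot]
      exact ha.2
    calc _ ≤ P.roots.toFinset.card := Finset.card_le_card hsub
      _ ≤ Multiset.card P.roots := Multiset.toFinset_card_le _
      _ ≤ P.natDegree := card_roots' _
      _ ≤ n := hdeg
  have hch : ∀ a b : F, (∏ i, e2 (χ i) (powStr F n (a, b) i)) =
      sg (Algebra.trace (ZMod 2) F (b * P.eval a)) := by
    intro a b
    unfold e2 powStr
    rw [← sg_sum, hev, Finset.mul_sum, map_sum]
    congr 1
    refine Finset.sum_congr rfl fun i _ => ?_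
    have : b * (c i * a ^ (i : ℕ)) = χ i • (b * a ^ (i : ℕ)) := by
      rw [Algebra.smul_def, hc]
      ring
    rw [this, map_smul, smul_eq_mul]
  have hin : ∀ a : F, ∑ b : F, (∏ i, e2 (χ i) (powStr F n (a, b) i)) =
      if P.eval a = 0 then (Fintype.card F : ℝ) else 0 := by
    intro a
    split_ifs with h
    · simp only [hch, h, mul_zero, map_zero, sg_zero']
      simp
    · simp only [hch]
      exact sum_sg_trace _ h
  unfold mean
  rw [Fintype.sum_prod_type]
  simp only [hin]
  rw [← Finset.sum_filter, Finset.sum_const, nsmul_eq_mul, Fintype.card_prod, Nat.cast_mul]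
  rw [abs_of_nonneg (by positivity)]
  have h3 : ((Finset.univ.filter fun a : F => P.eval a = 0).card : ℝ) ≤ n := by
    exact_mod_cast hroots
  calc ((Finset.univ.filter fun a : F => P.eval a = 0).card : ℝ) * (Fintype.card F : ℝ) /
        ((Fintype.card F : ℝ) * (Fintype.card F : ℝ))
      = ((Finset.univ.filter fun a : F => P.eval a = 0).card : ℝ) / (Fintype.card F : ℝ) := by
        field_simp
    _ ≤ (n : ℝ) / (Fintype.card F : ℝ) := by
        gcongr

end Explicit

theorem biased_powStr (F : Type) [Field F] [Fintype F] [Algebra (ZMod 2) F] (n : ℕ) :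
    Biased (powStr F n) ((n : ℝ) / Fintype.card F) := by
  intro χ hχ
  exact Explicit.main n χ hχ

end Helper4.RC
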