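import Pool.Agent.Helper4.RC.Growth
import Pool.Agent.Helper4.RC.RI
import Pool.Agent.Helper4.RC.Sk

set_option autoImplicit false

/-!
The growth theorem for pairs of runs, for bits and for derivative letters.

Proof sketch. `hN` says `k * (6 * (2 * Λ + n * K ^ 2)) ^ k * (2 * n) ≤ 2 ^ N`, `K = card V ≥ 1` (`q : V`).
`W_pair_le`: `growth` for `prog2 L`, `(q, q)`, `kl_letters isChar_e4 (isKer_cz ..)`, with
`kl e4 (cz z) 0 = wz ((1 + z) / 2)` (`kl_cz_zero`), `c = 3` (`sum_ind_nz`, card 4), `Λ := 2 * Λ`,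
`ν = 2 * n / 2 ^ N` and `ri_pair` (for every `t ≤ n`, `t ≤ n` in the numerator; `z' = (1+z)/2`);
`dist ≤ 1`; `(6 * (2 * Λ)) ^ j ≤ (12 * Λ) ^ k`; `j * (6 * (2 * Λ + n * K ^ 2)) ^ j * ν ≤ 1 ≤ (12 * Λ) ^ k`
(card (V × V) = K ^ 2).
`W_bits_le`: `kl e2 c2 0 = fun _ => 1/2` (`kl_c2`), `c = 1`, `ri_bits`, `ν = n / 2 ^ N`,
`(2 * (Λ + n * K)) ^ j ≤ (6 * (2 * Λ + n * K ^ 2)) ^ k`. `W_mo_le`: `mo_letters`, `sum_ind_none`.
-/

namespace Helper4.RC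

open Finset

section

variable {V : Type} [Fintype V]

/-- The elementary estimate behind all three bounds. -/
private lemma fin_aux {a b B x ν D M : ℝ} {j k : ℕ} (hj : j ≤ k) (ha : 1 ≤ a) (hD : x ≤ 1)
    (hb0 : 0 ≤ b) (hbB : b ≤ B) (hB : 1 ≤ B) (hν0 : 0 ≤ ν) (hν : ν ≤ D / M) (hM : 0 < M)
    (hN : k * B ^ k * D ≤ M) (hD0 : 0 ≤ D) :
    a ^ j * x + j * b ^ j * ν ≤ 2 * a ^ k := by
  have h1 : a ^ j ≤ a ^ k := pow_le_pow_right₀ ha hj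
  have h0 : 0 ≤ a ^ j := by positivity
  have h2 : a ^ j * x ≤ a ^ k := by
    calc a ^ j * x ≤ a ^ j * 1 := mul_le_mul_of_nonneg_left hD h0
      _ ≤ a ^ k := by rw [mul_one]; exact h1
  have h3 : (1 : ℝ) ≤ a ^ k := one_le_pow₀ ha
  have h4 : b ^ j ≤ B ^ k :=
    (pow_le_pow_left₀ hb0 hbB j).trans (pow_le_pow_right₀ hB hj)
  have h5 : (j : ℝ) ≤ k := by exact_mod_cast hj
  have h6 : (j : ℝ) * b ^ j ≤ k * B ^ k :=
    mul_le_mul h5 h4 (by positivity) (by positivity)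
  have h7 : (j : ℝ) * b ^ j * ν ≤ 1 := by
    calc (j : ℝ) * b ^ j * ν ≤ (k * B ^ k) * (D / M) :=
          mul_le_mul h6 hν hν0 (by positivity)
      _ = (k * B ^ k * D) / M := by ring
      _ ≤ 1 := by rw [div_le_one hM]; exact hN
  linarith

theorem W_pair_le (L : ℕ → ZMod 2 → V → V) (q : V) (n Λ N k : ℕ) (hΛ : 1 ≤ Λ)
    (hs : ∀ t ≤ n, (bad L q t Λ).card * 2 ^ N ≤ 2 ^ t)
    (hN : k * (6 * (2 * Λ + n * Fintype.card V ^ 2)) ^ k * (2 * n) ≤ 2 ^ N)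
    (z : ℝ) (h0 : -1 ≤ z) (h1 : z ≤ 1) (j : ℕ) (hj : j ≤ k) (t : ℕ) (ht : t ≤ n) (v : V × V) :
    W (prog2 L) (q, q) (kl e4 (cz z)) nz j t v ≤ 2 * (12 * (Λ : ℝ)) ^ k := by
  have hL := kl_letters isChar_e4 (isKer_cz z h0 h1)
  have hp : kl e4 (cz z) 0 = wz ((1 + z) / 2) := funext fun y => kl_cz_zero z y
  rw [hp] at hL
  have hΛ' : (1 : ℝ) ≤ Λ := by exact_mod_cast hΛ
  have hcard : (Fintype.card (ZMod 2 × ZMod 2) : ℝ) = 4 := by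
    rw [Fintype.card_prod, ZMod.card]; norm_num
  have hc : ∑ κ : ZMod 2 × ZMod 2, ind (nz κ) ≤ 3 := by
    rw [sum_ind_nz, hcard]; norm_num
  have h2N : (0 : ℝ) < 2 ^ N := by positivity
  have hri : ∀ t ≤ n, ∀ v, ri (prog2 L) (q, q) (wz ((1 + z) / 2)) t v ≤
      (2 * (Λ : ℝ)) * dist (prog2 L) (q, q) (wz ((1 + z) / 2)) t v + 2 * n / 2 ^ N := by
    intro t ht v
    refine (ri_pair L q t Λ N (hs t ht) ((1 + z) / 2) (by linarith) (by linarith) v).trans ?_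
    have : (2 : ℝ) * t / 2 ^ N ≤ 2 * n / 2 ^ N := by
      have ht' : (t : ℝ) ≤ n := by exact_mod_cast ht
      gcongr
    linarith
  have hg := growth (prog2 L) (q, q) hL n (2 * (Λ : ℝ)) (2 * n / 2 ^ N) 3 (by linarith)
    (by positivity) (by norm_num) hc hri j t ht v
  have hd := dist_le_one (prog2 L) (q, q) hL.p_nonneg hL.p_sum t v
  have hNR : (k : ℝ) * (6 * (2 * Λ + n * (Fintype.card V : ℝ) ^ 2)) ^ k * (2 * n) ≤ 2 ^ N := by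
    exact_mod_cast hN
  have hcV : (Fintype.card (V × V) : ℝ) = (Fintype.card V : ℝ) ^ 2 := by
    rw [Fintype.card_prod]; push_cast; ring
  rw [hcV] at hg
  have e1 : (2 * 3 * (2 * (Λ : ℝ))) = 12 * Λ := by ring
  have e2 : (2 * 3 * (2 * (Λ : ℝ) + n * (Fintype.card V : ℝ) ^ 2)) =
      6 * (2 * Λ + n * (Fintype.card V : ℝ) ^ 2) := by ring
  rw [e1, e2] at hg
  have hnV : (0 : ℝ) ≤ n * (Fintype.card V : ℝ) ^ 2 := by positivity
  refine hg.trans (fin_aux hj (by linarith) hd (by positivity) le_rfl (by linarith)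
    (by positivity) le_rfl h2N hNR (by positivity))

private lemma W_half_le {K : Type} [Fintype K] {m : K → ZMod 2 → ℝ} {nt : K → Prop}
    (hL : IsLetters (fun _ : ZMod 2 => (1 / 2 : ℝ)) m nt) (hc : ∑ κ, ind (nt κ) ≤ 1)
    (L : ℕ → ZMod 2 → V → V) (q : V) (n Λ N k : ℕ) (hΛ : 1 ≤ Λ)
    (hs : ∀ t ≤ n, (bad L q t Λ).card * 2 ^ N ≤ 2 ^ t)
    (hN : k * (6 * (2 * Λ + n * Fintype.card V ^ 2)) ^ k * (2 * n) ≤ 2 ^ N)
    (j : ℕ) (hj : j ≤ k) (t : ℕ) (ht : t ≤ n) (v : V) :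
    W L q m nt j t v ≤ 2 * (2 * (Λ : ℝ)) ^ k := by
  have hΛ' : (1 : ℝ) ≤ Λ := by exact_mod_cast hΛ
  have h2N : (0 : ℝ) < 2 ^ N := by positivity
  have hri : ∀ t ≤ n, ∀ v, ri L q (fun _ => 1 / 2) t v ≤
      (Λ : ℝ) * dist L q (fun _ => 1 / 2) t v + n / 2 ^ N := by
    intro t ht v
    refine (ri_bits L q t Λ N (hs t ht) v).trans ?_
    have : (t : ℝ) / 2 ^ N ≤ n / 2 ^ N := by
      have ht' : (t : ℝ) ≤ n := by exact_mod_cast ht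
      gcongr
    linarith
  have hg := growth L q hL n (Λ : ℝ) (n / 2 ^ N) 1 hΛ' (by positivity) le_rfl hc hri j t ht v
  have hd := dist_le_one L q hL.p_nonneg hL.p_sum t v
  have hNR : (k : ℝ) * (6 * (2 * Λ + n * (Fintype.card V : ℝ) ^ 2)) ^ k * (2 * n) ≤ 2 ^ N := by
    exact_mod_cast hN
  have e1 : (2 * 1 * (Λ : ℝ)) = 2 * Λ := by ring
  have e2 : (2 * 1 * ((Λ : ℝ) + n * Fintype.card V)) = 2 * (Λ + n * Fintype.card V) := by ring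
  rw [e1, e2] at hg
  have hK : (1 : ℝ) ≤ Fintype.card V := by
    have : 0 < Fintype.card V := Fintype.card_pos_iff.2 ⟨q⟩
    exact_mod_cast this
  have hn0 : (0 : ℝ) ≤ n := Nat.cast_nonneg _
  have hK2 : (Fintype.card V : ℝ) ≤ (Fintype.card V : ℝ) ^ 2 := by nlinarith
  have hnK : (n : ℝ) * Fintype.card V ≤ n * (Fintype.card V : ℝ) ^ 2 :=
    mul_le_mul_of_nonneg_left hK2 hn0
  have hnK0 : (0 : ℝ) ≤ n * Fintype.card V := by positivity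
  refine hg.trans (fin_aux hj (by linarith) hd (by positivity) ?_ ?_ (by positivity)
    (D := 2 * n) (M := 2 ^ N) ?_ h2N hNR (by positivity))
  · linarith
  · linarith
  · gcongr
    linarith

theorem W_bits_le (L : ℕ → ZMod 2 → V → V) (q : V) (n Λ N k : ℕ) (hΛ : 1 ≤ Λ)
    (hs : ∀ t ≤ n, (bad L q t Λ).card * 2 ^ N ≤ 2 ^ t)
    (hN : k * (6 * (2 * Λ + n * Fintype.card V ^ 2)) ^ k * (2 * n) ≤ 2 ^ N)
    (j : ℕ) (hj : j ≤ k) (t : ℕ) (ht : t ≤ n) (v : V) :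
    W L q (kl e2 c2) nz j t v ≤ 2 * (2 * (Λ : ℝ)) ^ k := by
  have hL := kl_letters isChar_e2 isKer_c2
  have hp : kl e2 c2 0 = fun _ : ZMod 2 => (1 / 2 : ℝ) := by
    funext y
    rw [kl_c2]
    congr 1
    simp [e2, sg]
  rw [hp] at hL
  refine W_half_le hL ?_ L q n Λ N k hΛ hs hN j hj t ht v
  rw [sum_ind_nz, ZMod.card]
  norm_num

theorem W_mo_le (L : ℕ → ZMod 2 → V → V) (q : V) (n Λ N k : ℕ) (hΛ : 1 ≤ Λ)
    (hs : ∀ t ≤ n, (bad L q t Λ).card * 2 ^ N ≤ 2 ^ t)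
    (hN : k * (6 * (2 * Λ + n * Fintype.card V ^ 2)) ^ k * (2 * n) ≤ 2 ^ N)
    (j : ℕ) (hj : j ≤ k) (t : ℕ) (ht : t ≤ n) (v : V) :
    W L q mo (fun κ => κ = none) j t v ≤ 2 * (2 * (Λ : ℝ)) ^ k :=
  W_half_le mo_letters sum_ind_none.le L q n Λ N k hΛ hs hN j hj t ht v

end

end Helper4.RC
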