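import Pool.Agent.Helper4.RC.FK
import Pool.Agent.Helper4.RC.Bounds
import Pool.Agent.Helper4.RC.Tail

set_option autoImplicit false

/-!
The last string.

Proof sketch. Apply `fk` with `S = ZMod 2`, `e2`, `c2`, the program `L`, `G = acc`, `Ω = Θ`,
symbols `ez (str θ)` (`biasedN_bits`). `Phi c2 L q acc n (ez (str θ)) = acc (endSt L q n (str θ))`: only
the word `y = str θ` has nonzero weight. `∑ v, dist L q (kl e2 c2 0) n v * acc v = mean of
acc (endSt L q n x)` (`kl_c2`, `e2 0 y = 1`, `pw (1/2) = 1 / 2^n = 1 / card`, `sum_ind_eq`).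
`W ≤ 2 (2 Λ)^k` by `W_bits_le`; `lev L q (kl e2 c2) nz k (t+1) v = lv k (fun x => ind (endSt .. = v))`
(`kl e2 c2 = fun κ y => e2 κ y / 2`, definition of `fc`).
-/

namespace Helper4.RC

open Finset

section

variable {V Θ : Type} [Fintype V] [Fintype Θ] [Nonempty Θ]

private lemma phi_c2 (L : ℕ → ZMod 2 → V → V) (q : V) (acc : V → ℝ) {n : ℕ}
    (x : Fin n → ZMod 2) : Phi c2 L q acc n (ez x) = acc (endSt L q n x) := by
  unfold Phi
  rw [Finset.sum_eq_single x]
  · have h : ∀ i : Fin n, c2 (ez x i) (x i) = 1 := by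
      intro i
      unfold c2 ez
      rw [dif_pos i.2, if_pos rfl]
    rw [Finset.prod_congr rfl fun i _ => h i]
    simp
  · intro y _ hy
    obtain ⟨i, hi⟩ : ∃ i, y i ≠ x i := by
      by_contra hcon
      push Not at hcon
      exact hy (funext hcon)
    have h : c2 (ez x i) (y i) = 0 := by
      unfold c2 ez
      rw [dif_pos i.2, if_neg hi]
    rw [Finset.prod_eq_zero (Finset.mem_univ i) h, zero_mul]
  · intro h
    exact absurd (Finset.mem_univ _) h

private lemma kl_c2_zero (y : ZMod 2) : kl e2 c2 0 y = 1 / 2 := by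
  rw [kl_c2]
  simp [e2, sg]

private lemma dist_mean (L : ℕ → ZMod 2 → V → V) (q : V) (acc : V → ℝ) (n : ℕ) :
    ∑ v, dist L q (kl e2 c2 0) n v * acc v =
      mean fun x : Fin n → ZMod 2 => acc (endSt L q n x) := by
  unfold dist mean
  have hpw : ∀ y : Fin n → ZMod 2, pw (kl e2 c2 0) y = 1 / 2 ^ n := by
    intro y
    unfold pw
    simp only [kl_c2_zero]
    rw [Finset.prod_const, Finset.card_univ, Fintype.card_fin, div_pow, one_pow]
  have hcard : (Fintype.card (Fin n → ZMod 2) : ℝ) = 2 ^ n := by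
    rw [Fintype.card_fun, Fintype.card_fin, ZMod.card]
    push_cast
    rfl
  simp only [hpw, Finset.sum_mul]
  rw [Finset.sum_comm, hcard, Finset.sum_div]
  refine Finset.sum_congr rfl fun y _ => ?_
  have h := sum_ind_eq (endSt L q n y) acc
  calc ∑ v, 1 / 2 ^ n * ind (endSt L q n y = v) * acc v
      = 1 / 2 ^ n * ∑ v, ind (endSt L q n y = v) * acc v := by
        rw [Finset.mul_sum]
        exact Finset.sum_congr rfl fun v _ => by ring
    _ = acc (endSt L q n y) / 2 ^ n := by rw [h]; ring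

private lemma lev_lv (L : ℕ → ZMod 2 → V → V) (q : V) (k t : ℕ) (v : V) :
    lev L q (kl e2 c2) nz k t v = lv k (fun x : Fin t → ZMod 2 => ind (endSt L q t x = v)) := by
  have h : (kl e2 c2 : ZMod 2 → ZMod 2 → ℝ) = fun κ y => e2 κ y / 2 := by
    funext κ y
    exact kl_c2 κ y
  unfold lev lv fc vec
  rw [h]

theorem last_step (L : ℕ → ZMod 2 → V → V) (q : V) (acc : V → ℝ) (hacc : ∀ v, |acc v| ≤ 1)
    (n Λ N k : ℕ) (hΛ : 1 ≤ Λ) (hk : 1 ≤ k)
    (hs : ∀ t ≤ n, (bad L q t Λ).card * 2 ^ N ≤ 2 ^ t)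
    (hN : k * (6 * (2 * Λ + n * Fintype.card V ^ 2)) ^ k * (2 * n) ≤ 2 ^ N)
    (str : Θ → Fin n → ZMod 2) (δ : ℝ) (hδ : 0 ≤ δ) (hstr : Biased str δ) :
    |(mean fun θ => acc (endSt L q n (str θ))) -
      mean fun x : Fin n → ZMod 2 => acc (endSt L q n x)| ≤
      δ * (k * Fintype.card V * (2 * (2 * (Λ : ℝ)) ^ k)) +
        ∑ t ∈ range n, ∑ v, √(lv k (fun x : Fin (t + 1) → ZMod 2 => ind (endSt L q (t + 1) x = v)) +
          δ * (2 * (2 * (Λ : ℝ)) ^ k) ^ 2) := by
  have h := fk isChar_e2 isKer_c2 L q acc hacc k hk n hδ (biasedN_bits hstr)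
  rw [dist_mean] at h
  simp only [phi_c2] at h
  have hB0 : 0 ≤ 2 * (2 * (Λ : ℝ)) ^ k := by positivity
  refine h.trans (add_le_add ?_ ?_)
  · refine mul_le_mul_of_nonneg_left ?_ hδ
    calc ∑ j ∈ Ico 1 k, ∑ v, W L q (kl e2 c2) nz j n v
        ≤ ∑ j ∈ Ico 1 k, ∑ _v : V, 2 * (2 * (Λ : ℝ)) ^ k := by
          refine Finset.sum_le_sum fun j hj => Finset.sum_le_sum fun v _ => ?_
          exact W_bits_le L q n Λ N k hΛ hs hN j (Finset.mem_Ico.1 hj).2.le n le_rfl v
      _ = ((k - 1 : ℕ) : ℝ) * (Fintype.card V * (2 * (2 * (Λ : ℝ)) ^ k)) := by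
          simp only [Finset.sum_const, Finset.card_univ, nsmul_eq_mul, Nat.card_Ico]
      _ ≤ (k : ℝ) * (Fintype.card V * (2 * (2 * (Λ : ℝ)) ^ k)) := by
          refine mul_le_mul_of_nonneg_right ?_ (by positivity)
          exact_mod_cast Nat.sub_le k 1
      _ = k * Fintype.card V * (2 * (2 * (Λ : ℝ)) ^ k) := by ring
  · refine Finset.sum_le_sum fun t ht => Finset.sum_le_sum fun v _ => ?_
    refine Real.sqrt_le_sqrt ?_
    rw [lev_lv]
    refine add_le_add le_rfl (mul_le_mul_of_nonneg_left ?_ hδ)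
    have hW : W L q (kl e2 c2) nz k (t + 1) v ≤ 2 * (2 * (Λ : ℝ)) ^ k :=
      W_bits_le L q n Λ N k hΛ hs hN k le_rfl (t + 1) (Finset.mem_range.1 ht) v
    have hW0 : 0 ≤ W L q (kl e2 c2) nz k (t + 1) v := by
      unfold W
      refine Finset.sum_nonneg fun χ _ => ?_
      split_ifs
      · exact abs_nonneg _
      · exact le_rfl
    exact pow_le_pow_left₀ hW0 hW 2

end

end Helper4.RC
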