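import Pool.Agent.Helper4.RC.Comp
import Pool.Agent.Helper45.KR.Main

set_option autoImplicit false

/-!
The theorem of Krohn and Rhodes for aperiodic monoids
(from `Pool.Agent.Helper45.KR.krohnRhodesFlat`, proved there by local divisors).
-/

namespace Helper4.RC

theorem kr (M : Type) [Monoid M] [Finite M] (hM : ∀ x : M, ∃ k : ℕ, x ^ (k + 1) = x ^ k) :
    ∃ w : ℕ, 1 ≤ w ∧ Comp w (fun l : List M => l.prod) := by
  obtain ⟨m, g, s0, out, hg, H⟩ := Pool.Agent.Helper45.KR.krohnRhodesFlat M hM
    (max 2 (Nat.card M)) (le_max_left _ _) (le_max_right _ _)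
  refine ⟨max 2 (Nat.card M), by omega, m,
    fun a => ⟨fun j q => g j a q, fun j q q' h => hg j a q q' h⟩, s0, out, fun l => ?_⟩
  exact H l

end Helper4.RC
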