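import Pool.Agent.Helper4.RC.ParamsA

set_option autoImplicit false

/-!
The choice of the parameters for all `L ≥ 1` and all large constants `C`.
-/

namespace Helper4.RC

lemma cube_le_two_pow (P : ℕ) (hP : 2 ≤ P) : (2 + P) ^ 3 ≤ 2 ^ (P + 7) := by
  induction P, hP using Nat.le_induction with
  | base => norm_num
  | succ P hP ih =>
    have e : 2 ^ (P + 1 + 7) = 2 * 2 ^ (P + 7) := by ring
    rw [e]
    refine le_trans ?_ (Nat.mul_le_mul_left 2 ih)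
    obtain ⟨j, rfl⟩ := Nat.exists_eq_add_of_le hP
    ring_nf
    nlinarith [sq_nonneg j]

/-- Exponentials beat quadratic polynomials. -/
lemma exists_sq_le_two_pow (C₁ L₀ : ℕ) : ∃ P₀ : ℕ, L₀ ≤ P₀ ∧ ∀ P : ℕ, P₀ ≤ P →
    C₁ * (2 + P) ^ 2 ≤ 2 ^ P := by
  refine ⟨L₀ + (128 * C₁ + 2), by omega, ?_⟩
  intro P hP
  have h1 := cube_le_two_pow P (by omega)
  have h2 : 128 * C₁ ≤ 2 + P := by omega
  have h3 : C₁ * (2 + P) ^ 2 * (2 + P) ≤ 2 ^ P * (2 + P) := by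
    calc C₁ * (2 + P) ^ 2 * (2 + P) = C₁ * (2 + P) ^ 3 := by ring
      _ ≤ C₁ * 2 ^ (P + 7) := Nat.mul_le_mul_left _ h1
      _ = 2 ^ P * (128 * C₁) := by ring
      _ ≤ 2 ^ P * (2 + P) := Nat.mul_le_mul_left _ h2
  exact Nat.le_of_mul_le_mul_right h3 (by omega)

theorem params' (m Cs : ℕ) (hCs : 1 ≤ Cs) : ∃ C₀ : ℕ, ∀ C : ℕ, C₀ ≤ C → ∀ L n w s : ℕ,
    1 ≤ L → 1 ≤ n → 1 ≤ w →
    n * w * 2 ^ s ≤ C * 2 ^ L → ∀ δ : ℝ, 0 ≤ δ → δ * 2 ^ (C * L * (Nat.log 2 L + 1)) ≤ n →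
    ∃ N k k' : ℕ, 1 ≤ N ∧ n + 1 ≤ 2 ^ N ∧ 1 ≤ k ∧ k ≤ k' ∧
      k' * (6 * (2 * (Cs * N ^ Cs) + n * (w ^ m) ^ 2)) ^ k' * (2 * n) ≤ 2 ^ N ∧
      errT ((w : ℝ) ^ m) n ((Cs * N ^ Cs : ℕ) : ℝ) k k' (C * (Nat.log 2 L + 1)) δ ≤
        (1 / 2) ^ s := by
  obtain ⟨C₁, L₀, h⟩ := paramsA m Cs hCs
  obtain ⟨P₀, hP₀, hP⟩ := exists_sq_le_two_pow C₁ L₀
  refine ⟨2 ^ P₀, ?_⟩
  intro C hC L n w s hL hn hw hnw δ hδ hδ2
  have hC1 : 1 ≤ C := le_trans (Nat.one_le_two_pow) hC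
  set p : ℕ := Nat.log 2 C with hp
  set P : ℕ := p + 1 with hPdef
  have hCP : C < 2 ^ P := Nat.lt_pow_succ_log_self (by norm_num) C
  have hpC : 2 ^ p ≤ C := Nat.pow_log_le_self 2 (by omega)
  have hp0 : P₀ ≤ p := (Nat.le_log_iff_pow_le (by norm_num) (by omega)).2 hC
  have hquad : C₁ * (1 + P) ^ 2 ≤ C := by
    have := hP p hp0
    have e : 1 + P = 2 + p := by omega
    rw [e]
    exact le_trans this hpC
  set l : ℕ := Nat.log 2 L + 1 with hl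
  have hLl : L < 2 ^ l := Nat.lt_pow_succ_log_self (by norm_num) L
  have hl1 : 1 ≤ l := by omega
  have hlL : l ≤ L := by
    have := Nat.log_lt_self 2 (x := L) (by omega)
    omega
  set l' : ℕ := Nat.log 2 (L + P) + 1 with hl'
  have hl'le : l' ≤ (P + 1) * l := by
    have h1 : L + P < 2 ^ (P + l) := by
      have h2 : P < 2 ^ P := Nat.lt_two_pow_self
      have h3 : L + P ≤ (P + 1) * L := by nlinarith
      calc L + P ≤ (P + 1) * L := h3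
        _ ≤ 2 ^ P * L := Nat.mul_le_mul_right _ h2
        _ < 2 ^ P * 2 ^ l := by
          apply Nat.mul_lt_mul_of_pos_left hLl
          positivity
        _ = 2 ^ (P + l) := by ring
    have h4 : Nat.log 2 (L + P) < P + l := Nat.log_lt_of_lt_pow (by omega) h1
    have h5 : P + l ≤ (P + 1) * l := by nlinarith
    omega
  have hL'le : L + P ≤ (P + 1) * L := by nlinarith
  refine h (L + P) (by omega) (by omega) n w s (C * l) hn hw ?_ ?_ ?_ δ hδ ?_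
  · calc n * w * 2 ^ s ≤ C * 2 ^ L := hnw
      _ ≤ 2 ^ P * 2 ^ L := Nat.mul_le_mul_right _ hCP.le
      _ = 2 ^ (L + P) := by ring
  · calc C₁ * l' ≤ C₁ * ((P + 1) * l) := Nat.mul_le_mul_left _ hl'le
      _ ≤ C₁ * ((1 + P) ^ 2 * l) := by
        apply Nat.mul_le_mul_left
        apply Nat.mul_le_mul_right
        nlinarith
      _ = C₁ * (1 + P) ^ 2 * l := by ring
      _ ≤ C * l := Nat.mul_le_mul_right _ hquad
  · calc C * l ≤ 2 ^ P * 2 ^ L := Nat.mul_le_mul hCP.le (le_trans hlL Nat.lt_two_pow_self.le)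
      _ = 2 ^ (L + P) := by ring
  · refine le_trans ?_ hδ2
    apply mul_le_mul_of_nonneg_left _ hδ
    apply pow_le_pow_right₀ (by norm_num)
    calc C₁ * (L + P) * l' ≤ C₁ * ((P + 1) * L) * ((P + 1) * l) :=
          Nat.mul_le_mul (Nat.mul_le_mul_left _ hL'le) hl'le
      _ = C₁ * (1 + P) ^ 2 * (L * l) := by ring
      _ ≤ C * (L * l) := Nat.mul_le_mul_right _ hquad
      _ = C * L * l := by ring

end Helper4.RC
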