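import Pool.Agent.Helper4.RC.SensDefs
import Pool.Agent.Helper45.RC.SensEnd

set_option autoImplicit false

/-!
The sensitivity of cascades of reset registers, from `Pool.Agent.Helper45.RC.sens_instr`.
-/

namespace Helper4.RC

open Finset
open scoped symmDiff

section

variable {V : Type}

private lemma st_bridge (L : ℕ → ZMod 2 → V → V) (q : V) (y : ℕ → ZMod 2) (X : Finset ℕ) :
    ∀ t : ℕ, (∀ j < t, (y j = 1 ↔ j ∈ X)) →
      st L q y t = Pool.Agent.Helper45.RC.st (Pool.Agent.Helper45.RC.bitTr L) q X t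
  | 0, _ => rfl
  | t + 1, h => by
      show L t (y t) (st L q y t) = Pool.Agent.Helper45.RC.bitTr L t (t ∈ X) _
      rw [st_bridge L q y X t fun j hj => h j (by omega)]
      unfold Pool.Agent.Helper45.RC.bitTr
      have ht := h t (by omega)
      by_cases hX : t ∈ X
      · rw [if_pos hX, ht.mpr hX]
      · rw [if_neg hX]
        rcases Pool.Agent.Helper45.RC.zmod2_cases (y t) with h0 | h1
        · rw [h0]
        · exact absurd (ht.mp h1) hX

private lemma ext0_iff {n : ℕ} (x : Fin n → ZMod 2) (j : ℕ) :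
    ext0 x j = 1 ↔ j ∈ Pool.Agent.Helper45.RC.toSet x := by
  rw [Pool.Agent.Helper45.RC.mem_toSet]
  unfold ext0
  by_cases h : j < n
  · rw [dif_pos h]
    exact ⟨fun h1 => ⟨h, h1⟩, fun ⟨_, h1⟩ => h1⟩
  · rw [dif_neg h]
    constructor
    · intro h1
      exact absurd h1 (by decide)
    · rintro ⟨h1, -⟩
      exact absurd h1 h

private lemma flp_iff {n : ℕ} (x : Fin n → ZMod 2) (i j : ℕ) :
    flp (ext0 x) {i} j = 1 ↔ j ∈ Pool.Agent.Helper45.RC.toSet x ∆ {i} := by
  by_cases h : j = i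
  · subst h
    rw [flp_apply_of_mem (mem_singleton_self j), Pool.Agent.Helper45.RC.mem_flip_self,
      ← ext0_iff]
    rcases Pool.Agent.Helper45.RC.zmod2_cases (ext0 x j) with h0 | h1
    · rw [h0]; decide
    · rw [h1]; decide
  · rw [flp_apply_of_notMem (by rw [mem_singleton]; exact h),
      Pool.Agent.Helper45.RC.mem_flip h, ext0_iff]

private lemma sens_bridge {n : ℕ} (L : ℕ → ZMod 2 → V → V) (q : V) (x : Fin n → ZMod 2)
    (t : ℕ) : sens L q (ext0 x) t =
      Pool.Agent.Helper45.RC.sens (Pool.Agent.Helper45.RC.bitTr L) q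
        (Pool.Agent.Helper45.RC.toSet x) t := by
  classical
  ext i
  unfold sens sen
  simp only [mem_filter, mem_range]
  rw [ Pool.Agent.Helper45.RC.mem_sens,
    st_bridge L q (ext0 x) (Pool.Agent.Helper45.RC.toSet x) t fun j _ => ext0_iff x j,
    st_bridge L q (flp (ext0 x) {i}) (Pool.Agent.Helper45.RC.toSet x ∆ {i}) t
      fun j _ => flp_iff x i j]

end

theorem sens_all (m : ℕ) : ∃ C : ℕ, ∀ N n w : ℕ, 1 ≤ N → n + 1 ≤ 2 ^ N →
    ∀ (c : ℕ → ZMod 2 → Instr m w) (q : Fin m → Fin w),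
      (bad (fun i b => (c i b).act) q n (C * N ^ C)).card * 2 ^ N ≤ 2 ^ n := by
  classical
  obtain ⟨C, hC⟩ := Pool.Agent.Helper45.RC.sens_instr m
  refine ⟨C, fun N n w hN hn c q => ?_⟩
  obtain ⟨Bad, hB1, hB2⟩ := hC w (fun t P => c t (if P then 1 else 0)) q N n hN hn
  refine le_trans (Nat.mul_le_mul_right _ ?_) hB1
  refine card_le_card_of_injOn Pool.Agent.Helper45.RC.toSet ?_
    (Pool.Agent.Helper45.RC.toSet_inj.injOn)
  intro x hx
  rw [mem_coe] at hx
  unfold bad at hx
  rw [mem_filter] at hx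
  obtain ⟨-, t, ht, hlt⟩ := hx
  by_contra hB
  have h1 := hB2 (Pool.Agent.Helper45.RC.toSet x) (Pool.Agent.Helper45.RC.toSet_subset x) hB t ht
  rw [sens_bridge] at hlt
  have h2 : Pool.Agent.Helper45.RC.bitTr (fun i b => (c i b).act) =
      fun t P => (c t (if P then 1 else 0)).act := by
    funext t P s
    unfold Pool.Agent.Helper45.RC.bitTr
    by_cases hP : P
    · simp [hP]
    · simp [hP]
  rw [h2] at hlt
  omega

end Helper4.RC
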