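import Pool.Agent.Helper4.RC.Defs

set_option autoImplicit false

/-!
Tests fooled by the generator, and group-free programs: the definitions.
-/

namespace Helper4.RC

/-- The generator `gen (powStr F n) r` with uniformly random seed (`4 r + 2` elements of the field
`F`) satisfies the test `f` with the same probability as a uniformly random string, up to `ε`. -/
def Fooled (F : Type) [Field F] [Fintype F] [Algebra (ZMod 2) F] (n r : ℕ) (ε : ℝ)
    (f : (Fin n → ZMod 2) → Prop) : Prop :=
  |(mean fun ω : (Fin r → (F × F) × (F × F)) × (F × F) =>
      ind (f (gen (powStr F n) r ω.1 ω.2))) - mean fun x => ind (f x)| ≤ ε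

/-- Every product `g` of transition maps `f i b` satisfies `g ^ (k + 1) = g ^ k` for some `k`: the
monoid generated by the transition maps is aperiodic. -/
def GroupFree {w : ℕ} (f : ℕ → ZMod 2 → Function.End (Fin w)) : Prop :=
  ∀ g ∈ Submonoid.closure {g | ∃ i b, g = f i b}, ∃ k : ℕ, g ^ (k + 1) = g ^ k

end Helper4.RC
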