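import Pool.Agent.Helper4.RC.MainNum
import Pool.Agent.Helper4.RC.SensAll
import Pool.Agent.Helper4.RC.ParamsC
import Pool.Agent.Helper4.RC.Explicit
import Pool.Agent.Helper4.RC.KR
import Pool.Agent.Helper4.RC.Test

set_option autoImplicit false

/-!
The main theorems.
-/

namespace Helper4.RC

open Finset

lemma bad_anti {V : Type} (L : ℕ → ZMod 2 → V → V) (q : V) (n : ℕ) {Λ Λ' : ℕ} (h : Λ ≤ Λ') :
    bad L q n Λ' ⊆ bad L q n Λ := by
  intro x hx
  unfold bad at *
  rw [mem_filter] at *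
  obtain ⟨h1, t, ht, h2⟩ := hx
  exact ⟨h1, t, ht, lt_of_le_of_lt h h2⟩

lemma gen_perm {Θ : Type} {n : ℕ} (str : Θ → Fin n → ZMod 2) (π : Equiv.Perm (Fin n)) (r : ℕ)
    (ρ : Fin r → Θ × Θ) (θ : Θ) :
    gen (fun θ i => str θ (π i)) r ρ θ = fun i => gen str r ρ θ (π i) := by
  induction r with
  | zero => rfl
  | succ r ih =>
    funext i
    simp only [gen, ih]
    rfl

lemma mean_perm {n : ℕ} (π : Equiv.Perm (Fin n)) (f : (Fin n → ZMod 2) → ℝ) :
    (mean fun x : Fin n → ZMod 2 => f fun i => x (π i)) = mean f := by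
  unfold mean
  congr 1
  exact Equiv.sum_comp (Equiv.arrowCongr π.symm (Equiv.refl (ZMod 2))) f

/-- The main theorem for cascades. -/
theorem main_cascade (m : ℕ) : ∃ C₀ : ℕ, ∀ C n w s L : ℕ, C₀ ≤ C → 1 ≤ n → 1 ≤ w → 1 ≤ L →
    n * w * 2 ^ s ≤ C * 2 ^ L →
    ∀ (F : Type) [Field F] [Fintype F] [Algebra (ZMod 2) F],
    2 ^ (C * L * (Nat.log 2 L + 1)) ≤ Fintype.card F →
    ∀ (c : ℕ → ZMod 2 → Instr m w) (q : Fin m → Fin w) (A : Set (Fin m → Fin w))
      (π : Equiv.Perm (Fin n)),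
      Fooled F n (C * (Nat.log 2 L + 1)) ((1 / 2) ^ s) fun x =>
        endSt (fun i b => (c i b).act) q n (fun i => x (π i)) ∈ A := by
  obtain ⟨C', h₀⟩ := sens_all m
  obtain ⟨C₀, hC₀⟩ := params' m (C' + 1) (by omega)
  refine ⟨C₀, ?_⟩
  intro C n w s L hCC hn hw hL h F _ _ _ hF c q A π
  have hδ : (0 : ℝ) ≤ (n : ℝ) / Fintype.card F := by positivity
  have hcard : (0 : ℝ) < Fintype.card F := by exact_mod_cast Fintype.card_pos
  have hδ2 : (n : ℝ) / Fintype.card F * 2 ^ (C * L * (Nat.log 2 L + 1)) ≤ n := by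
    rw [div_mul_eq_mul_div, div_le_iff₀ hcard]
    apply mul_le_mul_of_nonneg_left _ (by positivity)
    exact_mod_cast hF
  obtain ⟨N, k, k', hN1, hN2, hk, hkk, hN, herr⟩ := hC₀ C hCC L n w s hL hn hw h _ hδ hδ2
  unfold Fooled
  refine le_trans ?_ herr
  have hbias := biased_perm (biased_powStr F n) π
  have hs : ∀ t ≤ n, ∀ (c : ℕ → ZMod 2 → Instr m w) (q : Fin m → Fin w),
      (bad (run c) q t ((C' + 1) * N ^ (C' + 1))).card * 2 ^ N ≤ 2 ^ t := by
    intro t ht c q
    refine le_trans ?_ (h₀ N t w hN1 (by omega) c q)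
    apply Nat.mul_le_mul_right
    apply Finset.card_le_card
    apply bad_anti
    exact Nat.mul_le_mul (by omega) (Nat.pow_le_pow_right hN1 (by omega))
  have hΛ : 1 ≤ (C' + 1) * N ^ (C' + 1) := Nat.one_le_iff_ne_zero.2 (by positivity)
  have key := main_num m w n ((C' + 1) * N ^ (C' + 1)) N k k' (C * (Nat.log 2 L + 1)) hΛ hk hkk hs
    hN (fun θ i => powStr F n θ (π i)) _ hδ hbias c q A
  simp only [gen_perm] at key
  rw [mean_perm π fun x => ind (endSt (fun i b => (c i b).act) q n x ∈ A)]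
  exact key

/-- The main theorem for aperiodic monoids. -/
theorem main_monoid (M : Type) [Monoid M] [Finite M] (hM : ∀ x : M, ∃ k : ℕ, x ^ (k + 1) = x ^ k) :
    ∃ C₀ : ℕ, ∀ C n s L : ℕ, C₀ ≤ C → 1 ≤ n → 1 ≤ L → n * 2 ^ s ≤ 2 ^ L →
    ∀ (F : Type) [Field F] [Fintype F] [Algebra (ZMod 2) F],
    2 ^ (C * L * (Nat.log 2 L + 1)) ≤ Fintype.card F →
    ∀ (a : Fin n → ZMod 2 → M) (A : Set M) (π : Equiv.Perm (Fin n)),
      Fooled F n (C * (Nat.log 2 L + 1)) ((1 / 2) ^ s) fun x =>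
        (List.ofFn fun i => a i (x (π i))).prod ∈ A := by
  obtain ⟨w, hw, m, c, q, out, hout⟩ := kr M hM
  obtain ⟨C₀, hC₀⟩ := main_cascade m
  refine ⟨max C₀ w, ?_⟩
  intro C n s L hCC hn hL h F _ _ _ hF a A π
  have h' : n * w * 2 ^ s ≤ C * 2 ^ L := by
    calc n * w * 2 ^ s = w * (n * 2 ^ s) := by ring
      _ ≤ C * 2 ^ L := Nat.mul_le_mul (le_trans (le_max_right _ _) hCC) h
  set c' : ℕ → ZMod 2 → Instr m w := fun i b => if hi : i < n then c (a ⟨i, hi⟩ b) else c 1
    with hc'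
  have hend : ∀ t : ℕ, ∀ ht : t ≤ n, ∀ x : Fin t → ZMod 2,
      endSt (fun i b => (c' i b).act) q t x =
        (List.ofFn fun i : Fin t => a (Fin.castLE ht i) (x i)).foldl (fun s b => (c b).act s) q := by
    intro t
    induction t with
    | zero =>
      intro ht x
      simp [endSt]
    | succ t ih =>
      intro ht x
      rw [endSt, ih (by omega), List.ofFn_succ', List.concat_eq_append, List.foldl_append]
      simp only [List.foldl_cons, List.foldl_nil]
      have : t < n := by omega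
      simp only [hc', this, dif_pos]
      rfl
  have hend' : ∀ x : Fin n → ZMod 2,
      out (endSt (fun i b => (c' i b).act) q n x) = (List.ofFn fun i => a i (x i)).prod := by
    intro x
    rw [hend n le_rfl x, hout]
    rfl
  have key := hC₀ C n w s L (le_trans (le_max_left _ _) hCC) hn hw hL h' F hF c' q
    {st | out st ∈ A} π
  simp only [Set.mem_ofPred_eq, hend'] at key
  exact key

/-- The main theorem for programs of width `w`. -/
theorem main_width (w : ℕ) :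
    ∃ C₀ : ℕ, ∀ C n s L : ℕ, C₀ ≤ C → 1 ≤ n → 1 ≤ L → n * 2 ^ s ≤ 2 ^ L →
    ∀ (F : Type) [Field F] [Fintype F] [Algebra (ZMod 2) F],
    2 ^ (C * L * (Nat.log 2 L + 1)) ≤ Fintype.card F →
    ∀ (f : ℕ → ZMod 2 → Function.End (Fin w)), GroupFree f →
    ∀ (q : Fin w) (A : Set (Fin w)) (π : Equiv.Perm (Fin n)),
      Fooled F n (C * (Nat.log 2 L + 1)) ((1 / 2) ^ s) fun x =>
        endSt (fun i b => f i b) q n (fun i => x (π i)) ∈ A := by
  classical
  have hS : ∀ N : Set (Function.End (Fin w)), ∃ C₀ : ℕ,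
      (∀ g ∈ Submonoid.closure N, ∃ k : ℕ, g ^ (k + 1) = g ^ k) →
      ∀ C n s L : ℕ, C₀ ≤ C → 1 ≤ n → 1 ≤ L → n * 2 ^ s ≤ 2 ^ L →
      ∀ (F : Type) [Field F] [Fintype F] [Algebra (ZMod 2) F],
      2 ^ (C * L * (Nat.log 2 L + 1)) ≤ Fintype.card F →
      ∀ (a : Fin n → ZMod 2 → (Submonoid.closure N)ᵐᵒᵖ) (A : Set (Submonoid.closure N)ᵐᵒᵖ)
        (π : Equiv.Perm (Fin n)),
        Fooled F n (C * (Nat.log 2 L + 1)) ((1 / 2) ^ s) fun x =>
          (List.ofFn fun i => a i (x (π i))).prod ∈ A := by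
    intro N
    by_cases hN : ∀ g ∈ Submonoid.closure N, ∃ k : ℕ, g ^ (k + 1) = g ^ k
    · have : Finite (Function.End (Fin w)) := inferInstanceAs (Finite (Fin w → Fin w))
      have hfin : Finite (Submonoid.closure N)ᵐᵒᵖ :=
        Finite.of_equiv (Submonoid.closure N) MulOpposite.opEquiv
      obtain ⟨C₀, hC₀⟩ := main_monoid (Submonoid.closure N)ᵐᵒᵖ (by
        intro x
        obtain ⟨k, hk⟩ := hN x.unop.1 x.unop.2
        refine ⟨k, ?_⟩
        apply MulOpposite.unop_injective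
        apply Subtype.ext
        simpa using hk)
      exact ⟨C₀, fun _ => hC₀⟩
    · exact ⟨0, fun h => absurd h hN⟩
  choose C₀ hC₀ using hS
  have : Finite (Function.End (Fin w)) := inferInstanceAs (Finite (Fin w → Fin w))
  obtain ⟨B, hB⟩ := Finite.exists_le C₀
  refine ⟨B, ?_⟩
  intro C n s L hBC hn hL h F _ _ _ hF f hf q A π
  set N : Set (Function.End (Fin w)) := {g | ∃ i b, g = f i b} with hN
  have hmem : ∀ i b, f i b ∈ Submonoid.closure N := fun i b =>
    Submonoid.subset_closure ⟨i, b, rfl⟩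
  have key := hC₀ N hf C n s L (le_trans (hB N) hBC) hn hL h F hF
    (fun i b => MulOpposite.op ⟨f i b, hmem i b⟩) {g | g.unop.1 q ∈ A} π
  have hend : ∀ t : ℕ, ∀ x : Fin t → ZMod 2,
      endSt (fun i b => f i b) q t x =
        (List.ofFn fun i : Fin t =>
          (MulOpposite.op ⟨f i (x i), hmem i (x i)⟩ : (Submonoid.closure N)ᵐᵒᵖ)).prod.unop.1 q := by
    intro t
    induction t with
    | zero =>
      intro x
      simp only [endSt, List.ofFn_zero, List.prod_nil]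
      rfl
    | succ t ih =>
      intro x
      rw [endSt, ih, List.ofFn_succ', List.concat_eq_append, List.prod_append]
      simp only [List.prod_cons, List.prod_nil, mul_one]
      rfl
  have hiff : ∀ x : Fin n → ZMod 2,
      (endSt (fun i b => f i b) q n x ∈ A) ↔ (List.ofFn fun i : Fin n =>
          (MulOpposite.op ⟨f i (x i), hmem i (x i)⟩ : (Submonoid.closure N)ᵐᵒᵖ)).prod ∈
            {g : (Submonoid.closure N)ᵐᵒᵖ | g.unop.1 q ∈ A} := by
    intro x
    rw [hend n x]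
    rfl
  simp only [hiff]
  exact key

end Helper4.RC
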