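import Pool.Agent.Helper4.RC.Stab

set_option autoImplicit false

/-!
Small bias strings, layers of restrictions, and the hybrid argument for noise stabilities.

Hints. `biasedN_bits`: for `t ≤ n` and `χ : Fin t → ZMod 2`, `χ ≠ 0`, extend `χ` by zeros to
`Fin n → ZMod 2`; `e2 0 s = 1`; the products over `Fin n` and over `Fin t` agree
(`ext0 x i = x ⟨i, _⟩` for `i < n`). `biasedN_pair`: `e4 (a, b) (s, t) = e2 a s * e2 b t`, so the mean
over `Θ × Θ` of the character is the product of two means; one of the two components of `χ` is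
nonzero, the other factor has absolute value at most `1`. `biased_castLE`, `biased_perm`: same
kind. `mean_cons`: the mean over `Fin (r+1) → Θ × Θ` is an iterated mean (`sum_cn`-like).
`hybrid`: induction on `r` for all `g ∈ 𝒢`, `z`. For `r + 1`: the mean over `ρ` is the mean over
`ab = ρ 0` of the mean over the rest of `stab z` of `g'_ab ∘ lay str r ρ'`, `g'_ab x = g (str a + str b * x)`,
`g'_ab ∈ 𝒢`; by induction the inner mean is `stab (1 - (1-z)/2^r) g'_ab` up to `r ε`; and by `hstep`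
with `z' = 1 - (1-z)/2^r ∈ [1/2, 1]` the mean over `ab` is `stab ((1+z')/2) g` up to `ε`, with
`(1+z')/2 = 1 - (1-z)/2^(r+1)`.
-/

namespace Helper4.RC

open Finset

section

variable {Θ : Type}

/-- `str θ`, `θ` uniformly random, has bias at most `δ`. -/
def Biased {n : ℕ} [Fintype Θ] (str : Θ → Fin n → ZMod 2) (δ : ℝ) : Prop :=
  ∀ χ : Fin n → ZMod 2, χ ≠ 0 → |mean fun θ => ∏ i, e2 (χ i) (str θ i)| ≤ δ

/-- Extension of a word by zeros. -/
def ez {n : ℕ} (x : Fin n → ZMod 2) : ℕ → ZMod 2 := fun i => if h : i < n then x ⟨i, h⟩ else 0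

/-- The `r` levels of restrictions applied to `x`. -/
def lay {n : ℕ} (str : Θ → Fin n → ZMod 2) :
    (r : ℕ) → (Fin r → Θ × Θ) → (Fin n → ZMod 2) → Fin n → ZMod 2
  | 0, _, x => x
  | r + 1, ρ, x => str (ρ 0).1 + str (ρ 0).2 * lay str r (fun j => ρ j.succ) x

theorem gen_eq_lay {n : ℕ} (str : Θ → Fin n → ZMod 2) (r : ℕ) (ρ : Fin r → Θ × Θ) (θ : Θ) :
    gen str r ρ θ = lay str r ρ (str θ) := by
  induction r with
  | zero => rfl
  | succ r ih => rw [gen, lay, ih]

private lemma lay_e2_zero (s : ZMod 2) : e2 0 s = 1 := by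
  unfold e2 sg
  rw [zero_mul, if_pos rfl]

private lemma lay_e2_abs (a s : ZMod 2) : |e2 a s| = 1 := by
  unfold e2 sg
  split_ifs <;> simp

private lemma lay_sg_add (s t : ZMod 2) : sg (s + t) = sg s * sg t := by
  have h : ∀ u : ZMod 2, u = 0 ∨ u = 1 := by decide
  have h2 : (1 + 1 : ZMod 2) = 0 := by decide
  rcases h s with rfl | rfl <;> rcases h t with rfl | rfl <;> simp [sg, h2]

private lemma lay_e4_eq (a b s t : ZMod 2) : e4 (a, b) (s, t) = e2 a s * e2 b t := by
  unfold e4 e2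
  exact lay_sg_add _ _

private lemma lay_mean_prod [Fintype Θ] (f g : Θ → ℝ) :
    (mean fun ab : Θ × Θ => f ab.1 * g ab.2) = mean f * mean g := by
  unfold mean
  rw [Fintype.sum_prod_type, Fintype.card_prod, Nat.cast_mul, div_mul_div_comm,
    Finset.sum_mul_sum]

private lemma lay_mean_abs_le [Fintype Θ] (f : Θ → ℝ) (h : ∀ θ, |f θ| ≤ 1) : |mean f| ≤ 1 := by
  unfold mean
  rw [abs_div, abs_of_nonneg (Nat.cast_nonneg (α := ℝ) (Fintype.card Θ))]
  have h1 : |∑ x, f x| ≤ Fintype.card Θ := by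
    refine (Finset.abs_sum_le_sum_abs _ _).trans ?_
    refine (Finset.sum_le_sum fun x _ => h x).trans ?_
    simp
  exact div_le_one_of_le₀ h1 (Nat.cast_nonneg _)

/-- The extension of a character by zeros. -/
private def lay_ext {n : ℕ} (t : ℕ) (χ : Fin t → ZMod 2) : Fin n → ZMod 2 :=
  fun i => if h : (i : ℕ) < t then χ ⟨i, h⟩ else 0

private lemma lay_ext_ne {n t : ℕ} (ht : t ≤ n) {χ : Fin t → ZMod 2} (hχ : χ ≠ 0) :
    (lay_ext t χ : Fin n → ZMod 2) ≠ 0 := by
  intro h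
  apply hχ
  funext i
  have h1 := congrFun h (Fin.castLE ht i)
  unfold lay_ext at h1
  rw [dif_pos (by simp)] at h1
  simpa using h1

private lemma lay_prod_ext {n t : ℕ} (ht : t ≤ n) (χ : Fin t → ZMod 2) (x : Fin n → ZMod 2) :
    ∏ i, e2 ((lay_ext t χ : Fin n → ZMod 2) i) (x i) =
      ∏ i : Fin t, e2 (χ i) (x (Fin.castLE ht i)) := by
  obtain ⟨s, rfl⟩ := Nat.exists_eq_add_of_le ht
  rw [Fin.prod_univ_add]
  have h1 : ∏ i : Fin s, e2 ((lay_ext t χ : Fin (t + s) → ZMod 2) (Fin.natAdd t i))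
      (x (Fin.natAdd t i)) = 1 := by
    refine Finset.prod_eq_one fun i _ => ?_
    unfold lay_ext
    rw [dif_neg (by simp), lay_e2_zero]
  rw [h1, mul_one]
  refine Finset.prod_congr rfl fun i _ => ?_
  unfold lay_ext
  rw [dif_pos (by simp)]
  rfl

theorem biased_castLE {n t : ℕ} (ht : t ≤ n) [Fintype Θ] {str : Θ → Fin n → ZMod 2} {δ : ℝ}
    (h : Biased str δ) : Biased (fun θ (i : Fin t) => str θ (Fin.castLE ht i)) δ := by
  intro χ hχ
  have h1 := h _ (lay_ext_ne ht hχ)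
  simp only [lay_prod_ext ht] at h1
  exact h1

private lemma lay_chr_ez {n t : ℕ} (ht : t ≤ n) (χ : Fin t → ZMod 2) (x : Fin n → ZMod 2) :
    chr e2 χ (ez x) = ∏ i : Fin t, e2 (χ i) (x (Fin.castLE ht i)) := by
  unfold chr
  refine Finset.prod_congr rfl fun i _ => ?_
  unfold ez
  rw [dif_pos (lt_of_lt_of_le i.2 ht)]
  rfl

theorem biasedN_bits {n : ℕ} [Fintype Θ] {str : Θ → Fin n → ZMod 2} {δ : ℝ}
    (h : Biased str δ) : BiasedN e2 (fun θ => ez (str θ)) n δ := by
  intro t ht χ hχ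
  have h1 := biased_castLE ht h χ hχ
  simp only [lay_chr_ez ht]
  exact h1

private lemma lay_chr_pair {t : ℕ} (χ : Fin t → ZMod 2 × ZMod 2) (u v : ℕ → ZMod 2) :
    chr e4 χ (fun i => (u i, v i)) =
      chr e2 (fun i => (χ i).1) u * chr e2 (fun i => (χ i).2) v := by
  unfold chr
  rw [← Finset.prod_mul_distrib]
  refine Finset.prod_congr rfl fun i _ => ?_
  exact lay_e4_eq _ _ _ _

private lemma lay_chr_abs {t : ℕ} (χ : Fin t → ZMod 2) (u : ℕ → ZMod 2) : |chr e2 χ u| ≤ 1 := by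
  unfold chr
  rw [Finset.abs_prod]
  refine le_of_eq (Finset.prod_eq_one fun i _ => lay_e2_abs _ _)

theorem biasedN_pair {n : ℕ} [Fintype Θ] {str : Θ → Fin n → ZMod 2} {δ : ℝ} (hδ : 0 ≤ δ)
    (h : Biased str δ) :
    BiasedN e4 (fun ab : Θ × Θ => fun i => (ez (str ab.1) i, ez (str ab.2) i)) n δ := by
  intro t ht χ hχ
  have hb := biasedN_bits h
  simp only [lay_chr_pair]
  rw [lay_mean_prod (fun a => chr e2 (fun i => (χ i).1) (ez (str a)))
    (fun b => chr e2 (fun i => (χ i).2) (ez (str b))), abs_mul]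
  by_cases h1 : (fun i => (χ i).1) = 0
  · have h2 : (fun i => (χ i).2) ≠ 0 := by
      intro h2
      apply hχ
      funext i
      exact Prod.ext (congrFun h1 i) (congrFun h2 i)
    have h3 := hb t ht _ h2
    have h4 := lay_mean_abs_le (fun a => chr e2 (fun i => (χ i).1) (ez (str a)))
      fun θ => lay_chr_abs _ _
    calc _ ≤ 1 * δ := mul_le_mul h4 h3 (abs_nonneg _) zero_le_one
      _ = δ := one_mul _
  · have h3 := hb t ht _ h1
    have h4 := lay_mean_abs_le (fun b => chr e2 (fun i => (χ i).2) (ez (str b)))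
      fun θ => lay_chr_abs _ _
    calc _ ≤ δ * 1 := mul_le_mul h3 h4 (abs_nonneg _) hδ
      _ = δ := mul_one _

theorem biased_perm {n : ℕ} [Fintype Θ] {str : Θ → Fin n → ZMod 2} {δ : ℝ}
    (h : Biased str δ) (π : Equiv.Perm (Fin n)) : Biased (fun θ i => str θ (π i)) δ := by
  intro χ hχ
  have h1 : (fun i => χ (π.symm i)) ≠ 0 := by
    intro h1
    apply hχ
    funext i
    have h2 := congrFun h1 (π i)
    simpa using h2
  have h2 := h _ h1
  have h3 : ∀ θ, ∏ i, e2 (χ (π.symm i)) (str θ i) = ∏ i, e2 (χ i) (str θ (π i)) := by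
    intro θ
    rw [← Equiv.prod_comp π fun i => e2 (χ (π.symm i)) (str θ i)]
    simp
  simp only [h3] at h2
  exact h2

private lemma lay_mean_cons [Fintype Θ] {r : ℕ} (f : (Fin (r + 1) → Θ × Θ) → ℝ) :
    mean f = mean fun ab : Θ × Θ => mean fun ρ : Fin r → Θ × Θ => f (cn ab ρ) := by
  unfold mean
  rw [sum_cn, Finset.sum_div]
  rw [Finset.sum_div]
  refine Finset.sum_congr rfl fun ab _ => ?_
  rw [div_div]
  congr 1
  simp only [Fintype.card_pi, Finset.prod_const, Finset.card_univ, Fintype.card_fin]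
  push_cast
  ring

private lemma lay_mean_sub_le [Fintype Θ] [Nonempty Θ] (f g : Θ → ℝ) (c : ℝ)
    (h : ∀ θ, |f θ - g θ| ≤ c) : |mean f - mean g| ≤ c := by
  have h0 : (0 : ℝ) < Fintype.card Θ := by exact_mod_cast Fintype.card_pos
  unfold mean
  rw [← sub_div, abs_div, abs_of_pos h0, div_le_iff₀ h0, ← Finset.sum_sub_distrib]
  refine (Finset.abs_sum_le_sum_abs _ _).trans ?_
  refine (Finset.sum_le_sum fun x _ => h x).trans ?_
  simp [mul_comm]

theorem hybrid {n : ℕ} [Fintype Θ] [Nonempty Θ] (str : Θ → Fin n → ZMod 2)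
    (𝒢 : Set ((Fin n → ZMod 2) → ℝ))
    (hc : ∀ g ∈ 𝒢, ∀ D T : Fin n → ZMod 2, (fun x => g (D + T * x)) ∈ 𝒢) (ε : ℝ)
    (hstep : ∀ g ∈ 𝒢, ∀ z : ℝ, 1 / 2 ≤ z → z ≤ 1 →
      |(mean fun ab : Θ × Θ => stab z fun x => g (str ab.1 + str ab.2 * x)) -
        stab ((1 + z) / 2) g| ≤ ε) (r : ℕ) :
    ∀ g ∈ 𝒢, ∀ z : ℝ, 1 / 2 ≤ z → z ≤ 1 →
      |(mean fun ρ : Fin r → Θ × Θ => stab z fun x => g (lay str r ρ x)) -
        stab (1 - (1 - z) / 2 ^ r) g| ≤ r * ε := by
  induction r with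
  | zero =>
    intro g hg z hz hz1
    have h1 : (mean fun ρ : Fin 0 → Θ × Θ => stab z fun x => g (lay str 0 ρ x)) = stab z g := by
      unfold mean
      simp [lay]
    rw [h1]
    simp
  | succ r ih =>
    intro g hg z hz hz1
    have hp : (1 : ℝ) ≤ 2 ^ r := one_le_pow₀ (by norm_num)
    have hp0 : (0 : ℝ) < 2 ^ r := by positivity
    set z' : ℝ := 1 - (1 - z) / 2 ^ r with hz'
    have h1 : (1 - z) / 2 ^ r ≤ 1 - z := div_le_self (by linarith) hp
    have h2 : 0 ≤ (1 - z) / 2 ^ r := div_nonneg (by linarith) hp0.le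
    have hz'1 : 1 / 2 ≤ z' := by rw [hz']; linarith
    have hz'2 : z' ≤ 1 := by rw [hz']; linarith
    have h3 : (1 + z') / 2 = 1 - (1 - z) / 2 ^ (r + 1) := by
      rw [hz', pow_succ]
      field_simp
      ring
    have h4 := hstep g hg z' hz'1 hz'2
    rw [h3] at h4
    have h5 : |(mean fun ab : Θ × Θ => mean fun ρ : Fin r → Θ × Θ =>
        stab z fun x => g (str ab.1 + str ab.2 * lay str r ρ x)) -
        (mean fun ab : Θ × Θ => stab z' fun x => g (str ab.1 + str ab.2 * x))| ≤ r * ε := by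
      refine lay_mean_sub_le _ _ _ fun ab => ?_
      exact ih _ (hc g hg (str ab.1) (str ab.2)) z hz hz1
    rw [lay_mean_cons]
    have h6 : (mean fun ab : Θ × Θ => mean fun ρ : Fin r → Θ × Θ =>
        stab z fun x => g (lay str (r + 1) (cn ab ρ) x)) =
        mean fun ab : Θ × Θ => mean fun ρ : Fin r → Θ × Θ =>
        stab z fun x => g (str ab.1 + str ab.2 * lay str r ρ x) := rfl
    rw [h6]
    have h7 := abs_sub_le (mean fun ab : Θ × Θ => mean fun ρ : Fin r → Θ × Θ =>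
        stab z fun x => g (str ab.1 + str ab.2 * lay str r ρ x))
        (mean fun ab : Θ × Θ => stab z' fun x => g (str ab.1 + str ab.2 * x))
        (stab (1 - (1 - z) / 2 ^ (r + 1)) g)
    push_cast
    linarith

end

end Helper4.RC
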