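import Pool.Agent.Helper4.RC.Basic

set_option autoImplicit false

/-!
Tensorization of a site inequality for the squares of the coefficients.

Proof sketch. `tensor` by induction on `n` (for all `f`), with the first letter (`sum_cn`, `mw_cn`,
`pw_cn`, `Fin.prod_univ_succ`): for `κ : K` let `F κ y' = ∑ a, m κ a * f (cn a y')`, then
`∑ y, mw m (cn κ χ') y * f y = ∑ y', mw m χ' y' * F κ y'`, so the left side is
`∑ κ, lam κ * ∑ χ', (∏ i, lam (χ' i)) * (∑ y', mw m χ' y' * F κ y')^2 ≤ ∑ κ, lam κ * ∑ y', pw p y' * (F κ y')^2`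
`= ∑ y', pw p y' * ∑ κ, lam κ * (F κ y')^2 ≤ ∑ y', pw p y' * ∑ a, p a * (f (cn a y'))^2` (site
inequality for `h a = f (cn a y')`).
`lev_le`: `lam κ = lam` if `nt κ` and `1` otherwise, `∏ i, lam (χ i) = lam ^ cnt nt χ`; the
functions `f y = ind (endSt L q n y = v)` have `f^2 = f`, and `dist ≤ 1`.
-/

namespace Helper4.RC

open Finset

section

variable {Y V K : Type} [Fintype Y] [Fintype V] [Fintype K]

theorem tensor (p : Y → ℝ) (m : K → Y → ℝ) (lam : K → ℝ) (hlam : ∀ κ, 0 ≤ lam κ)
    (hp : ∀ y, 0 ≤ p y)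
    (site : ∀ h : Y → ℝ, ∑ κ, lam κ * (∑ y, m κ y * h y) ^ 2 ≤ ∑ y, p y * h y ^ 2) (n : ℕ)
    (f : (Fin n → Y) → ℝ) :
    ∑ χ : Fin n → K, (∏ i, lam (χ i)) * (∑ y, mw m χ y * f y) ^ 2 ≤
      ∑ y : Fin n → Y, pw p y * f y ^ 2 := by
  induction n with
  | zero =>
    apply le_of_eq
    simp [mw, pw]
  | succ n ih =>
    have hin : ∀ (κ : K) (χ : Fin n → K),
        ∑ y, mw m (cn κ χ) y * f y = ∑ y, mw m χ y * ∑ a, m κ a * f (cn a y) := by
      intro κ χ
      rw [sum_cn, Finset.sum_comm]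
      refine Finset.sum_congr rfl fun y _ => ?_
      rw [Finset.mul_sum]
      refine Finset.sum_congr rfl fun a _ => ?_
      rw [mw_cn]
      ring
    have hprod : ∀ (κ : K) (χ : Fin n → K),
        ∏ i, lam (cn κ χ i) = lam κ * ∏ i, lam (χ i) := by
      intro κ χ
      rw [Fin.prod_univ_succ]
      rfl
    calc ∑ χ : Fin (n + 1) → K, (∏ i, lam (χ i)) * (∑ y, mw m χ y * f y) ^ 2
        = ∑ κ, lam κ * ∑ χ : Fin n → K, (∏ i, lam (χ i)) *
            (∑ y, mw m χ y * ∑ a, m κ a * f (cn a y)) ^ 2 := by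
          rw [sum_cn]
          refine Finset.sum_congr rfl fun κ _ => ?_
          rw [Finset.mul_sum]
          refine Finset.sum_congr rfl fun χ _ => ?_
          rw [hprod, hin]
          ring
      _ ≤ ∑ κ, lam κ * ∑ y : Fin n → Y, pw p y * (∑ a, m κ a * f (cn a y)) ^ 2 :=
          Finset.sum_le_sum fun κ _ => mul_le_mul_of_nonneg_left
            (ih fun y => ∑ a, m κ a * f (cn a y)) (hlam κ)
      _ = ∑ y : Fin n → Y, pw p y * ∑ κ, lam κ * (∑ a, m κ a * f (cn a y)) ^ 2 := by
          simp only [Finset.mul_sum]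
          rw [Finset.sum_comm]
          refine Finset.sum_congr rfl fun y _ => Finset.sum_congr rfl fun κ _ => ?_
          ring
      _ ≤ ∑ y : Fin n → Y, pw p y * ∑ a, p a * f (cn a y) ^ 2 :=
          Finset.sum_le_sum fun y _ => mul_le_mul_of_nonneg_left
            (site fun a => f (cn a y)) (pw_nonneg hp y)
      _ = ∑ y : Fin (n + 1) → Y, pw p y * f y ^ 2 := by
          rw [sum_cn, Finset.sum_comm]
          refine Finset.sum_congr rfl fun y _ => ?_
          rw [Finset.mul_sum]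
          refine Finset.sum_congr rfl fun a _ => ?_
          rw [pw_cn]
          ring

theorem lev_le (L : ℕ → Y → V → V) (q : V) (p : Y → ℝ) (m : K → Y → ℝ) (nt : K → Prop)
    (lam : ℝ) (hlam : 0 ≤ lam) (hp : ∀ y, 0 ≤ p y) (hs : ∑ y, p y = 1)
    (site : ∀ h : Y → ℝ, ∑ κ, (1 + ind (nt κ) * (lam - 1)) * (∑ y, m κ y * h y) ^ 2 ≤
      ∑ y, p y * h y ^ 2) (k n : ℕ) (v : V) :
    lam ^ k * lev L q m nt k n v ≤ 1 := by
  have hl : ∀ κ, 0 ≤ 1 + ind (nt κ) * (lam - 1) := by
    intro κ
    by_cases h : nt κ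
    · rw [ind_true h]
      linarith
    · rw [ind_false h]
      linarith
  have hpow : ∀ χ : Fin n → K, ∏ i, (1 + ind (nt (χ i)) * (lam - 1)) = lam ^ cnt nt χ := by
    intro χ
    unfold cnt
    rw [← Finset.prod_pow_eq_pow_sum]
    refine Finset.prod_congr rfl fun i _ => ?_
    by_cases h : nt (χ i)
    · rw [ind_true h, nind_true h]
      ring
    · rw [ind_false h, nind_false h]
      ring
  have ht := tensor p m (fun κ => 1 + ind (nt κ) * (lam - 1)) hl hp site n
    fun y => ind (endSt L q n y = v)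
  calc lam ^ k * lev L q m nt k n v
      ≤ ∑ χ : Fin n → K, (∏ i, (1 + ind (nt (χ i)) * (lam - 1))) *
          (∑ y, mw m χ y * ind (endSt L q n y = v)) ^ 2 := by
        unfold lev
        rw [Finset.mul_sum]
        refine Finset.sum_le_sum fun χ _ => ?_
        rw [hpow]
        by_cases h : cnt nt χ = k
        · rw [if_pos h, h]
          exact le_of_eq rfl
        · rw [if_neg h, mul_zero]
          exact mul_nonneg (pow_nonneg hlam _) (sq_nonneg _)
    _ ≤ ∑ y : Fin n → Y, pw p y * ind (endSt L q n y = v) ^ 2 := ht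
    _ = dist L q p n v := by
        unfold dist
        refine Finset.sum_congr rfl fun y _ => ?_
        congr 1
        by_cases h : endSt L q n y = v
        · rw [ind_true h]
          ring
        · rw [ind_false h]
          ring
    _ ≤ 1 := dist_le_one L q hp hs n v

end

end Helper4.RC
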