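import Pool.Agent.Helper4.RC.Chars

set_option autoImplicit false

/-!
Mean values over symbols of small bias.

Proof sketch. `mean` is linear and monotone, `|mean f| ≤ mean |f|`, and `(mean f)^2 ≤ mean (f^2)`
(Cauchy-Schwarz; if `Ω` is empty `mean f = 0`).
(1) `Pj_zero`: `cnt nz χ = 0` iff `χ = 0`, `chr e 0 σ = 1`, `vec L q m 0 v = dist L q (m 0) t v`
(`mw m 0 y = pw (m 0) y`).
(2) `mean_Pj_le`: exchange the sums; for `cnt nz χ = j ≥ 1` we have `χ ≠ 0`.
(3) `mean_Qt_le`: `Qt k t σ v = ∑ χ : Fin (t+1) → S, b χ * chr e χ σ` with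
`b χ = vec L q m χ v` if `cnt nz χ = k` and the last letter is nonzero, and `b χ = 0` otherwise
(`sum_sn`, `cnt_sn`). `chr e χ σ * chr e χ' σ = chr e (χ + χ') σ` (`add_left`) and
`χ + χ' ≠ 0` for `χ ≠ χ'` needs `χ' + χ' = 0`: this follows from the pairing: `e (a + a) s = 1` for
all `s` by `add_left`, `sq`, so `a + a = 0` by `sum_left` (else `∑ s, e (a+a) s = 0`, but it is
`card S ≠ 0`). So
`mean (Qt ^ 2) = ∑ χ, ∑ χ', b χ * b χ' * mean (chr e (χ + χ') (σ ω)) ≤ ∑ χ, (b χ)^2 + δ (∑ χ, |b χ|)^2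
≤ lev k (t+1) v + δ (W k (t+1) v)^2`, and `mean |Qt| ≤ √(mean (Qt ^ 2))`.
For `Ω` empty all means are `0` (then `mean (chr e 0 σ) = 0`, use `≤ 1`).
-/

namespace Helper4.RC

open Finset

namespace FKexp

section mean

variable {Ω : Type} [Fintype Ω]

lemma mean_sum {I : Type} (s : Finset I) (f : I → Ω → ℝ) :
    (mean fun ω => ∑ i ∈ s, f i ω) = ∑ i ∈ s, mean (f i) := by
  unfold mean
  rw [Finset.sum_comm, Finset.sum_div]

lemma mean_mul (c : ℝ) (f : Ω → ℝ) : (mean fun ω => c * f ω) = c * mean f := by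
  unfold mean
  rw [← Finset.mul_sum, mul_div_assoc]

lemma mean_zero : (mean fun _ : Ω => (0 : ℝ)) = 0 := by
  unfold mean
  simp

lemma mean_one_le : (mean fun _ : Ω => (1 : ℝ)) ≤ 1 := by
  unfold mean
  rw [Finset.sum_const, Finset.card_univ, nsmul_eq_mul, mul_one]
  exact div_self_le_one _

lemma mean_one_nonneg : 0 ≤ (mean fun _ : Ω => (1 : ℝ)) := by
  unfold mean
  positivity

lemma sq_mean_le (f : Ω → ℝ) : (mean f) ^ 2 ≤ mean fun ω => f ω ^ 2 := by
  unfold mean
  rcases Nat.eq_zero_or_pos (Fintype.card Ω) with h | h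
  · rw [h]
    simp
  · have h' : (0 : ℝ) < Fintype.card Ω := by exact_mod_cast h
    rw [div_pow, div_le_div_iff₀ (by positivity) h']
    have h2 := sq_sum_le_card_mul_sum_sq (s := (Finset.univ : Finset Ω)) (f := f)
    rw [Finset.card_univ] at h2
    nlinarith

end mean

section

variable {S : Type} [AddCommGroup S] [Fintype S]

lemma cnt_eq_zero {t : ℕ} (χ : Fin t → S) : cnt nz χ = 0 ↔ χ = 0 := by
  unfold cnt
  rw [Finset.sum_eq_zero_iff]
  constructor
  · intro h
    funext i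
    by_contra hi
    have := h i (Finset.mem_univ i)
    rw [nind_true (P := nz (χ i)) hi] at this
    exact one_ne_zero this
  · intro h i _
    rw [h]
    exact nind_false (fun h' : nz ((0 : Fin t → S) i) => h' rfl)

lemma chr_zero {e : S → S → ℝ} (he : IsChar e) {t : ℕ} (σ : ℕ → S) :
    chr e (0 : Fin t → S) σ = 1 := by
  unfold chr
  apply Finset.prod_eq_one
  intro i _
  exact he.zero_left _

lemma chr_add {e : S → S → ℝ} (he : IsChar e) {t : ℕ} (χ χ' : Fin t → S) (σ : ℕ → S) :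
    chr e (χ + χ') σ = chr e χ σ * chr e χ' σ := by
  unfold chr
  rw [← Finset.prod_mul_distrib]
  exact Finset.prod_congr rfl fun i _ => he.add_left _ _ _

lemma add_self {e : S → S → ℝ} (he : IsChar e) (a : S) : a + a = 0 := by
  by_contra h
  have h1 := he.sum_left (a + a) h
  have h2 : ∀ s, e (a + a) s = 1 := fun s => by rw [he.add_left, he.sq]
  rw [Finset.sum_congr rfl fun s _ => h2 s, Finset.sum_const, Finset.card_univ, nsmul_eq_mul,
    mul_one] at h1
  have h3 : Fintype.card S ≠ 0 := Fintype.card_ne_zero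
  exact h3 (by exact_mod_cast h1)

lemma add_ne {e : S → S → ℝ} (he : IsChar e) {t : ℕ} {χ χ' : Fin t → S} (h : χ ≠ χ') :
    χ + χ' ≠ 0 := by
  intro h0
  apply h
  funext i
  have h1 : χ i + χ' i = 0 := congrFun h0 i
  have h2 := add_self he (χ' i)
  exact add_right_cancel (h1.trans h2.symm)

lemma add_self' {e : S → S → ℝ} (he : IsChar e) {t : ℕ} (χ : Fin t → S) : χ + χ = 0 := by
  funext i
  exact add_self he (χ i)

end

end FKexp

section

variable {S Y V Ω : Type} [AddCommGroup S] [Fintype S] [Fintype Y] [Fintype V] [Fintype Ω]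

open FKexp

theorem Pj_zero {e : S → S → ℝ} (he : IsChar e) (L : ℕ → Y → V → V) (q : V) (m : S → Y → ℝ)
    (t : ℕ) (σ : ℕ → S) (v : V) : Pj e L q m 0 t σ v = dist L q (m 0) t v := by
  unfold Pj
  rw [Finset.sum_eq_single (0 : Fin t → S)]
  · rw [if_pos ((cnt_eq_zero _).mpr rfl), chr_zero he, mul_one]
    rfl
  · intro χ _ hχ
    rw [if_neg (fun h => hχ ((cnt_eq_zero χ).mp h))]
  · intro h
    exact absurd (Finset.mem_univ _) h

theorem mean_Pj_le {e : S → S → ℝ} (he : IsChar e) (L : ℕ → Y → V → V) (q : V) (m : S → Y → ℝ)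
    {σ : Ω → ℕ → S} {n : ℕ} {δ : ℝ} (hδ : 0 ≤ δ) (hσ : BiasedN e σ n δ) (j : ℕ) (hj : 1 ≤ j)
    (t : ℕ) (ht : t ≤ n) (v : V) :
    |mean fun ω => Pj e L q m j t (σ ω) v| ≤ δ * W L q m nz j t v := by
  unfold Pj
  rw [mean_sum]
  refine (Finset.abs_sum_le_sum_abs _ _).trans ?_
  unfold W
  rw [Finset.mul_sum]
  apply Finset.sum_le_sum
  intro χ _
  by_cases h : cnt nz χ = j
  · simp only [if_pos h]
    rw [mean_mul, abs_mul, mul_comm]
    apply mul_le_mul_of_nonneg_right _ (abs_nonneg _)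
    apply hσ t ht χ
    intro h0
    have := (cnt_eq_zero χ).mpr h0
    omega
  · simp only [if_neg h]
    rw [mean_zero]
    simp

/-- The coefficients of `Qt`. -/
private noncomputable def bq (L : ℕ → Y → V → V) (q : V) (m : S → Y → ℝ) (k t : ℕ) (v : V)
    (χ : Fin (t + 1) → S) : ℝ :=
  open Classical in if cnt nz χ = k ∧ χ (Fin.last t) ≠ 0 then vec L q m χ v else 0

omit [Fintype V] in
private lemma Qt_eq (e : S → S → ℝ) (L : ℕ → Y → V → V) (q : V) (m : S → Y → ℝ) (k t : ℕ)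
    (σ : ℕ → S) (v : V) :
    Qt e L q m k t σ v = ∑ χ : Fin (t + 1) → S, bq L q m k t v χ * chr e χ σ := by
  classical
  rw [sum_sn]
  unfold Qt
  apply Finset.sum_congr rfl
  intro χ _
  apply Finset.sum_congr rfl
  intro κ _
  unfold bq
  by_cases hκ : κ = 0
  · rw [ind_false (fun h => h hκ), zero_mul, if_neg, zero_mul]
    rintro ⟨_, h⟩
    rw [sn_last] at h
    exact h hκ
  · rw [ind_true hκ, one_mul]
    have h1 : cnt nz (sn χ κ) = cnt nz χ + 1 := by
      rw [cnt_sn, nind_true (P := nz κ) hκ]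
    by_cases h : cnt nz χ + 1 = k
    · rw [if_pos h, if_pos ⟨h1.trans h, by rw [sn_last]; exact hκ⟩]
    · rw [if_neg h, if_neg (fun h' => h (h1.symm.trans h'.1)), zero_mul]

omit [Fintype V] in
private lemma bq_sq (L : ℕ → Y → V → V) (q : V) (m : S → Y → ℝ) (k t : ℕ) (v : V) :
    ∑ χ : Fin (t + 1) → S, bq L q m k t v χ ^ 2 ≤ lev L q m nz k (t + 1) v := by
  unfold lev
  apply Finset.sum_le_sum
  intro χ _
  unfold bq
  split_ifs with h1 h2 h2
  · exact le_refl _
  · exact absurd h1.1 h2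
  · rw [zero_pow two_ne_zero]
    exact sq_nonneg _
  · rw [zero_pow two_ne_zero]

omit [Fintype V] in
private lemma bq_abs (L : ℕ → Y → V → V) (q : V) (m : S → Y → ℝ) (k t : ℕ) (v : V) :
    ∑ χ : Fin (t + 1) → S, |bq L q m k t v χ| ≤ W L q m nz k (t + 1) v := by
  unfold W
  apply Finset.sum_le_sum
  intro χ _
  unfold bq
  split_ifs with h1 h2 h2
  · exact le_refl _
  · exact absurd h1.1 h2
  · rw [abs_zero]
    exact abs_nonneg _
  · rw [abs_zero]

theorem mean_Qt_le {e : S → S → ℝ} (he : IsChar e) (L : ℕ → Y → V → V) (q : V) (m : S → Y → ℝ)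
    {σ : Ω → ℕ → S} {n : ℕ} {δ : ℝ} (hδ : 0 ≤ δ) (hσ : BiasedN e σ n δ) (k : ℕ) (t : ℕ)
    (ht : t < n) (v : V) :
    (mean fun ω => |Qt e L q m k t (σ ω) v|) ≤
      √(lev L q m nz k (t + 1) v + δ * (W L q m nz k (t + 1) v) ^ 2) := by
  classical
  apply Real.le_sqrt_of_sq_le
  refine (sq_mean_le _).trans ?_
  have h1 : (mean fun ω => |Qt e L q m k t (σ ω) v| ^ 2) =
      ∑ χ : Fin (t + 1) → S, ∑ χ' : Fin (t + 1) → S,
        bq L q m k t v χ * bq L q m k t v χ' * mean fun ω => chr e (χ + χ') (σ ω) := by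
    have : ∀ ω, |Qt e L q m k t (σ ω) v| ^ 2 = ∑ χ : Fin (t + 1) → S, ∑ χ' : Fin (t + 1) → S,
        (bq L q m k t v χ * bq L q m k t v χ') * chr e (χ + χ') (σ ω) := by
      intro ω
      rw [sq_abs, Qt_eq, sq, Finset.sum_mul_sum]
      refine Finset.sum_congr rfl fun χ _ => Finset.sum_congr rfl fun χ' _ => ?_
      rw [chr_add he]
      ring
    simp only [this]
    rw [mean_sum]
    refine Finset.sum_congr rfl fun χ _ => ?_
    rw [mean_sum]
    exact Finset.sum_congr rfl fun χ' _ => mean_mul _ _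
  rw [h1]
  have h2 : ∀ χ χ' : Fin (t + 1) → S,
      bq L q m k t v χ * bq L q m k t v χ' * (mean fun ω => chr e (χ + χ') (σ ω)) ≤
        (if χ = χ' then bq L q m k t v χ ^ 2 else 0) +
          δ * (|bq L q m k t v χ| * |bq L q m k t v χ'|) := by
    intro χ χ'
    have hn : 0 ≤ δ * (|bq L q m k t v χ| * |bq L q m k t v χ'|) := by positivity
    by_cases h : χ = χ'
    · rw [if_pos h, ← h, add_self' he χ]
      simp only [chr_zero he]
      have h3 := mean_one_le (Ω := Ω)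
      have h4 := mean_one_nonneg (Ω := Ω)
      have h5 : bq L q m k t v χ * bq L q m k t v χ * (mean fun _ : Ω => (1 : ℝ)) ≤
          bq L q m k t v χ * bq L q m k t v χ * 1 :=
        mul_le_mul_of_nonneg_left h3 (mul_self_nonneg _)
      rw [← h] at hn
      nlinarith
    · rw [if_neg h, zero_add]
      refine (le_abs_self _).trans ?_
      rw [abs_mul, abs_mul, mul_comm δ]
      exact mul_le_mul_of_nonneg_left (hσ (t + 1) ht (χ + χ') (add_ne he h)) (by positivity)
  refine (Finset.sum_le_sum fun χ _ => Finset.sum_le_sum fun χ' _ => h2 χ χ').trans ?_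
  simp only [Finset.sum_add_distrib, Finset.sum_ite_eq, Finset.mem_univ, if_true,
    ← Finset.mul_sum, ← Finset.sum_mul]
  have h3 := bq_sq L q m k t v
  have h4 := bq_abs L q m k t v
  have h5 : 0 ≤ ∑ χ : Fin (t + 1) → S, |bq L q m k t v χ| :=
    Finset.sum_nonneg fun _ _ => abs_nonneg _
  apply add_le_add h3
  apply mul_le_mul_of_nonneg_left _ hδ
  rw [sq]
  exact mul_le_mul h4 h4 h5 (h5.trans h4)

end

end Helper4.RC
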