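import Pool.Agent.Helper4.RC.FKdet
import Pool.Agent.Helper4.RC.FKexp

set_option autoImplicit false

/-!
The lemma of Forbes and Kelley for programs with symbols and kernels.

Proof sketch. Take means over `ω` in `fk_det`: `|mean Phi - mean (∑ j ∈ range k, ∑ v, Pj * G)| ≤
∑ t ∈ range n, ∑ v, mean |Qt|`; the term `j = 0` is `∑ v, dist * G v` (`Pj_zero`, `mean` of a
constant is the constant as `Ω` is nonempty), the terms `1 ≤ j < k` have means at most `δ * W` by
`mean_Pj_le` and `|G v| ≤ 1`, the right side is bounded by `mean_Qt_le`.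
-/

namespace Helper4.RC

open Finset

section

variable {S Y V Ω : Type} [AddCommGroup S] [Fintype S] [Fintype Y] [Fintype V] [Fintype Ω]

private lemma mean_sum' {ι : Type} (s : Finset ι) (f : ι → Ω → ℝ) :
    (mean fun ω => ∑ i ∈ s, f i ω) = ∑ i ∈ s, mean (f i) := by
  unfold mean
  rw [Finset.sum_comm, Finset.sum_div]

private lemma mean_mul' (f : Ω → ℝ) (a : ℝ) : (mean fun ω => f ω * a) = mean f * a := by
  unfold mean
  rw [← Finset.sum_mul]
  ring

private lemma mean_sub' (f g : Ω → ℝ) : (mean fun ω => f ω - g ω) = mean f - mean g := by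
  unfold mean
  rw [Finset.sum_sub_distrib]
  ring

private lemma mean_mono' {f g : Ω → ℝ} (h : ∀ ω, f ω ≤ g ω) : mean f ≤ mean g := by
  unfold mean
  gcongr
  exact h _

private lemma abs_mean' (f : Ω → ℝ) : |mean f| ≤ mean fun ω => |f ω| := by
  unfold mean
  rw [abs_div, abs_of_nonneg (Nat.cast_nonneg (α := ℝ) (Fintype.card Ω))]
  gcongr
  exact Finset.abs_sum_le_sum_abs _ _

private lemma mean_const' [Nonempty Ω] (a : ℝ) : (mean fun _ : Ω => a) = a := by
  unfold mean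
  rw [Finset.sum_const, Finset.card_univ, nsmul_eq_mul]
  have : (Fintype.card Ω : ℝ) ≠ 0 := Nat.cast_ne_zero.2 Fintype.card_ne_zero
  field_simp

theorem fk [Nonempty Ω] {e : S → S → ℝ} (he : IsChar e) {c : S → Y → ℝ} (hc : IsKer c)
    (L : ℕ → Y → V → V) (q : V) (G : V → ℝ) (hG : ∀ v, |G v| ≤ 1) (k : ℕ) (hk : 1 ≤ k) (n : ℕ)
    {σ : Ω → ℕ → S} {δ : ℝ} (hδ : 0 ≤ δ) (hσ : BiasedN e σ n δ) :
    |(mean fun ω => Phi c L q G n (σ ω)) - ∑ v, dist L q (kl e c 0) n v * G v| ≤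
      δ * (∑ j ∈ Ico 1 k, ∑ v, W L q (kl e c) nz j n v) +
        ∑ t ∈ range n, ∑ v, √(lev L q (kl e c) nz k (t + 1) v +
          δ * (W L q (kl e c) nz k (t + 1) v) ^ 2) := by
  have hB : (mean fun ω => ∑ j ∈ range k, ∑ v, Pj e L q (kl e c) j n (σ ω) v * G v) =
      (∑ v, dist L q (kl e c 0) n v * G v) +
        ∑ j ∈ Ico 1 k, ∑ v, (mean fun ω => Pj e L q (kl e c) j n (σ ω) v) * G v := by
    rw [mean_sum']
    have h1 : ∀ j, (mean fun ω => ∑ v, Pj e L q (kl e c) j n (σ ω) v * G v) =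
        ∑ v, (mean fun ω => Pj e L q (kl e c) j n (σ ω) v) * G v := by
      intro j
      rw [mean_sum']
      exact Finset.sum_congr rfl fun v _ => mean_mul' _ _
    rw [Finset.sum_congr rfl fun j _ => h1 j, Finset.range_eq_Ico,
      Finset.sum_eq_sum_Ico_succ_bot (by omega : 0 < k)]
    congr 1
    refine Finset.sum_congr rfl fun v _ => ?_
    congr 1
    simp only [Pj_zero he]
    exact mean_const' _
  have h1 : |(mean fun ω => Phi c L q G n (σ ω)) -
      (mean fun ω => ∑ j ∈ range k, ∑ v, Pj e L q (kl e c) j n (σ ω) v * G v)| ≤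
      ∑ t ∈ range n, ∑ v, √(lev L q (kl e c) nz k (t + 1) v +
          δ * (W L q (kl e c) nz k (t + 1) v) ^ 2) := by
    rw [← mean_sub']
    refine (abs_mean' _).trans ((mean_mono' fun ω => fk_det he hc L q G hG k hk n (σ ω)).trans ?_)
    rw [mean_sum']
    refine Finset.sum_le_sum fun t ht => ?_
    rw [mean_sum']
    exact Finset.sum_le_sum fun v _ =>
      mean_Qt_le he L q (kl e c) hδ hσ k t (Finset.mem_range.1 ht) v
  have h2 : |∑ j ∈ Ico 1 k, ∑ v, (mean fun ω => Pj e L q (kl e c) j n (σ ω) v) * G v| ≤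
      δ * (∑ j ∈ Ico 1 k, ∑ v, W L q (kl e c) nz j n v) := by
    rw [Finset.mul_sum]
    refine (Finset.abs_sum_le_sum_abs _ _).trans (Finset.sum_le_sum fun j hj => ?_)
    rw [Finset.mul_sum]
    refine (Finset.abs_sum_le_sum_abs _ _).trans (Finset.sum_le_sum fun v _ => ?_)
    rw [abs_mul]
    have h3 := mean_Pj_le he L q (kl e c) hδ hσ j (Finset.mem_Ico.1 hj).1 n le_rfl v
    calc |mean fun ω => Pj e L q (kl e c) j n (σ ω) v| * |G v|
        ≤ |mean fun ω => Pj e L q (kl e c) j n (σ ω) v| * 1 :=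
          mul_le_mul_of_nonneg_left (hG v) (abs_nonneg _)
      _ ≤ _ := by rw [mul_one]; exact h3
  rw [hB] at h1
  have h4 := abs_sub_abs_le_abs_sub ((mean fun ω => Phi c L q G n (σ ω)) -
    ∑ v, dist L q (kl e c 0) n v * G v)
    (∑ j ∈ Ico 1 k, ∑ v, (mean fun ω => Pj e L q (kl e c) j n (σ ω) v) * G v)
  have h5 : (mean fun ω => Phi c L q G n (σ ω)) - ((∑ v, dist L q (kl e c 0) n v * G v) +
        ∑ j ∈ Ico 1 k, ∑ v, (mean fun ω => Pj e L q (kl e c) j n (σ ω) v) * G v) =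
      ((mean fun ω => Phi c L q G n (σ ω)) - ∑ v, dist L q (kl e c 0) n v * G v) -
    (∑ j ∈ Ico 1 k, ∑ v, (mean fun ω => Pj e L q (kl e c) j n (σ ω) v) * G v) := by ring
  rw [h5] at h1
  linarith

end

end Helper4.RC
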