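import Pool.Agent.Helper4.RC.Defs

set_option autoImplicit false

/-!
Words, letter systems and sums over words: the definitions and the rules for the last letter.
-/

namespace Helper4.RC

open Finset

section ind

lemma ind_true {P : Prop} (h : P) : ind P = 1 := by simp [ind, h]

lemma ind_false {P : Prop} (h : ¬ P) : ind P = 0 := by simp [ind, h]

lemma ind_nonneg (P : Prop) : 0 ≤ ind P := by
  unfold ind
  split_ifs <;> norm_num

lemma ind_le_one (P : Prop) : ind P ≤ 1 := by
  unfold ind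
  split_ifs <;> norm_num

lemma ind_congr {P Q : Prop} (h : P ↔ Q) : ind P = ind Q := by
  rw [propext h]

lemma ind_mono {P Q : Prop} (h : P → Q) : ind P ≤ ind Q := by
  by_cases hP : P
  · rw [ind_true hP, ind_true (h hP)]
  · rw [ind_false hP]
    exact ind_nonneg Q

lemma sum_ind_eq {V : Type} [Fintype V] (u : V) (f : V → ℝ) : ∑ v, ind (u = v) * f v = f u := by
  classical
  rw [Finset.sum_eq_single u]
  · rw [ind_true rfl, one_mul]
  · intro v _ hv
    rw [ind_false (fun h => hv h.symm), zero_mul]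
  · intro h
    exact absurd (Finset.mem_univ _) h

lemma sum_ind {V : Type} [Fintype V] (u : V) : ∑ v, ind (u = v) = 1 := by
  have := sum_ind_eq u fun _ => (1 : ℝ)
  simpa using this

end ind

section words

variable {Y V K E : Type}

/-- The word `y` followed by the letter `a`. -/
def sn {n : ℕ} (y : Fin n → Y) (a : Y) : Fin (n + 1) → Y := Fin.snoc (α := fun _ => Y) y a

/-- The letter `a` followed by the word `y`. -/
def cn {n : ℕ} (a : Y) (y : Fin n → Y) : Fin (n + 1) → Y := Fin.cons (α := fun _ => Y) a y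

lemma sn_last {n : ℕ} (y : Fin n → Y) (a : Y) : sn y a (Fin.last n) = a := Fin.snoc_last _ _

lemma sn_castSucc {n : ℕ} (y : Fin n → Y) (a : Y) (i : Fin n) : sn y a i.castSucc = y i :=
  Fin.snoc_castSucc _ _ _

lemma cn_zero {n : ℕ} (a : Y) (y : Fin n → Y) : cn a y 0 = a := rfl

lemma cn_succ {n : ℕ} (a : Y) (y : Fin n → Y) (i : Fin n) : cn a y i.succ = y i := rfl

lemma sum_sn [Fintype Y] [AddCommMonoid E] {n : ℕ} (f : (Fin (n + 1) → Y) → E) :
    ∑ y, f y = ∑ y : Fin n → Y, ∑ a, f (sn y a) := by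
  rw [← Equiv.sum_comp (Fin.snocEquiv fun _ : Fin (n + 1) => Y) f, Fintype.sum_prod_type,
    Finset.sum_comm]
  rfl

lemma sum_cn [Fintype Y] [AddCommMonoid E] {n : ℕ} (f : (Fin (n + 1) → Y) → E) :
    ∑ y, f y = ∑ a, ∑ y : Fin n → Y, f (cn a y) := by
  rw [← Equiv.sum_comp (Fin.consEquiv fun _ : Fin (n + 1) => Y) f, Fintype.sum_prod_type]
  rfl

/-- The weight of the word `y`: the product of the weights of the letters. -/
noncomputable def pw (p : Y → ℝ) {n : ℕ} (y : Fin n → Y) : ℝ := ∏ i, p (y i)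

/-- The weight of the word `y` for the word of letters `χ`. -/
noncomputable def mw (m : K → Y → ℝ) {n : ℕ} (χ : Fin n → K) (y : Fin n → Y) : ℝ :=
  ∏ i, m (χ i) (y i)

/-- `1` if `P` holds and `0` otherwise, as a natural number. -/
noncomputable def nind (P : Prop) : ℕ := open Classical in if P then 1 else 0

lemma nind_true {P : Prop} (h : P) : nind P = 1 := by simp [nind, h]

lemma nind_false {P : Prop} (h : ¬ P) : nind P = 0 := by simp [nind, h]

lemma nind_le_one (P : Prop) : nind P ≤ 1 := by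
  unfold nind
  split_ifs <;> simp

lemma cast_nind (P : Prop) : (nind P : ℝ) = ind P := by
  unfold nind ind
  split_ifs <;> simp

/-- The number of letters with the property `nt`. -/
noncomputable def cnt (nt : K → Prop) {n : ℕ} (χ : Fin n → K) : ℕ := ∑ i, nind (nt (χ i))

/-- The distribution of the state after `n` steps, if the letters are independent with the
distribution `p`. -/
noncomputable def dist [Fintype Y] (L : ℕ → Y → V → V) (q : V) (p : Y → ℝ) (n : ℕ) (v : V) : ℝ :=
  ∑ y : Fin n → Y, pw p y * ind (endSt L q n y = v)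

/-- The coefficient of the word of letters `χ` of the indicator of the state `v`. -/
noncomputable def vec [Fintype Y] (L : ℕ → Y → V → V) (q : V) (m : K → Y → ℝ) {n : ℕ}
    (χ : Fin n → K) (v : V) : ℝ :=
  ∑ y : Fin n → Y, mw m χ y * ind (endSt L q n y = v)

/-- The sum of the absolute values of the coefficients of level `j`. -/
noncomputable def W [Fintype Y] [Fintype K] (L : ℕ → Y → V → V) (q : V) (m : K → Y → ℝ)
    (nt : K → Prop) (j n : ℕ) (v : V) : ℝ :=
  ∑ χ : Fin n → K, if cnt nt χ = j then |vec L q m χ v| else 0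

/-- The sum of the squares of the coefficients of level `j`. -/
noncomputable def lev [Fintype Y] [Fintype K] (L : ℕ → Y → V → V) (q : V) (m : K → Y → ℝ)
    (nt : K → Prop) (j n : ℕ) (v : V) : ℝ :=
  ∑ χ : Fin n → K, if cnt nt χ = j then (vec L q m χ v) ^ 2 else 0

/-- The total influence of the indicator of the state `v` (resampling of one letter). -/
noncomputable def ri [Fintype Y] (L : ℕ → Y → V → V) (q : V) (p : Y → ℝ) (n : ℕ) (v : V) : ℝ :=
  ∑ i : Fin n, ∑ y : Fin n → Y, pw p y * ∑ a, p a *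
    ind (endSt L q n y = v ∧ endSt L q n (Function.update y i a) ≠ v)

/-- Letter systems: the trivial letters (`¬ nt κ`) split the distribution `p`, the others are
dominated by `p` and have sum zero. -/
structure IsLetters [Fintype Y] [Fintype K] (p : Y → ℝ) (m : K → Y → ℝ) (nt : K → Prop) :
    Prop where
  p_nonneg : ∀ y, 0 ≤ p y
  p_sum : ∑ y, p y = 1
  nonneg : ∀ κ, ¬ nt κ → ∀ y, 0 ≤ m κ y
  sum_triv : ∀ y, ∑ κ, ind (¬ nt κ) * m κ y = p y
  abs_le : ∀ κ, nt κ → ∀ y, |m κ y| ≤ p y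
  sum_zero : ∀ κ, nt κ → ∑ y, m κ y = 0

lemma endSt_sn (L : ℕ → Y → V → V) (q : V) {n : ℕ} (y : Fin n → Y) (a : Y) :
    endSt L q (n + 1) (sn y a) = L n a (endSt L q n y) := by
  rw [endSt, sn_last]
  congr 1
  congr 1
  funext i
  exact sn_castSucc y a i

/-- First letter first. -/
lemma endSt_cn (L : ℕ → Y → V → V) (q : V) {n : ℕ} (a : Y) (y : Fin n → Y) :
    endSt L q (n + 1) (cn a y) = endSt (fun i => L (i + 1)) (L 0 a q) n y := by
  induction n with
  | zero => rfl
  | succ n ih =>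
    rw [endSt]
    conv_rhs => rw [endSt]
    have h1 : cn a y (Fin.last (n + 1)) = y (Fin.last n) := by
      rw [← Fin.succ_last, cn_succ]
    have h2 : (fun i : Fin (n + 1) => cn a y i.castSucc) = cn a fun i => y i.castSucc := by
      funext i
      refine Fin.cases ?_ (fun j => ?_) i
      · rfl
      · rw [← Fin.succ_castSucc, cn_succ, cn_succ]
    rw [h1, h2, ih]

lemma pw_sn (p : Y → ℝ) {n : ℕ} (y : Fin n → Y) (a : Y) : pw p (sn y a) = pw p y * p a := by
  unfold pw
  rw [Fin.prod_univ_castSucc, sn_last]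
  simp only [sn_castSucc]

lemma pw_cn (p : Y → ℝ) {n : ℕ} (y : Fin n → Y) (a : Y) : pw p (cn a y) = p a * pw p y := by
  unfold pw
  rw [Fin.prod_univ_succ]
  rfl

lemma mw_sn (m : K → Y → ℝ) {n : ℕ} (χ : Fin n → K) (κ : K) (y : Fin n → Y) (a : Y) :
    mw m (sn χ κ) (sn y a) = mw m χ y * m κ a := by
  unfold mw
  rw [Fin.prod_univ_castSucc, sn_last, sn_last]
  simp only [sn_castSucc]

lemma mw_cn (m : K → Y → ℝ) {n : ℕ} (χ : Fin n → K) (κ : K) (y : Fin n → Y) (a : Y) :
    mw m (cn κ χ) (cn a y) = m κ a * mw m χ y := by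
  unfold mw
  rw [Fin.prod_univ_succ]
  rfl

lemma cnt_sn (nt : K → Prop) {n : ℕ} (χ : Fin n → K) (κ : K) :
    cnt nt (sn χ κ) = cnt nt χ + nind (nt κ) := by
  unfold cnt
  rw [Fin.sum_univ_castSucc, sn_last]
  simp only [sn_castSucc]

lemma cnt_cn (nt : K → Prop) {n : ℕ} (χ : Fin n → K) (κ : K) :
    cnt nt (cn κ χ) = nind (nt κ) + cnt nt χ := by
  unfold cnt
  rw [Fin.sum_univ_succ]
  rfl

lemma cnt_zero (nt : K → Prop) (χ : Fin 0 → K) : cnt nt χ = 0 := by
  unfold cnt
  simp

lemma cnt_le (nt : K → Prop) {n : ℕ} (χ : Fin n → K) : cnt nt χ ≤ n := by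
  unfold cnt
  calc ∑ i : Fin n, nind (nt (χ i)) ≤ ∑ _i : Fin n, 1 :=
        Finset.sum_le_sum fun i _ => nind_le_one _
    _ = n := by simp

lemma pw_nonneg {p : Y → ℝ} (hp : ∀ y, 0 ≤ p y) {n : ℕ} (y : Fin n → Y) : 0 ≤ pw p y :=
  Finset.prod_nonneg fun i _ => hp (y i)

lemma sum_pw [Fintype Y] {p : Y → ℝ} (hp : ∑ y, p y = 1) (n : ℕ) :
    ∑ y : Fin n → Y, pw p y = 1 := by
  induction n with
  | zero => simp [pw]
  | succ n ih =>
    rw [sum_sn]
    simp only [pw_sn, ← Finset.mul_sum, hp, mul_one, ih]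

lemma dist_nonneg [Fintype Y] (L : ℕ → Y → V → V) (q : V) {p : Y → ℝ} (hp : ∀ y, 0 ≤ p y)
    (n : ℕ) (v : V) : 0 ≤ dist L q p n v :=
  Finset.sum_nonneg fun y _ => mul_nonneg (pw_nonneg hp y) (ind_nonneg _)

lemma sum_dist [Fintype Y] [Fintype V] (L : ℕ → Y → V → V) (q : V) {p : Y → ℝ}
    (hp : ∑ y, p y = 1) (n : ℕ) : ∑ v, dist L q p n v = 1 := by
  unfold dist
  rw [Finset.sum_comm]
  simp only [← Finset.mul_sum, sum_ind, mul_one]
  exact sum_pw hp n

lemma dist_le_one [Fintype Y] [Fintype V] (L : ℕ → Y → V → V) (q : V) {p : Y → ℝ}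
    (hp : ∀ y, 0 ≤ p y) (hs : ∑ y, p y = 1) (n : ℕ) (v : V) : dist L q p n v ≤ 1 := by
  rw [← sum_dist L q hs n]
  exact Finset.single_le_sum (f := dist L q p n) (fun u _ => dist_nonneg L q hp n u)
    (Finset.mem_univ v)

lemma dist_zero [Fintype Y] (L : ℕ → Y → V → V) (q : V) (p : Y → ℝ) (v : V) :
    dist L q p 0 v = ind (q = v) := by
  unfold dist
  simp [pw, endSt]

lemma dist_succ [Fintype Y] [Fintype V] (L : ℕ → Y → V → V) (q : V) (p : Y → ℝ) (n : ℕ) (v : V) :
    dist L q p (n + 1) v = ∑ u, dist L q p n u * ∑ a, p a * ind (L n a u = v) := by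
  unfold dist
  rw [sum_sn]
  simp only [pw_sn, endSt_sn]
  conv_rhs =>
    simp only [Finset.sum_mul]
    rw [Finset.sum_comm]
  refine Finset.sum_congr rfl fun y _ => ?_
  have h := sum_ind_eq (endSt L q n y) fun u => pw p y * ∑ a, p a * ind (L n a u = v)
  calc ∑ a, pw p y * p a * ind (L n a (endSt L q n y) = v)
      = pw p y * ∑ a, p a * ind (L n a (endSt L q n y) = v) := by
        rw [Finset.mul_sum]
        exact Finset.sum_congr rfl fun a _ => by ring
    _ = _ := h.symm
    _ = _ := Finset.sum_congr rfl fun u _ => by ring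

lemma vec_sn [Fintype Y] [Fintype V] (L : ℕ → Y → V → V) (q : V) (m : K → Y → ℝ) {n : ℕ}
    (χ : Fin n → K) (κ : K) (v : V) :
    vec L q m (sn χ κ) v = ∑ u, vec L q m χ u * ∑ a, m κ a * ind (L n a u = v) := by
  unfold vec
  rw [sum_sn]
  simp only [mw_sn, endSt_sn]
  conv_rhs =>
    simp only [Finset.sum_mul]
    rw [Finset.sum_comm]
  refine Finset.sum_congr rfl fun y _ => ?_
  have h := sum_ind_eq (endSt L q n y) fun u => mw m χ y * ∑ a, m κ a * ind (L n a u = v)
  calc ∑ a, mw m χ y * m κ a * ind (L n a (endSt L q n y) = v)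
      = mw m χ y * ∑ a, m κ a * ind (L n a (endSt L q n y) = v) := by
        rw [Finset.mul_sum]
        exact Finset.sum_congr rfl fun a _ => by ring
    _ = _ := h.symm
    _ = _ := Finset.sum_congr rfl fun u _ => by ring

lemma vec_zero [Fintype Y] (L : ℕ → Y → V → V) (q : V) (m : K → Y → ℝ) (χ : Fin 0 → K) (v : V) :
    vec L q m χ v = ind (q = v) := by
  unfold vec
  simp [mw, endSt]

end words

end Helper4.RC
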