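import Pool.Agent.Helper4.RC.FKDefs

set_option autoImplicit false

/-!
Pairings and kernels: basic facts.

Hints. `isChar_e2`, `isChar_e4`: `sg (s + t) = sg s * sg t`; the rest is finite (`decide`-like case
analysis: `Fintype.sum_prod_type`, `Fin.sum_univ_two` after `show ∑ s : Fin 2, _ = _`, or prove
`∀ t : ZMod 2, t = 0 ∨ t = 1` by `decide` and rewrite). `e_zero_right`, `e_abs` from `sq`,
`add_left`. `kl_letters`: `kl e c 0 y = (∑ σ, c σ y) / card S`; `|kl e c κ y| ≤ kl e c 0 y` as
`|e κ σ| = 1`, `c ≥ 0`; `∑ y, kl e c κ y = (∑ σ, e κ σ) / card S`, which is `0` for `κ ≠ 0` and `1`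
for `κ = 0` (`e 0 σ = 1`). `kl_inv`: `∑ κ, kl e c κ y * e κ σ = (∑ σ', c σ' y * ∑ κ, e κ σ' * e κ σ) / card S`
and `∑ κ, e κ σ' * e κ σ` is `0` for `σ' ≠ σ` and `card S` for `σ' = σ` (`sq`).
-/

namespace Helper4.RC

open Finset

section

variable {S Y : Type}

private lemma sg_zero : sg 0 = 1 := by
  unfold sg
  rw [if_pos rfl]

private lemma sg_one : sg 1 = -1 := by
  unfold sg
  rw [if_neg (by decide)]

private lemma zc (t : ZMod 2) : t = 0 ∨ t = 1 := by
  revert t
  decide

private lemma zoo : (1 : ZMod 2) + 1 = 0 := by decide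

lemma sg_add (a b : ZMod 2) : sg (a + b) = sg a * sg b := by
  rcases zc a with rfl | rfl <;> rcases zc b with rfl | rfl <;>
    simp [sg_zero, sg_one, zoo]

private lemma sg_sq (a : ZMod 2) : sg a * sg a = 1 := by
  rcases zc a with rfl | rfl <;> simp [sg_zero, sg_one]

private lemma sumZ (f : ZMod 2 → ℝ) : ∑ s, f s = f 0 + f 1 := by
  change ∑ s : Fin 2, f s = f 0 + f 1
  rw [Fin.sum_univ_two]
  rfl

theorem isChar_e2 : IsChar e2 := by
  refine ⟨fun s => ?_, fun a b s => ?_, fun a s => sg_sq _, fun a ha => ?_, fun s s' h => ?_⟩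
  · unfold e2
    rw [zero_mul, sg_zero]
  · unfold e2
    rw [add_mul, sg_add]
  · rcases zc a with rfl | rfl
    · exact absurd rfl ha
    · rw [sumZ]
      simp [e2, sg_zero, sg_one]
  · rw [sumZ]
    rcases zc s with rfl | rfl <;> rcases zc s' with rfl | rfl
    · exact absurd rfl h
    · simp [e2, sg_zero, sg_one]
    · simp [e2, sg_zero, sg_one]
    · exact absurd rfl h

theorem isChar_e4 : IsChar e4 := by
  refine ⟨fun s => ?_, fun a b s => ?_, fun a s => sg_sq _, fun a ha => ?_, fun s s' h => ?_⟩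
  · unfold e4
    simp [sg_zero]
  · unfold e4
    rw [← sg_add]
    congr 1
    simp only [Prod.fst_add, Prod.snd_add]
    ring
  · rw [Fintype.sum_prod_type, sumZ, sumZ, sumZ]
    obtain ⟨a1, a2⟩ := a
    rcases zc a1 with rfl | rfl <;> rcases zc a2 with rfl | rfl
    · exact absurd rfl ha
    all_goals simp [e4, sg_zero, sg_one, zoo]
  · rw [Fintype.sum_prod_type, sumZ, sumZ, sumZ]
    obtain ⟨s1, s2⟩ := s
    obtain ⟨t1, t2⟩ := s'
    rcases zc s1 with rfl | rfl <;> rcases zc s2 with rfl | rfl <;>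
      rcases zc t1 with rfl | rfl <;> rcases zc t2 with rfl | rfl <;>
      first
        | exact absurd rfl h
        | simp [e4, sg_zero, sg_one, zoo]

lemma IsChar.abs_eq [AddCommGroup S] [Fintype S] {e : S → S → ℝ} (he : IsChar e) (a s : S) :
    |e a s| = 1 := by
  have h := he.sq a s
  rcases mul_self_eq_one_iff.mp h with h1 | h1 <;> rw [h1] <;> simp

private lemma cardpos [AddCommGroup S] [Fintype S] : (0 : ℝ) < (Fintype.card S : ℝ) := by
  have : Nonempty S := ⟨0⟩
  exact_mod_cast Fintype.card_pos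

private lemma kl_zero_eq [AddCommGroup S] [Fintype S] {e : S → S → ℝ} (he : IsChar e)
    (c : S → Y → ℝ) (y : Y) : kl e c 0 y = (∑ σ, c σ y) / Fintype.card S := by
  unfold kl
  simp only [he.zero_left, mul_one]

private lemma kl_sum [AddCommGroup S] [Fintype S] [Fintype Y] {e : S → S → ℝ}
    {c : S → Y → ℝ} (hc : IsKer c) (κ : S) :
    ∑ y, kl e c κ y = (∑ σ, e κ σ) / Fintype.card S := by
  unfold kl
  rw [← Finset.sum_div, Finset.sum_comm]
  congr 1
  refine Finset.sum_congr rfl fun σ _ => ?_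
  rw [← Finset.sum_mul, hc.sum_one, one_mul]

theorem kl_letters [AddCommGroup S] [Fintype S] [Fintype Y] {e : S → S → ℝ} (he : IsChar e)
    {c : S → Y → ℝ} (hc : IsKer c) : IsLetters (kl e c 0) (kl e c) nz := by
  have h0 : ∀ y, 0 ≤ kl e c 0 y := fun y => by
    rw [kl_zero_eq he]
    exact div_nonneg (Finset.sum_nonneg fun σ _ => hc.nonneg σ y) cardpos.le
  refine ⟨h0, ?_, fun κ hκ y => ?_, fun y => ?_, fun κ _ y => ?_, fun κ hκ => ?_⟩
  · rw [kl_sum hc]
    simp only [he.zero_left, Finset.sum_const, Finset.card_univ, nsmul_eq_mul, mul_one]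
    exact div_self cardpos.ne'
  · have hκ' : κ = 0 := not_not.mp hκ
    rw [hκ']
    exact h0 y
  · rw [← sum_ind_eq (0 : S) fun κ => kl e c κ y]
    refine Finset.sum_congr rfl fun κ _ => ?_
    congr 1
    refine ind_congr ?_
    unfold nz
    rw [not_not]
    exact eq_comm
  · rw [kl_zero_eq he]
    unfold kl
    rw [abs_div, abs_of_pos (cardpos (S := S))]
    refine div_le_div_of_nonneg_right ?_ cardpos.le
    refine (Finset.abs_sum_le_sum_abs _ _).trans (Finset.sum_le_sum fun σ _ => ?_)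
    rw [abs_mul, he.abs_eq, mul_one, abs_of_nonneg (hc.nonneg σ y)]
  · rw [kl_sum hc, he.sum_left κ hκ, zero_div]

theorem kl_inv [AddCommGroup S] [Fintype S] {e : S → S → ℝ} (he : IsChar e) (c : S → Y → ℝ)
    (σ : S) (y : Y) : ∑ κ, kl e c κ y * e κ σ = c σ y := by
  have h1 : ∀ σ' : S, ∑ κ, e κ σ' * e κ σ = ind (σ = σ') * Fintype.card S := by
    intro σ'
    by_cases h : σ = σ'
    · rw [ind_true h, ← h, one_mul]
      simp only [he.sq, Finset.sum_const, Finset.card_univ, nsmul_eq_mul, mul_one]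
    · rw [ind_false h, zero_mul]
      exact he.sum_right σ' σ fun h' => h h'.symm
  have h2 : ∑ κ, kl e c κ y * e κ σ
      = (∑ σ', ind (σ = σ') * c σ' y) * Fintype.card S / Fintype.card S := by
    unfold kl
    calc ∑ κ, (∑ σ', c σ' y * e κ σ') / (Fintype.card S : ℝ) * e κ σ
        = (∑ κ, ∑ σ', c σ' y * (e κ σ' * e κ σ)) / (Fintype.card S : ℝ) := by
          rw [Finset.sum_div]
          refine Finset.sum_congr rfl fun κ _ => ?_
          rw [div_mul_eq_mul_div, Finset.sum_mul]
          congr 1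
          exact Finset.sum_congr rfl fun σ' _ => by ring
      _ = (∑ σ', c σ' y * (ind (σ = σ') * Fintype.card S)) / (Fintype.card S : ℝ) := by
          rw [Finset.sum_comm]
          congr 1
          refine Finset.sum_congr rfl fun σ' _ => ?_
          rw [← Finset.mul_sum, h1 σ']
      _ = _ := by
          congr 1
          rw [Finset.sum_mul]
          exact Finset.sum_congr rfl fun σ' _ => by ring
  rw [h2, mul_div_assoc, div_self cardpos.ne', mul_one]
  exact sum_ind_eq σ fun σ' => c σ' y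

/-- The number of nonzero letters. -/
lemma sum_ind_nz [AddCommGroup S] [Fintype S] :
    ∑ κ : S, ind (nz κ) = (Fintype.card S : ℝ) - 1 := by
  have h1 : ∀ κ : S, ind (nz κ) = 1 - ind (0 = κ) := by
    intro κ
    by_cases h : (0 : S) = κ
    · rw [ind_true h, ind_false (fun h' : nz κ => h' h.symm), sub_self]
    · rw [ind_false h, ind_true (show nz κ from fun h' => h h'.symm), sub_zero]
  simp only [h1]
  rw [Finset.sum_sub_distrib, sum_ind]
  simp

end

end Helper4.RC
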