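import Pool.Agent.Helper4.RC.Defs

set_option autoImplicit false

/-!
Functions of words computed by cascades of reset registers.
-/

namespace Helper4.RC

/-- The function `f` of words over `A` is computed by a cascade of reset registers with values in
`Fin w`. -/
def Comp {A Out : Type} (w : ℕ) (f : List A → Out) : Prop :=
  ∃ (m : ℕ) (c : A → Instr m w) (q : Fin m → Fin w) (out : (Fin m → Fin w) → Out),
    ∀ l : List A, out (l.foldl (fun s a => (c a).act s) q) = f l

theorem Comp.map {A Out Out' : Type} {w : ℕ} {f : List A → Out} (h : Comp w f) (g : Out → Out') :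
    Comp w fun l => g (f l) := by
  obtain ⟨m, c, q, out, hl⟩ := h
  exact ⟨m, c, q, fun s => g (out s), fun l => congrArg g (hl l)⟩

theorem Comp.const {A Out : Type} (w : ℕ) (o : Out) : Comp w fun _ : List A => o :=
  ⟨0, fun _ => ⟨fun j => j.elim0, fun j => j.elim0⟩, fun j => j.elim0, fun _ => o, fun _ => rfl⟩

end Helper4.RC
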