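import Mathlib

set_option autoImplicit false

/-!
Cascades of reset registers, read-once programs, and the generator: the definitions.
-/

namespace Helper4.RC

/-- An instruction for `m` registers with values in `Fin w`: the register `j` is kept (`none`) or
overwritten by `v` (`some v`), and this depends only on the contents of the registers `l < j`. -/
structure Instr (m w : ℕ) where
  rule : Fin m → (Fin m → Fin w) → Option (Fin w)
  loc : ∀ (j : Fin m) (q q' : Fin m → Fin w), (∀ l < j, q l = q' l) → rule j q = rule j q'

/-- The action of an instruction on the states (all registers are updated simultaneously). -/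
def Instr.act {m w : ℕ} (c : Instr m w) (q : Fin m → Fin w) : Fin m → Fin w :=
  fun j => (c.rule j q).getD (q j)

/-- The state after reading the word `y` of length `n`, starting from the state `q`; `L i a` is the
transition map of step `i` for the letter `a`. -/
def endSt {Y V : Type} (L : ℕ → Y → V → V) (q : V) : (n : ℕ) → (Fin n → Y) → V
  | 0, _ => q
  | n + 1, y => L n (y (Fin.last n)) (endSt L q n fun i => y i.castSucc)

/-- The mean value of a function on a finite type. -/
noncomputable def mean {Ω : Type} [Fintype Ω] (f : Ω → ℝ) : ℝ := (∑ x, f x) / Fintype.card Ω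

/-- The indicator of a proposition. -/
noncomputable def ind (P : Prop) : ℝ := open Classical in if P then 1 else 0

/-- The generator with `r` levels:
`str a₀ + str b₀ * (str a₁ + str b₁ * (... (str a_(r-1) + str b_(r-1) * str θ)))`, where
`ρ j = (a_j, b_j)` and the operations are coordinatewise. -/
def gen {n : ℕ} {Θ : Type} (str : Θ → Fin n → ZMod 2) :
    (r : ℕ) → (Fin r → Θ × Θ) → Θ → Fin n → ZMod 2
  | 0, _, θ => str θ
  | r + 1, ρ, θ => str (ρ 0).1 + str (ρ 0).2 * gen str r (fun j => ρ j.succ) θ

/-- The small bias string with the seed `(a, b)`: the bits `Tr (b * a ^ i)`. -/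
noncomputable def powStr (F : Type) [Field F] [Algebra (ZMod 2) F] (n : ℕ) (θ : F × F) :
    Fin n → ZMod 2 := fun i => Algebra.trace (ZMod 2) F (θ.2 * θ.1 ^ (i : ℕ))

end Helper4.RC
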