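import Mathlib

set_option autoImplicit false

/-!
The error bounds.
-/

namespace Helper4.RC

/-- The error of one level (for programs with `K` states). -/
noncomputable def eps1 (K n Λ : ℝ) (k : ℕ) (δ : ℝ) : ℝ :=
  δ * (k * K ^ 2 * (2 * (12 * Λ) ^ k)) +
    n * K ^ 2 * √((4 / 7) ^ k + δ * (2 * (12 * Λ) ^ k) ^ 2)

/-- The total error. -/
noncomputable def errT (K n Λ : ℝ) (k k' r : ℕ) (δ : ℝ) : ℝ :=
  r * eps1 K n Λ k' δ + δ * (k * K * (2 * (2 * Λ) ^ k)) +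
    n * K * √((1 / 2 ^ r) ^ k * (2 * (2 * Λ) ^ k) + 16 ^ k * (r * eps1 K n Λ k' δ) +
      δ * (2 * (2 * Λ) ^ k) ^ 2)

lemma eps1_mono {K n n' Λ : ℝ} (hn : n ≤ n') (k : ℕ) (δ : ℝ) :
    eps1 K n Λ k δ ≤ eps1 K n' Λ k δ := by
  unfold eps1
  have h1 : 0 ≤ √((4 / 7 : ℝ) ^ k + δ * (2 * (12 * Λ) ^ k) ^ 2) := Real.sqrt_nonneg _
  have h2 : n * K ^ 2 ≤ n' * K ^ 2 := mul_le_mul_of_nonneg_right hn (sq_nonneg K)
  have h3 := mul_le_mul_of_nonneg_right h2 h1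
  linarith

end Helper4.RC
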