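import Pool.Agent.Helper4.RC.Basic

set_option autoImplicit false

/-!
Characters, kernels, and the parts of the mean value as a function of the symbols.
-/

namespace Helper4.RC

open Finset

section

variable {S Y V : Type}

/-- `e` is a perfect pairing of `S` with itself, with values `1` and `-1`. -/
structure IsChar [AddCommGroup S] [Fintype S] (e : S → S → ℝ) : Prop where
  zero_left : ∀ s, e 0 s = 1
  add_left : ∀ a b s, e (a + b) s = e a s * e b s
  sq : ∀ a s, e a s * e a s = 1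
  sum_left : ∀ a, a ≠ 0 → ∑ s, e a s = 0
  sum_right : ∀ s s', s ≠ s' → ∑ a, e a s * e a s' = 0

/-- The sign of an element of `ZMod 2`. -/
noncomputable def sg (t : ZMod 2) : ℝ := if t = 0 then 1 else -1

/-- The pairing of `ZMod 2`. -/
noncomputable def e2 (a b : ZMod 2) : ℝ := sg (a * b)

/-- The pairing of `ZMod 2 × ZMod 2`. -/
noncomputable def e4 (a b : ZMod 2 × ZMod 2) : ℝ := sg (a.1 * b.1 + a.2 * b.2)

/-- The kernel `c : S → Y → ℝ` in terms of characters. -/
noncomputable def kl [Fintype S] (e : S → S → ℝ) (c : S → Y → ℝ) (κ : S) (y : Y) : ℝ :=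
  (∑ σ, c σ y * e κ σ) / Fintype.card S

/-- A kernel: `c σ` is a distribution on `Y`. -/
structure IsKer [Fintype Y] (c : S → Y → ℝ) : Prop where
  nonneg : ∀ σ y, 0 ≤ c σ y
  sum_one : ∀ σ, ∑ y, c σ y = 1

/-- The character of the word `χ` at the first `t` symbols of `σ`. -/
noncomputable def chr (e : S → S → ℝ) {t : ℕ} (χ : Fin t → S) (σ : ℕ → S) : ℝ :=
  ∏ i : Fin t, e (χ i) (σ i)

/-- The mean value of `G` at the final state, if the letter `i < n` has the distribution
`c (σ i)`. -/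
noncomputable def Phi [Fintype Y] (c : S → Y → ℝ) (L : ℕ → Y → V → V) (q : V) (G : V → ℝ) (n : ℕ)
    (σ : ℕ → S) : ℝ :=
  ∑ y : Fin n → Y, (∏ i : Fin n, c (σ i) (y i)) * G (endSt L q n y)

/-- The property of being nonzero. -/
def nz [Zero S] (κ : S) : Prop := κ ≠ 0

/-- The part of level `j`. -/
noncomputable def Pj [Fintype S] [Zero S] [Fintype Y] (e : S → S → ℝ) (L : ℕ → Y → V → V) (q : V)
    (m : S → Y → ℝ) (j t : ℕ) (σ : ℕ → S) (v : V) : ℝ :=
  ∑ χ : Fin t → S, if cnt nz χ = j then vec L q m χ v * chr e χ σ else 0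

/-- The part of level `k` at the time `t + 1` with a nonzero last letter. -/
noncomputable def Qt [Fintype S] [Zero S] [Fintype Y] (e : S → S → ℝ) (L : ℕ → Y → V → V) (q : V)
    (m : S → Y → ℝ) (k t : ℕ) (σ : ℕ → S) (v : V) : ℝ :=
  ∑ χ : Fin t → S, ∑ κ : S, ind (κ ≠ 0) *
    (if cnt nz χ + 1 = k then vec L q m (sn χ κ) v * chr e (sn χ κ) σ else 0)

/-- The family `σ ω` of sequences of symbols, `ω` uniformly random, has small bias up to `n`. -/
def BiasedN {Ω : Type} [Fintype Ω] [Zero S] (e : S → S → ℝ) (σ : Ω → ℕ → S) (n : ℕ) (δ : ℝ) :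
    Prop :=
  ∀ t ≤ n, ∀ χ : Fin t → S, χ ≠ 0 → |mean fun ω => chr e χ (σ ω)| ≤ δ

lemma chr_sn (e : S → S → ℝ) {t : ℕ} (χ : Fin t → S) (κ : S) (σ : ℕ → S) :
    chr e (sn χ κ) σ = chr e χ σ * e κ (σ t) := by
  unfold chr
  rw [Fin.prod_univ_castSucc, sn_last]
  simp only [sn_castSucc, Fin.val_castSucc, Fin.val_last]

end

end Helper4.RC
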