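import Pool.Agent.Helper4.RC.Chars

set_option autoImplicit false

/-!
The decomposition of Forbes and Kelley, for a fixed sequence of symbols.

Proof sketch. Let `m = kl e c`, `O t u v = ∑ y, c (σ t) y * ind (L t y u = v)`
`= ∑ κ, e κ (σ t) * ∑ y, m κ y * ind (L t y u = v)` (`kl_inv`), and
`full t v = ∑ y : Fin t → Y, (∏ i, c (σ i) (y i)) * ind (endSt L q t y = v)`.
(1) `full (t+1) v = ∑ u, full t u * O t u v` (`sum_sn`, `endSt_sn`, `sum_ind_eq`);
`Phi c L q G n σ = ∑ v, full n v * G v`.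
(2) With `M κ u v = ∑ y, m κ y * ind (L t y u = v)`: `Pj j (t+1) v = ∑ u, Pj j t u * M 0 u v +
[j ≥ 1] ∑ u, Pj (j-1) t u * ∑ κ, ind (κ ≠ 0) * M κ u v * e κ (σ t)` (`sum_sn`, `vec_sn`, `cnt_sn`,
`chr_sn`), and `Qt k t v` is the second sum for `j = k` (`k ≥ 1`).
(3) Hence for `k ≥ 1`: `∑ j ∈ range k, Pj j (t+1) v = ∑ u, (∑ j ∈ range k, Pj j t u) * O t u v - Qt k t v`.
(4) `R t v = full t v - ∑ j ∈ range k, Pj j t v` satisfies `R 0 = 0` (`k ≥ 1`; only `j = 0`
contributes at `t = 0`) and `R (t+1) v = ∑ u, R t u * O t u v + Qt k t v`, so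
`∑ v, |R (t+1) v| ≤ ∑ v, |R t v| + ∑ v, |Qt k t v|` (`O t u v ≥ 0`, `∑ v, O t u v = 1`).
(5) `|∑ v, R n v * G v| ≤ ∑ v, |R n v|` as `|G v| ≤ 1`.
-/

namespace Helper4.RC

open Finset

section

variable {S Y V : Type} [AddCommGroup S] [Fintype S] [Fintype Y] [Fintype V]

namespace FKdet

/-- The distribution of the state for the fixed sequence of symbols. -/
noncomputable def full (c : S → Y → ℝ) (L : ℕ → Y → V → V) (q : V) (σ : ℕ → S) (t : ℕ) (v : V) :
    ℝ :=
  ∑ y : Fin t → Y, (∏ i : Fin t, c (σ i) (y i)) * ind (endSt L q t y = v)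

/-- The transition kernel of step `t`. -/
noncomputable def O (c : S → Y → ℝ) (L : ℕ → Y → V → V) (σ : ℕ → S) (t : ℕ) (u v : V) : ℝ :=
  ∑ a, c (σ t) a * ind (L t a u = v)

/-- The part of level less than `k`. -/
noncomputable def low (e : S → S → ℝ) (L : ℕ → Y → V → V) (q : V) (m : S → Y → ℝ) (k t : ℕ)
    (σ : ℕ → S) (v : V) : ℝ :=
  ∑ χ : Fin t → S, if cnt nz χ < k then vec L q m χ v * chr e χ σ else 0

omit [AddCommGroup S] [Fintype S] in
lemma prod_sn (c : S → Y → ℝ) (σ : ℕ → S) {t : ℕ} (y : Fin t → Y) (a : Y) :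
    (∏ i : Fin (t + 1), c (σ i) (sn y a i)) = (∏ i : Fin t, c (σ i) (y i)) * c (σ t) a := by
  rw [Fin.prod_univ_castSucc, sn_last]
  simp only [sn_castSucc, Fin.val_castSucc, Fin.val_last]

omit [AddCommGroup S] [Fintype S] in
lemma full_succ (c : S → Y → ℝ) (L : ℕ → Y → V → V) (q : V) (σ : ℕ → S) (t : ℕ) (v : V) :
    full c L q σ (t + 1) v = ∑ u, full c L q σ t u * O c L σ t u v := by
  unfold full O
  rw [sum_sn]
  simp only [prod_sn, endSt_sn]
  conv_rhs =>
    simp only [Finset.sum_mul]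
    rw [Finset.sum_comm]
  refine Finset.sum_congr rfl fun y _ => ?_
  have h := sum_ind_eq (endSt L q t y) fun u => (∏ i : Fin t, c (σ i) (y i)) *
    ∑ a, c (σ t) a * ind (L t a u = v)
  calc ∑ a, (∏ i : Fin t, c (σ i) (y i)) * c (σ t) a * ind (L t a (endSt L q t y) = v)
      = (∏ i : Fin t, c (σ i) (y i)) * ∑ a, c (σ t) a * ind (L t a (endSt L q t y) = v) := by
        rw [Finset.mul_sum]
        exact Finset.sum_congr rfl fun a _ => by ring
    _ = _ := h.symm
    _ = _ := Finset.sum_congr rfl fun u _ => by ring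

omit [AddCommGroup S] [Fintype S] [Fintype V] in
lemma full_zero (c : S → Y → ℝ) (L : ℕ → Y → V → V) (q : V) (σ : ℕ → S) (v : V) :
    full c L q σ 0 v = ind (q = v) := by
  unfold full
  simp [endSt]

omit [Fintype V] in
lemma low_zero (e : S → S → ℝ) (L : ℕ → Y → V → V) (q : V) (m : S → Y → ℝ) {k : ℕ} (hk : 1 ≤ k)
    (σ : ℕ → S) (v : V) : low e L q m k 0 σ v = ind (q = v) := by
  unfold low
  have h0 : 0 < k := hk
  simp only [cnt_zero, h0, if_true, vec_zero]
  simp [chr]

omit [Fintype V] in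
lemma low_eq (e : S → S → ℝ) (L : ℕ → Y → V → V) (q : V) (m : S → Y → ℝ) (k t : ℕ)
    (σ : ℕ → S) (v : V) : low e L q m k t σ v = ∑ j ∈ range k, Pj e L q m j t σ v := by
  unfold low Pj
  rw [Finset.sum_comm]
  refine Finset.sum_congr rfl fun χ _ => ?_
  rw [Finset.sum_ite_eq]
  simp only [Finset.mem_range]

lemma O_nonneg {c : S → Y → ℝ} (hc : IsKer c) (L : ℕ → Y → V → V) (σ : ℕ → S) (t : ℕ) (u v : V) :
    0 ≤ O c L σ t u v :=
  Finset.sum_nonneg fun a _ => mul_nonneg (hc.nonneg _ _) (ind_nonneg _)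

lemma sum_O {c : S → Y → ℝ} (hc : IsKer c) (L : ℕ → Y → V → V) (σ : ℕ → S) (t : ℕ) (u : V) :
    ∑ v, O c L σ t u v = 1 := by
  unfold O
  rw [Finset.sum_comm]
  simp only [← Finset.mul_sum, sum_ind, mul_one]
  exact hc.sum_one _

lemma vec_O {e : S → S → ℝ} (he : IsChar e) (c : S → Y → ℝ) (L : ℕ → Y → V → V) (q : V)
    (σ : ℕ → S) {t : ℕ} (χ : Fin t → S) (v : V) :
    ∑ u, vec L q (kl e c) χ u * O c L σ t u v =
      ∑ κ, e κ (σ t) * vec L q (kl e c) (sn χ κ) v := by
  simp only [vec_sn]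
  have h : ∀ u, O c L σ t u v = ∑ κ, e κ (σ t) * ∑ a, kl e c κ a * ind (L t a u = v) := by
    intro u
    unfold O
    simp only [Finset.mul_sum]
    rw [Finset.sum_comm]
    refine Finset.sum_congr rfl fun a _ => ?_
    rw [← kl_inv he c (σ t) a, Finset.sum_mul]
    exact Finset.sum_congr rfl fun κ _ => by ring
  simp only [h, Finset.mul_sum]
  rw [Finset.sum_comm]
  refine Finset.sum_congr rfl fun κ _ => Finset.sum_congr rfl fun u _ =>
    Finset.sum_congr rfl fun a _ => by ring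

lemma low_succ {e : S → S → ℝ} (he : IsChar e) (c : S → Y → ℝ) (L : ℕ → Y → V → V) (q : V)
    (k t : ℕ) (σ : ℕ → S) (v : V) :
    low e L q (kl e c) k (t + 1) σ v =
      (∑ u, low e L q (kl e c) k t σ u * O c L σ t u v) - Qt e L q (kl e c) k t σ v := by
  have h1 : (∑ u, low e L q (kl e c) k t σ u * O c L σ t u v) =
      ∑ χ : Fin t → S, ∑ κ : S, (if cnt nz χ < k then
        vec L q (kl e c) (sn χ κ) v * chr e (sn χ κ) σ else 0) := by
    unfold low
    simp only [Finset.sum_mul]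
    rw [Finset.sum_comm]
    refine Finset.sum_congr rfl fun χ _ => ?_
    by_cases h : cnt nz χ < k
    · simp only [h, if_true]
      calc ∑ u, vec L q (kl e c) χ u * chr e χ σ * O c L σ t u v
          = chr e χ σ * ∑ u, vec L q (kl e c) χ u * O c L σ t u v := by
            rw [Finset.mul_sum]
            exact Finset.sum_congr rfl fun u _ => by ring
        _ = _ := by
            rw [vec_O he, Finset.mul_sum]
            exact Finset.sum_congr rfl fun κ _ => by rw [chr_sn]; ring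
    · simp only [h, if_false, zero_mul, Finset.sum_const_zero]
  rw [h1]
  unfold low Qt
  rw [sum_sn, ← Finset.sum_sub_distrib]
  refine Finset.sum_congr rfl fun χ _ => ?_
  rw [← Finset.sum_sub_distrib]
  refine Finset.sum_congr rfl fun κ _ => ?_
  rw [cnt_sn]
  by_cases hκ : κ = 0
  · have h2 : ¬ nz κ := fun h => h hκ
    rw [nind_false h2, ind_false (not_not.mpr hκ)]
    simp
  · have h2 : nz κ := hκ
    rw [nind_true h2, ind_true hκ, one_mul]
    by_cases h3 : cnt nz χ + 1 < k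
    · have h4 : cnt nz χ < k := by omega
      have h5 : ¬ cnt nz χ + 1 = k := by omega
      simp only [h3, h4, h5, if_true, if_false]
      ring
    · by_cases h4 : cnt nz χ < k
      · have h5 : cnt nz χ + 1 = k := by omega
        rw [if_neg h3, if_pos h4, if_pos h5]
        ring
      · have h5 : ¬ cnt nz χ + 1 = k := by omega
        rw [if_neg h3, if_neg h4, if_neg h5]
        ring

lemma sum_abs_le {e : S → S → ℝ} (he : IsChar e) {c : S → Y → ℝ} (hc : IsKer c)
    (L : ℕ → Y → V → V) (q : V) (k : ℕ) (hk : 1 ≤ k) (n : ℕ) (σ : ℕ → S) :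
    ∑ v, |full c L q σ n v - low e L q (kl e c) k n σ v| ≤
      ∑ t ∈ range n, ∑ v, |Qt e L q (kl e c) k t σ v| := by
  induction n with
  | zero =>
    simp only [full_zero, low_zero e L q (kl e c) hk, sub_self, abs_zero, Finset.sum_const_zero,
      Finset.range_zero, Finset.sum_empty, le_refl]
  | succ n ih =>
    rw [Finset.sum_range_succ]
    have h1 : ∀ v, |full c L q σ (n + 1) v - low e L q (kl e c) k (n + 1) σ v| ≤
        (∑ u, |full c L q σ n u - low e L q (kl e c) k n σ u| * O c L σ n u v) +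
          |Qt e L q (kl e c) k n σ v| := by
      intro v
      have h2 : full c L q σ (n + 1) v - low e L q (kl e c) k (n + 1) σ v =
          (∑ u, (full c L q σ n u - low e L q (kl e c) k n σ u) * O c L σ n u v) +
            Qt e L q (kl e c) k n σ v := by
        rw [full_succ, low_succ he]
        simp only [sub_mul, Finset.sum_sub_distrib]
        ring
      rw [h2]
      refine (abs_add_le _ _).trans (add_le_add ?_ le_rfl)
      refine (Finset.abs_sum_le_sum_abs _ _).trans (Finset.sum_le_sum fun u _ => ?_)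
      rw [abs_mul, abs_of_nonneg (O_nonneg hc L σ n u v)]
    refine (Finset.sum_le_sum fun v _ => h1 v).trans ?_
    rw [Finset.sum_add_distrib]
    refine add_le_add ?_ le_rfl
    rw [Finset.sum_comm]
    simp only [← Finset.mul_sum, sum_O hc, mul_one]
    exact ih

end FKdet

theorem fk_det {e : S → S → ℝ} (he : IsChar e) {c : S → Y → ℝ} (hc : IsKer c)
    (L : ℕ → Y → V → V) (q : V) (G : V → ℝ) (hG : ∀ v, |G v| ≤ 1) (k : ℕ) (hk : 1 ≤ k) (n : ℕ)
    (σ : ℕ → S) :
    |Phi c L q G n σ - ∑ j ∈ range k, ∑ v, Pj e L q (kl e c) j n σ v * G v| ≤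
      ∑ t ∈ range n, ∑ v, |Qt e L q (kl e c) k t σ v| := by
  have h1 : Phi c L q G n σ = ∑ v, FKdet.full c L q σ n v * G v := by
    unfold Phi FKdet.full
    simp only [Finset.sum_mul]
    rw [Finset.sum_comm]
    refine Finset.sum_congr rfl fun y _ => ?_
    have h := sum_ind_eq (endSt L q n y) fun v => (∏ i : Fin n, c (σ i) (y i)) * G v
    rw [← h]
    exact Finset.sum_congr rfl fun u _ => by ring
  have h2 : ∑ j ∈ range k, ∑ v, Pj e L q (kl e c) j n σ v * G v =
      ∑ v, FKdet.low e L q (kl e c) k n σ v * G v := by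
    rw [Finset.sum_comm]
    refine Finset.sum_congr rfl fun v _ => ?_
    rw [FKdet.low_eq, Finset.sum_mul]
  rw [h1, h2, ← Finset.sum_sub_distrib]
  refine (Finset.abs_sum_le_sum_abs _ _).trans ?_
  refine le_trans (Finset.sum_le_sum fun v _ => ?_) (FKdet.sum_abs_le he hc L q k hk n σ)
  rw [← sub_mul, abs_mul]
  exact mul_le_of_le_one_right (abs_nonneg _) (hG v)

end

end Helper4.RC
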