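import Pool.Agent.Helper4.RC.GrowDefs

set_option autoImplicit false

/-!
The effect of one nontrivial letter is at most the effect of resampling it.

Proof sketch. `H v d t` is a seminorm (see GrowA; prove it again here as a private lemma): it is
subadditive and `H (c • a) = |c| * H a`. Write `δ u : V → ℝ := fun w => ind (u = w)`.
(1) `H v d t (δ u - δ u') ≤ Gp v d t u u' + Gp v d t u' u` by induction on `d`: for `d = 0`,
`|ind (u = v) - ind (u' = v)| ≤ ind (u = v ∧ u' ≠ v) + ind (u' = v ∧ u ≠ v)`; for `d + 1`,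
`stp t κ (δ u - δ u') = ∑ y, m κ y • (δ (L t y u) - δ (L t y u'))`, and for `¬ nt κ` the
coefficients are `≥ 0`; sum over `κ` with `sum_triv`.
(2) For `nt κ`, as `∑ y, m κ y = 0` and `∑ y', p y' = 1`:
`row i κ u = ∑ y, ∑ y', (m κ y * p y') • (δ (L i y u) - δ (L i y' u))`, so by (1) and `abs_le`
`H v d (i+1) (row i κ u) ≤ ∑ y, ∑ y', p y * p y' * (Gp .. (L i y u) (L i y' u) + Gp .. (L i y' u) (L i y u))`
and by symmetry this is `2 * ∑ y, ∑ y', p y * p y' * Gp v d (i+1) (L i y u) (L i y' u)`.
(3) `0 ≤ Gp ≤ 1` by induction on `d` (`p ≥ 0`, sum `1`).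
-/

namespace Helper4.RC

open Finset

namespace GrowB

variable {Y V K : Type} [Fintype Y] [Fintype V] [Fintype K]

lemma stp_add (L : ℕ → Y → V → V) (m : K → Y → ℝ) (t : ℕ) (κ : K) (a b : V → ℝ) :
    stp L m t κ (fun w => a w + b w) = fun w => stp L m t κ a w + stp L m t κ b w := by
  funext w
  unfold stp
  rw [← Finset.sum_add_distrib]
  exact Finset.sum_congr rfl fun u _ => by ring

lemma stp_mul (L : ℕ → Y → V → V) (m : K → Y → ℝ) (t : ℕ) (κ : K) (c : ℝ) (a : V → ℝ) :
    stp L m t κ (fun w => c * a w) = fun w => c * stp L m t κ a w := by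
  funext w
  unfold stp
  rw [Finset.mul_sum]
  exact Finset.sum_congr rfl fun u _ => by ring

lemma H_nonneg (L : ℕ → Y → V → V) (m : K → Y → ℝ) (nt : K → Prop) (v : V) (d t : ℕ)
    (a : V → ℝ) : 0 ≤ H L m nt v d t a := by
  induction d generalizing t a with
  | zero =>
    rw [H]
    exact abs_nonneg _
  | succ d ih =>
    rw [H]
    exact Finset.sum_nonneg fun κ _ => mul_nonneg (ind_nonneg _) (ih _ _)

lemma H_add (L : ℕ → Y → V → V) (m : K → Y → ℝ) (nt : K → Prop) (v : V) (d t : ℕ)
    (a b : V → ℝ) :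
    H L m nt v d t (fun w => a w + b w) ≤ H L m nt v d t a + H L m nt v d t b := by
  induction d generalizing t a b with
  | zero =>
    simp only [H]
    exact abs_add_le _ _
  | succ d ih =>
    simp only [H]
    rw [← Finset.sum_add_distrib]
    refine Finset.sum_le_sum fun κ _ => ?_
    rw [stp_add, ← mul_add]
    exact mul_le_mul_of_nonneg_left (ih _ _ _) (ind_nonneg _)

lemma H_mul (L : ℕ → Y → V → V) (m : K → Y → ℝ) (nt : K → Prop) (v : V) (d t : ℕ)
    (c : ℝ) (a : V → ℝ) :
    H L m nt v d t (fun w => c * a w) = |c| * H L m nt v d t a := by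
  induction d generalizing t a with
  | zero =>
    simp only [H]
    exact abs_mul _ _
  | succ d ih =>
    simp only [H]
    rw [Finset.mul_sum]
    refine Finset.sum_congr rfl fun κ _ => ?_
    rw [stp_mul, ih]
    ring

lemma H_zero (L : ℕ → Y → V → V) (m : K → Y → ℝ) (nt : K → Prop) (v : V) (d t : ℕ) :
    H L m nt v d t (fun _ => 0) = 0 := by
  have h := H_mul L m nt v d t 0 (fun _ => 0)
  simpa using h

lemma H_sum (L : ℕ → Y → V → V) (m : K → Y → ℝ) (nt : K → Prop) (v : V) (d t : ℕ)
    {I : Type} (s : Finset I) (c : I → ℝ) (f : I → V → ℝ) :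
    H L m nt v d t (fun w => ∑ i ∈ s, c i * f i w) ≤ ∑ i ∈ s, |c i| * H L m nt v d t (f i) := by
  classical
  induction s using Finset.induction_on with
  | empty =>
    simp only [Finset.sum_empty]
    rw [H_zero]
  | insert i s hi ih =>
    simp only [Finset.sum_insert hi]
    refine (H_add L m nt v d t (fun w => c i * f i w) (fun w => ∑ i ∈ s, c i * f i w)).trans ?_
    rw [H_mul]
    exact add_le_add_right ih _

lemma sum_sub (f : V → ℝ) (u u' : V) :
    ∑ w, (ind (u = w) - ind (u' = w)) * f w = f u - f u' := by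
  rw [← sum_ind_eq u f, ← sum_ind_eq u' f, ← Finset.sum_sub_distrib]
  exact Finset.sum_congr rfl fun w _ => by ring

/-- part (1) -/
lemma H_del {p : Y → ℝ} {m : K → Y → ℝ} {nt : K → Prop} (L : ℕ → Y → V → V)
    (h : IsLetters p m nt) (v : V) (d t : ℕ) (u u' : V) :
    H L m nt v d t (fun w => ind (u = w) - ind (u' = w)) ≤
      Gp L p v d t u u' + Gp L p v d t u' u := by
  induction d generalizing t u u' with
  | zero =>
    simp only [H, Gp]
    by_cases h1 : u = v
    · by_cases h2 : u' = v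
      · rw [ind_true h1, ind_true h2, ind_false (fun h => h.2 h2), ind_false (fun h => h.2 h1)]
        simp
      · rw [ind_true h1, ind_false h2, ind_true ⟨h1, h2⟩, ind_false (fun h => h.2 h1)]
        simp
    · by_cases h2 : u' = v
      · rw [ind_false h1, ind_true h2, ind_false (fun h => h.2 h2), ind_true ⟨h2, h1⟩]
        simp
      · rw [ind_false h1, ind_false h2, ind_false (fun h => h1 h.1), ind_false (fun h => h2 h.1)]
        simp
  | succ d ih =>
    simp only [H, Gp]
    have hstp : ∀ κ, stp L m t κ (fun w => ind (u = w) - ind (u' = w)) =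
        fun w => ∑ y, m κ y * (ind (L t y u = w) - ind (L t y u' = w)) := by
      intro κ
      funext w
      unfold stp
      rw [sum_sub (fun u => ∑ y, m κ y * ind (L t y u = w)), ← Finset.sum_sub_distrib]
      exact Finset.sum_congr rfl fun y _ => by ring
    have hk : ∀ κ, ind (¬ nt κ) *
        H L m nt v d (t + 1) (stp L m t κ (fun w => ind (u = w) - ind (u' = w))) ≤
        ind (¬ nt κ) * ∑ y, m κ y * (Gp L p v d (t + 1) (L t y u) (L t y u') +
          Gp L p v d (t + 1) (L t y u') (L t y u)) := by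
      intro κ
      by_cases hκ : nt κ
      · rw [ind_false (fun h => h hκ), zero_mul, zero_mul]
      · refine mul_le_mul_of_nonneg_left ?_ (ind_nonneg _)
        rw [hstp κ]
        refine (H_sum L m nt v d (t + 1) Finset.univ (fun y => m κ y)
          (fun y w => ind (L t y u = w) - ind (L t y u' = w))).trans ?_
        refine Finset.sum_le_sum fun y _ => ?_
        rw [abs_of_nonneg (h.nonneg κ hκ y)]
        exact mul_le_mul_of_nonneg_left (ih _ _ _) (h.nonneg κ hκ y)
    refine (Finset.sum_le_sum fun κ _ => hk κ).trans ?_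
    rw [← Finset.sum_add_distrib]
    simp only [Finset.mul_sum]
    rw [Finset.sum_comm]
    refine le_of_eq (Finset.sum_congr rfl fun y _ => ?_)
    rw [← h.sum_triv y, Finset.sum_mul, Finset.sum_mul, ← Finset.sum_add_distrib]
    exact Finset.sum_congr rfl fun κ _ => by ring

/-- part (2) -/
lemma H_row {p : Y → ℝ} {m : K → Y → ℝ} {nt : K → Prop} (L : ℕ → Y → V → V)
    (h : IsLetters p m nt) (v : V) (d i : ℕ) (u : V) (κ : K) (hκ : nt κ) :
    H L m nt v d (i + 1) (row L m i κ u) ≤
      2 * ∑ y, ∑ y', p y * p y' * Gp L p v d (i + 1) (L i y u) (L i y' u) := by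
  have hrow : row L m i κ u =
      fun w => ∑ x : Y × Y, (m κ x.1 * p x.2) * (ind (L i x.1 u = w) - ind (L i x.2 u = w)) := by
    funext w
    unfold row
    rw [Fintype.sum_prod_type]
    have h1 : ∀ y, ∑ y', m κ y * p y' * (ind (L i y u = w) - ind (L i y' u = w)) =
        m κ y * ind (L i y u = w) - m κ y * ∑ y', p y' * ind (L i y' u = w) := by
      intro y
      have h2 : m κ y * ind (L i y u = w) = ∑ y', m κ y * p y' * ind (L i y u = w) := by
        rw [← Finset.sum_mul, ← Finset.mul_sum, h.p_sum, mul_one]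
      rw [h2, Finset.mul_sum, ← Finset.sum_sub_distrib]
      exact Finset.sum_congr rfl fun y' _ => by ring
    simp only [h1]
    rw [Finset.sum_sub_distrib, ← Finset.sum_mul, h.sum_zero κ hκ, zero_mul, sub_zero]
  rw [hrow]
  refine (H_sum L m nt v d (i + 1) Finset.univ (fun x : Y × Y => m κ x.1 * p x.2)
    (fun x w => ind (L i x.1 u = w) - ind (L i x.2 u = w))).trans ?_
  have h3 : ∀ x : Y × Y, |m κ x.1 * p x.2| *
      H L m nt v d (i + 1) (fun w => ind (L i x.1 u = w) - ind (L i x.2 u = w)) ≤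
      p x.1 * p x.2 * (Gp L p v d (i + 1) (L i x.1 u) (L i x.2 u) +
        Gp L p v d (i + 1) (L i x.2 u) (L i x.1 u)) := by
    intro x
    refine mul_le_mul ?_ (H_del L h v d (i + 1) _ _) (H_nonneg L m nt v d (i + 1) _)
      (mul_nonneg (h.p_nonneg _) (h.p_nonneg _))
    rw [abs_mul, abs_of_nonneg (h.p_nonneg x.2)]
    exact mul_le_mul_of_nonneg_right (h.abs_le κ hκ x.1) (h.p_nonneg x.2)
  refine (Finset.sum_le_sum fun x _ => h3 x).trans ?_
  rw [Fintype.sum_prod_type]
  simp only [mul_add, Finset.sum_add_distrib]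
  have h4 : ∑ y, ∑ y', p y * p y' * Gp L p v d (i + 1) (L i y' u) (L i y u) =
      ∑ y, ∑ y', p y * p y' * Gp L p v d (i + 1) (L i y u) (L i y' u) := by
    rw [Finset.sum_comm]
    exact Finset.sum_congr rfl fun y _ => Finset.sum_congr rfl fun y' _ => by ring
  rw [h4]
  exact le_of_eq (by ring)

end GrowB

section

variable {Y V K : Type} [Fintype Y] [Fintype V] [Fintype K]

theorem del_le (L : ℕ → Y → V → V) {p : Y → ℝ} {m : K → Y → ℝ} {nt : K → Prop}
    (h : IsLetters p m nt) (d i : ℕ) (u v : V) :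
    ∑ κ, ind (nt κ) * H L m nt v d (i + 1) (row L m i κ u) ≤
      2 * (∑ κ, ind (nt κ)) *
        ∑ y, ∑ y', p y * p y' * Gp L p v d (i + 1) (L i y u) (L i y' u) := by
  rw [mul_comm (2 : ℝ), mul_assoc, Finset.sum_mul]
  refine Finset.sum_le_sum fun κ _ => ?_
  by_cases hκ : nt κ
  · exact mul_le_mul_of_nonneg_left (GrowB.H_row L h v d i u κ hκ) (ind_nonneg _)
  · rw [ind_false hκ, zero_mul, zero_mul]

theorem Gp_nonneg (L : ℕ → Y → V → V) {p : Y → ℝ} (hp : ∀ y, 0 ≤ p y) (v : V) (d t : ℕ)
    (u u' : V) : 0 ≤ Gp L p v d t u u' := by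
  induction d generalizing t u u' with
  | zero =>
    rw [Gp]
    exact ind_nonneg _
  | succ d ih =>
    rw [Gp]
    exact Finset.sum_nonneg fun y _ => mul_nonneg (hp y) (ih _ _ _)

theorem Gp_le_one (L : ℕ → Y → V → V) {p : Y → ℝ} (hp : ∀ y, 0 ≤ p y) (hs : ∑ y, p y = 1)
    (v : V) (d t : ℕ) (u u' : V) : Gp L p v d t u u' ≤ 1 := by
  induction d generalizing t u u' with
  | zero =>
    rw [Gp]
    exact ind_le_one _
  | succ d ih =>
    rw [Gp, ← hs]
    exact Finset.sum_le_sum fun y _ => mul_le_of_le_one_right (hp y) (ih _ _ _)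

end

end Helper4.RC
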