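import Pool.Agent.Helper4.RC.GrowDefs

set_option autoImplicit false

/-!
The total influence as a sum over the time of the resampled letter and the state before it.

Proof sketch. Fix `i`. For `φ : V → V → ℝ` let `E d t φ u u'` be the mean value of `φ` at the ends
of the runs with the same `d` letters from `u`, `u'` at the time `t`: `E 0 t φ u u' = φ u u'`,
`E (d+1) t φ u u' = ∑ y, p y * E d (t+1) φ (L t y u) (L t y u')` (so `Gp = E` with
`φ u u' = ind (u = v ∧ u' ≠ v)`). By induction on `d` (all `t`, `φ`):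
`E (d+1) t φ = E d t (fun u u' => ∑ y, p y * φ (L (t+d) y u) (L (t+d) y u'))`.
Claim, by induction on `d` (all `φ`), for `n = i + 1 + d` and the index `i` of `Fin n`:
`∑ y : Fin n → Y, pw p y * ∑ a, p a * φ (endSt L q n y) (endSt L q n (update y i a)) =
   ∑ u, dist L q p i u * ∑ y, ∑ y', p y * p y' * E d (i+1) φ (L i y u) (L i y' u)`.
`d = 0`: `sum_sn` with last index `i`, `update (sn y b) last a = sn y a`, `endSt_sn`, and
`∑ y : Fin i → Y, pw p y * F (endSt L q i y) = ∑ u, dist L q p i u * F u` (use `sum_ind_eq`).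
Step: `sum_sn`, `update (sn y b) i.castSucc a = sn (update y i a) b`, `endSt_sn`, then the
induction hypothesis for the function `fun u u' => ∑ y, p y * φ (L (i+1+d) y u) (L (i+1+d) y u')`.
For the theorem: `ri L q p T v` is the sum over `i : Fin T` of the left sides with `T = i + 1 + d`
(`obtain ⟨d, rfl⟩`, `Finset.sum_range` turns `∑ i ∈ range T` into a sum over `Fin T`), `d = T - 1 - i`.
-/

namespace Helper4.RC

open Finset

set_option linter.unusedSectionVars false

section

variable {Y V : Type} [Fintype Y] [Fintype V]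

/-- The mean value of `φ` at the ends of two runs with the same letters. -/
private noncomputable def Em (L : ℕ → Y → V → V) (p : Y → ℝ) :
    (d t : ℕ) → (V → V → ℝ) → V → V → ℝ
  | 0, _, φ, u, u' => φ u u'
  | d + 1, t, φ, u, u' => ∑ y, p y * Em L p d (t + 1) φ (L t y u) (L t y u')

private lemma Gp_eq (L : ℕ → Y → V → V) (p : Y → ℝ) (v : V) (d : ℕ) : ∀ (t : ℕ) (u u' : V),
    Gp L p v d t u u' = Em L p d t (fun a b => ind (a = v ∧ b ≠ v)) u u' := by
  induction d with
  | zero => intro t u u'; rfl
  | succ d ih =>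
    intro t u u'
    rw [Gp, Em]
    exact sum_congr rfl fun y _ => by rw [ih]

private lemma Em_last (L : ℕ → Y → V → V) (p : Y → ℝ) (d : ℕ) :
    ∀ (t : ℕ) (φ : V → V → ℝ) (u u' : V), Em L p (d + 1) t φ u u' =
      Em L p d t (fun a b => ∑ y, p y * φ (L (t + d) y a) (L (t + d) y b)) u u' := by
  induction d with
  | zero =>
    intro t φ u u'
    rfl
  | succ d ih =>
    intro t φ u u'
    rw [Em]
    conv_rhs => rw [Em]
    refine sum_congr rfl fun y _ => ?_
    rw [ih]
    have h : t + 1 + d = t + (d + 1) := by omega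
    rw [h]

private lemma upd_last {n : ℕ} (y : Fin n → Y) (b a : Y) :
    Function.update (sn y b) (Fin.last n) a = sn y a := by
  funext j
  refine Fin.lastCases ?_ (fun j => ?_) j
  · rw [Function.update_self, sn_last]
  · rw [Function.update_of_ne (Fin.castSucc_lt_last j).ne, sn_castSucc, sn_castSucc]

private lemma upd_castSucc {n : ℕ} (y : Fin n → Y) (b a : Y) (i : Fin n) :
    Function.update (sn y b) i.castSucc a = sn (Function.update y i a) b := by
  funext j
  refine Fin.lastCases ?_ (fun j => ?_) j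
  · rw [Function.update_of_ne (Fin.castSucc_lt_last i).ne', sn_last, sn_last]
  · rw [sn_castSucc]
    by_cases h : j = i
    · subst h
      rw [Function.update_self, Function.update_self]
    · rw [Function.update_of_ne h, Function.update_of_ne (fun hh => h (Fin.castSucc_injective n hh)),
        sn_castSucc]

private lemma sumDistF (L : ℕ → Y → V → V) (q : V) (p : Y → ℝ) (n : ℕ) (F : V → ℝ) :
    ∑ y : Fin n → Y, pw p y * F (endSt L q n y) = ∑ u, dist L q p n u * F u := by
  unfold dist
  simp_rw [sum_mul]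
  rw [sum_comm]
  refine sum_congr rfl fun y _ => ?_
  have := sum_ind_eq (endSt L q n y) F
  rw [← this, mul_sum]
  exact sum_congr rfl fun v _ => by ring

private lemma claim (L : ℕ → Y → V → V) (q : V) (p : Y → ℝ) (i : ℕ) (d : ℕ) :
    ∀ (φ : V → V → ℝ), ∑ y : Fin (i + 1 + d) → Y, pw p y * ∑ a, p a *
      φ (endSt L q (i + 1 + d) y)
        (endSt L q (i + 1 + d) (Function.update y ⟨i, by omega⟩ a)) =
      ∑ u, dist L q p i u * ∑ y, ∑ y', p y * p y' * Em L p d (i + 1) φ (L i y u) (L i y' u) := by
  induction d with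
  | zero =>
    intro φ
    show ∑ y : Fin (i + 1) → Y, pw p y * ∑ a, p a *
      φ (endSt L q (i + 1) y) (endSt L q (i + 1) (Function.update y (Fin.last i) a)) = _
    rw [sum_sn]
    simp_rw [upd_last, endSt_sn, pw_sn]
    rw [← sumDistF L q p i fun u => ∑ y, ∑ y', p y * p y' * Em L p 0 (i + 1) φ (L i y u) (L i y' u)]
    refine sum_congr rfl fun y _ => ?_
    rw [mul_sum]
    refine sum_congr rfl fun b _ => ?_
    rw [mul_assoc, mul_sum]
    congr 1
    refine sum_congr rfl fun a _ => ?_
    rw [Em]
    ring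
  | succ d ih =>
    intro φ
    show ∑ y : Fin (i + 1 + d + 1) → Y, pw p y * ∑ a, p a *
      φ (endSt L q (i + 1 + d + 1) y) (endSt L q (i + 1 + d + 1)
        (Function.update y (Fin.castSucc (⟨i, by omega⟩ : Fin (i + 1 + d))) a)) = _
    rw [sum_sn]
    simp_rw [upd_castSucc, endSt_sn, pw_sn]
    have h := ih fun u u' => ∑ y, p y * φ (L (i + 1 + d) y u) (L (i + 1 + d) y u')
    simp_rw [Em_last]
    rw [← h]
    refine sum_congr rfl fun y _ => ?_
    rw [mul_sum]
    simp_rw [mul_sum]
    rw [sum_comm]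
    refine sum_congr rfl fun a _ => ?_
    refine sum_congr rfl fun b _ => ?_
    ring

theorem ri_eq (L : ℕ → Y → V → V) (q : V) (p : Y → ℝ) (T : ℕ) (v : V) :
    ∑ i ∈ range T, ∑ u, dist L q p i u *
      ∑ y, ∑ y', p y * p y' * Gp L p v (T - 1 - i) (i + 1) (L i y u) (L i y' u) =
        ri L q p T v := by
  unfold ri
  rw [Finset.sum_range]
  refine sum_congr rfl fun i _ => ?_
  obtain ⟨i, hi⟩ := i
  obtain ⟨d, rfl⟩ : ∃ d, T = i + 1 + d := ⟨T - (i + 1), by omega⟩
  have hd : i + 1 + d - 1 - i = d := by omega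
  simp only [hd]
  rw [claim L q p i d fun a b => ind (a = v ∧ b ≠ v)]
  refine sum_congr rfl fun u _ => ?_
  congr 1
  refine sum_congr rfl fun y _ => sum_congr rfl fun y' _ => ?_
  rw [Gp_eq]

end

end Helper4.RC
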