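import Pool.Agent.Helper4.RC.GrowA
import Pool.Agent.Helper4.RC.GrowB
import Pool.Agent.Helper4.RC.GrowC

set_option autoImplicit false

/-!
Growth of the sums of absolute values from small relative influence.

Proof sketch. `W 0 t v = dist t v`: the words without nontrivial letters; by induction on `t`
(`sum_sn`, `vec_sn`, `cnt_sn`, `dist_succ`, `sum_triv`, the `vec` of such a word is `≥ 0`).
Induction on `j` for the main bound. Let `D i u = ∑ y, ∑ y', p y * p y' * Gp (T-1-i) (i+1) ..`,
`0 ≤ D ≤ 1`. By `W_succ_le`, `del_le` and the induction hypothesis (`W j i u ≤ A * dist i u + β`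
with `A = (2cΛ)^j`, `β = j B^j ν`, `B = 2c(Λ + n card V)`; note `W ≥ 0`, `T ≤ n`):
`W (j+1) T v ≤ 2c ∑ i, ∑ u, (A * dist i u + β) * D i u ≤ 2c (A * ri T v + β n card V)`
`≤ 2c A (Λ dist T v + ν) + 2 c n card V β`, and `2cAν ≤ B^(j+1) ν` (`Λ ≥ 1`, `A ≤ B^j`, `2c ≤ B`),
`2 c n (card V) j B^j ν ≤ j B^(j+1) ν`.
-/

namespace Helper4.RC

open Finset

section

variable {Y V K : Type} [Fintype Y] [Fintype V] [Fintype K]

omit [Fintype V] in
private lemma W_nonneg (L : ℕ → Y → V → V) (q : V) (m : K → Y → ℝ) (nt : K → Prop) (j t : ℕ)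
    (v : V) : 0 ≤ W L q m nt j t v := by
  unfold W
  refine Finset.sum_nonneg fun χ _ => ?_
  split_ifs
  · exact abs_nonneg _
  · exact le_refl _

omit [Fintype K] in
private lemma not_nt_of_cnt {nt : K → Prop} {t : ℕ} {χ : Fin t → K} (hχ : cnt nt χ = 0)
    (i : Fin t) : ¬ nt (χ i) := by
  intro hn
  have h1 : ∀ i ∈ (Finset.univ : Finset (Fin t)), nind (nt (χ i)) = 0 :=
    Finset.sum_eq_zero_iff.mp hχ
  have h2 := h1 i (Finset.mem_univ i)
  rw [nind_true hn] at h2
  exact one_ne_zero h2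

omit [Fintype V] in
private lemma vec_nonneg (L : ℕ → Y → V → V) (q : V) {p : Y → ℝ} {m : K → Y → ℝ}
    {nt : K → Prop} (h : IsLetters p m nt) {t : ℕ} {χ : Fin t → K} (hχ : cnt nt χ = 0) (v : V) :
    0 ≤ vec L q m χ v := by
  unfold vec
  refine Finset.sum_nonneg fun y _ => mul_nonneg ?_ (ind_nonneg _)
  exact Finset.prod_nonneg fun i _ => h.nonneg _ (not_nt_of_cnt hχ i) _

omit [Fintype K] in
private lemma prod_ind {nt : K → Prop} {t : ℕ} (χ : Fin t → K) :
    ∏ i, ind (¬ nt (χ i)) = if cnt nt χ = 0 then 1 else 0 := by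
  split_ifs with hχ
  · exact Finset.prod_eq_one fun i _ => ind_true (not_nt_of_cnt hχ i)
  · have h1 : ∃ i ∈ (Finset.univ : Finset (Fin t)), nind (nt (χ i)) ≠ 0 := by
      by_contra hcon
      push Not at hcon
      exact hχ (Finset.sum_eq_zero_iff.mpr hcon)
    obtain ⟨i, hi, hne⟩ := h1
    refine Finset.prod_eq_zero hi (ind_false ?_)
    intro hn
    exact hne (nind_false hn)

omit [Fintype V] in
private lemma W_zero_eq (L : ℕ → Y → V → V) (q : V) {p : Y → ℝ} {m : K → Y → ℝ}
    {nt : K → Prop} (h : IsLetters p m nt) (t : ℕ) (v : V) :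
    W L q m nt 0 t v = dist L q p t v := by
  classical
  have h1 : W L q m nt 0 t v =
      ∑ χ : Fin t → K, ∑ y : Fin t → Y,
        (∏ i, ind (¬ nt (χ i)) * m (χ i) (y i)) * ind (endSt L q t y = v) := by
    unfold W
    refine Finset.sum_congr rfl fun χ _ => ?_
    have h2 : ∀ y : Fin t → Y, (∏ i, ind (¬ nt (χ i)) * m (χ i) (y i)) *
        ind (endSt L q t y = v) = (if cnt nt χ = 0 then 1 else 0) *
          (mw m χ y * ind (endSt L q t y = v)) := by
      intro y
      rw [Finset.prod_mul_distrib, prod_ind, mul_assoc]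
      rfl
    simp only [h2, ← Finset.mul_sum]
    split_ifs with hχ
    · rw [abs_of_nonneg (vec_nonneg L q h hχ v), one_mul]
      rfl
    · rw [zero_mul]
  rw [h1, Finset.sum_comm]
  unfold dist
  refine Finset.sum_congr rfl fun y _ => ?_
  rw [← Finset.sum_mul]
  congr 1
  unfold pw
  simp only [← h.sum_triv]
  rw [Finset.prod_univ_sum, Fintype.piFinset_univ]

theorem growth (L : ℕ → Y → V → V) (q : V) {p : Y → ℝ} {m : K → Y → ℝ} {nt : K → Prop}
    (h : IsLetters p m nt) (n : ℕ) (Λ ν c : ℝ) (hΛ : 1 ≤ Λ) (hν : 0 ≤ ν) (hc1 : 1 ≤ c)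
    (hc : ∑ κ, ind (nt κ) ≤ c)
    (hri : ∀ t ≤ n, ∀ v, ri L q p t v ≤ Λ * dist L q p t v + ν) (j : ℕ) :
    ∀ t ≤ n, ∀ v, W L q m nt j t v ≤
      (2 * c * Λ) ^ j * dist L q p t v + j * (2 * c * (Λ + n * Fintype.card V)) ^ j * ν := by
  induction j with
  | zero =>
    intro t _ v
    rw [W_zero_eq L q h]
    simp
  | succ j ih =>
    intro t ht v
    have hnV : (0 : ℝ) ≤ n * Fintype.card V := by positivity
    have hc0 : (0 : ℝ) ≤ c := by linarith
    have hΛ0 : (0 : ℝ) ≤ Λ := by linarith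
    obtain ⟨A, hA⟩ : ∃ A : ℝ, A = (2 * c * Λ) ^ j := ⟨_, rfl⟩
    obtain ⟨B, hB⟩ : ∃ B : ℝ, B = 2 * c * (Λ + n * Fintype.card V) := ⟨_, rfl⟩
    have hA0 : 0 ≤ A := by rw [hA]; positivity
    have hB0 : 0 ≤ B := by rw [hB]; positivity
    obtain ⟨β, hβ⟩ : ∃ β : ℝ, β = j * B ^ j * ν := ⟨_, rfl⟩
    have hβ0 : 0 ≤ β := by rw [hβ]; positivity
    obtain ⟨D, hD⟩ : ∃ D : ℕ → V → ℝ, D = fun i u => ∑ y, ∑ y', p y * p y' *
        Gp L p v (t - 1 - i) (i + 1) (L i y u) (L i y' u) := ⟨_, rfl⟩
    have hpp : ∀ y y', 0 ≤ p y * p y' := fun y y' => mul_nonneg (h.p_nonneg _) (h.p_nonneg _)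
    have hD0 : ∀ i u, 0 ≤ D i u := by
      intro i u
      rw [hD]
      exact Finset.sum_nonneg fun y _ => Finset.sum_nonneg fun y' _ =>
        mul_nonneg (hpp y y') (Gp_nonneg L h.p_nonneg _ _ _ _ _)
    have hD1 : ∀ i u, D i u ≤ 1 := by
      intro i u
      rw [hD]
      calc ∑ y, ∑ y', p y * p y' * Gp L p v (t - 1 - i) (i + 1) (L i y u) (L i y' u)
          ≤ ∑ y, ∑ y', p y * p y' * 1 := by
            refine Finset.sum_le_sum fun y _ => Finset.sum_le_sum fun y' _ => ?_
            exact mul_le_mul_of_nonneg_left (Gp_le_one L h.p_nonneg h.p_sum _ _ _ _ _) (hpp y y')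
        _ = 1 := by
            simp only [mul_one, ← Finset.mul_sum, h.p_sum]
    have hri' : ∑ i ∈ range t, ∑ u, dist L q p i u * D i u ≤ Λ * dist L q p t v + ν := by
      rw [hD]
      simp only
      rw [ri_eq]
      exact hri t ht v
    have hDs : ∑ i ∈ range t, ∑ u, D i u ≤ n * Fintype.card V := by
      calc ∑ i ∈ range t, ∑ u, D i u ≤ ∑ _i ∈ range t, ∑ _u : V, (1 : ℝ) :=
            Finset.sum_le_sum fun i _ => Finset.sum_le_sum fun u _ => hD1 i u
        _ = t * Fintype.card V := by simp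
        _ ≤ n * Fintype.card V := by
            have : (t : ℝ) ≤ n := by exact_mod_cast ht
            exact mul_le_mul_of_nonneg_right this (by positivity)
    have hdist0 := dist_nonneg L q h.p_nonneg t v
    have step1 : W L q m nt (j + 1) t v ≤
        ∑ i ∈ range t, ∑ u, (A * dist L q p i u + β) * (2 * c * D i u) := by
      refine (W_succ_le L q m nt j t v).trans ?_
      refine Finset.sum_le_sum fun i hi => Finset.sum_le_sum fun u _ => ?_
      have hin : i ≤ n := (Finset.mem_range.mp hi).le.trans ht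
      have e1 : ∑ κ, ind (nt κ) * H L m nt v (t - 1 - i) (i + 1) (row L m i κ u) ≤
          2 * c * D i u := by
        refine (del_le L h (t - 1 - i) i u v).trans ?_
        have e2 : 2 * (∑ κ, ind (nt κ)) ≤ 2 * c := by linarith
        have e3 := mul_le_mul_of_nonneg_right e2 (hD0 i u)
        rw [hD] at e3 ⊢
        exact e3
      have e4 : 0 ≤ 2 * c * D i u := by
        have := hD0 i u
        positivity
      calc W L q m nt j i u *
            ∑ κ, ind (nt κ) * H L m nt v (t - 1 - i) (i + 1) (row L m i κ u)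
          ≤ W L q m nt j i u * (2 * c * D i u) :=
            mul_le_mul_of_nonneg_left e1 (W_nonneg L q m nt j i u)
        _ ≤ (A * dist L q p i u + β) * (2 * c * D i u) := by
            refine mul_le_mul_of_nonneg_right ?_ e4
            have := ih i hin u
            rw [hA, hβ, hB]
            exact this
    have step2 : ∑ i ∈ range t, ∑ u, (A * dist L q p i u + β) * (2 * c * D i u) =
        2 * c * (A * ∑ i ∈ range t, ∑ u, dist L q p i u * D i u +
          β * ∑ i ∈ range t, ∑ u, D i u) := by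
      simp only [Finset.mul_sum, ← Finset.sum_add_distrib]
      refine Finset.sum_congr rfl fun i _ => Finset.sum_congr rfl fun u _ => ?_
      ring
    have step3 : 2 * c * (A * ∑ i ∈ range t, ∑ u, dist L q p i u * D i u +
          β * ∑ i ∈ range t, ∑ u, D i u) ≤
        2 * c * (A * (Λ * dist L q p t v + ν) + β * (n * Fintype.card V)) := by
      refine mul_le_mul_of_nonneg_left ?_ (by positivity)
      exact add_le_add (mul_le_mul_of_nonneg_left hri' hA0)
        (mul_le_mul_of_nonneg_left hDs hβ0)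
    have hAB : A ≤ B ^ j := by
      rw [hA, hB]
      refine pow_le_pow_left₀ (by positivity) ?_ j
      refine mul_le_mul_of_nonneg_left ?_ (by positivity)
      linarith
    have h2c : 2 * c ≤ B := by
      rw [hB]
      have : 2 * c * 1 ≤ 2 * c * (Λ + n * Fintype.card V) := by
        refine mul_le_mul_of_nonneg_left ?_ (by positivity)
        linarith
      linarith
    have h2n : 2 * c * (n * Fintype.card V) ≤ B := by
      rw [hB]
      refine mul_le_mul_of_nonneg_left ?_ (by positivity)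
      linarith
    have f1 : 2 * c * A * ν ≤ B * B ^ j * ν := by
      refine mul_le_mul_of_nonneg_right ?_ hν
      exact mul_le_mul h2c hAB hA0 hB0
    have f2 : 2 * c * (n * Fintype.card V) * β ≤ B * β := mul_le_mul_of_nonneg_right h2n hβ0
    calc W L q m nt (j + 1) t v
        ≤ 2 * c * (A * (Λ * dist L q p t v + ν) + β * (n * Fintype.card V)) :=
          (step1.trans step2.le).trans step3
      _ = A * (2 * c * Λ) * dist L q p t v + (2 * c * A * ν +
            2 * c * (n * Fintype.card V) * β) := by ring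
      _ ≤ A * (2 * c * Λ) * dist L q p t v + (B * B ^ j * ν + B * β) :=
          add_le_add_right (add_le_add f1 f2) _
      _ = (2 * c * Λ) ^ (j + 1) * dist L q p t v +
            ((j + 1 : ℕ) : ℝ) * (2 * c * (Λ + n * Fintype.card V)) ^ (j + 1) * ν := by
          rw [← hB, hβ, hA]
          push_cast
          ring

end

end Helper4.RC
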