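import Mathlib

set_option autoImplicit false

/-!
Local divisors of a monoid.

Proof sketch. For `x = x' * c`, `y = c * y'` the product is `x' * c * y' = x' * y = x * y'`, independent
of the choice of `x'`. Closed: `x * y' ∈ c * M`, `x' * y ∈ M * c`. Associativity, unit `c`. If
`u ^ (k+1) = u ^ k` for `x = u * c` then the powers of `x` in the local divisor are
`x ^ (j+1) = u ^ (j+1) * c` and `x ^ 0 = c`, so `x ^ (k+1) = x ^ k` (for `k = 0`: `u = 1`, `x = c`).
`card_lt`: `1` is not in it: otherwise `c * y = 1`, so `c` is a unit of the finite monoid, and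
`c ^ (k+1) = c ^ k` gives `c = 1`.
-/

namespace Helper4.RC

/-- The underlying set of the local divisor of `M` at `c`. -/
def Loc {M : Type} [Monoid M] (c : M) : Type :=
  {x : M // (∃ y, x = c * y) ∧ ∃ z, x = z * c}

variable {M : Type} [Monoid M]

/-- The product `(x' c) ∘ y = x' y`. -/
noncomputable def Loc.mul {c : M} (x y : Loc c) : Loc c :=
  ⟨x.2.2.choose * y.1, by
    obtain ⟨y', hy'⟩ := y.2.1
    obtain ⟨x', hx'⟩ := x.2.1
    refine ⟨x' * y', ?_⟩
    rw [hy', ← mul_assoc, ← x.2.2.choose_spec, hx', mul_assoc], by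
    obtain ⟨z, hz⟩ := y.2.2
    exact ⟨x.2.2.choose * z, by rw [mul_assoc, ← hz]⟩⟩

theorem Loc.mul_val {c : M} (x y : Loc c) (x' : M) (h : x.1 = x' * c) :
    (Loc.mul x y).1 = x' * y.1 := by
  obtain ⟨y', hy'⟩ := y.2.1
  change x.2.2.choose * y.1 = x' * y.1
  rw [hy', ← mul_assoc, ← mul_assoc, ← x.2.2.choose_spec, h]

noncomputable instance Loc.monoid (c : M) : Monoid (Loc c) where
  mul := Loc.mul
  one := ⟨c, ⟨1, (mul_one c).symm⟩, ⟨1, (one_mul c).symm⟩⟩
  mul_assoc := by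
    intro x y z
    obtain ⟨x', hx'⟩ := x.2.2
    obtain ⟨y', hy'⟩ := y.2.2
    apply Subtype.ext
    change (Loc.mul (Loc.mul x y) z).1 = (Loc.mul x (Loc.mul y z)).1
    have h1 : (Loc.mul x y).1 = x' * y' * c := by
      rw [Loc.mul_val x y x' hx', hy', mul_assoc]
    rw [Loc.mul_val _ z (x' * y') h1, Loc.mul_val x _ x' hx', Loc.mul_val y z y' hy', mul_assoc]
  one_mul := by
    intro x
    apply Subtype.ext
    change (Loc.mul ⟨c, ⟨1, (mul_one c).symm⟩, ⟨1, (one_mul c).symm⟩⟩ x).1 = x.1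
    rw [Loc.mul_val _ x 1 (one_mul c).symm, one_mul]
  mul_one := by
    intro x
    obtain ⟨x', hx'⟩ := x.2.2
    apply Subtype.ext
    change (Loc.mul x ⟨c, ⟨1, (mul_one c).symm⟩, ⟨1, (one_mul c).symm⟩⟩).1 = x.1
    rw [Loc.mul_val x _ x' hx', hx']

theorem Loc.mul_val' {c : M} (x y : Loc c) (x' : M) (h : x.1 = x' * c) :
    (x * y).1 = x' * y.1 := Loc.mul_val x y x' h

theorem Loc.one_val (c : M) : (1 : Loc c).1 = c := rfl

theorem Loc.aperiodic (hM : ∀ x : M, ∃ k : ℕ, x ^ (k + 1) = x ^ k) (c : M) :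
    ∀ x : Loc c, ∃ k : ℕ, x ^ (k + 1) = x ^ k := by
  intro x
  obtain ⟨u, hu⟩ := x.2.2
  obtain ⟨k, hk⟩ := hM u
  have key : ∀ j : ℕ, (x ^ j).1 = u ^ j * c := by
    intro j
    induction j with
    | zero => rw [pow_zero, pow_zero, one_mul, Loc.one_val]
    | succ j ih => rw [pow_succ, Loc.mul_val' _ x (u ^ j) ih, hu, pow_succ, mul_assoc]
  refine ⟨k, Subtype.ext ?_⟩
  rw [key, key, hk]

instance Loc.finite [Finite M] (c : M) : Finite (Loc c) := by
  unfold Loc
  infer_instance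

theorem Loc.card_lt [Finite M] (hM : ∀ x : M, ∃ k : ℕ, x ^ (k + 1) = x ^ k) {c : M} (hc : c ≠ 1) :
    Nat.card (Loc c) < Nat.card M := by
  have h1 : ¬ ((∃ y, (1 : M) = c * y) ∧ ∃ z, (1 : M) = z * c) := by
    rintro ⟨⟨y, hy⟩, z, hz⟩
    have hzy : z = y := by
      calc z = z * (c * y) := by rw [← hy, mul_one]
        _ = y := by rw [← mul_assoc, ← hz, one_mul]
    have hu : IsUnit c := ⟨⟨c, y, hy.symm, by rw [← hzy]; exact hz.symm⟩, rfl⟩
    obtain ⟨k, hk⟩ := hM c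
    apply hc
    have h2 : c ^ k * c = c ^ k * 1 := by rw [← pow_succ, hk, mul_one]
    exact (hu.pow k).mul_left_cancel h2
  exact Finite.card_subtype_lt h1

end Helper4.RC
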