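import Pool.Agent.Helper4.RC.Tails
import Pool.Agent.Helper4.RC.LastStep

set_option autoImplicit false

/-!
The error of the generator in terms of the parameters.

Proof sketch. `gen_eq_lay`, `mean_prod`: the first mean is `mean ρ (mean θ f_ρ (str θ))`,
`f_ρ x = ind (endSt (run c) q n (lay str r ρ x) ∈ A)`. For fixed `ρ` let `c'` be the program of
`lay_prog`: `f_ρ x = ind (endSt (run c') q n x ∈ A)` (`t = n`: `cut le_rfl str = str`), and for all
`t ≤ n` `endSt (run c') q t x = endSt (run c) q t (lay (cut ht str) r ρ x)`. `last_step` for `run c'`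
bounds `|mean θ f_ρ (str θ) - mean x f_ρ x|` by
`δ (k K 2 (2Λ)^k) + ∑ t < n, ∑ v, √(lv k (..) + δ (2 (2Λ)^k)^2)`. Take the mean over `ρ`,
`mean √ ≤ √ mean` (`mean_sqrt_le`), `tails` for `t + 1 ≤ n`, `K = w^m` states
(`Fintype.card (Fin m → Fin w) = w^m`); and `means` for the rest. (`hN` for `k` follows from `hN`
for `k'`.)
-/

namespace Helper4.RC

open Finset

namespace MainNumAux

section

variable {Ω : Type} [Fintype Ω]

private lemma mean_sum {ι : Type} (s : Finset ι) (f : ι → Ω → ℝ) :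
    (mean fun ω => ∑ i ∈ s, f i ω) = ∑ i ∈ s, mean (f i) := by
  unfold mean
  rw [Finset.sum_comm, Finset.sum_div]

private lemma mean_add (f g : Ω → ℝ) : (mean fun ω => f ω + g ω) = mean f + mean g := by
  unfold mean
  rw [Finset.sum_add_distrib]
  ring

private lemma mean_sub (f g : Ω → ℝ) : (mean fun ω => f ω - g ω) = mean f - mean g := by
  unfold mean
  rw [Finset.sum_sub_distrib]
  ring

private lemma abs_mean (f : Ω → ℝ) : |mean f| ≤ mean fun ω => |f ω| := by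
  unfold mean
  rw [abs_div, abs_of_nonneg (Nat.cast_nonneg (α := ℝ) (Fintype.card Ω))]
  gcongr
  exact Finset.abs_sum_le_sum_abs _ _

private lemma mean_const [Nonempty Ω] (a : ℝ) : (mean fun _ : Ω => a) = a := by
  unfold mean
  rw [Finset.sum_const, Finset.card_univ, nsmul_eq_mul]
  have : (Fintype.card Ω : ℝ) ≠ 0 := Nat.cast_ne_zero.2 Fintype.card_ne_zero
  field_simp

end

private lemma lv_nonneg {n : ℕ} (k : ℕ) (g : (Fin n → ZMod 2) → ℝ) : 0 ≤ lv k g := by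
  unfold lv
  refine Finset.sum_nonneg fun χ _ => ?_
  split_ifs
  · exact sq_nonneg _
  · exact le_rfl

private lemma hN_mono {K n Λ N k k' : ℕ} (hΛ : 1 ≤ Λ) (hkk : k ≤ k')
    (hN : k' * (6 * (2 * Λ + n * K ^ 2)) ^ k' * (2 * n) ≤ 2 ^ N) :
    k * (6 * (2 * Λ + n * K ^ 2)) ^ k * (2 * n) ≤ 2 ^ N := by
  refine le_trans (Nat.mul_le_mul_right _ (Nat.mul_le_mul hkk ?_)) hN
  refine Nat.pow_le_pow_right ?_ hkk
  omega

end MainNumAux

open MainNumAux

section

variable {Θ : Type} [Fintype Θ] [Nonempty Θ]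

theorem main_num (m w n Λ N k k' r : ℕ) (hΛ : 1 ≤ Λ) (hk : 1 ≤ k) (hkk : k ≤ k')
    (hs : ∀ t ≤ n, ∀ (c : ℕ → ZMod 2 → Instr m w) (q : Fin m → Fin w),
      (bad (run c) q t Λ).card * 2 ^ N ≤ 2 ^ t)
    (hN : k' * (6 * (2 * Λ + n * (w ^ m) ^ 2)) ^ k' * (2 * n) ≤ 2 ^ N)
    (str : Θ → Fin n → ZMod 2) (δ : ℝ) (hδ : 0 ≤ δ) (hstr : Biased str δ)
    (c : ℕ → ZMod 2 → Instr m w) (q : Fin m → Fin w) (A : Set (Fin m → Fin w)) :
    |(mean fun ω : (Fin r → Θ × Θ) × Θ => ind (endSt (run c) q n (gen str r ω.1 ω.2) ∈ A)) -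
      mean fun x : Fin n → ZMod 2 => ind (endSt (run c) q n x ∈ A)| ≤
      errT ((w : ℝ) ^ m) n Λ k k' r δ := by
  classical
  have hcard : Fintype.card (Fin m → Fin w) = w ^ m := by simp
  -- the programs after the restrictions
  choose cr hcr using fun ρ : Fin r → Θ × Θ => lay_prog (n := n) str r ρ c
  have hn : ∀ (ρ : Fin r → Θ × Θ) (x : Fin n → ZMod 2),
      endSt (run c) q n (lay str r ρ x) = endSt (run (cr ρ)) q n x := fun ρ x =>
    hcr ρ q n le_rfl x
  -- the first mean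
  have h1 : (mean fun ω : (Fin r → Θ × Θ) × Θ => ind (endSt (run c) q n (gen str r ω.1 ω.2) ∈ A)) =
      mean fun ρ : Fin r → Θ × Θ => mean fun θ : Θ => ind (endSt (run (cr ρ)) q n (str θ) ∈ A) := by
    rw [mean_prod]
    simp only [gen_eq_lay, hn]
  have h2 : (mean fun ρ : Fin r → Θ × Θ => mean fun x : Fin n → ZMod 2 =>
        ind (endSt (run c) q n (lay str r ρ x) ∈ A)) =
      mean fun ρ : Fin r → Θ × Θ => mean fun x : Fin n → ZMod 2 =>
        ind (endSt (run (cr ρ)) q n x ∈ A) := by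
    simp only [hn]
  have h3 := means m w n Λ N k' r hΛ (hk.trans hkk) hs hN str δ hδ hstr c q A
  rw [h2] at h3
  -- the last string
  have hNk : k * (6 * (2 * Λ + n * Fintype.card (Fin m → Fin w) ^ 2)) ^ k * (2 * n) ≤ 2 ^ N := by
    rw [hcard]
    exact hN_mono hΛ hkk hN
  have h4 : ∀ ρ : Fin r → Θ × Θ,
      |(mean fun θ : Θ => ind (endSt (run (cr ρ)) q n (str θ) ∈ A)) -
        mean fun x : Fin n → ZMod 2 => ind (endSt (run (cr ρ)) q n x ∈ A)| ≤
      δ * (k * (w : ℝ) ^ m * (2 * (2 * (Λ : ℝ)) ^ k)) +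
        ∑ t ∈ range n, ∑ v, √(lv k (fun x : Fin (t + 1) → ZMod 2 =>
          ind (endSt (run (cr ρ)) q (t + 1) x = v)) + δ * (2 * (2 * (Λ : ℝ)) ^ k) ^ 2) := by
    intro ρ
    have h := last_step (run (cr ρ)) q (fun v => ind (v ∈ A))
      (fun v => by rw [abs_of_nonneg (ind_nonneg _)]; exact ind_le_one _) n Λ N k hΛ hk
      (fun t ht => hs t ht (cr ρ) q) hNk str δ hδ hstr
    rw [hcard] at h
    push_cast at h
    exact h
  -- the mean over `ρ`
  have h5 : ∀ t ∈ range n, ∀ v : Fin m → Fin w,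
      (mean fun ρ : Fin r → Θ × Θ => √(lv k (fun x : Fin (t + 1) → ZMod 2 =>
          ind (endSt (run (cr ρ)) q (t + 1) x = v)) + δ * (2 * (2 * (Λ : ℝ)) ^ k) ^ 2)) ≤
        √((1 / 2 ^ r) ^ k * (2 * (2 * (Λ : ℝ)) ^ k) +
          16 ^ k * (r * eps1 ((w : ℝ) ^ m) n Λ k' δ) + δ * (2 * (2 * (Λ : ℝ)) ^ k) ^ 2) := by
    intro t ht v
    have htn : t + 1 ≤ n := by
      have := mem_range.1 ht
      omega
    have ht1 := tails m w n Λ N k k' r hΛ hk hkk hs hN str δ hδ hstr c q (t + 1) htn v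
    have hD : 0 ≤ δ * (2 * (2 * (Λ : ℝ)) ^ k) ^ 2 := mul_nonneg hδ (sq_nonneg _)
    refine (mean_sqrt_le fun ρ => add_nonneg (lv_nonneg _ _) hD).trans (Real.sqrt_le_sqrt ?_)
    rw [mean_add, mean_const]
    have ht2 : (mean fun ρ : Fin r → Θ × Θ => lv k fun x : Fin (t + 1) → ZMod 2 =>
        ind (endSt (run (cr ρ)) q (t + 1) x = v)) =
        mean fun ρ : Fin r → Θ × Θ => lv k fun x : Fin (t + 1) → ZMod 2 =>
        ind (endSt (run c) q (t + 1) (lay (cut htn str) r ρ x) = v) := by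
      congr 1
      funext ρ
      congr 1
      funext x
      rw [hcr ρ q (t + 1) htn x]
    rw [ht2]
    linarith
  have h6 : |(mean fun ρ : Fin r → Θ × Θ => mean fun θ : Θ =>
        ind (endSt (run (cr ρ)) q n (str θ) ∈ A)) -
      mean fun ρ : Fin r → Θ × Θ => mean fun x : Fin n → ZMod 2 =>
        ind (endSt (run (cr ρ)) q n x ∈ A)| ≤
      δ * (k * (w : ℝ) ^ m * (2 * (2 * (Λ : ℝ)) ^ k)) +
        n * (w : ℝ) ^ m * √((1 / 2 ^ r) ^ k * (2 * (2 * (Λ : ℝ)) ^ k) +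
          16 ^ k * (r * eps1 ((w : ℝ) ^ m) n Λ k' δ) + δ * (2 * (2 * (Λ : ℝ)) ^ k) ^ 2) := by
    rw [← mean_sub]
    refine (abs_mean _).trans ((mean_le_mean h4).trans ?_)
    rw [mean_add, mean_const, mean_sum]
    refine add_le_add le_rfl ?_
    calc ∑ t ∈ range n, mean (fun ρ : Fin r → Θ × Θ => ∑ v : Fin m → Fin w,
          √(lv k (fun x : Fin (t + 1) → ZMod 2 =>
          ind (endSt (run (cr ρ)) q (t + 1) x = v)) + δ * (2 * (2 * (Λ : ℝ)) ^ k) ^ 2))
        ≤ ∑ t ∈ range n, ∑ v : Fin m → Fin w, √((1 / 2 ^ r) ^ k * (2 * (2 * (Λ : ℝ)) ^ k) +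
          16 ^ k * (r * eps1 ((w : ℝ) ^ m) n Λ k' δ) + δ * (2 * (2 * (Λ : ℝ)) ^ k) ^ 2) := by
          refine Finset.sum_le_sum fun t ht => ?_
          rw [mean_sum]
          exact Finset.sum_le_sum fun v _ => h5 t ht v
      _ = _ := by
          rw [Finset.sum_const, Finset.sum_const, Finset.card_univ, hcard, Finset.card_range,
            nsmul_eq_mul, nsmul_eq_mul]
          push_cast
          ring
  rw [h1]
  have h7 := abs_sub_le (mean fun ρ : Fin r → Θ × Θ => mean fun θ : Θ =>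
        ind (endSt (run (cr ρ)) q n (str θ) ∈ A))
      (mean fun ρ : Fin r → Θ × Θ => mean fun x : Fin n → ZMod 2 =>
        ind (endSt (run (cr ρ)) q n x ∈ A))
      (mean fun x : Fin n → ZMod 2 => ind (endSt (run c) q n x ∈ A))
  unfold errT
  linarith

end

end Helper4.RC
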