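import Pool.Agent.Helper4.RC.FK
import Pool.Agent.Helper4.RC.Tensor
import Pool.Agent.Helper4.RC.Bounds
import Pool.Agent.Helper4.RC.Lay
import Pool.Agent.Helper4.RC.Err

set_option autoImplicit false

/-!
One level: the noise stability after a pseudorandom restriction.

Proof sketch. Apply `fk` with `S = ZMod 2 × ZMod 2`, `e4`, `cz z`, the program `prog2 L` from
`(q, q)`, `G v = acc v.1 * acc v.2` (`|G v| ≤ 1`), `Ω = Θ × Θ` and the symbols
`fun i => (ez (str ab.1) i, ez (str ab.2) i)` (`biasedN_pair`). With `endSt_prog2` and `phi_eq_stab` (for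
`i : Fin n`, `ez x i = x i`) `Phi` is `stab z fun x => acc (endSt L q n (D + T * x))`. The true mean
is `∑ v, dist .. (kl e4 (cz z) 0) n v * G v = ∑ y, pw (wz ((1+z)/2)) y * (acc .. * acc ..) =
stab ((1+z)/2) (acc (endSt ..))` (`kl_cz_zero`, `sum_ind_eq`, `stab_eq`). Right side of `fk`:
`W ≤ 2 (12 Λ)^k` by `W_pair_le` (levels `1 ≤ j < k`, at most `k` of them, `K^2` states), and
`lev ≤ (4/7)^k` by `lev_le` with `lam = 7/4` and `site_pair`. (`0 ≤ W` to square.)
-/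

namespace Helper4.RC

open Finset

section

variable {V Θ : Type} [Fintype V] [Fintype Θ] [Nonempty Θ]

theorem pair_step (L : ℕ → ZMod 2 → V → V) (q : V) (acc : V → ℝ) (hacc : ∀ v, |acc v| ≤ 1)
    (n Λ N k : ℕ) (hΛ : 1 ≤ Λ) (hk : 1 ≤ k)
    (hs : ∀ t ≤ n, (bad L q t Λ).card * 2 ^ N ≤ 2 ^ t)
    (hN : k * (6 * (2 * Λ + n * Fintype.card V ^ 2)) ^ k * (2 * n) ≤ 2 ^ N)
    (str : Θ → Fin n → ZMod 2) (δ : ℝ) (hδ : 0 ≤ δ) (hstr : Biased str δ)
    (z : ℝ) (h0 : 1 / 2 ≤ z) (h1 : z ≤ 1) :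
    |(mean fun ab : Θ × Θ => stab z fun x : Fin n → ZMod 2 =>
        acc (endSt L q n (str ab.1 + str ab.2 * x))) -
      stab ((1 + z) / 2) fun x : Fin n → ZMod 2 => acc (endSt L q n x)| ≤
      eps1 (Fintype.card V) n Λ k δ := by
  have hz0 : -1 ≤ z := by linarith
  have hL := kl_letters isChar_e4 (isKer_cz z hz0 h1)
  have hG : ∀ v : V × V, |acc v.1 * acc v.2| ≤ 1 := fun v => by
    rw [abs_mul]
    exact mul_le_one₀ (hacc _) (abs_nonneg _) (hacc _)
  have hfk := fk isChar_e4 (isKer_cz z hz0 h1) (prog2 L) (q, q) (fun v => acc v.1 * acc v.2) hG k hk n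
    hδ (biasedN_pair hδ hstr)
  have hA : ∀ ab : Θ × Θ, Phi (cz z) (prog2 L) (q, q) (fun v => acc v.1 * acc v.2) n
      (fun i => (ez (str ab.1) i, ez (str ab.2) i)) =
      stab z fun x : Fin n → ZMod 2 => acc (endSt L q n (str ab.1 + str ab.2 * x)) := fun ab => by
    have h2 := phi_eq_stab z (fun x : Fin n → ZMod 2 => acc (endSt L q n x)) (str ab.1) (str ab.2)
    rw [← h2]
    unfold Phi
    refine Finset.sum_congr rfl fun y _ => ?_
    rw [endSt_prog2]
    have hez : ∀ (x : Fin n → ZMod 2) (i : Fin n), ez x (i : ℕ) = x i := fun x i => by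
      unfold ez
      rw [dif_pos i.2]
    simp only [hez]
  have hB : ∑ v, dist (prog2 L) (q, q) (kl e4 (cz z) 0) n v * (acc v.1 * acc v.2) =
      stab ((1 + z) / 2) fun x : Fin n → ZMod 2 => acc (endSt L q n x) := by
    have hp : kl e4 (cz z) 0 = wz ((1 + z) / 2) := funext fun y => kl_cz_zero z y
    rw [hp, stab_eq]
    unfold dist
    simp only [Finset.sum_mul]
    rw [Finset.sum_comm]
    refine Finset.sum_congr rfl fun y _ => ?_
    have h3 := sum_ind_eq (endSt (prog2 L) (q, q) n y) fun v => acc v.1 * acc v.2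
    rw [endSt_prog2] at h3 ⊢
    rw [← h3, Finset.mul_sum]
    exact Finset.sum_congr rfl fun v _ => by ring
  rw [hB] at hfk
  simp only [hA] at hfk
  refine hfk.trans ?_
  have hW : ∀ j ≤ k, ∀ t ≤ n, ∀ v : V × V,
      W (prog2 L) (q, q) (kl e4 (cz z)) nz j t v ≤ 2 * (12 * (Λ : ℝ)) ^ k :=
    fun j hj t ht v => W_pair_le L q n Λ N k hΛ hs hN z hz0 h1 j hj t ht v
  have hW0 : ∀ (j t : ℕ) (v : V × V), 0 ≤ W (prog2 L) (q, q) (kl e4 (cz z)) nz j t v :=
    fun j t v => Finset.sum_nonneg fun χ _ => by split_ifs <;> positivity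
  have hlev : ∀ (t : ℕ) (v : V × V),
      lev (prog2 L) (q, q) (kl e4 (cz z)) nz k t v ≤ (4 / 7) ^ k := fun t v => by
    have h3 := lev_le (prog2 L) (q, q) (kl e4 (cz z) 0) (kl e4 (cz z)) nz (7 / 4) (by norm_num)
      hL.p_nonneg hL.p_sum (site_pair z h0 h1) k t v
    have h4 : (4 / 7 : ℝ) ^ k * (7 / 4) ^ k = 1 := by
      rw [← mul_pow]
      norm_num
    have h5 : (0 : ℝ) ≤ (4 / 7) ^ k := by positivity
    calc lev (prog2 L) (q, q) (kl e4 (cz z)) nz k t v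
        = (4 / 7 : ℝ) ^ k * ((7 / 4) ^ k * lev (prog2 L) (q, q) (kl e4 (cz z)) nz k t v) := by
          rw [← mul_assoc, h4, one_mul]
      _ ≤ (4 / 7 : ℝ) ^ k * 1 := mul_le_mul_of_nonneg_left h3 h5
      _ = _ := mul_one _
  have hcV : (Fintype.card (V × V) : ℝ) = (Fintype.card V : ℝ) ^ 2 := by
    rw [Fintype.card_prod]
    push_cast
    ring
  have hBp : (0 : ℝ) ≤ 2 * (12 * (Λ : ℝ)) ^ k := by positivity
  unfold eps1
  refine add_le_add (mul_le_mul_of_nonneg_left ?_ hδ) ?_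
  · calc ∑ j ∈ Ico 1 k, ∑ v, W (prog2 L) (q, q) (kl e4 (cz z)) nz j n v
        ≤ ∑ _j ∈ Ico 1 k, ∑ _v : V × V, 2 * (12 * (Λ : ℝ)) ^ k :=
          Finset.sum_le_sum fun j hj => Finset.sum_le_sum fun v _ =>
            hW j (Finset.mem_Ico.1 hj).2.le n le_rfl v
      _ = ((k - 1 : ℕ) : ℝ) * ((Fintype.card V : ℝ) ^ 2 * (2 * (12 * (Λ : ℝ)) ^ k)) := by
          rw [Finset.sum_const, Finset.sum_const, Nat.card_Ico, Finset.card_univ, nsmul_eq_mul,
            nsmul_eq_mul, hcV]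
      _ ≤ (k : ℝ) * ((Fintype.card V : ℝ) ^ 2 * (2 * (12 * (Λ : ℝ)) ^ k)) := by
          refine mul_le_mul_of_nonneg_right ?_ (by positivity)
          exact_mod_cast Nat.sub_le k 1
      _ = _ := by ring
  · calc ∑ t ∈ range n, ∑ v, √(lev (prog2 L) (q, q) (kl e4 (cz z)) nz k (t + 1) v +
          δ * (W (prog2 L) (q, q) (kl e4 (cz z)) nz k (t + 1) v) ^ 2)
        ≤ ∑ _t ∈ range n, ∑ _v : V × V, √((4 / 7 : ℝ) ^ k + δ * (2 * (12 * (Λ : ℝ)) ^ k) ^ 2) := by
          refine Finset.sum_le_sum fun t ht => Finset.sum_le_sum fun v _ => ?_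
          refine Real.sqrt_le_sqrt (add_le_add (hlev _ v) (mul_le_mul_of_nonneg_left ?_ hδ))
          exact pow_le_pow_left₀ (hW0 _ _ _)
            (hW k le_rfl (t + 1) (Nat.succ_le_of_lt (Finset.mem_range.1 ht)) v) 2
      _ = _ := by
          rw [Finset.sum_const, Finset.sum_const, Finset.card_range, Finset.card_univ,
            nsmul_eq_mul, nsmul_eq_mul, hcV]
          ring

end

end Helper4.RC
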