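import Pool.Agent.Helper4.RC.Err

set_option autoImplicit false

/-!
The choice of the parameters for large `L`.

Proof sketch. Let `M = m + 1`, `lg = Nat.log 2 L + 1` (`L < 2 ^ lg`, `1 ≤ lg`), `a = 4 + 4 * Cs`,
`C = 400 * a * M`, `N = L ^ 3`, `Λ = Cs * N ^ Cs`, `k = 8 * M * L`, `k' = 125 * M * L`, and `L₀` such
that for `L ≥ L₀`: `Λ = Cs * L ^ (3 * Cs) ≤ 2 ^ L` (polynomials are eventually smaller than
exponentials) and `L ≥ 886 * M ^ 2`. We have `n, w, 2 ^ s ≤ 2 ^ L`, so `s ≤ L`.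
(1) `n + 1 ≤ 2 ^ (L + 1) ≤ 2 ^ N`.
(2) `6 * (2 * Λ + n * (w ^ m) ^ 2) ≤ 6 * (2 * 2 ^ L + 2 ^ ((2 m + 1) L)) ≤ 2 ^ (7 M L)`, `k' ≤ 2 ^ (9 M L)`,
`2 n ≤ 2 ^ (2 M L)`, so the product is at most `2 ^ (875 M^2 L^2 + 11 M L) ≤ 2 ^ (886 M^2 L^2) ≤ 2 ^ N`.
(3) Write `t = (1/2) ^ (M * L)`, `0 < t ≤ 1/2`; `K = w ^ m`, `K, n, k, k', r` satisfy `K t ≤ 1`,
`n t ≤ 1`, `n K t ≤ 1`, `n K^2 t^2 ≤ 1`, `r t ≤ 1` (`r ≤ 2 ^ L`), `k t^9 ≤ k' t^9 ≤ 1`.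
`12 Λ ≤ 2 ^ (a lg)` (`12 ≤ 2 ^ 4`, `Cs ≤ 2 ^ Cs`, `L ≤ 2 ^ lg`). Let `T = δ (2 (12 Λ)^k')^2`; by
`δ 2 ^ (C L lg) ≤ n ≤ 2 ^ L`: `T ≤ 2 ^ (L - C L lg + 2 + 250 a M L lg) ≤ 2 ^ (-100 M L) = t ^ 100`
(`C = 400 a M ≥ 250 a M + 100 M + 3`, multiply by `L lg ≥ L`). `δ 2 (12 Λ)^k' ≤ T`.
`eps1 ≤ t^100 k' K^2 + n K^2 √((4/7)^k' + T)`, `(4/7)^5 ≤ (1/2)^4`, so `(4/7)^k' ≤ t^100`,
`√(2 t^100) ≤ √(t^98) = t^49` (`2 t^2 ≤ 1`), so `eps1 ≤ t^89 + t^47 ≤ t^46`, `r eps1 ≤ t^45`.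
`(1/2^r)^k 2 (2Λ)^k = 2 (2Λ/2^r)^k ≤ 2 (1/16)^k = 2 t^32 ≤ t^31` (`2Λ 16 ≤ 2 ^ (a lg + 4 lg) ≤ 2 ^ r`),
`16^k r eps1 ≤ t^(-32) t^45 = t^13`, `δ (2 (2Λ)^k)^2 ≤ T ≤ t^100`; the sum is at most `3 t^13 ≤ t^11`
(`3 t^2 ≤ 1` as `t ≤ 1/4` for `L ≥ 2`), so the square root is at most `t^5`, and
`n K √.. ≤ t^4`; `δ k K 2 (2Λ)^k ≤ t^89`. Total `≤ t^45 + t^89 + t^4 ≤ t^2 ≤ (1/2)^(2 L) ≤ (1/2)^s`.
-/

namespace Helper4.RC

private lemma poly_le (Cs : ℕ) : ∃ L₀ : ℕ, ∀ L : ℕ, L₀ ≤ L → Cs * (L ^ 3) ^ Cs ≤ 2 ^ L := by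
  have h := tendsto_pow_const_div_const_pow_of_one_lt (3 * Cs) (r := (2 : ℝ)) (by norm_num)
  have h2 : ∀ᶠ n : ℕ in Filter.atTop, (n : ℝ) ^ (3 * Cs) / 2 ^ n < 1 / ((Cs : ℝ) + 1) :=
    h.eventually_lt_const (by positivity)
  obtain ⟨L₀, h3⟩ := Filter.eventually_atTop.1 h2
  refine ⟨L₀, fun L hL => ?_⟩
  have h4 := h3 L hL
  rw [div_lt_div_iff₀ (by positivity) (by positivity)] at h4
  have h5 : ((Cs * (L ^ 3) ^ Cs : ℕ) : ℝ) ≤ ((2 ^ L : ℕ) : ℝ) := by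
    push_cast
    rw [← pow_mul]
    have h6 : 0 ≤ (L : ℝ) ^ (3 * Cs) := by positivity
    nlinarith
  exact_mod_cast h5

private lemma real_part {K n Λ t δ : ℝ} {k k' r : ℕ} (ht0 : 0 < t) (ht : t ≤ 1 / 4)
    (hK0 : 0 ≤ K) (hn0 : 0 ≤ n) (hnKt : n * K * t ≤ 1) (hKt : K * t ≤ 1)
    (hrt : (r : ℝ) * t ≤ 1) (hkt : (k' : ℝ) * t ^ 9 ≤ 1) (hkk : k ≤ k') (hΛ : 1 ≤ Λ) (hδ : 0 ≤ δ)
    (hT : δ * (2 * (12 * Λ) ^ k') ^ 2 ≤ t ^ 100) (h47 : (4 / 7 : ℝ) ^ k' ≤ t ^ 100)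
    (hA : (1 / 2 ^ r : ℝ) ^ k * (2 * (2 * Λ) ^ k) ≤ t ^ 31) (h16 : (16 : ℝ) ^ k * t ^ 32 ≤ 1) :
    errT K n Λ k k' r δ ≤ t := by
  have ht1 : t ≤ 1 := by linarith
  have hX1 : (1 : ℝ) ≤ 2 * (12 * Λ) ^ k' := by
    have : (1 : ℝ) ≤ (12 * Λ) ^ k' := one_le_pow₀ (by linarith)
    linarith
  have hY1 : (1 : ℝ) ≤ 2 * (2 * Λ) ^ k := by
    have : (1 : ℝ) ≤ (2 * Λ) ^ k := one_le_pow₀ (by linarith)
    linarith
  have hYX : 2 * (2 * Λ) ^ k ≤ 2 * (12 * Λ) ^ k' := by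
    have h1 : (2 * Λ) ^ k ≤ (12 * Λ) ^ k := pow_le_pow_left₀ (by linarith) (by linarith) k
    have h2 : (12 * Λ) ^ k ≤ (12 * Λ) ^ k' := pow_le_pow_right₀ (by linarith) hkk
    linarith
  obtain ⟨X, hX⟩ : ∃ X : ℝ, X = 2 * (12 * Λ) ^ k' := ⟨_, rfl⟩
  obtain ⟨Y, hY⟩ : ∃ Y : ℝ, Y = 2 * (2 * Λ) ^ k := ⟨_, rfl⟩
  rw [← hX] at hT hX1 hYX
  rw [← hY] at hA hY1 hYX
  have hδX : δ * X ≤ t ^ 100 := by
    refine le_trans ?_ hT
    apply mul_le_mul_of_nonneg_left _ hδ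
    nlinarith
  have hδY : δ * Y ≤ t ^ 100 := le_trans (mul_le_mul_of_nonneg_left hYX hδ) hδX
  have hδY2 : δ * Y ^ 2 ≤ t ^ 100 := by
    refine le_trans ?_ hT
    apply mul_le_mul_of_nonneg_left _ hδ
    exact pow_le_pow_left₀ (by linarith) hYX 2
  have hp : ∀ i : ℕ, 0 < t ^ i := fun i => pow_pos ht0 i
  have hmono : ∀ i j : ℕ, i ≤ j → t ^ j ≤ t ^ i := fun i j h => pow_le_pow_of_le_one ht0.le ht1 h
  have hstep : ∀ i : ℕ, 4 * t ^ (i + 1) ≤ t ^ i := by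
    intro i
    have := hp i
    rw [pow_succ]
    nlinarith
  have hr0 : (0 : ℝ) ≤ r := Nat.cast_nonneg r
  have hk0 : (0 : ℝ) ≤ k' := Nat.cast_nonneg k'
  -- eps1
  have he : eps1 K n Λ k' δ ≤ t ^ 46 := by
    unfold eps1
    rw [← hX]
    have h1 : δ * (k' * K ^ 2 * X) ≤ t ^ 47 := by
      have e : δ * (k' * K ^ 2 * X) = (k' * K ^ 2) * (δ * X) := by ring
      rw [e]
      calc (k' * K ^ 2) * (δ * X) ≤ (k' * K ^ 2) * t ^ 100 :=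
            mul_le_mul_of_nonneg_left hδX (by positivity)
        _ = (k' * t ^ 9) * (K * t) ^ 2 * t ^ 89 := by ring
        _ ≤ 1 * 1 * t ^ 89 := by
            apply mul_le_mul_of_nonneg_right _ (hp _).le
            apply mul_le_mul hkt _ (by positivity) zero_le_one
            exact pow_le_one₀ (by positivity) hKt
        _ = t ^ 89 := by ring
        _ ≤ t ^ 47 := hmono _ _ (by norm_num)
    have h2 : √((4 / 7 : ℝ) ^ k' + δ * X ^ 2) ≤ t ^ 49 := by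
      apply Real.sqrt_le_iff.2
      refine ⟨(hp _).le, ?_⟩
      have h3 := hstep 99
      have h4 := hmono 98 99 (by norm_num)
      have e : (t ^ 49) ^ 2 = t ^ 98 := by ring
      rw [e]
      have h5 := hp 100
      norm_num at h3
      linarith
    have h3 : n * K ^ 2 * √((4 / 7 : ℝ) ^ k' + δ * X ^ 2) ≤ t ^ 47 := by
      calc n * K ^ 2 * √((4 / 7 : ℝ) ^ k' + δ * X ^ 2) ≤ n * K ^ 2 * t ^ 49 :=
            mul_le_mul_of_nonneg_left h2 (by positivity)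
        _ = (n * K * t) * (K * t) * t ^ 47 := by ring
        _ ≤ 1 * 1 * t ^ 47 := by
            apply mul_le_mul_of_nonneg_right _ (hp _).le
            exact mul_le_mul hnKt hKt (by positivity) zero_le_one
        _ = t ^ 47 := by ring
    have h4 := hstep 46
    have h5 := hp 47
    norm_num at h4
    linarith
  have he0 : 0 ≤ eps1 K n Λ k' δ := by
    unfold eps1
    have : 0 ≤ 12 * Λ := by linarith
    positivity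
  have hre : r * eps1 K n Λ k' δ ≤ t ^ 45 := by
    calc r * eps1 K n Λ k' δ ≤ r * t ^ 46 := mul_le_mul_of_nonneg_left he hr0
      _ = (r * t) * t ^ 45 := by ring
      _ ≤ 1 * t ^ 45 := mul_le_mul_of_nonneg_right hrt (hp _).le
      _ = t ^ 45 := one_mul _
  have hk1 : (k : ℝ) ≤ k' := by exact_mod_cast hkk
  have hkk0 : (0 : ℝ) ≤ k := Nat.cast_nonneg k
  have h2 : δ * (k * K * Y) ≤ t ^ 45 := by
    have e : δ * (k * K * Y) = (k * K) * (δ * Y) := by ring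
    rw [e]
    calc (k * K) * (δ * Y) ≤ (k' * K) * t ^ 100 := by
          apply mul_le_mul _ hδY (by positivity) (by positivity)
          exact mul_le_mul_of_nonneg_right hk1 hK0
      _ = (k' * t ^ 9) * (K * t) * t ^ 90 := by ring
      _ ≤ 1 * 1 * t ^ 90 := by
          apply mul_le_mul_of_nonneg_right _ (hp _).le
          exact mul_le_mul hkt hKt (by positivity) zero_le_one
      _ = t ^ 90 := by ring
      _ ≤ t ^ 45 := hmono _ _ (by norm_num)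
  have h3 : √((1 / 2 ^ r : ℝ) ^ k * Y + 16 ^ k * (r * eps1 K n Λ k' δ) + δ * Y ^ 2) ≤ t ^ 6 := by
    apply Real.sqrt_le_iff.2
    refine ⟨(hp _).le, ?_⟩
    have h4 : (16 : ℝ) ^ k * (r * eps1 K n Λ k' δ) ≤ t ^ 13 := by
      calc (16 : ℝ) ^ k * (r * eps1 K n Λ k' δ) ≤ 16 ^ k * t ^ 45 :=
            mul_le_mul_of_nonneg_left hre (by positivity)
        _ = (16 ^ k * t ^ 32) * t ^ 13 := by ring
        _ ≤ 1 * t ^ 13 := mul_le_mul_of_nonneg_right h16 (hp _).le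
        _ = t ^ 13 := one_mul _
    have h5 := hmono 13 31 (by norm_num)
    have h6 := hmono 13 100 (by norm_num)
    have h7 := hstep 12
    have e : (t ^ 6) ^ 2 = t ^ 12 := by ring
    have h8 := hp 13
    rw [e]
    norm_num at h7
    linarith
  unfold errT
  rw [← hY]
  have h4 : n * K * √((1 / 2 ^ r : ℝ) ^ k * Y + 16 ^ k * (r * eps1 K n Λ k' δ) + δ * Y ^ 2)
      ≤ t ^ 5 := by
    calc n * K * √((1 / 2 ^ r : ℝ) ^ k * Y + 16 ^ k * (r * eps1 K n Λ k' δ) + δ * Y ^ 2)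
        ≤ n * K * t ^ 6 := mul_le_mul_of_nonneg_left h3 (by positivity)
      _ = (n * K * t) * t ^ 5 := by ring
      _ ≤ 1 * t ^ 5 := mul_le_mul_of_nonneg_right hnKt (hp _).le
      _ = t ^ 5 := one_mul _
  have h5 := hmono 5 45 (by norm_num)
  have h6 := hstep 4
  have h7 := hmono 1 4 (by norm_num)
  have h8 := hp 5
  norm_num at h6
  rw [pow_one] at h7
  linarith


private lemma two_pow_le {a b : ℕ} (h : a ≤ b) : (2 : ℕ) ^ a ≤ 2 ^ b :=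
  Nat.pow_le_pow_right (by norm_num) h

/-- Part (2): the size of the table. -/
private lemma size_part {m L n w Λ : ℕ} (hL : 886 * (m + 1) ^ 2 ≤ L) (hn : n ≤ 2 ^ L)
    (hw : w ≤ 2 ^ L) (hΛ : Λ ≤ 2 ^ L) :
    125 * (m + 1) * L * (6 * (2 * Λ + n * (w ^ m) ^ 2)) ^ (125 * (m + 1) * L) * (2 * n)
      ≤ 2 ^ (L ^ 3) := by
  have hM1 : 1 ≤ m + 1 := by omega
  have hL1 : 1 ≤ L := by nlinarith
  have hML : 1 ≤ (m + 1) * L := Nat.mul_le_mul hM1 hL1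
  have h1 : 6 * (2 * Λ + n * (w ^ m) ^ 2) ≤ 2 ^ (7 * ((m + 1) * L)) := by
    have e1 : (w ^ m) ^ 2 ≤ 2 ^ (2 * m * L) := by
      calc (w ^ m) ^ 2 ≤ ((2 ^ L) ^ m) ^ 2 :=
            Nat.pow_le_pow_left (Nat.pow_le_pow_left hw m) 2
        _ = 2 ^ (2 * m * L) := by rw [← pow_mul, ← pow_mul]; congr 1; ring
    have e2 : n * (w ^ m) ^ 2 ≤ 2 ^ (L + 2 * m * L) := by
      rw [pow_add]; exact Nat.mul_le_mul hn e1
    have e3 : Λ ≤ 2 ^ (L + 2 * m * L) := hΛ.trans (two_pow_le (Nat.le_add_right _ _))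
    calc 6 * (2 * Λ + n * (w ^ m) ^ 2) ≤ 2 ^ 5 * 2 ^ (L + 2 * m * L) := by omega
      _ = 2 ^ (5 + (L + 2 * m * L)) := (pow_add _ _ _).symm
      _ ≤ 2 ^ (7 * ((m + 1) * L)) := two_pow_le (by nlinarith)
  have h2 : 125 * (m + 1) * L ≤ 2 ^ (9 * ((m + 1) * L)) := by
    have e1 : (m + 1) * L < 2 ^ ((m + 1) * L) := Nat.lt_two_pow_self
    calc 125 * (m + 1) * L ≤ 2 ^ 7 * 2 ^ ((m + 1) * L) := by
          have : 125 * (m + 1) * L = 125 * ((m + 1) * L) := by ring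
          omega
      _ = 2 ^ (7 + (m + 1) * L) := (pow_add _ _ _).symm
      _ ≤ 2 ^ (9 * ((m + 1) * L)) := two_pow_le (by omega)
  have h3 : 2 * n ≤ 2 ^ (2 * ((m + 1) * L)) := by
    calc 2 * n ≤ 2 ^ 1 * 2 ^ L := by omega
      _ = 2 ^ (1 + L) := (pow_add _ _ _).symm
      _ ≤ 2 ^ (2 * ((m + 1) * L)) := two_pow_le (by nlinarith)
  calc 125 * (m + 1) * L * (6 * (2 * Λ + n * (w ^ m) ^ 2)) ^ (125 * (m + 1) * L) * (2 * n)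
      ≤ 2 ^ (9 * ((m + 1) * L)) * (2 ^ (7 * ((m + 1) * L))) ^ (125 * (m + 1) * L) *
          2 ^ (2 * ((m + 1) * L)) :=
        Nat.mul_le_mul (Nat.mul_le_mul h2 (Nat.pow_le_pow_left h1 _)) h3
    _ = 2 ^ (9 * ((m + 1) * L) + 7 * ((m + 1) * L) * (125 * (m + 1) * L)
          + 2 * ((m + 1) * L)) := by rw [← pow_mul, ← pow_add, ← pow_add]
    _ ≤ 2 ^ (L ^ 3) := by
        apply two_pow_le
        have e1 : 9 * ((m + 1) * L) + 7 * ((m + 1) * L) * (125 * (m + 1) * L) + 2 * ((m + 1) * L)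
            = 875 * ((m + 1) * L) ^ 2 + 11 * ((m + 1) * L) := by ring
        have e2 : (m + 1) * L ≤ ((m + 1) * L) ^ 2 := Nat.le_self_pow (by norm_num) _
        have e3 : 886 * ((m + 1) * L) ^ 2 ≤ L ^ 3 := by
          calc 886 * ((m + 1) * L) ^ 2 = 886 * (m + 1) ^ 2 * L ^ 2 := by ring
            _ ≤ L * L ^ 2 := Nat.mul_le_mul_right _ hL
            _ = L ^ 3 := by ring
        rw [e1]; omega

/-- `12 Λ ≤ 2 ^ (a lg)`. -/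
private lemma lam_part {Cs L : ℕ} :
    12 * (Cs * (L ^ 3) ^ Cs) ≤ 2 ^ ((4 + 4 * Cs) * (Nat.log 2 L + 1)) := by
  have hlt : L < 2 ^ (Nat.log 2 L + 1) := Nat.lt_pow_succ_log_self (by norm_num) L
  obtain ⟨g, hg⟩ : ∃ g : ℕ, g = Nat.log 2 L + 1 := ⟨_, rfl⟩
  have hg1 : 1 ≤ g := by omega
  rw [← hg] at hlt ⊢
  have h1 : (L ^ 3) ^ Cs ≤ 2 ^ (3 * Cs * g) := by
    calc (L ^ 3) ^ Cs ≤ ((2 ^ g) ^ 3) ^ Cs :=
          Nat.pow_le_pow_left (Nat.pow_le_pow_left hlt.le 3) Cs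
      _ = 2 ^ (3 * Cs * g) := by rw [← pow_mul, ← pow_mul]; congr 1; ring
  have h2 : Cs ≤ 2 ^ Cs := Nat.lt_two_pow_self.le
  calc 12 * (Cs * (L ^ 3) ^ Cs) ≤ 2 ^ 4 * (2 ^ Cs * 2 ^ (3 * Cs * g)) :=
        Nat.mul_le_mul (by norm_num) (Nat.mul_le_mul h2 h1)
    _ = 2 ^ (4 + (Cs + 3 * Cs * g)) := by rw [← pow_add, ← pow_add]
    _ ≤ 2 ^ ((4 + 4 * Cs) * g) := two_pow_le (by nlinarith)


theorem paramsA (m Cs : ℕ) (hCs : 1 ≤ Cs) : ∃ C L₀ : ℕ, ∀ L : ℕ, L₀ ≤ L → 1 ≤ L →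
    ∀ n w s r : ℕ, 1 ≤ n → 1 ≤ w → n * w * 2 ^ s ≤ 2 ^ L → C * (Nat.log 2 L + 1) ≤ r →
    r ≤ 2 ^ L → ∀ δ : ℝ, 0 ≤ δ → δ * 2 ^ (C * L * (Nat.log 2 L + 1)) ≤ n →
    ∃ N k k' : ℕ, 1 ≤ N ∧ n + 1 ≤ 2 ^ N ∧ 1 ≤ k ∧ k ≤ k' ∧
      k' * (6 * (2 * (Cs * N ^ Cs) + n * (w ^ m) ^ 2)) ^ k' * (2 * n) ≤ 2 ^ N ∧
      errT ((w : ℝ) ^ m) n ((Cs * N ^ Cs : ℕ) : ℝ) k k' r δ ≤ (1 / 2) ^ s := by
  obtain ⟨L₁, hL₁⟩ := poly_le Cs
  refine ⟨400 * (4 + 4 * Cs) * (m + 1), max L₁ (886 * (m + 1) ^ 2), ?_⟩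
  intro L hL hL1 n w s r hn1 hw1 hnw hCr hr δ hδ hδn
  have hLa : L₁ ≤ L := (le_max_left _ _).trans hL
  have hLb : 886 * (m + 1) ^ 2 ≤ L := (le_max_right _ _).trans hL
  have hΛL : Cs * (L ^ 3) ^ Cs ≤ 2 ^ L := hL₁ L hLa
  have hM1 : 1 ≤ m + 1 := by omega
  have hL2 : 886 ≤ L := by
    have h1 : 1 ≤ (m + 1) ^ 2 := Nat.one_le_pow _ _ (by omega)
    omega
  have hs1 : 1 ≤ 2 ^ s := Nat.one_le_two_pow
  have hn : n ≤ 2 ^ L := le_trans (by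
    calc n = n * 1 * 1 := by ring
      _ ≤ n * w * 2 ^ s := Nat.mul_le_mul (Nat.mul_le_mul_left _ hw1) hs1) hnw
  have hw : w ≤ 2 ^ L := le_trans (by
    calc w = 1 * w * 1 := by ring
      _ ≤ n * w * 2 ^ s := Nat.mul_le_mul (Nat.mul_le_mul_right _ hn1) hs1) hnw
  have hs : s ≤ L := by
    have h1 : 2 ^ s ≤ 2 ^ L := le_trans (by
      calc 2 ^ s = 1 * 1 * 2 ^ s := by ring
        _ ≤ n * w * 2 ^ s := Nat.mul_le_mul_right _ (Nat.mul_le_mul hn1 hw1)) hnw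
    exact (Nat.pow_le_pow_iff_right (by norm_num)).1 h1
  have hLML : L ≤ (m + 1) * L := Nat.le_mul_of_pos_left _ (by omega)
  refine ⟨L ^ 3, 8 * (m + 1) * L, 125 * (m + 1) * L, Nat.one_le_pow _ _ (by omega), ?_, ?_, ?_,
    size_part hLb hn hw hΛL, ?_⟩
  · calc n + 1 ≤ 2 ^ L * 2 := by
          have : 1 ≤ 2 ^ L := Nat.one_le_two_pow
          omega
      _ = 2 ^ (L + 1) := (pow_succ _ _).symm
      _ ≤ 2 ^ (L ^ 3) := two_pow_le (by nlinarith [Nat.zero_le (L * L)])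
  · have : 1 ≤ (m + 1) * L := by omega
    calc 1 ≤ 8 * ((m + 1) * L) := by omega
      _ = 8 * (m + 1) * L := by ring
  · exact Nat.mul_le_mul_right _ (Nat.mul_le_mul_right _ (by norm_num))
  -- the error
  obtain ⟨E, hE⟩ : ∃ E : ℕ, E = (m + 1) * L := ⟨_, rfl⟩
  obtain ⟨g, hg⟩ : ∃ g : ℕ, g = Nat.log 2 L + 1 := ⟨_, rfl⟩
  obtain ⟨a, ha⟩ : ∃ a : ℕ, a = 4 + 4 * Cs := ⟨_, rfl⟩
  obtain ⟨Λ, hΛ⟩ : ∃ Λ : ℕ, Λ = Cs * (L ^ 3) ^ Cs := ⟨_, rfl⟩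
  have hg1 : 1 ≤ g := by omega
  have ha1 : 8 ≤ a := by omega
  have hlam : 12 * Λ ≤ 2 ^ (a * g) := by
    rw [hΛ, ha, hg]; exact lam_part
  have hΛ1 : 1 ≤ Λ := by
    rw [hΛ]
    exact Nat.mul_le_mul hCs (Nat.one_le_pow _ _ (by positivity))
  have hE2 : 886 ≤ E := by omega
  have hLE : L ≤ E := by omega
  have hek : 8 * (m + 1) * L = 8 * E := by rw [hE]; ring
  have hek' : 125 * (m + 1) * L = 125 * E := by rw [hE]; ring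
  rw [← ha, ← hg] at hCr hδn
  rw [hek, hek', ← hΛ]
  have hδn' : δ * 2 ^ (400 * (a * E * g)) ≤ n := by
    have e : 400 * a * (m + 1) * L * g = 400 * (a * E * g) := by rw [hE]; ring
    rw [← e]; exact hδn
  have hrg : a * g + 4 ≤ r := by
    refine le_trans ?_ hCr
    have h1 : a * g * 1 ≤ a * g * (m + 1) := Nat.mul_le_mul_left _ hM1
    have h2 : 1 ≤ a * g := Nat.mul_le_mul (by omega : 1 ≤ a) hg1
    calc a * g + 4 ≤ 400 * (a * g * (m + 1)) := by omega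
      _ = 400 * a * (m + 1) * g := by ring
  have hEE : E ≤ a * E * g := by
    calc E = 1 * E * 1 := by ring
      _ ≤ a * E * g := Nat.mul_le_mul (Nat.mul_le_mul_right _ (by omega)) hg1
  obtain ⟨t, ht⟩ : ∃ t : ℝ, t = (1 / 2) ^ E := ⟨_, rfl⟩
  have ht0 : 0 < t := by rw [ht]; positivity
  have hinv : (2 : ℝ) ^ E * t = 1 := by
    rw [ht, ← mul_pow]; norm_num
  have ht4 : t ≤ 1 / 4 := by
    rw [ht]
    calc (1 / 2 : ℝ) ^ E ≤ (1 / 2) ^ 2 :=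
          pow_le_pow_of_le_one (by norm_num) (by norm_num) (by omega)
      _ = 1 / 4 := by norm_num
  have hnK : n * w ^ m ≤ 2 ^ E := by
    calc n * w ^ m ≤ 2 ^ L * (2 ^ L) ^ m := Nat.mul_le_mul hn (Nat.pow_le_pow_left hw m)
      _ = 2 ^ E := by rw [← pow_mul, ← pow_add, hE]; congr 1; ring
  have hnKt : (n : ℝ) * (w : ℝ) ^ m * t ≤ 1 := by
    rw [← hinv]
    apply mul_le_mul_of_nonneg_right _ ht0.le
    exact_mod_cast hnK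
  have hKt : (w : ℝ) ^ m * t ≤ 1 := by
    refine le_trans ?_ hnKt
    apply mul_le_mul_of_nonneg_right _ ht0.le
    have h1 : (1 : ℝ) ≤ n := by exact_mod_cast hn1
    have h2 : (0 : ℝ) ≤ (w : ℝ) ^ m := by positivity
    nlinarith
  have hrt : (r : ℝ) * t ≤ 1 := by
    rw [← hinv]
    apply mul_le_mul_of_nonneg_right _ ht0.le
    exact_mod_cast hr.trans (two_pow_le hLE)
  have hkt : ((125 * E : ℕ) : ℝ) * t ^ 9 ≤ 1 := by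
    have h1 : 125 * E ≤ (2 ^ E) ^ 9 := by
      have h2 : E < 2 ^ E := Nat.lt_two_pow_self
      have h3 : 2 ^ 8 ≤ 2 ^ E := two_pow_le (by omega)
      calc 125 * E ≤ 2 ^ E * 2 ^ E := Nat.mul_le_mul (by omega) h2.le
        _ = (2 ^ E) ^ 2 := by ring
        _ ≤ (2 ^ E) ^ 9 := Nat.pow_le_pow_right (by omega) (by norm_num)
    have h4 : ((125 * E : ℕ) : ℝ) ≤ ((2 : ℝ) ^ E) ^ 9 := by exact_mod_cast h1
    calc ((125 * E : ℕ) : ℝ) * t ^ 9 ≤ ((2 : ℝ) ^ E) ^ 9 * t ^ 9 :=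
          mul_le_mul_of_nonneg_right h4 (by positivity)
      _ = 1 := by rw [← mul_pow, hinv, one_pow]
  have hΛr : (12 : ℝ) * Λ ≤ 2 ^ (a * g) := by exact_mod_cast hlam
  have hΛ0 : (1 : ℝ) ≤ Λ := by exact_mod_cast hΛ1
  have hT : δ * (2 * (12 * (Λ : ℝ)) ^ (125 * E)) ^ 2 ≤ t ^ 100 := by
    have h1 : (12 * (Λ : ℝ)) ^ (125 * E) ≤ 2 ^ (125 * (a * E * g)) := by
      calc (12 * (Λ : ℝ)) ^ (125 * E) ≤ (2 ^ (a * g)) ^ (125 * E) :=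
            pow_le_pow_left₀ (by positivity) hΛr _
        _ = 2 ^ (125 * (a * E * g)) := by rw [← pow_mul]; congr 1; ring
    have h2 : (2 * (12 * (Λ : ℝ)) ^ (125 * E)) ^ 2 ≤ 2 ^ (2 + 250 * (a * E * g)) := by
      calc (2 * (12 * (Λ : ℝ)) ^ (125 * E)) ^ 2 ≤ (2 * 2 ^ (125 * (a * E * g))) ^ 2 :=
            pow_le_pow_left₀ (by positivity) (by linarith) 2
        _ = 2 ^ (2 + 250 * (a * E * g)) := by
            rw [mul_pow, ← pow_mul, pow_add]; congr 2; ring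
    have h3 : δ * (2 * (12 * (Λ : ℝ)) ^ (125 * E)) ^ 2 * 2 ^ (100 * E + L) ≤ 2 ^ L := by
      calc δ * (2 * (12 * (Λ : ℝ)) ^ (125 * E)) ^ 2 * 2 ^ (100 * E + L)
          ≤ δ * 2 ^ (2 + 250 * (a * E * g)) * 2 ^ (100 * E + L) := by
            apply mul_le_mul_of_nonneg_right _ (by positivity)
            exact mul_le_mul_of_nonneg_left h2 hδ
        _ = δ * 2 ^ (2 + 250 * (a * E * g) + (100 * E + L)) := by
            rw [mul_assoc, ← pow_add]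
        _ ≤ δ * 2 ^ (400 * (a * E * g)) := by
            apply mul_le_mul_of_nonneg_left _ hδ
            exact pow_le_pow_right₀ (by norm_num) (by omega)
        _ ≤ n := hδn'
        _ ≤ 2 ^ L := by exact_mod_cast hn
    have h4 : δ * (2 * (12 * (Λ : ℝ)) ^ (125 * E)) ^ 2 * 2 ^ (100 * E) ≤ 1 := by
      rw [pow_add, ← mul_assoc] at h3
      have h5 : (0 : ℝ) < 2 ^ L := by positivity
      exact le_of_mul_le_mul_right (by linarith) h5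
    have h5 : (2 : ℝ) ^ (100 * E) * t ^ 100 = 1 := by
      rw [mul_comm 100 E, pow_mul, ← mul_pow, hinv, one_pow]
    calc δ * (2 * (12 * (Λ : ℝ)) ^ (125 * E)) ^ 2
        = δ * (2 * (12 * (Λ : ℝ)) ^ (125 * E)) ^ 2 * ((2 : ℝ) ^ (100 * E) * t ^ 100) := by
          rw [h5, mul_one]
      _ = δ * (2 * (12 * (Λ : ℝ)) ^ (125 * E)) ^ 2 * 2 ^ (100 * E) * t ^ 100 := by ring
      _ ≤ 1 * t ^ 100 := mul_le_mul_of_nonneg_right h4 (by positivity)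
      _ = t ^ 100 := one_mul _
  have h47 : (4 / 7 : ℝ) ^ (125 * E) ≤ t ^ 100 := by
    have h1 : (4 / 7 : ℝ) ^ 125 ≤ (1 / 2) ^ 100 := by
      calc (4 / 7 : ℝ) ^ 125 = ((4 / 7) ^ 5) ^ 25 := by rw [← pow_mul]
        _ ≤ ((1 / 2) ^ 4) ^ 25 := pow_le_pow_left₀ (by positivity) (by norm_num) 25
        _ = (1 / 2) ^ 100 := by rw [← pow_mul]
    calc (4 / 7 : ℝ) ^ (125 * E) = ((4 / 7) ^ 125) ^ E := pow_mul _ _ _
      _ ≤ ((1 / 2) ^ 100) ^ E := pow_le_pow_left₀ (by positivity) h1 E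
      _ = t ^ 100 := by rw [ht, ← pow_mul, ← pow_mul, mul_comm]
  have hA : (1 / 2 ^ r : ℝ) ^ (8 * E) * (2 * (2 * (Λ : ℝ)) ^ (8 * E)) ≤ t ^ 31 := by
    have h1 : (1 / 2 ^ r : ℝ) * (2 * (Λ : ℝ)) ≤ 1 / 16 := by
      have h2 : (2 : ℝ) ^ (a * g + 4) ≤ 2 ^ r := pow_le_pow_right₀ (by norm_num) hrg
      rw [pow_add] at h2
      have h3 : (0 : ℝ) < 2 ^ r := by positivity
      rw [div_mul_eq_mul_div, one_mul, div_le_div_iff₀ h3 (by norm_num)]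
      norm_num at h2
      linarith
    have h2 : ((1 / 2 ^ r : ℝ) * (2 * (Λ : ℝ))) ^ (8 * E) ≤ (1 / 16) ^ (8 * E) :=
      pow_le_pow_left₀ (by positivity) h1 _
    have h3 : (1 / 16 : ℝ) ^ (8 * E) = t ^ 32 := by
      have : (1 / 16 : ℝ) = (1 / 2) ^ 4 := by norm_num
      rw [this, ht, ← pow_mul, ← pow_mul]; congr 1; ring
    calc (1 / 2 ^ r : ℝ) ^ (8 * E) * (2 * (2 * (Λ : ℝ)) ^ (8 * E))
        = 2 * ((1 / 2 ^ r : ℝ) * (2 * (Λ : ℝ))) ^ (8 * E) := by rw [mul_pow]; ring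
      _ ≤ 2 * t ^ 32 := by rw [← h3]; linarith
      _ = (2 * t) * t ^ 31 := by ring
      _ ≤ 1 * t ^ 31 := mul_le_mul_of_nonneg_right (by linarith) (by positivity)
      _ = t ^ 31 := one_mul _
  have h16 : (16 : ℝ) ^ (8 * E) * t ^ 32 ≤ 1 := by
    have h1 : (16 : ℝ) ^ (8 * E) = (2 ^ E) ^ 32 := by
      have : (16 : ℝ) = 2 ^ 4 := by norm_num
      rw [this, ← pow_mul, ← pow_mul]; congr 1; ring
    rw [h1, ← mul_pow, hinv, one_pow]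
  have hfin := real_part (K := (w : ℝ) ^ m) (n := (n : ℝ)) (Λ := (Λ : ℝ)) ht0 ht4 (by positivity)
    (by positivity) hnKt hKt hrt hkt (Nat.mul_le_mul_right E (by norm_num : 8 ≤ 125)) hΛ0 hδ hT
    h47 hA h16
  refine hfin.trans ?_
  rw [ht]
  exact pow_le_pow_of_le_one (by norm_num) (by norm_num) (hs.trans hLE)

end Helper4.RC
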