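import Pool.Agent.Helper4.RC.ParamsA

set_option autoImplicit false

/-!
The choice of the parameters for all `L ≥ 1`.

Proof sketch. Let `C₁`, `L₀` be from `paramsA` (w.l.o.g. `C₁ ≥ 1`: replace `C₁` by `C₁ + 1`; or carry
it). Choose `P ≥ L₀` with `C₁ * (1 + P) ^ 2 ≤ 2 ^ P`, and `C = C₁ * (1 + P) ^ 2`. For `L ≥ 1` apply
`paramsA` with `L' = L + P` and `r = C * lg L`, `lg L = Nat.log 2 L + 1`: `L' ≤ (1 + P) * L < 2 ^ (P + lg L)`,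
so `lg L' ≤ P + lg L ≤ (P + 1) * lg L`; hence `C₁ * lg L' ≤ C * lg L = r` and
`C₁ * L' * lg L' ≤ C * L * lg L`; `r ≤ C * L ≤ 2 ^ P * 2 ^ L`.
-/

namespace Helper4.RC

/-- A quadratic polynomial is eventually smaller than the exponential. -/
private lemma exists_P (C₁ L₀ : ℕ) : ∃ P : ℕ, L₀ ≤ P ∧ C₁ * (1 + P) ^ 2 ≤ 2 ^ P := by
  have key : ∀ n : ℕ, (1 + (n + 6)) ^ 2 ≤ 2 ^ (n + 6) := by
    intro n
    induction n with
    | zero => norm_num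
    | succ n ih =>
      have e : 2 ^ (n + 1 + 6) = 2 * 2 ^ (n + 6) := by ring
      have h : (1 + (n + 1 + 6)) ^ 2 ≤ 2 * (1 + (n + 6)) ^ 2 := by
        have h0 := Nat.zero_le (n * n)
        ring_nf
        nlinarith
      rw [e]
      exact h.trans (Nat.mul_le_mul_left 2 ih)
  -- `P = 2 * (a + 6) + ..`: take `P = 3 * (C₁ + L₀ + 6)`
  refine ⟨(C₁ + L₀ + 6) + (C₁ + L₀ + 6), by omega, ?_⟩
  set a := C₁ + L₀ + 6 with ha
  have h1 : C₁ * (1 + (a + a)) ^ 2 ≤ a * (2 * (1 + a)) ^ 2 := by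
    apply Nat.mul_le_mul
    · omega
    · apply Nat.pow_le_pow_left
      omega
  have h2 : a * (2 * (1 + a)) ^ 2 = 4 * a * (1 + a) ^ 2 := by ring
  have h3 : (1 + a) ^ 2 ≤ 2 ^ a := by
    have := key (C₁ + L₀)
    simpa [ha] using this
  have h4 : 4 * a ≤ 2 ^ a := by
    have : 4 * a ≤ (1 + a) ^ 2 := by nlinarith [sq_nonneg (a - 1)]
    exact this.trans h3
  calc C₁ * (1 + (a + a)) ^ 2 ≤ 4 * a * (1 + a) ^ 2 := by rw [← h2]; exact h1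
    _ ≤ 2 ^ a * 2 ^ a := Nat.mul_le_mul h4 h3
    _ = 2 ^ (a + a) := (pow_add 2 a a).symm

theorem params (m Cs : ℕ) (hCs : 1 ≤ Cs) : ∃ C : ℕ, ∀ L n w s : ℕ, 1 ≤ L → 1 ≤ n → 1 ≤ w →
    n * w * 2 ^ s ≤ 2 ^ L → ∀ δ : ℝ, 0 ≤ δ → δ * 2 ^ (C * L * (Nat.log 2 L + 1)) ≤ n →
    ∃ N k k' : ℕ, 1 ≤ N ∧ n + 1 ≤ 2 ^ N ∧ 1 ≤ k ∧ k ≤ k' ∧
      k' * (6 * (2 * (Cs * N ^ Cs) + n * (w ^ m) ^ 2)) ^ k' * (2 * n) ≤ 2 ^ N ∧
      errT ((w : ℝ) ^ m) n ((Cs * N ^ Cs : ℕ) : ℝ) k k' (C * (Nat.log 2 L + 1)) δ ≤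
        (1 / 2) ^ s := by
  obtain ⟨C₁, L₀, hA⟩ := paramsA m Cs hCs
  obtain ⟨P, hP, hP2⟩ := exists_P C₁ L₀
  refine ⟨C₁ * (1 + P) ^ 2, ?_⟩
  intro L n w s hL hn hw hnw δ hδ hδn
  have hlt : L < 2 ^ (Nat.log 2 L + 1) := Nat.lt_pow_succ_log_self (by norm_num) L
  have hPlt : P < 2 ^ P := Nat.lt_two_pow_self
  have hL' : L + P ≤ (1 + P) * L := by nlinarith
  have hlt' : L + P < 2 ^ (P + (Nat.log 2 L + 1)) := by
    calc L + P ≤ (1 + P) * L := hL'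
      _ ≤ 2 ^ P * L := Nat.mul_le_mul_right _ (by omega)
      _ < 2 ^ P * 2 ^ (Nat.log 2 L + 1) := Nat.mul_lt_mul_of_pos_left hlt (by positivity)
      _ = 2 ^ (P + (Nat.log 2 L + 1)) := (pow_add 2 P (Nat.log 2 L + 1)).symm
  have hlog : Nat.log 2 (L + P) < P + (Nat.log 2 L + 1) :=
    Nat.log_lt_of_lt_pow (by omega) hlt'
  have hlg : Nat.log 2 (L + P) + 1 ≤ (P + 1) * (Nat.log 2 L + 1) := by
    nlinarith [Nat.zero_le (P * Nat.log 2 L)]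
  have hr1 : C₁ * (Nat.log 2 (L + P) + 1) ≤ C₁ * (1 + P) ^ 2 * (Nat.log 2 L + 1) := by
    calc C₁ * (Nat.log 2 (L + P) + 1) ≤ C₁ * ((P + 1) * (Nat.log 2 L + 1)) :=
          Nat.mul_le_mul_left _ hlg
      _ ≤ C₁ * ((1 + P) ^ 2 * (Nat.log 2 L + 1)) := by
          apply Nat.mul_le_mul_left
          apply Nat.mul_le_mul_right
          nlinarith
      _ = C₁ * (1 + P) ^ 2 * (Nat.log 2 L + 1) := by ring
  have hLlog : Nat.log 2 L + 1 ≤ 2 ^ L := by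
    have h1 : Nat.log 2 L < L := Nat.log_lt_self 2 (by omega)
    have h2 : L < 2 ^ L := Nat.lt_two_pow_self
    omega
  have hr2 : C₁ * (1 + P) ^ 2 * (Nat.log 2 L + 1) ≤ 2 ^ (L + P) := by
    calc C₁ * (1 + P) ^ 2 * (Nat.log 2 L + 1) ≤ 2 ^ P * 2 ^ L := Nat.mul_le_mul hP2 hLlog
      _ = 2 ^ (L + P) := by rw [← pow_add, add_comm]
  have hexp : C₁ * (L + P) * (Nat.log 2 (L + P) + 1) ≤
      C₁ * (1 + P) ^ 2 * L * (Nat.log 2 L + 1) := by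
    calc C₁ * (L + P) * (Nat.log 2 (L + P) + 1)
        ≤ C₁ * ((1 + P) * L) * ((P + 1) * (Nat.log 2 L + 1)) := by
          apply Nat.mul_le_mul
          · exact Nat.mul_le_mul_left _ hL'
          · exact hlg
      _ = C₁ * (1 + P) ^ 2 * L * (Nat.log 2 L + 1) := by ring
  have hδ' : δ * 2 ^ (C₁ * (L + P) * (Nat.log 2 (L + P) + 1)) ≤ n := by
    refine le_trans ?_ hδn
    apply mul_le_mul_of_nonneg_left _ hδ
    exact pow_le_pow_right₀ (by norm_num) hexp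
  exact hA (L + P) (by omega) (by omega) n w s (C₁ * (1 + P) ^ 2 * (Nat.log 2 L + 1)) hn hw
    (hnw.trans (Nat.pow_le_pow_right (by norm_num) (by omega))) hr1 hr2 δ hδ hδ'

end Helper4.RC
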