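import Pool.Agent.Helper4.RC.SensDefs

set_option autoImplicit false

/-!
Counting by encoding.

Proof sketch. Count the pairs `(x, F)`, `x ∈ P`, `F ⊆ K x`, `F.card = a`.
(1) For each `x ∈ P` there are `(K x).card.choose a ≥ b ^ a` sets `F`: with `k ≥ a (b + 1)`,
`(k + 1 - a) ^ a ≤ k.descFactorial a = a! * k.choose a` (`Nat.pow_sub_le_descFactorial`,
`Nat.descFactorial_eq_factorial_mul_choose`), `(a b) ^ a ≤ (k + 1 - a) ^ a`, `a! ≤ a ^ a`
(`Nat.factorial_le_pow` or by induction); `a = 0` is trivial.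
(2) The map `(x, F) ↦ (flpn x F, F)` is injective (`flpn (flpn x F) F = x`). For every `y` the number
of `F` with `F.card = a` and `Dec a y F` is at most `D ^ a`, where `Dec 0 y F` is `F = ∅` and
`Dec (a+1) y F` says that `F` is nonempty, `good y`, `max F ∈ cand y` and
`Dec a (flpn y {max F}) (F.erase (max F))` (induction on `a`: `F` is determined by `max F`, at most
`D` choices, and by `F.erase (max F)`).
(3) For `x ∈ P`, `F ⊆ K x`, `F.card = a' ≤ a`: `Dec a' (flpn x F) F` (induction on `a'`:
`flpn (flpn x F) {i} = flpn x (F.erase i)` for `i ∈ F`).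
`near`: the words with a bad word at distance `≤ a` (flip set in `range n`): a set `F ⊆ range n`
with `F.card ≤ a` is the set of values of a function `Fin a → Option (Fin n)`, so there are at most
`(n + 1) ^ a` such `F`, and `x` is determined by `F` and `flpn x F`.
-/

namespace Helper4.RC

open Finset

private lemma flpn_flpn {n : ℕ} (x : Fin n → ZMod 2) (F : Finset ℕ) : flpn (flpn x F) F = x := by
  funext i
  simp only [flpn]
  rw [add_assoc, CharTwo.add_self_eq_zero, add_zero]

private lemma flpn_erase {n : ℕ} (x : Fin n → ZMod 2) (F : Finset ℕ) {m : ℕ} (hm : m ∈ F) :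
    flpn (flpn x F) {m} = flpn x (F.erase m) := by
  funext i
  simp only [flpn, mem_singleton, mem_erase]
  by_cases hi : (i : ℕ) = m
  · have hF : (i : ℕ) ∈ F := by rw [hi]; exact hm
    rw [if_pos hF, if_pos hi, if_neg (fun h => h.1 hi), add_assoc, CharTwo.add_self_eq_zero]
  · rw [if_neg hi, add_zero]
    by_cases hF : (i : ℕ) ∈ F
    · rw [if_pos hF, if_pos ⟨hi, hF⟩]
    · rw [if_neg hF, if_neg (fun h => hF h.2)]

/-- The sets with `a` elements that can be decoded from `y`. -/
private noncomputable def dec {n : ℕ} (good : (Fin n → ZMod 2) → Prop)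
    (cd : (Fin n → ZMod 2) → Finset ℕ) : ℕ → (Fin n → ZMod 2) → Finset (Finset ℕ)
  | 0, _ => {∅}
  | a + 1, y => open Classical in
    if good y then (cd y).biUnion fun m => (dec good cd a (flpn y {m})).image (insert m) else ∅

private lemma card_dec {n : ℕ} (good : (Fin n → ZMod 2) → Prop)
    (cd : (Fin n → ZMod 2) → Finset ℕ) {D : ℕ} (hc : ∀ y, good y → (cd y).card ≤ D) (a : ℕ) :
    ∀ y, (dec good cd a y).card ≤ D ^ a := by
  classical
  induction a with
  | zero => intro y; simp [dec]
  | succ a ih =>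
    intro y
    rw [dec]
    split_ifs with h
    · refine (card_biUnion_le_card_mul _ _ (D ^ a) ?_).trans ?_
      · intro m _
        exact card_image_le.trans (ih _)
      · rw [pow_succ, mul_comm (D ^ a)]
        exact Nat.mul_le_mul_right _ (hc y h)
    · simp

private lemma mem_dec {n : ℕ} (good : (Fin n → ZMod 2) → Prop)
    (cd : (Fin n → ZMod 2) → Finset ℕ) (x : Fin n → ZMod 2) (K : Finset ℕ) (a : ℕ)
    (hdec : ∀ F ⊆ K, F.card ≤ a → ∀ h : F.Nonempty,
      good (flpn x F) ∧ F.max' h ∈ cd (flpn x F)) (k : ℕ) :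
    ∀ F ⊆ K, F.card = k → k ≤ a → F ∈ dec good cd k (flpn x F) := by
  classical
  induction k with
  | zero =>
    intro F _ hF _
    rw [card_eq_zero] at hF
    simp [dec, hF]
  | succ k ih =>
    intro F hFK hF hk
    have hne : F.Nonempty := by
      rw [← card_pos, hF]; omega
    obtain ⟨h1, h2⟩ := hdec F hFK (by omega) hne
    rw [dec, if_pos h1, mem_biUnion]
    refine ⟨F.max' hne, h2, ?_⟩
    rw [mem_image]
    refine ⟨F.erase (F.max' hne), ?_, insert_erase (max'_mem F hne)⟩
    rw [flpn_erase x F (max'_mem F hne)]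
    exact ih _ ((erase_subset _ _).trans hFK)
      (by rw [card_erase_of_mem (max'_mem F hne), hF]; rfl) (by omega)

private lemma pow_le_choose' (a b k : ℕ) (h : a * (b + 1) ≤ k) : b ^ a ≤ k.choose a := by
  have h1 : (k + 1 - a) ^ a ≤ k.descFactorial a := Nat.pow_sub_le_descFactorial k a
  rw [Nat.descFactorial_eq_factorial_mul_choose] at h1
  have h2 : (a * b) ^ a ≤ (k + 1 - a) ^ a := by
    apply Nat.pow_le_pow_left
    have : a * (b + 1) = a * b + a := by ring
    omega
  have h3 : a.factorial ≤ a ^ a := Nat.factorial_le_pow a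
  have h4 : a ^ a * b ^ a ≤ a ^ a * k.choose a := by
    rw [← mul_pow]
    exact h2.trans (h1.trans (Nat.mul_le_mul_right _ h3))
  have h5 : 0 < a ^ a := by
    rcases Nat.eq_zero_or_pos a with h0 | h0
    · subst h0; simp
    · exact Nat.pow_pos h0
  exact Nat.le_of_mul_le_mul_left h4 h5

theorem count (n a b D : ℕ) (good : (Fin n → ZMod 2) → Prop)
    (cd : (Fin n → ZMod 2) → Finset ℕ) (hc : ∀ y, good y → (cd y).card ≤ D)
    (P : Finset (Fin n → ZMod 2)) (K : (Fin n → ZMod 2) → Finset ℕ)
    (hcard : ∀ x ∈ P, a * (b + 1) ≤ (K x).card)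
    (hdec : ∀ x ∈ P, ∀ F ⊆ K x, F.card ≤ a → ∀ h : F.Nonempty,
      good (flpn x F) ∧ F.max' h ∈ cd (flpn x F)) :
    P.card * b ^ a ≤ 2 ^ n * D ^ a := by
  classical
  set S : Finset (Sigma fun _ : Fin n → ZMod 2 => Finset ℕ) :=
    P.sigma fun x => (K x).powersetCard a with hS
  set T : Finset (Sigma fun _ : Fin n → ZMod 2 => Finset ℕ) :=
    (univ : Finset (Fin n → ZMod 2)).sigma fun y => dec good cd a y with hT
  have h1 : P.card * b ^ a ≤ S.card := by
    rw [hS, card_sigma, ← smul_eq_mul]
    apply card_nsmul_le_sum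
    intro x hx
    rw [card_powersetCard]
    exact pow_le_choose' a b _ (hcard x hx)
  have h2 : S.card ≤ T.card := by
    refine card_le_card_of_injOn
      (fun p : (Sigma fun _ : Fin n → ZMod 2 => Finset ℕ) => ⟨flpn p.1 p.2, p.2⟩) ?_ ?_
    · intro p hp
      rw [mem_coe, hS, mem_sigma, mem_powersetCard] at hp
      rw [mem_coe, hT, mem_sigma]
      exact ⟨mem_univ _, mem_dec good cd p.1 (K p.1) a (hdec p.1 hp.1) a p.2 hp.2.1 hp.2.2 le_rfl⟩
    · rintro ⟨x, F⟩ _ ⟨x', F'⟩ _ h
      simp only [Sigma.mk.injEq, heq_eq_eq] at h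
      obtain ⟨h3, h4⟩ := h
      subst h4
      have h5 := congrArg (fun y => flpn y F) h3
      simp only [flpn_flpn] at h5
      rw [h5]
  have h3 : T.card ≤ 2 ^ n * D ^ a := by
    rw [hT, card_sigma]
    have : ∑ y : Fin n → ZMod 2, (dec good cd a y).card ≤
        (univ : Finset (Fin n → ZMod 2)).card • D ^ a :=
      sum_le_card_nsmul _ _ _ fun y _ => card_dec good cd hc a y
    rwa [card_univ, Fintype.card_fun, ZMod.card, Fintype.card_fin, smul_eq_mul] at this
  exact h1.trans (h2.trans h3)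

/-- The sets of at most `a` numbers below `n`. -/
private def fam (n : ℕ) : ℕ → Finset (Finset ℕ)
  | 0 => {∅}
  | a + 1 => (range (n + 1)).biUnion fun m =>
      (fam n a).image fun F => if m < n then insert m F else F

private lemma card_fam (n a : ℕ) : (fam n a).card ≤ (n + 1) ^ a := by
  induction a with
  | zero => simp [fam]
  | succ a ih =>
    rw [fam]
    refine (card_biUnion_le_card_mul _ _ ((n + 1) ^ a) ?_).trans ?_
    · intro m _
      exact card_image_le.trans ih
    · rw [card_range, pow_succ, mul_comm]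

private lemma mem_fam (n a : ℕ) : ∀ F ⊆ range n, F.card ≤ a → F ∈ fam n a := by
  induction a with
  | zero =>
    intro F _ h
    rw [Nat.le_zero, card_eq_zero] at h
    simp [fam, h]
  | succ a ih =>
    intro F hF h
    rw [fam, mem_biUnion]
    rcases F.eq_empty_or_nonempty with h0 | ⟨m, hm⟩
    · refine ⟨n, mem_range.2 (Nat.lt_succ_self n), ?_⟩
      rw [mem_image]
      exact ⟨F, ih F hF (by simp [h0]), if_neg (lt_irrefl n)⟩
    · have hmn : m < n := mem_range.1 (hF hm)
      refine ⟨m, mem_range.2 (by omega), ?_⟩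
      rw [mem_image]
      refine ⟨F.erase m, ih _ ((erase_subset _ _).trans hF) ?_, ?_⟩
      · rw [card_erase_of_mem hm]; omega
      · rw [if_pos hmn, insert_erase hm]


theorem near (n a : ℕ) (Q : Finset (Fin n → ZMod 2)) :
    (open Classical in (univ.filter fun x : Fin n → ZMod 2 =>
      ∃ F ⊆ range n, F.card ≤ a ∧ flpn x F ∈ Q)).card ≤ (n + 1) ^ a * Q.card := by
  classical
  have hsub : (univ.filter fun x : Fin n → ZMod 2 =>
      ∃ F ⊆ range n, F.card ≤ a ∧ flpn x F ∈ Q) ⊆
      (fam n a ×ˢ Q).image fun p : Finset ℕ × (Fin n → ZMod 2) => flpn p.2 p.1 := by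
    intro x hx
    rw [mem_filter] at hx
    obtain ⟨-, F, hF, hFa, hFQ⟩ := hx
    rw [mem_image]
    exact ⟨(F, flpn x F), mem_product.2 ⟨mem_fam n a F hF hFa, hFQ⟩, flpn_flpn x F⟩
  have h1 := (card_le_card hsub).trans card_image_le
  rw [card_product] at h1
  refine le_trans (le_of_eq ?_) (h1.trans (Nat.mul_le_mul_right _ (card_fam n a)))
  congr

end Helper4.RC
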