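import Pool.Agent.Helper4.RC.SensTraj

set_option autoImplicit false

/-!
Decoding the last flipped position.

Proof sketch of `decode`. Let `i = F.max' hF`, `y = flp x F`, `hd` the disjointness for `F ⊆ K`.
(a) If `s < t` and `alv x i' s` for some `i' ∈ F` then `rst y s ↔ rst (flp x {i'}) s`: no other element
of `F` is alive at `s`. If `s = i'`: nobody in `F` is sensitive at `s`, so the states of `y`, `x`
and `flp x {i'}` at `s` agree, and the letters of `y` and `flp x {i'}` at `s` are `x s + 1`.
If `sen x s i'`: `st y s = st (flp x {i'}) s` by `traj`, and `s ∉ F` (else `s` would be alive), so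
both letters are `x s`.
(b) If `s < t` and no `i' ∈ F` is alive at `s`: `st y s = st x s`, same letter: `rst y s ↔ rst x s`.
(c) By `create` there is `s₀ < t` alive for `i` with `rst (flp x {i}) s₀`, so `rst y s₀`; let `j` be the
last `j < t` with `rst y j` (`Nat.findGreatest` or `Finset.max'` of the filtered range). `i ≤ s₀ ≤ j`.
(d) `alv x i j`: otherwise, if some `i' ∈ F`, `i' ≠ i` (so `i' < i`), is alive at `j ≥ i`, then
`sen x j i'` and `i' < i ≤ j` give `sen x i i'` (`not_sen_of_le`), contradicting `disj` at the time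
`i < t`; so nobody is alive at `j`, and by (b) `rst x j`, contradicting `none`.
(e) `alv y i j`: if `j = i` fine. Otherwise `sen x j i`, `i < j`. `flp y {i} = flp x (F.erase i)`
(`ZMod 2`), and by `traj` for `F.erase i` (nobody there is sensitive at `j`, by `disj`)
`st (flp y {i}) j = st x j`, while `st y j = st (flp x {i}) j ≠ st x j`.
`card_cand_le`: if the filter is nonempty, `j` is unique (the last reset of `y`), and the candidates
are `j` and elements of `sens L q y j`.
-/

namespace Helper4.RC

open Finset

section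

variable {V R : Type}

theorem decode {L : ℕ → ZMod 2 → V → V} {q : V} {γ : ℕ → ZMod 2 → V → Option R}
    {x : ℕ → ZMod 2} {t : ℕ} {K : Finset ℕ} (h : Sys L q γ x t K) (F : Finset ℕ) (hFK : F ⊆ K)
    (hF : F.Nonempty) : F.max' hF ∈ cand L q γ t (flp x F) := by
  classical
  have hd : ∀ i ∈ F, ∀ j ∈ F, i ≠ j → ∀ s < t, ¬ (alv L q x i s ∧ alv L q x j s) :=
    fun i hi j hj => h.disj i (hFK hi) j (hFK hj)
  have htr := traj L q x F t hd
  -- (a)
  have ha : ∀ s < t, ∀ i' ∈ F, alv L q x i' s →
      (rst L q γ (flp x F) s ↔ rst L q γ (flp x {i'}) s) := by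
    intro s hs i' hi' hal
    have key : st L q (flp x F) s = st L q (flp x {i'}) s ∧ flp x F s = flp x {i'} s := by
      rcases hal with hal | hal
      · subst hal
        have h1 : st L q (flp x F) s = st L q x s := by
          refine (htr s hs.le).1 fun k hk hsen => ?_
          have hlt := lt_of_sen hsen
          exact hd k hk s hi' hlt.ne s hs ⟨Or.inr hsen, Or.inl rfl⟩
        have h2 : st L q (flp x {s}) s = st L q x s := by
          by_contra hne
          exact lt_irrefl s (lt_of_sen (L := L) (q := q) (x := x) (t := s) (i := s) hne)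
        refine ⟨h1.trans h2.symm, ?_⟩
        rw [flp_apply_of_mem hi', flp_apply_of_mem (mem_singleton_self s)]
      · have hlt := lt_of_sen hal
        refine ⟨(htr s hs.le).2 i' hi' hal, ?_⟩
        have hsF : s ∉ F := fun hsF =>
          hd i' hi' s hsF hlt.ne s hs ⟨Or.inr hal, Or.inl rfl⟩
        rw [flp_apply_of_notMem hsF, flp_apply_of_notMem]
        rw [mem_singleton]
        omega
    unfold rst
    rw [key.1, key.2]
  -- (b)
  have hb : ∀ s < t, (∀ i' ∈ F, ¬ alv L q x i' s) →
      (rst L q γ (flp x F) s ↔ rst L q γ x s) := by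
    intro s hs hal
    have h1 : st L q (flp x F) s = st L q x s :=
      (htr s hs.le).1 fun k hk hsen => hal k hk (Or.inr hsen)
    have hsF : s ∉ F := fun hsF => hal s hsF (Or.inl rfl)
    unfold rst
    rw [h1, flp_apply_of_notMem hsF]
  set i := F.max' hF with hidef
  have hiF : i ∈ F := F.max'_mem hF
  have hit : i < t := h.lt i (hFK hiF)
  have hle : ∀ k ∈ F, k ≤ i := fun k hk => F.le_max' k hk
  obtain ⟨s₀, hs₀t, hal₀, hr₀⟩ := h.create i (hFK hiF)
  have hr₀' : rst L q γ (flp x F) s₀ := (ha s₀ hs₀t i hiF hal₀).2 hr₀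
  have his₀ : i ≤ s₀ := by
    rcases hal₀ with h1 | h1
    · exact h1.symm.le
    · exact (lt_of_sen h1).le
  -- the last reset
  have hne : ((range t).filter fun j => rst L q γ (flp x F) j).Nonempty :=
    ⟨s₀, mem_filter.2 ⟨mem_range.2 hs₀t, hr₀'⟩⟩
  obtain ⟨j, hj, hjmax⟩ : ∃ j ∈ (range t).filter fun j => rst L q γ (flp x F) j,
      ∀ k ∈ (range t).filter fun j => rst L q γ (flp x F) j, k ≤ j :=
    ⟨_, max'_mem _ hne, fun k hk => le_max' _ k hk⟩
  rw [mem_filter, mem_range] at hj
  obtain ⟨hjt, hjr⟩ := hj
  have hs₀j : s₀ ≤ j := hjmax s₀ (mem_filter.2 ⟨mem_range.2 hs₀t, hr₀'⟩)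
  have hij : i ≤ j := his₀.trans hs₀j
  -- (d)
  have hdal : alv L q x i j := by
    by_contra hnal
    refine h.none i (hFK hiF) j hij hjt ((hb j hjt ?_).1 hjr)
    intro i' hi' hal'
    have hne' : i' ≠ i := by
      rintro rfl
      exact hnal hal'
    have hlt' : i' < i := lt_of_le_of_ne (hle i' hi') hne'
    have hsen' : sen L q x j i' := by
      rcases hal' with h1 | h1
      · omega
      · exact h1
    have hsen'' : sen L q x i i' := by
      by_contra hn
      exact not_sen_of_le hlt' hij hn hsen'
    exact hd i' hi' i hiF hne' i hit ⟨Or.inr hsen'', Or.inl rfl⟩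
  -- (e)
  have heal : alv L q (flp x F) i j := by
    rcases hdal with h1 | h1
    · exact Or.inl h1
    · right
      have hflp : flp (flp x F) {i} = flp x (F.erase i) := by
        funext k
        by_cases hk : k = i
        · subst hk
          rw [flp_apply_of_mem (mem_singleton_self _), flp_apply_of_mem hiF,
            flp_apply_of_notMem (notMem_erase _ _), add_assoc]
          have h2 : (1 : ZMod 2) + 1 = 0 := by decide
          rw [h2, add_zero]
        · rw [flp_apply_of_notMem (by rw [mem_singleton]; exact hk)]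
          by_cases hkF : k ∈ F
          · rw [flp_apply_of_mem hkF, flp_apply_of_mem (mem_erase.2 ⟨hk, hkF⟩)]
          · rw [flp_apply_of_notMem hkF, flp_apply_of_notMem fun hc => hkF (mem_of_mem_erase hc)]
      have h3 : st L q (flp x (F.erase i)) j = st L q x j := by
        refine (traj L q x (F.erase i) t (fun a ha' b hb' => hd a (mem_of_mem_erase ha') b
          (mem_of_mem_erase hb')) j hjt.le).1 fun k hk hsen => ?_
        rw [mem_erase] at hk
        exact hd k hk.2 i hiF hk.1 j hjt ⟨Or.inr hsen, Or.inr h1⟩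
      have h4 : st L q (flp x F) j = st L q (flp x {i}) j := (htr j hjt.le).2 i hiF h1
      unfold sen
      rw [hflp, h3, h4]
      exact fun hc => h1 hc.symm
  unfold cand
  rw [mem_filter, mem_range]
  refine ⟨hit, j, hjt, hjr, ?_, heal⟩
  intro s hjs hst hr
  have := hjmax s (mem_filter.2 ⟨mem_range.2 hst, hr⟩)
  omega

theorem card_cand_le {L : ℕ → ZMod 2 → V → V} {q : V} {γ : ℕ → ZMod 2 → V → Option R}
    {y : ℕ → ZMod 2} {t Λ : ℕ} (h : ∀ s ≤ t, (sens L q y s).card ≤ Λ) :
    (cand L q γ t y).card ≤ Λ + 1 := by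
  classical
  rcases (cand L q γ t y).eq_empty_or_nonempty with he | ⟨i₀, hi₀⟩
  · rw [he, card_empty]
    omega
  · unfold cand at hi₀
    rw [mem_filter] at hi₀
    obtain ⟨-, j₀, hj₀t, hj₀r, hj₀m, -⟩ := hi₀
    have hsub : cand L q γ t y ⊆ insert j₀ (sens L q y j₀) := by
      intro i hi
      unfold cand at hi
      rw [mem_filter] at hi
      obtain ⟨-, j, hjt, hjr, hjm, hal⟩ := hi
      have hjj : j = j₀ := by
        rcases lt_trichotomy j j₀ with h1 | h1 | h1
        · exact absurd hj₀r (hjm j₀ h1 hj₀t)
        · exact h1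
        · exact absurd hjr (hj₀m j h1 hjt)
      subst hjj
      rw [mem_insert]
      rcases hal with h1 | h1
      · exact Or.inl h1.symm
      · right
        unfold sens
        rw [mem_filter, mem_range]
        exact ⟨lt_of_sen h1, h1⟩
    calc (cand L q γ t y).card ≤ (insert j₀ (sens L q y j₀)).card := card_le_card hsub
      _ ≤ (sens L q y j₀).card + 1 := card_insert_le _ _
      _ ≤ Λ + 1 := Nat.add_le_add_right (h j₀ hj₀t.le) 1

end

end Helper4.RC
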