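import Pool.Agent.Helper4.RC.SensDecode
import Pool.Agent.Helper4.RC.SensSplit
import Pool.Agent.Helper4.RC.SensCount

set_option autoImplicit false

/-!
One more register.

Proof sketch. `flp (ext0 x) F = ext0 (flpn x F)` for `F ⊆ range n`. Let `B = a * (2 * Λ + 3)`,
`Λ' = 2 * Λ + 1 + (Λ + 1) * B`. Let `x` be in the bad set of `ext L γ` for `Λ'`, with the time `t ≤ n`.
Either there is `F ⊆ range n`, `F.card ≤ a` with `flpn x F ∈ bad L q n Λ`: by `near` there are at most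
`(n + 1) ^ a * (bad L q n Λ).card` such `x`. Or `x ∈ P t`, where `P t` is the set of the `x` without
such `F` and with `Λ' < (sens (ext L γ) (q, r) (ext0 x) t).card`. For `x ∈ P t` all `flpn x F`,
`F ⊆ range n`, `F.card ≤ a`, are good: `∀ s ≤ n, (sens L q (ext0 (flpn x F)) s).card ≤ Λ`
(for `F = ∅` this is `x` itself), so `split` gives `K x` with `Sys L q γ (ext0 x) t (K x)`,
`B < (K x).card`, `K x ⊆ range t ⊆ range n`. `count` with `b = 2 * Λ + 2`, `D = Λ + 1`,
`cd y = cand L q γ t (ext0 y)`, `decode` and `card_cand_le`: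
`(P t).card * (2 * Λ + 2) ^ a ≤ 2 ^ n * (Λ + 1) ^ a`, so `(P t).card * 2 ^ a ≤ 2 ^ n` (cancel
`(Λ + 1) ^ a > 0`). Sum over `t ≤ n`.
-/

namespace Helper4.RC

open Finset

section

variable {V R : Type}

private lemma ext0_flpn {n : ℕ} (x : Fin n → ZMod 2) (F : Finset ℕ) (hF : F ⊆ range n) :
    ext0 (flpn x F) = flp (ext0 x) F := by
  funext i
  by_cases hi : i < n
  · simp [ext0, flpn, flp, hi]
  · have hiF : i ∉ F := fun h => hi (mem_range.1 (hF h))
    simp [ext0, flp, hi, hiF]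

private lemma flpn_empty {n : ℕ} (x : Fin n → ZMod 2) : flpn x ∅ = x := by
  funext i
  simp [flpn]

private lemma step_count (L : ℕ → ZMod 2 → V → V) (q : V) (γ : ℕ → ZMod 2 → V → Option R) (r : R)
    (n a Λ t : ℕ) (ht : t ≤ n) (P : Finset (Fin n → ZMod 2))
    (hgood : ∀ x ∈ P, ∀ F ⊆ range n, F.card ≤ a →
      ∀ s ≤ n, (sens L q (ext0 (flpn x F)) s).card ≤ Λ)
    (hbig : ∀ x ∈ P, 2 * Λ + 1 + (Λ + 1) * (a * (2 * Λ + 3)) <
      (sens (ext L γ) (q, r) (ext0 x) t).card) :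
    P.card * 2 ^ a ≤ 2 ^ n := by
  classical
  have hex : ∀ x ∈ P, ∃ K : Finset ℕ, Sys L q γ (ext0 x) t K ∧ a * (2 * Λ + 3) < K.card := by
    intro x hx
    refine split (r := r) (Λ := Λ) ?_ (hbig x hx)
    intro s hs
    have h := hgood x hx ∅ (empty_subset _) (by simp) s (hs.trans ht)
    rwa [flpn_empty] at h
  choose! K hK using hex
  have hKn : ∀ x ∈ P, K x ⊆ range n := by
    intro x hx i hi
    exact mem_range.2 (lt_of_lt_of_le ((hK x hx).1.lt i hi) ht)
  have h := count n a (2 * Λ + 2) (Λ + 1)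
    (fun y => ∀ s ≤ n, (sens L q (ext0 y) s).card ≤ Λ)
    (fun y => cand L q γ t (ext0 y))
    (fun y hy => card_cand_le fun s hs => hy s (hs.trans ht)) P K
    (fun x hx => by
      have h1 := (hK x hx).2
      have h2 : a * (2 * Λ + 2 + 1) = a * (2 * Λ + 3) := by ring
      rw [h2]
      exact h1.le)
    (fun x hx F hF ha hne => by
      have hFn : F ⊆ range n := hF.trans (hKn x hx)
      refine ⟨hgood x hx F hFn ha, ?_⟩
      show F.max' hne ∈ cand L q γ t (ext0 (flpn x F))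
      rw [ext0_flpn x F hFn]
      exact decode (hK x hx).1 F hF hne)
  have hpos : 0 < (Λ + 1) ^ a := pow_pos (Nat.succ_pos _) _
  refine Nat.le_of_mul_le_mul_right ?_ hpos
  calc P.card * 2 ^ a * (Λ + 1) ^ a = P.card * (2 * Λ + 2) ^ a := by
        rw [mul_assoc, ← mul_pow]
        congr 2
    _ ≤ 2 ^ n * (Λ + 1) ^ a := h

theorem sens_step (L : ℕ → ZMod 2 → V → V) (q : V) (γ : ℕ → ZMod 2 → V → Option R) (r : R)
    (n a Λ : ℕ) :
    (bad (ext L γ) (q, r) n (2 * Λ + 1 + (Λ + 1) * (a * (2 * Λ + 3)))).card * 2 ^ a ≤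
      (n + 1) * 2 ^ n + (n + 1) ^ a * 2 ^ a * (bad L q n Λ).card := by
  classical
  set Λ' := 2 * Λ + 1 + (Λ + 1) * (a * (2 * Λ + 3)) with hΛ'
  set N : Finset (Fin n → ZMod 2) := univ.filter fun x : Fin n → ZMod 2 =>
      ∃ F ⊆ range n, F.card ≤ a ∧ flpn x F ∈ bad L q n Λ with hN
  have hNc : N.card ≤ (n + 1) ^ a * (bad L q n Λ).card := by
    have h := near n a (bad L q n Λ)
    convert h
  set P : ℕ → Finset (Fin n → ZMod 2) := fun t => univ.filter fun x : Fin n → ZMod 2 =>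
      x ∉ N ∧ Λ' < (sens (ext L γ) (q, r) (ext0 x) t).card with hP
  have hPc : ∀ t ∈ range (n + 1), (P t).card * 2 ^ a ≤ 2 ^ n := by
    intro t ht
    have ht' : t ≤ n := Nat.lt_succ_iff.1 (mem_range.1 ht)
    refine step_count L q γ r n a Λ t ht' (P t) ?_ ?_
    · intro x hx F hF ha s hs
      have hx' := (mem_filter.1 hx).2.1
      by_contra hcon
      rw [not_le] at hcon
      apply hx'
      rw [hN, mem_filter]
      refine ⟨mem_univ _, F, hF, ha, ?_⟩
      rw [bad, mem_filter]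
      exact ⟨mem_univ _, s, hs, hcon⟩
    · intro x hx
      exact (mem_filter.1 hx).2.2
  have hsub : bad (ext L γ) (q, r) n Λ' ⊆ N ∪ (range (n + 1)).biUnion P := by
    intro x hx
    rw [bad, mem_filter] at hx
    obtain ⟨_, t, ht, hbig⟩ := hx
    rw [mem_union]
    by_cases hxN : x ∈ N
    · exact Or.inl hxN
    · right
      rw [mem_biUnion]
      refine ⟨t, mem_range.2 (Nat.lt_succ_iff.2 ht), ?_⟩
      rw [hP, mem_filter]
      exact ⟨mem_univ _, hxN, hbig⟩
  have hcard : (bad (ext L γ) (q, r) n Λ').card ≤ N.card + ∑ t ∈ range (n + 1), (P t).card :=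
    (card_le_card hsub).trans ((card_union_le _ _).trans
      (Nat.add_le_add_left card_biUnion_le _))
  calc (bad (ext L γ) (q, r) n Λ').card * 2 ^ a
      ≤ (N.card + ∑ t ∈ range (n + 1), (P t).card) * 2 ^ a := Nat.mul_le_mul_right _ hcard
    _ = N.card * 2 ^ a + ∑ t ∈ range (n + 1), (P t).card * 2 ^ a := by
        rw [add_mul, sum_mul]
    _ ≤ (n + 1) ^ a * (bad L q n Λ).card * 2 ^ a + ∑ t ∈ range (n + 1), 2 ^ n :=
        Nat.add_le_add (Nat.mul_le_mul_right _ hNc) (sum_le_sum hPc)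
    _ = (n + 1) * 2 ^ n + (n + 1) ^ a * 2 ^ a * (bad L q n Λ).card := by
        rw [sum_const, card_range, smul_eq_mul]
        ring

end

end Helper4.RC
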