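import Pool.Agent.Helper4.RC.SensDefs

set_option autoImplicit false

/-!
The run after flipping several positions with disjoint lifetimes.

Proof sketch. Induction on `s`. Step from `s` to `s + 1 ≤ t` (so `s < t`).
Case `s ∈ F`: no other `i ∈ F` is alive at `s` (`disj` with `s = s`), and `s` is not sensitive at
the time `s` (`lt_of_sen`), so `st (flp x F) s = st x s` by the first part at `s`; the letter is
`x s + 1`, so `st (flp x F) (s+1) = L s (x s + 1) (st x s) = st (flp x {s}) (s+1)`
(`st (flp x {s}) s = st x s`). If `i ∈ F` is sensitive at `s + 1` and `i ≠ s`, then `i < s` and `i`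
is sensitive at `s` (`not_sen_of_le`), a contradiction; so `i = s`. If no `i ∈ F` is sensitive at
`s + 1` then `s` is not, and `st (flp x {s}) (s+1) = st x (s+1)`.
Case `s ∉ F`: the letter at `s` is `x s`. If some `i ∈ F` is sensitive at `s` then
`st (flp x F) (s+1) = st (flp x {i}) (s+1)`, and each `i' ∈ F` sensitive at `s + 1` is sensitive at
`s` (as `i' ≠ s`), so `i' = i` by `disj`. Otherwise `st (flp x F) (s+1) = st x (s+1)` and no `i ∈ F`
is sensitive at `s + 1`.
-/

namespace Helper4.RC

open Finset

section

variable {V : Type}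

theorem traj (L : ℕ → ZMod 2 → V → V) (q : V) (x : ℕ → ZMod 2) (F : Finset ℕ) (t : ℕ)
    (hd : ∀ i ∈ F, ∀ j ∈ F, i ≠ j → ∀ s < t, ¬ (alv L q x i s ∧ alv L q x j s)) :
    ∀ s ≤ t, ((∀ i ∈ F, ¬ sen L q x s i) → st L q (flp x F) s = st L q x s) ∧
      ∀ i ∈ F, sen L q x s i → st L q (flp x F) s = st L q (flp x {i}) s := by
  intro s
  induction s with
  | zero =>
    intro _
    exact ⟨fun _ => rfl, fun _ _ _ => rfl⟩
  | succ s ih =>
    intro hs
    have hst : s < t := by omega
    obtain ⟨ih1, ih2⟩ := ih (by omega)
    have hback : ∀ i, i ≠ s → sen L q x (s + 1) i → sen L q x s i := by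
      intro i hi h
      by_contra hn
      have h1 := lt_of_sen h
      exact not_sen_of_le (show i < s by omega) (Nat.le_succ s) hn h
    by_cases hsF : s ∈ F
    · have hno : ∀ i ∈ F, ¬ sen L q x s i := by
        intro i hi h
        by_cases his : i = s
        · subst his
          exact absurd (lt_of_sen h) (lt_irrefl _)
        · exact hd i hi s hsF his s hst ⟨Or.inr h, Or.inl rfl⟩
      have h0 := ih1 hno
      have h1 : st L q (flp x {s}) s = st L q x s := not_not.1 (hno s hsF)
      have h2 : st L q (flp x F) (s + 1) = st L q (flp x {s}) (s + 1) := by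
        rw [st, st, h0, h1, flp_apply_of_mem hsF, flp_apply_of_mem (mem_singleton_self s)]
      refine ⟨fun h => ?_, fun i hi h => ?_⟩
      · rw [h2]
        exact not_not.1 (h s hsF)
      · by_cases his : i = s
        · subst his
          exact h2
        · exact absurd (hback i his h) (hno i hi)
    · have hne : ∀ i ∈ F, i ≠ s := by
        intro i hi h
        rw [h] at hi
        exact hsF hi
      by_cases hex : ∃ i ∈ F, sen L q x s i
      · obtain ⟨j, hj, hsj⟩ := hex
        have h0 := ih2 j hj hsj
        have h1 : s ∉ ({j} : Finset ℕ) := by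
          rw [mem_singleton]
          exact fun h => hne j hj h.symm
        have h2 : st L q (flp x F) (s + 1) = st L q (flp x {j}) (s + 1) := by
          rw [st, st, h0, flp_apply_of_notMem hsF, flp_apply_of_notMem h1]
        refine ⟨fun h => ?_, fun i hi h => ?_⟩
        · rw [h2]
          exact not_not.1 (h j hj)
        · have h3 := hback i (hne i hi) h
          by_cases hij : i = j
          · subst hij
            exact h2
          · exact absurd ⟨Or.inr h3, Or.inr hsj⟩ (hd i hi j hj hij s hst)
      · have hno : ∀ i ∈ F, ¬ sen L q x s i := fun i hi h => hex ⟨i, hi, h⟩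
        have h0 := ih1 hno
        refine ⟨fun _ => ?_, fun i hi h => ?_⟩
        · rw [st, st, h0, flp_apply_of_notMem hsF]
        · exact absurd (hback i (hne i hi) h) (hno i hi)

end

end Helper4.RC
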