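import Pool.Agent.Helper4.RC.Sk
import Pool.Agent.Helper4.RC.Pair

set_option autoImplicit false

/-!
Noise stability.

Hints. `stab_eq`: `(fc g χ)^2 = ∑ x, ∑ x', (∏ i, (e2 (χ i) (x i) / 2) * (e2 (χ i) (x' i) / 2)) * g x * g x'`
and `∑ χ, z^(cnt nz χ) * ∏ i, .. = ∏ i, ∑ κ, (if κ = 0 then 1 else z) * e2 κ (x i) * e2 κ (x' i) / 4
= ∏ i, wz z (x i, x' i)` (`Finset.prod_univ_sum` and `Fintype.piFinset_univ`, or induction on `n`
with the first letter); pairs of words are words of pairs (`Equiv.arrowProdEquivProdArrow`, or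
induction). `phi_eq_stab`: for one bit
`cz z (d, t) y = ∑ x : ZMod 2 × ZMod 2, wz z x * ind (d + t * x.1 = y.1) * ind (d + t * x.2 = y.2)`;
so `∑ y, cz z (d, t) y * F y = ∑ x, wz z x * F (d + t * x.1, d + t * x.2)`; induction on `n` (first
letter, `sum_cn`) for functions `F` of words of pairs gives
`∑ y, (∏ i, cz z (D i, T i) (y i)) * F y = ∑ x, pw (wz z) x * F (fun i => (D i + T i * (x i).1, ..))`,
then `stab_eq`. `stab_one`: `wz 1 y = ind (y.1 = y.2) / 2`, or Parseval.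
-/

namespace Helper4.RC

open Finset

/-- The noise stability of `g`. -/
noncomputable def stab {n : ℕ} (z : ℝ) (g : (Fin n → ZMod 2) → ℝ) : ℝ :=
  ∑ χ : Fin n → ZMod 2, z ^ cnt nz χ * (fc g χ) ^ 2

private lemma sum2s (f : ZMod 2 → ℝ) : ∑ t, f t = f 0 + f 1 := Fin.sum_univ_two f

private lemma sum4s (f : ZMod 2 × ZMod 2 → ℝ) :
    ∑ y, f y = f (0, 0) + f (0, 1) + f (1, 0) + f (1, 1) := by
  rw [Fintype.sum_prod_type, sum2s, sum2s, sum2s]
  ring

private lemma sg0s : sg 0 = 1 := if_pos rfl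

private lemma sg1s : sg 1 = -1 := if_neg (by decide)

private lemma two_casess (t : ZMod 2) : t = 0 ∨ t = 1 := by
  revert t
  decide

private lemma one_nes : ¬ ((1 : ZMod 2) = 0) := by decide

private lemma zero_nes : ¬ ((0 : ZMod 2) = 1) := by decide

private lemma add11s : (1 : ZMod 2) + 1 = 0 := by decide

private lemma e2v (a b : ZMod 2) : e2 a b = sg (a * b) := rfl

private lemma fst_cn {n : ℕ} (a : ZMod 2 × ZMod 2) (y : Fin n → ZMod 2 × ZMod 2) :
    (fun i => (cn a y i).1) = cn a.1 fun i => (y i).1 := by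
  funext i
  refine Fin.cases ?_ (fun j => ?_) i
  · rfl
  · rfl

private lemma snd_cn {n : ℕ} (a : ZMod 2 × ZMod 2) (y : Fin n → ZMod 2 × ZMod 2) :
    (fun i => (cn a y i).2) = cn a.2 fun i => (y i).2 := by
  funext i
  refine Fin.cases ?_ (fun j => ?_) i
  · rfl
  · rfl

private lemma fc_cn {n : ℕ} (g : (Fin (n + 1) → ZMod 2) → ℝ) (κ : ZMod 2) (χ : Fin n → ZMod 2) :
    fc g (cn κ χ) = ∑ a, e2 κ a / 2 * fc (fun x => g (cn a x)) χ := by
  unfold fc
  rw [sum_cn]
  refine Finset.sum_congr rfl fun a _ => ?_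
  rw [Finset.mul_sum]
  refine Finset.sum_congr rfl fun y _ => ?_
  rw [mw_cn]
  ring

private lemma site_s (z : ℝ) (a b : ZMod 2) :
    ∑ κ : ZMod 2, z ^ nind (nz κ) * (e2 κ a / 2 * (e2 κ b / 2)) = wz z (a, b) := by
  have n0 : nind (nz (0 : ZMod 2)) = 0 := nind_false (fun h => h rfl)
  have n1 : nind (nz (1 : ZMod 2)) = 1 := nind_true (by unfold nz; decide)
  rw [sum2s, n0, n1]
  simp only [e2v, zero_mul, one_mul]
  rcases two_casess a with rfl | rfl <;> rcases two_casess b with rfl | rfl <;>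
    simp [wz, sg0s, sg1s] <;> ring

private lemma bil {n : ℕ} (z : ℝ) (g h : (Fin n → ZMod 2) → ℝ) :
    ∑ χ : Fin n → ZMod 2, z ^ cnt nz χ * (fc g χ * fc h χ) =
      ∑ y : Fin n → ZMod 2 × ZMod 2,
        pw (wz z) y * (g (fun i => (y i).1) * h (fun i => (y i).2)) := by
  induction n with
  | zero =>
    rw [Fintype.sum_subsingleton _ (0 : Fin 0 → ZMod 2),
      Fintype.sum_subsingleton _ (0 : Fin 0 → ZMod 2 × ZMod 2), cnt_zero]
    unfold fc
    rw [Fintype.sum_subsingleton _ (0 : Fin 0 → ZMod 2),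
      Fintype.sum_subsingleton _ (0 : Fin 0 → ZMod 2)]
    simp only [mw, pw, Finset.univ_eq_empty, Finset.prod_empty, pow_zero, one_mul]
    congr 1
  | succ n ih =>
    rw [sum_cn, sum_cn]
    have e1 : ∀ κ : ZMod 2, ∀ χ : Fin n → ZMod 2,
        z ^ cnt nz (cn κ χ) * (fc g (cn κ χ) * fc h (cn κ χ)) =
          ∑ a, ∑ b, (z ^ nind (nz κ) * (e2 κ a / 2 * (e2 κ b / 2))) *
            (z ^ cnt nz χ * (fc (fun x => g (cn a x)) χ * fc (fun x => h (cn b x)) χ)) := by
      intro κ χ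
      rw [cnt_cn, fc_cn, fc_cn, pow_add, Finset.sum_mul_sum, Finset.mul_sum]
      refine Finset.sum_congr rfl fun a _ => ?_
      rw [Finset.mul_sum]
      refine Finset.sum_congr rfl fun b _ => ?_
      ring
    have e2' : ∑ κ : ZMod 2, ∑ χ : Fin n → ZMod 2,
        z ^ cnt nz (cn κ χ) * (fc g (cn κ χ) * fc h (cn κ χ)) =
          ∑ a : ZMod 2, ∑ b : ZMod 2, wz z (a, b) *
            ∑ χ : Fin n → ZMod 2,
              z ^ cnt nz χ * (fc (fun x => g (cn a x)) χ * fc (fun x => h (cn b x)) χ) := by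
      simp only [e1, ← site_s z]
      simp only [Finset.sum_mul, Finset.mul_sum]
      calc ∑ κ : ZMod 2, ∑ χ : Fin n → ZMod 2, ∑ a, ∑ b,
            (z ^ nind (nz κ) * (e2 κ a / 2 * (e2 κ b / 2))) *
            (z ^ cnt nz χ * (fc (fun x => g (cn a x)) χ * fc (fun x => h (cn b x)) χ))
          = ∑ κ : ZMod 2, ∑ a, ∑ χ : Fin n → ZMod 2, ∑ b,
            (z ^ nind (nz κ) * (e2 κ a / 2 * (e2 κ b / 2))) *
            (z ^ cnt nz χ * (fc (fun x => g (cn a x)) χ * fc (fun x => h (cn b x)) χ)) :=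
            Finset.sum_congr rfl fun κ _ => Finset.sum_comm
        _ = ∑ κ : ZMod 2, ∑ a, ∑ b, ∑ χ : Fin n → ZMod 2,
            (z ^ nind (nz κ) * (e2 κ a / 2 * (e2 κ b / 2))) *
            (z ^ cnt nz χ * (fc (fun x => g (cn a x)) χ * fc (fun x => h (cn b x)) χ)) :=
            Finset.sum_congr rfl fun κ _ => Finset.sum_congr rfl fun a _ => Finset.sum_comm
        _ = ∑ a, ∑ κ : ZMod 2, ∑ b, ∑ χ : Fin n → ZMod 2,
            (z ^ nind (nz κ) * (e2 κ a / 2 * (e2 κ b / 2))) *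
            (z ^ cnt nz χ * (fc (fun x => g (cn a x)) χ * fc (fun x => h (cn b x)) χ)) :=
            Finset.sum_comm
        _ = _ := by
            refine Finset.sum_congr rfl fun a _ => ?_
            rw [Finset.sum_comm]
            exact Finset.sum_congr rfl fun b _ => Finset.sum_comm
    rw [e2', Fintype.sum_prod_type]
    refine Finset.sum_congr rfl fun a _ => Finset.sum_congr rfl fun b _ => ?_
    rw [ih, Finset.mul_sum]
    refine Finset.sum_congr rfl fun y _ => ?_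
    rw [pw_cn, fst_cn, snd_cn]
    ring

private lemma site_c (z : ℝ) (d t : ZMod 2) (G : ZMod 2 × ZMod 2 → ℝ) :
    ∑ a, cz z (d, t) a * G a = ∑ x, wz z x * G (d + t * x.1, d + t * x.2) := by
  rw [sum4s, sum4s]
  rcases two_casess d with rfl | rfl <;> rcases two_casess t with rfl | rfl <;>
    simp [cz, wz, add11s] <;> ring

private lemma corr {n : ℕ} (z : ℝ) (F : (Fin n → ZMod 2 × ZMod 2) → ℝ) (D T : Fin n → ZMod 2) :
    ∑ y : Fin n → ZMod 2 × ZMod 2, (∏ i, cz z (D i, T i) (y i)) * F y =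
      ∑ x : Fin n → ZMod 2 × ZMod 2,
        pw (wz z) x * F fun i => (D i + T i * (x i).1, D i + T i * (x i).2) := by
  induction n with
  | zero =>
    rw [Fintype.sum_subsingleton _ (0 : Fin 0 → ZMod 2 × ZMod 2),
      Fintype.sum_subsingleton _ (0 : Fin 0 → ZMod 2 × ZMod 2)]
    simp only [pw, Finset.univ_eq_empty, Finset.prod_empty, one_mul]
    congr 1
    funext i
    exact i.elim0
  | succ n ih =>
    rw [sum_cn, sum_cn]
    have e1 : ∀ a : ZMod 2 × ZMod 2, ∀ y : Fin n → ZMod 2 × ZMod 2,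
        (∏ i, cz z (D i, T i) (cn a y i)) * F (cn a y) =
          cz z (D 0, T 0) a * ((∏ i : Fin n, cz z (D i.succ, T i.succ) (y i)) * F (cn a y)) := by
      intro a y
      rw [Fin.prod_univ_succ]
      simp only [cn_zero, cn_succ]
      ring
    simp only [e1, ← Finset.mul_sum]
    have e3 : ∀ a : ZMod 2 × ZMod 2,
        ∑ y : Fin n → ZMod 2 × ZMod 2,
          (∏ i : Fin n, cz z (D i.succ, T i.succ) (y i)) * F (cn a y) =
        ∑ x : Fin n → ZMod 2 × ZMod 2, pw (wz z) x *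
          F (cn a fun i => (D i.succ + T i.succ * (x i).1, D i.succ + T i.succ * (x i).2)) :=
      fun a => ih (fun y => F (cn a y)) (fun i => D i.succ) (fun i => T i.succ)
    simp only [e3]
    have e4' : ∀ a : ZMod 2 × ZMod 2, ∀ x : Fin n → ZMod 2 × ZMod 2,
        (fun i => (D i + T i * (cn a x i).1, D i + T i * (cn a x i).2)) =
          cn (D 0 + T 0 * a.1, D 0 + T 0 * a.2)
            (fun i : Fin n => (D i.succ + T i.succ * (x i).1, D i.succ + T i.succ * (x i).2)) := by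
      intro a x
      funext i
      refine Fin.cases ?_ (fun j => ?_) i
      · rfl
      · rfl
    simp only [e4', pw_cn, mul_assoc, ← Finset.mul_sum]
    exact site_c z (D 0) (T 0) fun b => ∑ x : Fin n → ZMod 2 × ZMod 2, pw (wz z) x *
      F (cn b fun i => (D i.succ + T i.succ * (x i).1, D i.succ + T i.succ * (x i).2))

private lemma diag {n : ℕ} (F : (Fin n → ZMod 2 × ZMod 2) → ℝ) :
    ∑ y : Fin n → ZMod 2 × ZMod 2, pw (wz 1) y * F y =
      ∑ x : Fin n → ZMod 2, (1 / 2 : ℝ) ^ n * F fun i => (x i, x i) := by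
  induction n with
  | zero =>
    rw [Fintype.sum_subsingleton _ (0 : Fin 0 → ZMod 2 × ZMod 2),
      Fintype.sum_subsingleton _ (0 : Fin 0 → ZMod 2)]
    simp only [pw, Finset.univ_eq_empty, Finset.prod_empty, one_mul, pow_zero]
    congr 1
  | succ n ih =>
    rw [sum_cn, sum_cn]
    simp only [pw_cn, mul_assoc, ← Finset.mul_sum]
    have e3 : ∀ a : ZMod 2 × ZMod 2, ∑ y : Fin n → ZMod 2 × ZMod 2, pw (wz 1) y * F (cn a y) =
        ∑ x : Fin n → ZMod 2, (1 / 2 : ℝ) ^ n * F (cn a fun i => (x i, x i)) :=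
      fun a => ih fun y => F (cn a y)
    have e4' : ∀ a : ZMod 2, ∀ x : Fin n → ZMod 2,
        (fun i => (cn a x i, cn a x i)) = cn (a, a) (fun i : Fin n => (x i, x i)) := by
      intro a x
      funext i
      refine Fin.cases ?_ (fun j => ?_) i
      · rfl
      · rfl
    simp only [e3, e4', ← Finset.mul_sum]
    rw [sum4s, sum2s]
    have w0 : wz 1 ((0 : ZMod 2), (0 : ZMod 2)) = 1 / 2 := by norm_num [wz]
    have w1 : wz 1 ((0 : ZMod 2), (1 : ZMod 2)) = 0 := by norm_num [wz, zero_nes]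
    have w2 : wz 1 ((1 : ZMod 2), (0 : ZMod 2)) = 0 := by norm_num [wz, one_nes]
    have w3 : wz 1 ((1 : ZMod 2), (1 : ZMod 2)) = 1 / 2 := by norm_num [wz]
    rw [w0, w1, w2, w3, pow_succ]
    ring

theorem stab_eq {n : ℕ} (z : ℝ) (g : (Fin n → ZMod 2) → ℝ) :
    stab z g = ∑ y : Fin n → ZMod 2 × ZMod 2,
      pw (wz z) y * (g (fun i => (y i).1) * g (fun i => (y i).2)) := by
  rw [← bil z g g]
  unfold stab
  exact Finset.sum_congr rfl fun χ _ => by rw [sq]

theorem phi_eq_stab {n : ℕ} (z : ℝ) (g : (Fin n → ZMod 2) → ℝ) (D T : Fin n → ZMod 2) :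
    ∑ y : Fin n → ZMod 2 × ZMod 2, (∏ i, cz z (D i, T i) (y i)) *
      (g (fun i => (y i).1) * g (fun i => (y i).2)) = stab z fun x => g (D + T * x) := by
  rw [stab_eq, corr z (fun y => g (fun i => (y i).1) * g (fun i => (y i).2)) D T]
  rfl

theorem stab_one {n : ℕ} (g : (Fin n → ZMod 2) → ℝ) : stab 1 g = mean fun x => g x ^ 2 := by
  rw [stab_eq, diag fun y => g (fun i => (y i).1) * g (fun i => (y i).2)]
  unfold mean
  have hc : (Fintype.card (Fin n → ZMod 2) : ℝ) = 2 ^ n := by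
    rw [Fintype.card_fun, Fintype.card_fin, ZMod.card]
    norm_num
  rw [hc, ← Finset.mul_sum, div_eq_mul_inv _ ((2 : ℝ) ^ n), mul_comm _ ((2 : ℝ) ^ n)⁻¹, one_div,
    inv_pow]
  congr 1
  exact Finset.sum_congr rfl fun x _ => (sq (g x)).symm

end Helper4.RC
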